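import Mathlib
import Pool.Agent.Helper278.TrAlg
import Pool.Agent.Helper278.CEStmt

set_option autoImplicit false
set_option linter.unusedSectionVars false

open scoped Topology
open Filter

namespace Pool.Agent.Helper436.AD

open Pool.Agent.Helper278

universe u v

/-- star polynomials in variables indexed by `ι` -/
inductive Tm (ι : Type) : Type
  | var : ι → Tm ι
  | one : Tm ι
  | star : Tm ι → Tm ι
  | mul : Tm ι → Tm ι → Tm ι
  | add : Tm ι → Tm ι → Tm ι
  | smul : ℂ → Tm ι → Tm ι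

/-- evaluation of star polynomials -/
def Tm.ev {ι : Type} {A : Type u} [Ring A] [StarRing A] [Algebra ℂ A] (x : ι → A) : Tm ι → A
  | .var i => x i
  | .one => 1
  | .star t => Star.star (t.ev x)
  | .mul s t => s.ev x * t.ev x
  | .add s t => s.ev x + t.ev x
  | .smul c t => c • t.ev x

/-- quantifier free formulas -/
inductive Fm (ι : Type) : Type
  | n2s : Tm ι → Fm ι
  | trs : Tm ι → Fm ι
  | op : (H : ℝ → ℝ → ℝ) → Continuous (fun p : ℝ × ℝ => H p.1 p.2) → Fm ι → Fm ι → Fm ι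

/-- the square of the 2-norm -/
noncomputable def n2s {A : Type u} [Mul A] [Star A] (φ : A → ℂ) (x : A) : ℝ := (φ (star x * x)).re

/-- evaluation of formulas -/
noncomputable def Fm.ev {ι : Type} {A : Type u} [Ring A] [StarRing A] [Algebra ℂ A] (φ : A → ℂ) (x : ι → A) :
    Fm ι → ℝ
  | .n2s t => AD.n2s φ (t.ev x)
  | .trs t => ‖φ (t.ev x)‖ ^ 2
  | .op H _ f g => H (f.ev φ x) (g.ev φ x)

/-- the index set of the variables: parameters, universal variables, existential variables -/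
abbrev Ix3 : Type := Fin 13 ⊕ Fin 6 ⊕ Fin 2

/-- an assignment -/
def asg {A : Type u} (p : Fin 13 → A) (w : Fin 6 → A) (z : Fin 2 → A) : Ix3 → A :=
  Sum.elim p (Sum.elim w z)

section

variable {A : Type u} [Ring A] [StarRing A] [Algebra ℂ A]

/-- all entries are unitaries of the set `B` -/
def UU {n : ℕ} (B : Set A) (x : Fin n → A) : Prop := ∀ i, x i ∈ unitary A ∧ x i ∈ B

/-- `x F x* F*` -/
def yy (F x : A) : A := x * F * star x * star F

/-- commutator -/
def cmt (a b : A) : A := a * b - b * a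

/-- the defect of `x` -/
noncomputable def dd (φ : A → ℂ) (p : Fin 13 → A) (x : A) : ℝ :=
  n2s φ (x ^ 4 - 1) +
    (n2s φ (cmt (p 0) x) + n2s φ (cmt (p 1) x) + n2s φ (cmt (p 2) x) + n2s φ (cmt (p 3) x) +
      n2s φ (cmt (p 4) x)) +
    (n2s φ (cmt (p 5) (yy (p 11) x)) + n2s φ (cmt (p 6) (yy (p 11) x)) +
      n2s φ (cmt (p 7) (yy (p 11) x)) + n2s φ (cmt (p 8) (yy (p 11) x)) +
      n2s φ (cmt (p 9) (yy (p 11) x))) +
    n2s φ (cmt (p 10) (yy (p 11) x))

/-- conjugation -/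
def cj1 (p : Fin 13 → A) (x : A) : A := p 12 * x * star (p 12)

/-- conjugation, twice -/
def cj2 (p : Fin 13 → A) (x : A) : A := p 12 * p 12 * x * star (p 12 * p 12)

/-- `max 0` -/
noncomputable def pos (t : ℝ) : ℝ := max 0 t

/-- variance -/
noncomputable def vr (φ : A → ℂ) (w : A) : ℝ := n2s φ w - ‖φ w‖ ^ 2

/-- sum of the four last variables -/
def s4 (w : Fin 6 → A) : A := w 2 + w 3 + w 4 + w 5

/-- the matrix of the sentence: parameters `p`, universal variables `w`, existential ones `z` -/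
noncomputable def FF (K : ℝ) (φ : A → ℂ) (p : Fin 13 → A) (w : Fin 6 → A) (z : Fin 2 → A) : ℝ :=
  pos (min (n2s φ (w 0 - w 1)) (pos (1 - n2s φ (w 0 - w 1))) - K * (dd φ p (w 0) + dd φ p (w 1))) +
  dd φ p (z 0) +
  pos (n2s φ (w 0 * w 1 - z 0) - K * (dd φ p (w 0) + dd φ p (w 1))) +
  pos (min (n2s φ (w 0 * w 1 - w 1 * w 0)) (n2s φ (w 0 * w 1 + w 1 * w 0)) -
    K * (dd φ p (w 0) + dd φ p (w 1))) +
  pos (n2s φ (cmt (w 0) (cj1 p (w 1))) - K * (dd φ p (w 0) + dd φ p (w 1))) +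
  pos (n2s φ (cmt (w 0) (cj2 p (w 1))) - K * (dd φ p (w 0) + dd φ p (w 1))) +
  dd φ p (z 1) +
  pos (vr φ (s4 w) - 5 * (n2s φ (cmt (z 1) (s4 w)) + n2s φ (cmt (cj1 p (z 1)) (s4 w)) +
    n2s φ (cmt (cj2 p (z 1)) (s4 w))))

end

/-- trace of matrices -/
noncomputable def mtr {A : Type u} [AddCommMonoid A] (m : ℕ) (τ : A → ℂ)
    (x : Matrix (Fin m) (Fin m) A) : ℂ := (∑ i, τ (x i i)) / m

end Pool.Agent.Helper436.AD
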