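import Mathlib
import Pool.Agent.Helper436.AD.Base

set_option autoImplicit false
set_option linter.unusedSectionVars false

namespace Pool.Agent.Helper436.AD

open Pool.Agent.Helper278

universe u

section fFF_aux

variable {ι : Type}

/-- difference of terms -/
noncomputable def Tm.sb (s t : Tm ι) : Tm ι := .add s (.smul (-1) t)
/-- commutator of terms -/
noncomputable def Tm.cm (a b : Tm ι) : Tm ι := Tm.sb (.mul a b) (.mul b a)
/-- `yy` of terms -/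
def Tm.y (F x : Tm ι) : Tm ι := .mul (.mul (.mul x F) (.star x)) (.star F)
/-- fourth power of a term -/
def Tm.p4 (x : Tm ι) : Tm ι := .mul (.mul (.mul x x) x) x
/-- `cj1` of terms -/
def Tm.c1 (p : Fin 13 → Tm ι) (x : Tm ι) : Tm ι := .mul (.mul (p 12) x) (.star (p 12))
/-- `cj2` of terms -/
def Tm.c2 (p : Fin 13 → Tm ι) (x : Tm ι) : Tm ι :=
  .mul (.mul (.mul (p 12) (p 12)) x) (.star (.mul (p 12) (p 12)))
/-- sum of the last four -/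
def Tm.s4 (w : Fin 6 → Tm ι) : Tm ι := .add (.add (.add (w 2) (w 3)) (w 4)) (w 5)

/-- sum of formulas -/
def Fm.ad (f g : Fm ι) : Fm ι := .op (fun a b => a + b) (by fun_prop) f g
/-- difference of formulas -/
def Fm.sb (f g : Fm ι) : Fm ι := .op (fun a b => a - b) (by fun_prop) f g
/-- minimum of formulas -/
noncomputable def Fm.mn (f g : Fm ι) : Fm ι := .op (fun a b => min a b) (by fun_prop) f g
/-- positive part of a formula -/
noncomputable def Fm.po (f : Fm ι) : Fm ι := .op (fun a _ => max 0 a) (by fun_prop) f f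
/-- multiple of a formula -/
def Fm.sc (K : ℝ) (f : Fm ι) : Fm ι := .op (fun a _ => K * a) (by fun_prop) f f
/-- constant minus a formula -/
def Fm.cs (K : ℝ) (f : Fm ι) : Fm ι := .op (fun a _ => K - a) (by fun_prop) f f
/-- variance formula -/
noncomputable def Fm.vr (t : Tm ι) : Fm ι := Fm.sb (.n2s t) (.trs t)

/-- the defect formula -/
noncomputable def Fm.dd (p : Fin 13 → Tm ι) (x : Tm ι) : Fm ι :=
  .ad (.ad (.ad (.n2s (.sb (.p4 x) .one))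
    (.ad (.ad (.ad (.ad (.n2s (.cm (p 0) x)) (.n2s (.cm (p 1) x))) (.n2s (.cm (p 2) x)))
      (.n2s (.cm (p 3) x))) (.n2s (.cm (p 4) x))))
    (.ad (.ad (.ad (.ad (.n2s (.cm (p 5) (.y (p 11) x))) (.n2s (.cm (p 6) (.y (p 11) x))))
      (.n2s (.cm (p 7) (.y (p 11) x)))) (.n2s (.cm (p 8) (.y (p 11) x))))
      (.n2s (.cm (p 9) (.y (p 11) x)))))
    (.n2s (.cm (p 10) (.y (p 11) x)))

/-- the matrix formula, with terms for the variables -/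
noncomputable def Fm.FF (K : ℝ) (p : Fin 13 → Tm ι) (w : Fin 6 → Tm ι) (z : Fin 2 → Tm ι) :
    Fm ι :=
  .ad (.ad (.ad (.ad (.ad (.ad (.ad
    (.po (.sb (.mn (.n2s (.sb (w 0) (w 1))) (.po (.cs 1 (.n2s (.sb (w 0) (w 1))))))
      (.sc K (.ad (.dd p (w 0)) (.dd p (w 1))))))
    (.dd p (z 0)))
    (.po (.sb (.n2s (.sb (.mul (w 0) (w 1)) (z 0))) (.sc K (.ad (.dd p (w 0)) (.dd p (w 1)))))))
    (.po (.sb (.mn (.n2s (.sb (.mul (w 0) (w 1)) (.mul (w 1) (w 0))))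
      (.n2s (.add (.mul (w 0) (w 1)) (.mul (w 1) (w 0)))))
      (.sc K (.ad (.dd p (w 0)) (.dd p (w 1)))))))
    (.po (.sb (.n2s (.cm (w 0) (.c1 p (w 1)))) (.sc K (.ad (.dd p (w 0)) (.dd p (w 1)))))))
    (.po (.sb (.n2s (.cm (w 0) (.c2 p (w 1)))) (.sc K (.ad (.dd p (w 0)) (.dd p (w 1)))))))
    (.dd p (z 1)))
    (.po (.sb (.vr (.s4 w)) (.sc 5 (.ad (.ad (.n2s (.cm (z 1) (.s4 w)))
      (.n2s (.cm (.c1 p (z 1)) (.s4 w)))) (.n2s (.cm (.c2 p (z 1)) (.s4 w)))))))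

section ev

variable {A : Type u} [Ring A] [StarRing A] [Algebra ℂ A] (φ : A → ℂ) (v : ι → A)

theorem Tm.ev_one : (Tm.one : Tm ι).ev v = 1 := rfl
theorem Tm.ev_star (a : Tm ι) : (Tm.star a).ev v = Star.star (a.ev v) := rfl
theorem Tm.ev_mul (a b : Tm ι) : (Tm.mul a b).ev v = a.ev v * b.ev v := rfl
theorem Tm.ev_add (a b : Tm ι) : (Tm.add a b).ev v = a.ev v + b.ev v := rfl
theorem Tm.ev_sb (a b : Tm ι) : (Tm.sb a b).ev v = a.ev v - b.ev v := by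
  show a.ev v + (-1 : ℂ) • b.ev v = a.ev v - b.ev v
  rw [neg_one_smul, ← sub_eq_add_neg]
theorem Tm.ev_cm (a b : Tm ι) : (Tm.cm a b).ev v = cmt (a.ev v) (b.ev v) := by
  rw [Tm.cm, Tm.ev_sb]; rfl
theorem Tm.ev_y (a b : Tm ι) : (Tm.y a b).ev v = yy (a.ev v) (b.ev v) := rfl
theorem Tm.ev_p4 (a : Tm ι) : (Tm.p4 a).ev v = a.ev v ^ 4 := by
  show a.ev v * a.ev v * a.ev v * a.ev v = a.ev v ^ 4
  simp only [pow_succ, pow_zero, one_mul]
theorem Tm.ev_c1 (p : Fin 13 → Tm ι) (x : Tm ι) :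
    (Tm.c1 p x).ev v = cj1 (fun i => (p i).ev v) (x.ev v) := rfl
theorem Tm.ev_c2 (p : Fin 13 → Tm ι) (x : Tm ι) :
    (Tm.c2 p x).ev v = cj2 (fun i => (p i).ev v) (x.ev v) := rfl
theorem Tm.ev_s4 (w : Fin 6 → Tm ι) : (Tm.s4 w).ev v = AD.s4 (fun i => (w i).ev v) := rfl

theorem Fm.ev_n2s (a : Tm ι) : (Fm.n2s a).ev φ v = AD.n2s φ (a.ev v) := rfl
theorem Fm.ev_ad (f g : Fm ι) : (Fm.ad f g).ev φ v = f.ev φ v + g.ev φ v := rfl
theorem Fm.ev_sb (f g : Fm ι) : (Fm.sb f g).ev φ v = f.ev φ v - g.ev φ v := rfl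
theorem Fm.ev_mn (f g : Fm ι) : (Fm.mn f g).ev φ v = min (f.ev φ v) (g.ev φ v) := rfl
theorem Fm.ev_po (f : Fm ι) : (Fm.po f).ev φ v = pos (f.ev φ v) := rfl
theorem Fm.ev_sc (K : ℝ) (f : Fm ι) : (Fm.sc K f).ev φ v = K * f.ev φ v := rfl
theorem Fm.ev_cs (K : ℝ) (f : Fm ι) : (Fm.cs K f).ev φ v = K - f.ev φ v := rfl
theorem Fm.ev_vr (a : Tm ι) : (Fm.vr a).ev φ v = AD.vr φ (a.ev v) := rfl

theorem Fm.ev_dd (p : Fin 13 → Tm ι) (x : Tm ι) :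
    (Fm.dd p x).ev φ v = AD.dd φ (fun i => (p i).ev v) (x.ev v) := by
  simp only [Fm.dd, AD.dd, Fm.ev_ad, Fm.ev_n2s, Tm.ev_cm, Tm.ev_y, Tm.ev_sb, Tm.ev_p4, Tm.ev_one]

theorem Fm.ev_FF (K : ℝ) (p : Fin 13 → Tm ι) (w : Fin 6 → Tm ι) (z : Fin 2 → Tm ι) :
    (Fm.FF K p w z).ev φ v = AD.FF K φ (fun i => (p i).ev v) (fun i => (w i).ev v)
      (fun i => (z i).ev v) := by
  simp only [Fm.FF, AD.FF, Fm.ev_ad, Fm.ev_n2s, Tm.ev_cm, Tm.ev_sb, Fm.ev_sb, Fm.ev_mn, Fm.ev_po,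
    Fm.ev_sc, Fm.ev_cs, Fm.ev_vr, Fm.ev_dd, Tm.ev_c1, Tm.ev_c2, Tm.ev_s4, Tm.ev_mul, Tm.ev_add]

end ev

end fFF_aux

/-- the formula whose evaluation is `FF` -/
noncomputable def fFF (K : ℝ) : Fm Ix3 :=
  Fm.FF K (fun i => .var (Sum.inl i)) (fun i => .var (Sum.inr (Sum.inl i)))
    (fun i => .var (Sum.inr (Sum.inr i)))

theorem fFF_ev (K : ℝ) {A : Type u} [Ring A] [StarRing A] [Algebra ℂ A] (φ : A → ℂ)
    (p : Fin 13 → A) (w : Fin 6 → A) (z : Fin 2 → A) :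
    (fFF K).ev φ (asg p w z) = FF K φ p w z := by
  rw [fFF, Fm.ev_FF]
  rfl

end Pool.Agent.Helper436.AD
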