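import Mathlib
import Pool.Agent.Helper436.AD.Base

set_option autoImplicit false
set_option linter.unusedSectionVars false

open scoped Topology
open Filter

namespace Pool.Agent.Helper436.AD

open Pool.Agent.Helper278

universe u v

/-- The sentence with matrix `f` has value at most `r`, quantifiers over the unitaries in `B`. -/
def SatOn {A : Type u} [Ring A] [StarRing A] [Algebra ℂ A] (B : Set A) (f : Fm Ix3) (φ : A → ℂ)
    (r : ℝ) : Prop :=
  ∃ p : Fin 13 → A, UU B p ∧ ∀ w : Fin 6 → A, UU B w →
    ∃ z : Fin 2 → A, UU B z ∧ f.ev φ (asg p w z) ≤ r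

/-- The sentence with matrix `f` has value at most `r`. -/
def Sat {A : Type u} [Ring A] [StarRing A] [Algebra ℂ A] (f : Fm Ix3) (φ : A → ℂ)
    (r : ℝ) : Prop := SatOn Set.univ f φ r

end Pool.Agent.Helper436.AD
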