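import Mathlib
import Pool.Agent.Helper278.DefsG
import Pool.Agent.Helper278.CEStmt
import Pool.Agent.Helper436.SM.Stmt
import Pool.Agent.Helper436.SN.StmtG

set_option autoImplicit false

open scoped TensorProduct

namespace Pool.Agent.Helper436.AD

open Pool.Agent.Helper278 Pool.Agent.Helper436.SM Pool.Agent.Helper436.SN

universe w

/-- The von Neumann tensor product of von Neumann algebras `N` on `H` and `M` on `K`: it acts on the
Hilbert space tensor product `H ⊗ K` (the completion of the algebraic tensor product) and is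
generated by the operators `x ⊗ y : h ⊗ k ↦ x h ⊗ y k` with `x ∈ N` and `y ∈ M`. -/
noncomputable def tensorVN {H K : Type} [NormedAddCommGroup H] [InnerProductSpace ℂ H]
    [CompleteSpace H] [NormedAddCommGroup K] [InnerProductSpace ℂ K] [CompleteSpace K]
    (N : VonNeumannAlgebra H) (M : VonNeumannAlgebra K) :
    VonNeumannAlgebra (UniformSpace.Completion (H ⊗[ℂ] K)) :=
  vnGen {T | ∃ x ∈ N, ∃ y ∈ M, ∀ (h : H) (k : K),
    T ((h ⊗ₜ[ℂ] k : H ⊗[ℂ] K) : UniformSpace.Completion (H ⊗[ℂ] K)) =
      ((x h ⊗ₜ[ℂ] y k : H ⊗[ℂ] K) : UniformSpace.Completion (H ⊗[ℂ] K))}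

/-- A separable II₁ factor: a von Neumann algebra on a Hilbert space, with its trace. -/
structure SepFactor : Type 1 where
  /-- the Hilbert space -/
  H : Type
  [nacg : NormedAddCommGroup H]
  [ips : InnerProductSpace ℂ H]
  [cs : CompleteSpace H]
  /-- the von Neumann algebra -/
  alg : VonNeumannAlgebra H
  /-- its trace -/
  tr : Elt alg → ℂ
  factor : IsIIOneFactor alg tr
  separable : IsSeparable tr

attribute [instance] SepFactor.nacg SepFactor.ips SepFactor.cs

/-- The tracial ultrapower `N^U` of a separable II₁ factor `N`, as a von Neumann algebra on a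
Hilbert space: the bounded sequences in `N` modulo those with `lim_U τ(x_n* x_n) = 0`. -/
structure UltraPow (U : Ultrafilter ℕ) (N : SepFactor) : Type 1 where
  /-- the Hilbert space -/
  K : Type
  [nacg : NormedAddCommGroup K]
  [ips : InnerProductSpace ℂ K]
  [cs : CompleteSpace K]
  /-- the von Neumann algebra -/
  alg : VonNeumannAlgebra K
  /-- the quotient map -/
  quo : (ℕ → Elt N.alg) → Elt alg
  /-- the trace -/
  tr : Elt alg → ℂ
  isUltrapower : CE.IsTracialUltrapower N.tr U quo tr

attribute [instance] UltraPow.nacg UltraPow.ips UltraPow.cs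

/-- `N₁^U ⊗ N₂^U` and `M₁^U ⊗ M₂^U` are isomorphic star algebras. -/
def TensorIso (U : Ultrafilter ℕ) (N₁ N₂ M₁ M₂ : SepFactor) : Prop :=
  ∃ (P₁ : UltraPow U N₁) (P₂ : UltraPow U N₂) (Q₁ : UltraPow U M₁) (Q₂ : UltraPow U M₂),
    Nonempty (Elt (tensorVN P₁.alg P₂.alg) ≃⋆ₐ[ℂ] Elt (tensorVN Q₁.alg Q₂.alg))

/-- `N` and `M` are elementarily equivalent: for some ultrafilters `U`, `V` (on some index sets) the
tracial ultrapowers `N^U` and `M^V` are isomorphic star algebras. -/
def Equivalent (N M : SepFactor) : Prop := ElemEquiv.{w} N.tr M.tr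

end Pool.Agent.Helper436.AD
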