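import Mathlib
import Pool.Agent.Helper278.DefsG
import Pool.Agent.Helper278.CEStmt
import Pool.Agent.Helper436.SN.StmtG
import Pool.Agent.Helper436.AD.Base
import Pool.Agent.Helper436.AD.StmtT

set_option autoImplicit false
set_option linter.unusedSectionVars false

open scoped TensorProduct

namespace Pool.Agent.Helper436.AD

open Pool.Agent.Helper278 Pool.Agent.Helper436.SM Pool.Agent.Helper436.SN

/-- the Hilbert space `H ⊕ ... ⊕ H` (`m` summands) -/
abbrev Dir (m : ℕ) (H : Type) : Type := PiLp 2 (fun _ : Fin m => H)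

section

variable {H : Type} [NormedAddCommGroup H] [InnerProductSpace ℂ H] [CompleteSpace H]

/-- `M` is the algebra `M_m(N)` acting on `H ⊕ ... ⊕ H` by matrix multiplication. -/
def IsAmp (m : ℕ) (N : VonNeumannAlgebra H) (M : VonNeumannAlgebra (Dir m H))
    (e : Matrix (Fin m) (Fin m) (Elt N) ≃⋆ₐ[ℂ] Elt M) : Prop :=
  ∀ (x : Matrix (Fin m) (Fin m) (Elt N)) (h : Dir m H) (i : Fin m),
    ((e x : Dir m H →L[ℂ] Dir m H) h) i = ∑ j, ((x i j : Elt N) : H →L[ℂ] H) (h j)

/-- the trace of the amplification -/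
noncomputable def ampTr {m : ℕ} {N : VonNeumannAlgebra H} {M : VonNeumannAlgebra (Dir m H)}
    (e : Matrix (Fin m) (Fin m) (Elt N) ≃⋆ₐ[ℂ] Elt M) (τ : Elt N → ℂ) (y : Elt M) : ℂ :=
  mtr m τ (e.symm y)

end

end Pool.Agent.Helper436.AD
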