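import Mathlib
import Pool.Agent.Helper436.AD.Amp

set_option autoImplicit false
set_option linter.unusedSectionVars false

open scoped Topology
open Filter

namespace Pool.Agent.Helper436.AD

open Pool.Agent.Helper278 Pool.Agent.Helper436.SM Pool.Agent.Helper436.SN

variable {H K : Type} [NormedAddCommGroup H] [InnerProductSpace ℂ H] [CompleteSpace H]
  [NormedAddCommGroup K] [InnerProductSpace ℂ K] [CompleteSpace K]

theorem amp_ultra_entry {m : ℕ} {N : VonNeumannAlgebra H} {M : VonNeumannAlgebra (Dir m H)}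
    {e : Matrix (Fin m) (Fin m) (Elt N) ≃⋆ₐ[ℂ] Elt M} (he : IsAmp m N M e)
    (x : Matrix (Fin m) (Fin m) (Elt N)) (i j : Fin m) : ‖x i j‖ ≤ ‖e x‖ := by
  show ‖((x i j : Elt N) : H →L[ℂ] H)‖ ≤ ‖((e x : Elt M) : Dir m H →L[ℂ] Dir m H)‖
  refine ContinuousLinearMap.opNorm_le_bound _ (norm_nonneg _) fun h => ?_
  have h1 := he x (WithLp.toLp 2 (Pi.single j h)) i
  have h2 : ∑ k, ((x i k : Elt N) : H →L[ℂ] H)
      ((WithLp.toLp 2 (Pi.single j h) : Dir m H) k) = ((x i j : Elt N) : H →L[ℂ] H) h := by
    rw [Finset.sum_eq_single j]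
    · simp
    · intro k _ hk
      simp [Pi.single_eq_of_ne hk]
    · simp
  rw [h2] at h1
  rw [← h1]
  refine (PiLp.norm_apply_le _ _).trans ?_
  refine (ContinuousLinearMap.le_opNorm _ _).trans (le_of_eq ?_)
  rw [PiLp.norm_toLp_single]

theorem amp_ultra_l1 {m : ℕ} (v : Dir m H) : ‖v‖ ≤ ∑ i, ‖v i‖ := by
  rw [PiLp.norm_eq_of_L2, Real.sqrt_le_iff]
  exact ⟨Finset.sum_nonneg fun i _ => norm_nonneg _,
    Finset.sum_sq_le_sq_sum_of_nonneg fun i _ => norm_nonneg _⟩

theorem amp_ultra_norm {m : ℕ} {N : VonNeumannAlgebra H} {M : VonNeumannAlgebra (Dir m H)}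
    {e : Matrix (Fin m) (Fin m) (Elt N) ≃⋆ₐ[ℂ] Elt M} (he : IsAmp m N M e)
    (x : Matrix (Fin m) (Fin m) (Elt N)) : ‖e x‖ ≤ ∑ i, ∑ j, ‖x i j‖ := by
  show ‖((e x : Elt M) : Dir m H →L[ℂ] Dir m H)‖ ≤ _
  refine ContinuousLinearMap.opNorm_le_bound _
    (Finset.sum_nonneg fun i _ => Finset.sum_nonneg fun j _ => norm_nonneg _) fun h => ?_
  refine (amp_ultra_l1 _).trans ?_
  rw [Finset.sum_mul]
  refine Finset.sum_le_sum fun i _ => ?_
  rw [he x h i, Finset.sum_mul]
  refine (norm_sum_le _ _).trans (Finset.sum_le_sum fun j _ => ?_)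
  refine (ContinuousLinearMap.le_opNorm _ _).trans ?_
  exact mul_le_mul_of_nonneg_left (PiLp.norm_apply_le h j) (norm_nonneg _)

section quot

variable {A : Type} {Q : Type} [NormedRing A] [StarRing A]
    [NormedAlgebra ℂ A] [Ring Q] [StarRing Q] [Algebra ℂ Q] {Null : (ℕ → A) → Prop}
    {π : (ℕ → A) → Q}

theorem amp_ultra_bmul {x y : ℕ → A} (hx : CE.BddFam x) (hy : CE.BddFam y) :
    CE.BddFam (fun n => x n * y n) := by
  obtain ⟨C, hC⟩ := hx
  obtain ⟨D, hD⟩ := hy
  refine ⟨C * D, fun n => (norm_mul_le _ _).trans ?_⟩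
  exact mul_le_mul (hC n) (hD n) (norm_nonneg _) ((norm_nonneg _).trans (hC n))

theorem amp_ultra_zero (hq : CE.IsQuot Null π) : π (fun _ => 0) = 0 := by
  have h := hq.smul 0 (fun _ => 0) ⟨0, fun n => by simp⟩
  simpa using h

theorem amp_ultra_sum (hq : CE.IsQuot Null π) {ι : Type} (s : Finset ι) (x : ι → ℕ → A)
    (hx : ∀ i, CE.BddFam (x i)) : CE.BddFam (fun n => ∑ i ∈ s, x i n) ∧
      π (fun n => ∑ i ∈ s, x i n) = ∑ i ∈ s, π (x i) := by
  classical
  induction s using Finset.induction_on with
  | empty =>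
    constructor
    · exact ⟨0, fun n => by simp⟩
    · simp only [Finset.sum_empty]
      exact amp_ultra_zero hq
  | insert a s ha ih =>
    constructor
    · obtain ⟨C, hC⟩ := hx a
      obtain ⟨D, hD⟩ := ih.1
      refine ⟨C + D, fun n => ?_⟩
      show ‖∑ i ∈ insert a s, x i n‖ ≤ C + D
      rw [Finset.sum_insert ha]
      exact (norm_add_le _ _).trans (add_le_add (hC n) (hD n))
    · simp only [Finset.sum_insert ha]
      rw [hq.add _ _ (hx a) ih.1, ih.2]

end quot

/-- JOB: the ultrapower of the amplification is the amplification of the ultrapower. -/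
theorem amp_ultra {m : ℕ} (hm : 1 ≤ m) {N : VonNeumannAlgebra H} {τ : Elt N → ℂ}
    (h : IsIIOneFactor N τ) {M : VonNeumannAlgebra (Dir m H)}
    {e : Matrix (Fin m) (Fin m) (Elt N) ≃⋆ₐ[ℂ] Elt M} (he : IsAmp m N M e)
    {U : Ultrafilter ℕ} {Q : VonNeumannAlgebra K} {π : (ℕ → Elt N) → Elt Q} {φ : Elt Q → ℂ}
    (hπ : CE.IsTracialUltrapower τ U π φ) {P : VonNeumannAlgebra (Dir m K)}
    {f : Matrix (Fin m) (Fin m) (Elt Q) ≃⋆ₐ[ℂ] Elt P} (hf : IsAmp m Q P f) :
    CE.IsTracialUltrapower (ampTr e τ) U
      (fun y => f (Matrix.of fun i j => π fun n => (e.symm (y n)) i j)) (ampTr f φ) := by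
  have hq := hπ.quot
  have hm0 : (0 : ℝ) < m := by exact_mod_cast hm
  have hbe : ∀ y : ℕ → Elt M, CE.BddFam y → ∀ i j, CE.BddFam (fun n => (e.symm (y n)) i j) := by
    rintro y ⟨C, hC⟩ i j
    refine ⟨C, fun n => ?_⟩
    have h1 := amp_ultra_entry he (e.symm (y n)) i j
    rw [e.apply_symm_apply] at h1
    exact h1.trans (hC n)
  -- the trace of a square
  have htr : ∀ y : Elt M, ampTr e τ (star y * y) =
      ((∑ i, ∑ k, (τ (star ((e.symm y) k i) * (e.symm y) k i)).re) / m : ℝ) := by
    intro y
    have hT := trAlg (mkState N τ h.normal h.trace)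
    unfold ampTr mtr
    rw [map_mul, map_star]
    rw [Complex.ofReal_div, Complex.ofReal_sum]
    congr 1
    refine Finset.sum_congr rfl fun i _ => ?_
    rw [Matrix.mul_apply, Complex.ofReal_sum]
    have h1 : τ (∑ k, (star (e.symm y)) i k * (e.symm y) k i) =
        ∑ k, τ ((star (e.symm y)) i k * (e.symm y) k i) :=
      map_sum (mkState N τ h.normal h.trace).τ _ _
    rw [h1]
    refine Finset.sum_congr rfl fun k _ => ?_
    rw [Matrix.star_apply]
    refine Complex.ext ?_ ?_
    · rw [Complex.ofReal_re]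
    · rw [Complex.ofReal_im]
      exact hT.im_zero _
  refine ⟨⟨?_, ?_, ?_, ?_, ?_, ?_, ?_⟩, ?_⟩
  · have : (Matrix.of fun i j => π fun _ => (e.symm (1 : Elt M)) i j) =
        (1 : Matrix (Fin m) (Fin m) (Elt Q)) := by
      ext1 i j
      rw [Matrix.of_apply, map_one]
      by_cases hij : i = j
      · subst hij
        simp only [Matrix.one_apply_eq]
        exact hq.one
      · simp only [Matrix.one_apply_ne hij]
        exact amp_ultra_zero hq
    show f _ = 1
    rw [this, map_one]
  · intro x y hx hy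
    show f _ = f _ + f _
    rw [← map_add]
    congr 1
    ext1 i j
    simp only [Matrix.of_apply, Matrix.add_apply, map_add]
    exact hq.add _ _ (hbe x hx i j) (hbe y hy i j)
  · intro x y hx hy
    show f _ = f _ * f _
    rw [← map_mul]
    congr 1
    ext1 i j
    simp only [Matrix.of_apply, map_mul, Matrix.mul_apply]
    rw [(amp_ultra_sum hq Finset.univ
      (fun k n => (e.symm (x n)) i k * (e.symm (y n)) k j)
      (fun k => amp_ultra_bmul (hbe x hx i k) (hbe y hy k j))).2]
    refine Finset.sum_congr rfl fun k _ => ?_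
    exact hq.mul _ _ (hbe x hx i k) (hbe y hy k j)
  · intro c x hx
    show f _ = c • f _
    rw [← map_smul]
    congr 1
    ext1 i j
    simp only [Matrix.of_apply, map_smul, Matrix.smul_apply]
    exact hq.smul c _ (hbe x hx i j)
  · intro x hx
    show f _ = star (f _)
    rw [← map_star]
    congr 1
    ext1 i j
    simp only [Matrix.of_apply, map_star, Matrix.star_apply]
    exact hq.star _ (hbe x hx j i)
  · intro q
    choose x hx1 hx2 using fun i j => hq.surj ((f.symm q) i j)
    refine ⟨fun n => e (Matrix.of fun i j => x i j n), ?_, ?_⟩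
    · choose C hC using hx1
      refine ⟨∑ i, ∑ j, C i j, fun n => (amp_ultra_norm he _).trans ?_⟩
      exact Finset.sum_le_sum fun i _ => Finset.sum_le_sum fun j _ => hC i j n
    · have : (Matrix.of fun i j => π fun n =>
          (e.symm (e (Matrix.of fun i j => x i j n))) i j) = f.symm q := by
        ext1 i j
        simp only [Matrix.of_apply, e.symm_apply_apply]
        exact hx2 i j
      show f _ = q
      rw [this, f.apply_symm_apply]
  · intro y hy
    have h1 : f (Matrix.of fun i j => π fun n => (e.symm (y n)) i j) = 0 ↔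
        ∀ i j, (π fun n => (e.symm (y n)) i j) = 0 := by
      rw [EmbeddingLike.map_eq_zero_iff]
      constructor
      · intro h i j
        exact congrFun (congrFun h i) j
      · intro h
        ext1 i j
        exact h i j
    rw [h1]
    have h2 : ∀ i j, ((π fun n => (e.symm (y n)) i j) = 0 ↔
        Tendsto (fun n => τ (star ((e.symm (y n)) i j) * (e.symm (y n)) i j)) U (𝓝 0)) :=
      fun i j => hq.ker _ (hbe y hy i j)
    have hT := trAlg (mkState N τ h.normal h.trace)
    have hre : ∀ a : Elt N, 0 ≤ (τ (star a * a)).re := fun a => hT.re_nonneg a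
    have him : ∀ a : Elt N, (τ (star a * a)).im = 0 := fun a => hT.im_zero a
    constructor
    · intro h3
      have h4 : ∀ i j, Tendsto (fun n => (τ (star ((e.symm (y n)) i j) *
          (e.symm (y n)) i j)).re) U (𝓝 0) := by
        intro i j
        have := (Complex.continuous_re.tendsto 0).comp ((h2 i j).1 (h3 i j))
        rw [Complex.zero_re] at this
        exact this
      have h5 : Tendsto (fun n => (∑ i, ∑ k, (τ (star ((e.symm (y n)) k i) *
          (e.symm (y n)) k i)).re) / (m : ℝ)) U (𝓝 0) := by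
        have h6 := tendsto_finsetSum (Finset.univ : Finset (Fin m)) fun i _ =>
          tendsto_finsetSum (Finset.univ : Finset (Fin m)) fun k _ => h4 k i
        have h7 := h6.div_const (m : ℝ)
        simpa using h7
      have h8 := (Complex.continuous_ofReal.tendsto 0).comp h5
      rw [Complex.ofReal_zero] at h8
      refine h8.congr fun n => ?_
      rw [htr]
      rfl
    · intro h3 i j
      rw [h2]
      have h4 : Tendsto (fun n => (m : ℝ) * ‖ampTr e τ (star (y n) * y n)‖) U (𝓝 0) := by
        have := (h3.norm).const_mul (m : ℝ)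
        simpa using this
      refine squeeze_zero_norm (fun n => ?_) h4
      rw [htr, Complex.norm_real, Real.norm_eq_abs]
      have h5 : 0 ≤ ∑ i, ∑ k, (τ (star ((e.symm (y n)) k i) * (e.symm (y n)) k i)).re :=
        Finset.sum_nonneg fun i _ => Finset.sum_nonneg fun k _ => hre _
      rw [abs_of_nonneg (div_nonneg h5 hm0.le), mul_div_cancel₀ _ hm0.ne']
      have h6 : ‖τ (star ((e.symm (y n)) i j) * (e.symm (y n)) i j)‖ =
          (τ (star ((e.symm (y n)) i j) * (e.symm (y n)) i j)).re := by
        have e1 : τ (star ((e.symm (y n)) i j) * (e.symm (y n)) i j) =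
            ((τ (star ((e.symm (y n)) i j) * (e.symm (y n)) i j)).re : ℂ) := by
          refine Complex.ext ?_ ?_
          · rw [Complex.ofReal_re]
          · rw [Complex.ofReal_im]
            exact him _
        rw [e1, Complex.norm_real, Real.norm_eq_abs, Complex.ofReal_re]
        exact abs_of_nonneg (hre _)
      rw [h6]
      refine le_trans ?_ (Finset.single_le_sum
        (f := fun i => ∑ k, (τ (star ((e.symm (y n)) k i) * (e.symm (y n)) k i)).re)
        (fun i _ => Finset.sum_nonneg fun k _ => hre _) (Finset.mem_univ j))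
      exact Finset.single_le_sum
        (f := fun k => (τ (star ((e.symm (y n)) k j) * (e.symm (y n)) k j)).re)
        (fun k _ => hre _) (Finset.mem_univ i)
  · intro y hy
    have h1 : ampTr f φ (f (Matrix.of fun i j => π fun n => (e.symm (y n)) i j)) =
        (∑ i, φ (π fun n => (e.symm (y n)) i i)) / m := by
      unfold ampTr mtr
      rw [f.symm_apply_apply]
      rfl
    rw [h1]
    unfold ampTr mtr
    exact (tendsto_finsetSum (Finset.univ : Finset (Fin m)) fun i _ =>
      hπ.trace _ (hbe y hy i i)).div_const _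

end Pool.Agent.Helper436.AD
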