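import Mathlib
import Pool.Agent.Helper436.AD.Amp

set_option autoImplicit false
set_option linter.unusedSectionVars false

namespace Pool.Agent.Helper436.AD

open Pool.Agent.Helper278 Pool.Agent.Helper436.SM Pool.Agent.Helper436.SN

variable {H : Type} [NormedAddCommGroup H] [InnerProductSpace ℂ H] [CompleteSpace H]

/-- the operator of a matrix of operators -/
noncomputable def opM {m : ℕ} (x : Fin m → Fin m → H →L[ℂ] H) : Dir m H →L[ℂ] Dir m H :=
  ((PiLp.continuousLinearEquiv 2 ℂ (fun _ : Fin m => H)).symm : (Fin m → H) →L[ℂ] Dir m H) ∘L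
    (ContinuousLinearMap.pi fun i => ∑ j, (x i j) ∘L PiLp.proj 2 (fun _ : Fin m => H) j)

theorem opM_apply {m : ℕ} (x : Fin m → Fin m → H →L[ℂ] H) (h : Dir m H) (i : Fin m) :
    (opM x h) i = ∑ j, x i j (h j) := by
  simp [opM]

/-- inclusion of a summand -/
noncomputable def incl (m : ℕ) (j : Fin m) : H →L[ℂ] Dir m H :=
  ((PiLp.continuousLinearEquiv 2 ℂ (fun _ : Fin m => H)).symm : (Fin m → H) →L[ℂ] Dir m H) ∘L
    (ContinuousLinearMap.single ℂ (fun _ : Fin m => H) j)

theorem incl_apply (m : ℕ) (j : Fin m) (v : H) (i : Fin m) :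
    (incl m j v : Dir m H) i = if i = j then v else 0 := by
  simp [incl]

theorem sum_incl (m : ℕ) (h : Dir m H) : h = ∑ j, incl m j (h j) := by
  ext i
  simp [incl_apply]

/-- entries -/
noncomputable def ent {m : ℕ} (T : Dir m H →L[ℂ] Dir m H) (i j : Fin m) : H →L[ℂ] H :=
  (PiLp.proj 2 (fun _ : Fin m => H) i : Dir m H →L[ℂ] H) ∘L T ∘L incl m j

theorem ent_apply {m : ℕ} (T : Dir m H →L[ℂ] Dir m H) (i j : Fin m) (v : H) :
    ent T i j v = (T (incl m j v)) i := rfl

theorem opM_ent {m : ℕ} (T : Dir m H →L[ℂ] Dir m H) : opM (ent T) = T := by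
  ext h i
  rw [opM_apply]
  conv_rhs => rw [sum_incl m h, map_sum]
  simp [ent_apply]

theorem ent_opM {m : ℕ} (x : Fin m → Fin m → H →L[ℂ] H) : ent (opM x) = x := by
  funext i j
  ext v
  rw [ent_apply, opM_apply]
  simp [incl_apply, apply_ite]

theorem opM_inj {m : ℕ} {x y : Fin m → Fin m → H →L[ℂ] H} (h : opM x = opM y) : x = y := by
  rw [← ent_opM x, h, ent_opM]

theorem opM_mul {m : ℕ} (x y : Fin m → Fin m → H →L[ℂ] H) :
    opM x * opM y = opM (fun i j => ∑ k, x i k * y k j) := by
  ext h i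
  show (opM x (opM y h)) i = _
  rw [opM_apply, opM_apply]
  simp only [opM_apply, map_sum, sum_apply]
  rw [Finset.sum_comm]
  rfl

theorem opM_add {m : ℕ} (x y : Fin m → Fin m → H →L[ℂ] H) :
    opM x + opM y = opM (fun i j => x i j + y i j) := by
  ext h i
  show (opM x h + opM y h) i = _
  rw [opM_apply]
  show (opM x h) i + (opM y h) i = _
  rw [opM_apply, opM_apply, ← Finset.sum_add_distrib]
  rfl

theorem opM_star {m : ℕ} (x : Fin m → Fin m → H →L[ℂ] H) :
    star (opM x) = opM (fun i j => star (x j i)) := by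
  rw [ContinuousLinearMap.star_eq_adjoint]
  symm
  rw [ContinuousLinearMap.eq_adjoint_iff]
  intro h k
  rw [PiLp.inner_apply, PiLp.inner_apply]
  simp only [opM_apply, sum_inner, inner_sum]
  rw [Finset.sum_comm]
  refine Finset.sum_congr rfl fun i _ => Finset.sum_congr rfl fun j _ => ?_
  rw [ContinuousLinearMap.star_eq_adjoint, ContinuousLinearMap.adjoint_inner_left]

/-- diagonal operators -/
noncomputable def dg (m : ℕ) (c : H →L[ℂ] H) : Dir m H →L[ℂ] Dir m H :=
  opM (fun i j => if i = j then c else 0)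

theorem dg_mul (m : ℕ) (c : H →L[ℂ] H) (x : Fin m → Fin m → H →L[ℂ] H) :
    dg m c * opM x = opM (fun i j => c * x i j) := by
  rw [dg, opM_mul]
  congr 1
  funext i j
  simp

theorem mul_dg (m : ℕ) (c : H →L[ℂ] H) (x : Fin m → Fin m → H →L[ℂ] H) :
    opM x * dg m c = opM (fun i j => x i j * c) := by
  rw [dg, opM_mul]
  congr 1
  funext i j
  simp

theorem star_dg (m : ℕ) (c : H →L[ℂ] H) : star (dg m c) = dg m (star c) := by
  rw [dg, opM_star, dg]
  congr 1
  funext i j
  by_cases h : i = j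
  · subst h; simp
  · simp [h, Ne.symm h]

/-- the amplification -/
noncomputable def ampVN (m : ℕ) (N : VonNeumannAlgebra H) : VonNeumannAlgebra (Dir m H) where
  toStarSubalgebra := StarSubalgebra.centralizer ℂ
    {T | ∃ c ∈ Set.centralizer (N : Set (H →L[ℂ] H)), T = dg m c}
  centralizer_centralizer' := by
    show Set.centralizer (Set.centralizer ((StarSubalgebra.centralizer ℂ
      {T | ∃ c ∈ Set.centralizer (N : Set (H →L[ℂ] H)), T = dg m c} :
        StarSubalgebra ℂ (Dir m H →L[ℂ] Dir m H)) : Set (Dir m H →L[ℂ] Dir m H))) = 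
      ((StarSubalgebra.centralizer ℂ
      {T | ∃ c ∈ Set.centralizer (N : Set (H →L[ℂ] H)), T = dg m c} :
        StarSubalgebra ℂ (Dir m H →L[ℂ] Dir m H)) : Set (Dir m H →L[ℂ] Dir m H))
    rw [StarSubalgebra.coe_centralizer, Set.centralizer_centralizer_centralizer]

theorem mem_ampVN (m : ℕ) (N : VonNeumannAlgebra H) (x : Fin m → Fin m → H →L[ℂ] H) :
    opM x ∈ ampVN m N ↔ ∀ i j, x i j ∈ N := by
  have h0 : opM x ∈ ampVN m N ↔ ∀ g ∈ {T | ∃ c ∈ Set.centralizer (N : Set (H →L[ℂ] H)), T = dg m c},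
      g * opM x = opM x * g ∧ star g * opM x = opM x * star g :=
    StarSubalgebra.mem_centralizer_iff (R := ℂ)
  rw [h0]
  constructor
  · intro h i j
    have h2 : x i j ∈ Set.centralizer (Set.centralizer (N : Set (H →L[ℂ] H))) := by
      rw [Set.mem_centralizer_iff]
      intro c hc
      have h3 := (h _ ⟨c, hc, rfl⟩).1
      rw [dg_mul, mul_dg] at h3
      exact congrFun (congrFun (opM_inj h3) i) j
    rw [VonNeumannAlgebra.centralizer_centralizer] at h2
    exact h2
  · rintro h g ⟨c, hc, rfl⟩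
    rw [Set.mem_centralizer_iff] at hc
    rw [star_dg, dg_mul, mul_dg, dg_mul, mul_dg]
    constructor
    · congr 1
      funext i j
      exact (hc _ (h i j)).symm
    · congr 1
      funext i j
      have h4 := congrArg star (hc _ (star_mem (S := VonNeumannAlgebra H) (h i j)))
      rw [star_mul, star_mul, star_star] at h4
      exact h4

/-- the isomorphism -/
noncomputable def ampHom (m : ℕ) (N : VonNeumannAlgebra H) :
    Matrix (Fin m) (Fin m) (Elt N) →⋆ₐ[ℂ] Elt (ampVN m N) where
  toFun x := ⟨opM (fun i j => ((x i j : Elt N) : H →L[ℂ] H)),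
    (mem_ampVN m N _).mpr fun i j => (x i j).2⟩
  map_one' := by
    apply Subtype.ext
    show opM _ = 1
    ext h i
    rw [opM_apply]
    rw [Finset.sum_eq_single i]
    · rw [Matrix.one_apply_eq]
      rfl
    · intro j _ hj
      rw [Matrix.one_apply_ne (Ne.symm hj)]
      rfl
    · intro hi
      exact absurd (Finset.mem_univ i) hi
  map_mul' x y := by
    apply Subtype.ext
    show opM _ = opM _ * opM _
    rw [opM_mul]
    congr 1
    funext i j
    simp [Matrix.mul_apply]
  map_zero' := by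
    apply Subtype.ext
    show opM _ = 0
    ext h i
    rw [opM_apply]
    simp
  map_add' x y := by
    apply Subtype.ext
    show opM _ = opM _ + opM _
    rw [opM_add]
    rfl
  commutes' c := by
    apply Subtype.ext
    show opM _ = algebraMap ℂ _ c
    ext h i
    rw [opM_apply]
    rw [Finset.sum_eq_single i]
    · rw [Matrix.algebraMap_matrix_apply, if_pos rfl]
      rfl
    · intro j _ hj
      rw [Matrix.algebraMap_matrix_apply, if_neg (Ne.symm hj)]
      rfl
    · intro hi
      exact absurd (Finset.mem_univ i) hi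
  map_star' x := by
    apply Subtype.ext
    show opM _ = star (opM _)
    rw [opM_star]
    rfl

/-- JOB: the amplification exists. -/
theorem exists_amp (m : ℕ) (N : VonNeumannAlgebra H) :
    ∃ (M : VonNeumannAlgebra (Dir m H)) (e : Matrix (Fin m) (Fin m) (Elt N) ≃⋆ₐ[ℂ] Elt M),
      IsAmp m N M e := by
  refine ⟨ampVN m N, StarAlgEquiv.ofBijective (ampHom m N) ⟨?_, ?_⟩, ?_⟩
  · intro x y h
    have h1 : opM (fun i j => ((x i j : Elt N) : H →L[ℂ] H)) =
      opM (fun i j => ((y i j : Elt N) : H →L[ℂ] H)) := congrArg Subtype.val h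
    have h2 := opM_inj h1
    ext i j : 2
    exact congrFun (congrFun h2 i) j
  · rintro ⟨T, hT⟩
    have hT' : T ∈ ampVN m N := hT
    rw [← opM_ent T, mem_ampVN] at hT'
    refine ⟨fun i j => ⟨ent T i j, hT' i j⟩, ?_⟩
    apply Subtype.ext
    exact opM_ent T
  · intro x h i
    exact opM_apply _ h i


end Pool.Agent.Helper436.AD
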