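import Mathlib
import Pool.Agent.Helper436.AD.Amp
import Pool.Agent.Helper278.Trace

set_option autoImplicit false
set_option linter.unusedSectionVars false

namespace Pool.Agent.Helper436.AD

open Pool.Agent.Helper278 Pool.Agent.Helper436.SM Pool.Agent.Helper436.SN
open scoped InnerProductSpace ComplexOrder

variable {H : Type} [NormedAddCommGroup H] [InnerProductSpace ℂ H] [CompleteSpace H]

theorem mtr_star_mul {A : Type} [Ring A] [StarRing A] [Algebra ℂ A] (m : ℕ) (τ : A →ₗ[ℂ] ℂ)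
    (x : Matrix (Fin m) (Fin m) A) :
    mtr m (fun a => τ a) (star x * x) = (∑ i, ∑ j, τ (star (x j i) * x j i)) / m := by
  unfold mtr
  congr 1
  apply Finset.sum_congr rfl
  intro i _
  show τ ((star x * x) i i) = _
  rw [Matrix.mul_apply, map_sum]
  rfl

theorem mtr_comm {A : Type} [Ring A] [StarRing A] [Algebra ℂ A] (m : ℕ) (τ : A →ₗ[ℂ] ℂ)
    (hτ : ∀ x y, τ (x * y) = τ (y * x)) (x y : Matrix (Fin m) (Fin m) A) :
    mtr m (fun a => τ a) (x * y) = mtr m (fun a => τ a) (y * x) := by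
  unfold mtr
  congr 1
  simp only [Matrix.mul_apply, map_sum]
  rw [Finset.sum_comm]
  apply Finset.sum_congr rfl
  intro i _
  apply Finset.sum_congr rfl
  intro j _
  exact hτ _ _

/-- the vectors of the amplified trace -/
noncomputable def ampV (m : ℕ) (ξ : ℕ → H) (p : ℕ × Fin m) : Dir m H :=
  ((Real.sqrt (1 / m) : ℝ) : ℂ) • PiLp.single 2 p.2 (ξ p.1)

theorem ampV_norm {m : ℕ} (ξ : ℕ → H) (p : ℕ × Fin m) :
    ‖ampV m ξ p‖ ^ 2 = 1 / m * ‖ξ p.1‖ ^ 2 := by
  unfold ampV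
  rw [norm_smul, PiLp.norm_single, mul_pow, Complex.norm_real, Real.norm_eq_abs, sq_abs,
    Real.sq_sqrt (by positivity)]

theorem ampV_inner {m : ℕ} {N : VonNeumannAlgebra H} {M : VonNeumannAlgebra (Dir m H)}
    {e : Matrix (Fin m) (Fin m) (Elt N) ≃⋆ₐ[ℂ] Elt M} (he : IsAmp m N M e)
    (x : Matrix (Fin m) (Fin m) (Elt N)) (ξ : ℕ → H) (p : ℕ × Fin m) :
    ⟪ampV m ξ p, ((e x : Elt M) : Dir m H →L[ℂ] Dir m H) (ampV m ξ p)⟫_ℂ =
      1 / m * ⟪ξ p.1, ((x p.2 p.2 : Elt N) : H →L[ℂ] H) (ξ p.1)⟫_ℂ := by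
  unfold ampV
  rw [map_smul, inner_smul_left, inner_smul_right, ← mul_assoc]
  have h1 : (starRingEnd ℂ) ((Real.sqrt (1 / m) : ℝ) : ℂ) * ((Real.sqrt (1 / m) : ℝ) : ℂ) =
      1 / m := by
    rw [Complex.conj_ofReal, ← Complex.ofReal_mul, Real.mul_self_sqrt (by positivity)]
    push_cast
    rfl
  rw [h1]
  congr 1
  rw [PiLp.inner_apply]
  rw [Finset.sum_eq_single p.2]
  · have h2 := he x (PiLp.single 2 p.2 (ξ p.1)) p.2
    rw [h2]
    rw [Finset.sum_eq_single p.2]
    · simp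
    · intro j _ hj
      simp [hj]
    · intro h; exact absurd (Finset.mem_univ _) h
  · intro j _ hj
    simp [hj]
  · intro h; exact absurd (Finset.mem_univ _) h

theorem ampV_summable {m : ℕ} (hm : 1 ≤ m) (ξ : ℕ → H) (hξ : Summable (fun k => ‖ξ k‖ ^ 2)) :
    Summable (fun p : ℕ × Fin m => ‖ampV m ξ p‖ ^ 2) := by
  rw [summable_prod_of_nonneg (fun p => by positivity)]
  refine ⟨fun k => Summable.of_finite, ?_⟩
  have : (fun k => ∑' i : Fin m, ‖ampV m ξ (k, i)‖ ^ 2) = fun k => ‖ξ k‖ ^ 2 := by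
    funext k
    rw [tsum_fintype]
    simp only [ampV_norm]
    rw [Finset.sum_const, Finset.card_univ, Fintype.card_fin, nsmul_eq_mul, ← mul_assoc]
    have hm' : (m : ℝ) ≠ 0 := by positivity
    rw [mul_one_div_cancel hm', one_mul]
  rw [this]
  exact hξ

theorem amp_normal {m : ℕ} (hm : 1 ≤ m) {N : VonNeumannAlgebra H} {τ : Elt N → ℂ}
    (h : IsNormalPositive N τ) {M : VonNeumannAlgebra (Dir m H)}
    {e : Matrix (Fin m) (Fin m) (Elt N) ≃⋆ₐ[ℂ] Elt M} (he : IsAmp m N M e) :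
    IsNormalPositive M (ampTr e τ) := by
  obtain ⟨ξ, hξ, hT⟩ := h
  have : NeZero m := ⟨by omega⟩
  have hsum := ampV_summable hm ξ hξ
  refine ⟨fun k => ampV m ξ (Nat.divModEquiv m k), ?_, ?_⟩
  · exact (Nat.divModEquiv m).summable_iff.2 hsum
  · intro y
    obtain ⟨x, rfl⟩ := (EquivLike.surjective e) y
    rw [(Nat.divModEquiv m).tsum_eq (fun p => ⟪ampV m ξ p,
      ((e x : Elt M) : Dir m H →L[ℂ] Dir m H) (ampV m ξ p)⟫_ℂ)]
    have hs : Summable (fun p : ℕ × Fin m => ⟪ampV m ξ p,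
        ((e x : Elt M) : Dir m H →L[ℂ] Dir m H) (ampV m ξ p)⟫_ℂ) := by
      refine Summable.of_norm_bounded (hsum.mul_left ‖((e x : Elt M) : Dir m H →L[ℂ] Dir m H)‖) ?_
      intro p
      calc ‖⟪ampV m ξ p, ((e x : Elt M) : Dir m H →L[ℂ] Dir m H) (ampV m ξ p)⟫_ℂ‖
          ≤ ‖ampV m ξ p‖ * ‖((e x : Elt M) : Dir m H →L[ℂ] Dir m H) (ampV m ξ p)‖ :=
            norm_inner_le_norm _ _
        _ ≤ ‖ampV m ξ p‖ * (‖((e x : Elt M) : Dir m H →L[ℂ] Dir m H)‖ * ‖ampV m ξ p‖) := by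
            gcongr
            exact ContinuousLinearMap.le_opNorm _ _
        _ = _ := by ring
    rw [hs.tsum_prod]
    have h1 : ∀ k : ℕ, ∑' i : Fin m, ⟪ampV m ξ (k, i),
        ((e x : Elt M) : Dir m H →L[ℂ] Dir m H) (ampV m ξ (k, i))⟫_ℂ =
        ∑ i : Fin m, 1 / (m : ℂ) * ⟪ξ k, ((x i i : Elt N) : H →L[ℂ] H) (ξ k)⟫_ℂ := by
      intro k
      rw [tsum_fintype]
      apply Finset.sum_congr rfl
      intro i _
      exact ampV_inner he x ξ (k, i)
    simp_rw [h1]
    rw [Summable.tsum_finsetSum (fun i _ => (summable_inner ξ ξ hξ hξ _).mul_left _)]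
    simp_rw [tsum_mul_left, ← hT]
    unfold ampTr mtr
    rw [← Finset.mul_sum, StarAlgEquiv.symm_apply_apply]
    ring

theorem amp_factor {m : ℕ} (hm : 1 ≤ m) {N : VonNeumannAlgebra H} {τ : Elt N → ℂ}
    (h : IsIIOneFactor N τ) {M : VonNeumannAlgebra (Dir m H)}
    {e : Matrix (Fin m) (Fin m) (Elt N) ≃⋆ₐ[ℂ] Elt M} (he : IsAmp m N M e) :
    IsIIOneFactor M (ampTr e τ) := by
  classical
  have hm0 : (m : ℂ) ≠ 0 := by
    have : m ≠ 0 := by omega
    exact_mod_cast this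
  have : NeZero m := ⟨by omega⟩
  set T := mkState N τ h.normal h.trace with hTdef
  have hTr := trAlg T
  have hτ : τ = fun a => T.τ a := rfl
  refine ⟨?_, ?_, ⟨?_, ?_, ?_⟩, amp_normal hm h.normal he⟩
  · -- center
    intro z hz hcomm
    set Z := e.symm ⟨z, hz⟩ with hZ
    have hZe : e Z = ⟨z, hz⟩ := e.apply_symm_apply _
    have hc : ∀ X, Z * X = X * Z := by
      intro X
      apply EquivLike.injective e
      rw [map_mul, map_mul, hZe]
      apply Subtype.ext
      exact hcomm _ (e X).2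
    have h1 : Z ∈ Set.range (Matrix.scalar (Fin m)) :=
      Matrix.mem_range_scalar_of_commute_single (fun i j _ => (hc _).symm)
    obtain ⟨c, hc1⟩ := h1
    have h2 : ∀ a : Elt N, c * a = a * c := by
      intro a
      have h3 := hc (Matrix.scalar (Fin m) a)
      rw [← hc1] at h3
      have h4 := congrFun (congrFun h3 0) 0
      simpa [Matrix.scalar_apply, Matrix.mul_apply, Matrix.diagonal_apply] using h4
    obtain ⟨l, hl⟩ := h.center c c.2 (fun x hx => congrArg Subtype.val (h2 ⟨x, hx⟩))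
    refine ⟨l, ?_⟩
    have h5 : c = l • (1 : Elt N) := Subtype.ext hl
    have h6 : Z = l • (1 : Matrix (Fin m) (Fin m) (Elt N)) := by
      rw [← hc1, h5]
      ext i j
      rw [Matrix.scalar_apply, Matrix.diagonal_apply, Matrix.smul_apply, Matrix.one_apply]
      split_ifs <;> simp
    have h7 : (⟨z, hz⟩ : Elt M) = l • (1 : Elt M) := by
      rw [← hZe, h6, map_smul, map_one]
    exact congrArg Subtype.val h7
  · -- infinite
    intro hfd
    apply h.infinite
    have h1 : FiniteDimensional ℂ (Matrix (Fin m) (Fin m) (Elt N)) :=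
      Module.Finite.of_surjective
        ({ toFun := e.symm, map_add' := map_add e.symm, map_smul' := fun c x => map_smul e.symm c x } :
          Elt M →ₗ[ℂ] Matrix (Fin m) (Fin m) (Elt N)) (EquivLike.surjective e.symm)
    exact Module.Finite.of_surjective (Matrix.entryLinearMap ℂ (Elt N) (0 : Fin m) (0 : Fin m))
      (fun a => ⟨Matrix.scalar (Fin m) a, by
        show (Matrix.scalar (Fin m) a) 0 0 = a
        rw [Matrix.scalar_apply, Matrix.diagonal_apply_eq]⟩)
  · unfold ampTr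
    rw [map_one]
    unfold mtr
    simp only [Matrix.one_apply_eq, h.trace.one]
    rw [Finset.sum_const, Finset.card_univ, Fintype.card_fin, nsmul_eq_mul, mul_one,
      div_self hm0]
  · intro x y
    unfold ampTr
    rw [map_mul, map_mul, hτ]
    exact mtr_comm m T.τ T.tracial _ _
  · intro x hx
    unfold ampTr at hx
    rw [map_mul, map_star, hτ, mtr_star_mul, div_eq_zero_iff] at hx
    have hx' := hx.resolve_right hm0
    rw [Finset.sum_eq_zero_iff_of_nonneg (fun i _ => Finset.sum_nonneg fun j _ => hTr.nonneg _)]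
      at hx'
    have h1 : e.symm x = 0 := by
      refine Matrix.ext fun i j => ?_
      have h2 := hx' j (Finset.mem_univ _)
      rw [Finset.sum_eq_zero_iff_of_nonneg (fun i _ => hTr.nonneg _)] at h2
      exact hTr.faithful _ (h2 i (Finset.mem_univ _))
    have h3 := congrArg e h1
    rwa [e.apply_symm_apply, map_zero] at h3

theorem amp_separable {m : ℕ} (hm : 1 ≤ m) {N : VonNeumannAlgebra H} {τ : Elt N → ℂ}
    (h : IsIIOneFactor N τ) (hs : IsSeparable τ) {M : VonNeumannAlgebra (Dir m H)}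
    {e : Matrix (Fin m) (Fin m) (Elt N) ≃⋆ₐ[ℂ] Elt M} (he : IsAmp m N M e) :
    IsSeparable (ampTr e τ) := by
  classical
  set T := mkState N τ h.normal h.trace with hTdef
  have hTr := trAlg T
  have hτ : τ = fun a => T.τ a := rfl
  obtain ⟨S, hSc, hS⟩ := hs
  have hm' : (0 : ℝ) < m := by exact_mod_cast hm
  refine ⟨e '' {X | ∀ i j, X i j ∈ S}, ?_, ?_⟩
  · apply Set.Countable.image
    exact Set.countable_pi (s := fun _ : Fin m => {f : Fin m → Elt N | ∀ j, f j ∈ S})
      (fun _ => Set.countable_pi (s := fun _ : Fin m => S) (fun _ => hSc))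
  · intro y ε hε
    obtain ⟨X, rfl⟩ := (EquivLike.surjective e) y
    have hδ : 0 < ε / (m + 1) := by positivity
    choose Y hYS hY using fun i j => hS (X i j) (ε / (m + 1)) hδ
    refine ⟨e (Matrix.of Y), ⟨Matrix.of Y, fun i j => hYS i j, rfl⟩, ?_⟩
    unfold norm2 ampTr
    rw [Real.sqrt_lt' hε, ← map_sub, ← map_star, ← map_mul, e.symm_apply_apply, hτ, mtr_star_mul]
    have h1 : ∀ i j, (T.τ (star ((X - Matrix.of Y) j i) * (X - Matrix.of Y) j i)).re ≤
        (ε / (m + 1)) ^ 2 := by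
      intro i j
      have h2 := hY j i
      unfold norm2 at h2
      rw [Real.sqrt_lt' hδ] at h2
      exact h2.le
    have h3 : ((∑ i, ∑ j, T.τ (star ((X - Matrix.of Y) j i) * (X - Matrix.of Y) j i)) /
        (m : ℂ)).re = (∑ i, ∑ j,
          (T.τ (star ((X - Matrix.of Y) j i) * (X - Matrix.of Y) j i)).re) / m := by
      rw [show (m : ℂ) = ((m : ℝ) : ℂ) by push_cast; rfl, Complex.div_ofReal_re]
      simp only [Complex.re_sum]
    rw [h3]
    have h4 : ∑ i : Fin m, ∑ j : Fin m,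
        (T.τ (star ((X - Matrix.of Y) j i) * (X - Matrix.of Y) j i)).re ≤
        ∑ i : Fin m, ∑ j : Fin m, (ε / (m + 1)) ^ 2 :=
      Finset.sum_le_sum fun i _ => Finset.sum_le_sum fun j _ => h1 i j
    simp only [Finset.sum_const, Finset.card_univ, Fintype.card_fin, nsmul_eq_mul] at h4
    rw [div_lt_iff₀ hm']
    refine lt_of_le_of_lt h4 ?_
    have h5 : (m : ℝ) * (m * (ε / (m + 1)) ^ 2) = ε ^ 2 * m * (m / (m + 1) ^ 2) := by
      field_simp
    rw [h5]
    have h6 : (m : ℝ) / (m + 1) ^ 2 < 1 := by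
      rw [div_lt_one (by positivity)]
      nlinarith
    calc ε ^ 2 * m * (m / (m + 1) ^ 2) < ε ^ 2 * m * 1 := by
          apply mul_lt_mul_of_pos_left h6 (by positivity)
      _ = ε ^ 2 * m := by ring

end Pool.Agent.Helper436.AD
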