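import Mathlib
import Pool.Agent.Helper436.AD.Amp

set_option autoImplicit false
set_option linter.unusedSectionVars false

open scoped TensorProduct

namespace Pool.Agent.Helper436.AD

open Pool.Agent.Helper278 Pool.Agent.Helper436.SM Pool.Agent.Helper436.SN

variable {H K : Type} [NormedAddCommGroup H] [InnerProductSpace ℂ H] [CompleteSpace H]
  [NormedAddCommGroup K] [InnerProductSpace ℂ K] [CompleteSpace K]

/-- conjugation of generated von Neumann algebras, one inclusion of centralizers -/
theorem tensor_shift_cent {X Y : Type} [NormedAddCommGroup X] [InnerProductSpace ℂ X]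
    [CompleteSpace X] [NormedAddCommGroup Y] [InnerProductSpace ℂ Y] [CompleteSpace Y]
    (c : (X →L[ℂ] X) ≃⋆ₐ[ℂ] (Y →L[ℂ] Y)) (S₁ : Set (X →L[ℂ] X)) (S₂ : Set (Y →L[ℂ] Y))
    (h1 : ∀ T ∈ S₁, ∃ (ι : Type) (s : Finset ι) (R : ι → (Y →L[ℂ] Y)), (∀ i ∈ s, R i ∈ S₂) ∧
      c T = ∑ i ∈ s, R i) (r : Y →L[ℂ] Y) (hr : r ∈ StarSubalgebra.centralizer ℂ S₂) :
    c.symm r ∈ StarSubalgebra.centralizer ℂ S₁ := by
  rw [StarSubalgebra.mem_centralizer_iff (R := ℂ)] at hr ⊢
  intro T hT
  obtain ⟨ι, s, R, hR, hcT⟩ := h1 T hT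
  have e1 : c T * r = r * c T := by
    rw [hcT, Finset.sum_mul, Finset.mul_sum]
    exact Finset.sum_congr rfl fun i hi => (hr _ (hR i hi)).1
  have e2 : star (c T) * r = r * star (c T) := by
    rw [hcT, star_sum, Finset.sum_mul, Finset.mul_sum]
    exact Finset.sum_congr rfl fun i hi => (hr _ (hR i hi)).2
  constructor
  · apply (EquivLike.injective c : Function.Injective (c : (X →L[ℂ] X) → (Y →L[ℂ] Y)))
    rw [map_mul, map_mul, c.apply_symm_apply]
    exact e1
  · apply (EquivLike.injective c : Function.Injective (c : (X →L[ℂ] X) → (Y →L[ℂ] Y)))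
    rw [map_mul, map_mul, c.apply_symm_apply, map_star]
    exact e2

theorem tensor_shift_memv {X : Type} [NormedAddCommGroup X] [InnerProductSpace ℂ X]
    [CompleteSpace X] (S : Set (X →L[ℂ] X)) (z : X →L[ℂ] X) : z ∈ vnGen S ↔
    ∀ t ∈ StarSubalgebra.centralizer ℂ S, t * z = z * t ∧ star t * z = z * star t :=
  StarSubalgebra.mem_centralizer_iff (R := ℂ)

theorem tensor_shift_mem {X Y : Type} [NormedAddCommGroup X] [InnerProductSpace ℂ X]
    [CompleteSpace X] [NormedAddCommGroup Y] [InnerProductSpace ℂ Y] [CompleteSpace Y]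
    (c : (X →L[ℂ] X) ≃⋆ₐ[ℂ] (Y →L[ℂ] Y)) (S₁ : Set (X →L[ℂ] X)) (S₂ : Set (Y →L[ℂ] Y))
    (h1 : ∀ T ∈ S₁, ∃ (ι : Type) (s : Finset ι) (R : ι → (Y →L[ℂ] Y)), (∀ i ∈ s, R i ∈ S₂) ∧
      c T = ∑ i ∈ s, R i) (z : X →L[ℂ] X) (hz : z ∈ vnGen S₁) : c z ∈ vnGen S₂ := by
  rw [tensor_shift_memv] at hz ⊢
  intro t ht
  have h2 := hz _ (tensor_shift_cent c S₁ S₂ h1 t ht)
  constructor
  · have h3 := congrArg c h2.1
    rw [map_mul, map_mul, c.apply_symm_apply] at h3
    exact h3
  · have h3 := congrArg c h2.2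
    rw [map_mul, map_mul, map_star, c.apply_symm_apply] at h3
    exact h3

theorem tensor_shift_conj {X Y : Type} [NormedAddCommGroup X] [InnerProductSpace ℂ X]
    [CompleteSpace X] [NormedAddCommGroup Y] [InnerProductSpace ℂ Y] [CompleteSpace Y]
    (c : (X →L[ℂ] X) ≃⋆ₐ[ℂ] (Y →L[ℂ] Y)) (S₁ : Set (X →L[ℂ] X)) (S₂ : Set (Y →L[ℂ] Y))
    (h1 : ∀ T ∈ S₁, ∃ (ι : Type) (s : Finset ι) (R : ι → (Y →L[ℂ] Y)), (∀ i ∈ s, R i ∈ S₂) ∧
      c T = ∑ i ∈ s, R i)
    (h2 : ∀ T ∈ S₂, ∃ (ι : Type) (s : Finset ι) (R : ι → (X →L[ℂ] X)), (∀ i ∈ s, R i ∈ S₁) ∧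
      c.symm T = ∑ i ∈ s, R i) :
    Nonempty (Elt (vnGen S₁) ≃⋆ₐ[ℂ] Elt (vnGen S₂)) := by
  have m1 := tensor_shift_mem c S₁ S₂ h1
  have m2 := tensor_shift_mem c.symm S₂ S₁ h2
  exact ⟨
    { toFun := fun z => ⟨c z.1, m1 z.1 z.2⟩
      invFun := fun z => ⟨c.symm z.1, m2 z.1 z.2⟩
      left_inv := fun z => Subtype.ext (c.symm_apply_apply z.1)
      right_inv := fun z => Subtype.ext (c.apply_symm_apply z.1)
      map_mul' := fun a b => Subtype.ext (map_mul c a.1 b.1)
      map_add' := fun a b => Subtype.ext (map_add c a.1 b.1)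
      map_star' := fun a => Subtype.ext (map_star c a.1)
      map_smul' := fun r a => Subtype.ext (map_smul c r a.1) }⟩

/-- the vector with the single entry `k` at `i` -/
noncomputable def tensor_shift_sg {H : Type} [NormedAddCommGroup H] [InnerProductSpace ℂ H]
    {m : ℕ} (i : Fin m) : H →ₗ[ℂ] Dir m H :=
  (WithLp.linearEquiv 2 ℂ (Fin m → H)).symm.toLinearMap ∘ₗ LinearMap.single ℂ (fun _ => H) i

/-- the entry at `i` -/
noncomputable def tensor_shift_pr {H : Type} [NormedAddCommGroup H] [InnerProductSpace ℂ H]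
    {m : ℕ} (i : Fin m) : Dir m H →ₗ[ℂ] H :=
  LinearMap.proj i ∘ₗ (WithLp.linearEquiv 2 ℂ (Fin m → H)).toLinearMap

theorem tensor_shift_pr_apply {H : Type} [NormedAddCommGroup H] [InnerProductSpace ℂ H]
    {m : ℕ} (i : Fin m) (h : Dir m H) : tensor_shift_pr i h = h i := rfl

theorem tensor_shift_sg_apply {H : Type} [NormedAddCommGroup H] [InnerProductSpace ℂ H]
    {m : ℕ} (i : Fin m) (h : H) (j : Fin m) :
    (tensor_shift_sg i h : Dir m H) j = if j = i then h else 0 := by
  change (Pi.single i h : Fin m → H) j = _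
  rw [Pi.single_apply]

theorem tensor_shift_sum_sg {H : Type} [NormedAddCommGroup H] [InnerProductSpace ℂ H]
    {m : ℕ} (h : Fin m → H) (j : Fin m) :
    (∑ i, tensor_shift_sg i (h i) : Dir m H) j = h j := by
  rw [← tensor_shift_pr_apply j, map_sum]
  simp only [tensor_shift_pr_apply, tensor_shift_sg_apply]
  rw [Finset.sum_ite_eq Finset.univ j, if_pos (Finset.mem_univ j)]

theorem tensor_shift_eq_sum {H : Type} [NormedAddCommGroup H] [InnerProductSpace ℂ H]
    {m : ℕ} (h : Dir m H) : ∑ i, tensor_shift_sg i (h i) = h := by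
  ext j
  exact tensor_shift_sum_sg (fun i => h i) j

/-- moving the direct sum -/
noncomputable def tensor_shift_v (m : ℕ) (H K : Type) [NormedAddCommGroup H]
    [InnerProductSpace ℂ H] [NormedAddCommGroup K] [InnerProductSpace ℂ K] :
    (Dir m H ⊗[ℂ] K) →ₗ[ℂ] (H ⊗[ℂ] Dir m K) :=
  ∑ i : Fin m, TensorProduct.map (tensor_shift_pr i) (tensor_shift_sg i)

/-- moving the direct sum back -/
noncomputable def tensor_shift_w (m : ℕ) (H K : Type) [NormedAddCommGroup H]
    [InnerProductSpace ℂ H] [NormedAddCommGroup K] [InnerProductSpace ℂ K] :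
    (H ⊗[ℂ] Dir m K) →ₗ[ℂ] (Dir m H ⊗[ℂ] K) :=
  ∑ i : Fin m, TensorProduct.map (tensor_shift_sg i) (tensor_shift_pr i)

section tensor_shift_sec

variable {H K : Type} [NormedAddCommGroup H] [InnerProductSpace ℂ H]
  [NormedAddCommGroup K] [InnerProductSpace ℂ K] {m : ℕ}

theorem tensor_shift_v_tmul (h : Dir m H) (k : K) :
    tensor_shift_v m H K (h ⊗ₜ[ℂ] k) = ∑ i, (h i) ⊗ₜ[ℂ] (tensor_shift_sg i k : Dir m K) := by
  unfold tensor_shift_v
  rw [LinearMap.sum_apply]
  rfl

theorem tensor_shift_w_tmul (h : H) (k : Dir m K) :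
    tensor_shift_w m H K (h ⊗ₜ[ℂ] k) = ∑ i, (tensor_shift_sg i h : Dir m H) ⊗ₜ[ℂ] (k i) := by
  unfold tensor_shift_w
  rw [LinearMap.sum_apply]
  rfl

theorem tensor_shift_vw (x : H ⊗[ℂ] Dir m K) :
    tensor_shift_v m H K (tensor_shift_w m H K x) = x := by
  induction x using TensorProduct.induction_on with
  | zero => rw [map_zero, map_zero]
  | add x y hx hy => rw [map_add, map_add, hx, hy]
  | tmul h k =>
    rw [tensor_shift_w_tmul, map_sum]
    have e : ∀ i : Fin m, tensor_shift_v m H K ((tensor_shift_sg i h : Dir m H) ⊗ₜ[ℂ] (k i)) =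
        h ⊗ₜ[ℂ] (tensor_shift_sg i (k i) : Dir m K) := by
      intro i
      rw [tensor_shift_v_tmul, Finset.sum_eq_single i]
      · rw [tensor_shift_sg_apply, if_pos rfl]
      · intro j _ hj
        rw [tensor_shift_sg_apply, if_neg hj, TensorProduct.zero_tmul]
      · intro hi; exact absurd (Finset.mem_univ i) hi
    rw [Finset.sum_congr rfl fun i _ => e i, ← TensorProduct.tmul_sum, tensor_shift_eq_sum]

theorem tensor_shift_wv (x : Dir m H ⊗[ℂ] K) :
    tensor_shift_w m H K (tensor_shift_v m H K x) = x := by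
  induction x using TensorProduct.induction_on with
  | zero => rw [map_zero, map_zero]
  | add x y hx hy => rw [map_add, map_add, hx, hy]
  | tmul h k =>
    rw [tensor_shift_v_tmul, map_sum]
    have e : ∀ i : Fin m, tensor_shift_w m H K ((h i) ⊗ₜ[ℂ] (tensor_shift_sg i k : Dir m K)) =
        (tensor_shift_sg i (h i) : Dir m H) ⊗ₜ[ℂ] k := by
      intro i
      rw [tensor_shift_w_tmul, Finset.sum_eq_single i]
      · rw [tensor_shift_sg_apply, if_pos rfl]
      · intro j _ hj
        rw [tensor_shift_sg_apply, if_neg hj, TensorProduct.tmul_zero]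
      · intro hi; exact absurd (Finset.mem_univ i) hi
    rw [Finset.sum_congr rfl fun i _ => e i, ← TensorProduct.sum_tmul, tensor_shift_eq_sum]

theorem tensor_shift_sg_inner (i j : Fin m) (k k' : K) :
    inner ℂ (tensor_shift_sg i k : Dir m K) (tensor_shift_sg j k') =
      if i = j then inner ℂ k k' else 0 := by
  rw [PiLp.inner_apply]
  simp only [tensor_shift_sg_apply]
  by_cases hij : i = j
  · subst hij
    rw [if_pos rfl, Finset.sum_eq_single i]
    · rw [if_pos rfl, if_pos rfl]
    · intro l _ hl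
      rw [if_neg hl, inner_zero_left]
    · intro hi; exact absurd (Finset.mem_univ i) hi
  · rw [if_neg hij]
    refine Finset.sum_eq_zero fun l _ => ?_
    by_cases hl : l = i
    · rw [if_neg (fun h => hij (hl ▸ h)), inner_zero_right]
    · rw [if_neg hl, inner_zero_left]

theorem tensor_shift_inner (x y : Dir m H ⊗[ℂ] K) :
    inner ℂ (tensor_shift_v m H K x) (tensor_shift_v m H K y) = inner ℂ x y := by
  induction x using TensorProduct.induction_on with
  | zero => rw [map_zero, inner_zero_left, inner_zero_left]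
  | add x x' hx hx' => rw [map_add, inner_add_left, inner_add_left, hx, hx']
  | tmul h k =>
    induction y using TensorProduct.induction_on with
    | zero => rw [map_zero, inner_zero_right, inner_zero_right]
    | add y y' hy hy' => rw [map_add, inner_add_right, inner_add_right, hy, hy']
    | tmul h' k' =>
      rw [tensor_shift_v_tmul, tensor_shift_v_tmul, sum_inner, TensorProduct.inner_tmul,
        PiLp.inner_apply, Finset.sum_mul]
      refine Finset.sum_congr rfl fun i _ => ?_
      rw [inner_sum, Finset.sum_eq_single i]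
      · rw [TensorProduct.inner_tmul, tensor_shift_sg_inner, if_pos rfl]
      · intro j _ hj
        rw [TensorProduct.inner_tmul, tensor_shift_sg_inner, if_neg (Ne.symm hj), mul_zero]
      · intro hi; exact absurd (Finset.mem_univ i) hi

variable (m H K) in
/-- the isometry on the algebraic tensor product -/
noncomputable def tensor_shift_e : (Dir m H ⊗[ℂ] K) ≃ₗᵢ[ℂ] (H ⊗[ℂ] Dir m K) :=
  (LinearEquiv.ofLinearMap (tensor_shift_v m H K) (tensor_shift_w m H K)
    (LinearMap.ext tensor_shift_vw) (LinearMap.ext tensor_shift_wv)).isometryOfInner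
      tensor_shift_inner

end tensor_shift_sec

/-- extension of an isometry to the completions -/
noncomputable def tensor_shift_compl {E F : Type} [NormedAddCommGroup E] [InnerProductSpace ℂ E]
    [NormedAddCommGroup F] [InnerProductSpace ℂ F] (e : E ≃ₗᵢ[ℂ] F) :
    UniformSpace.Completion E ≃ₗᵢ[ℂ] UniformSpace.Completion F where
  toLinearEquiv := LinearEquiv.ofLinearMap
    (e.toContinuousLinearEquiv : E →L[ℂ] F).completion.toLinearMap
    (e.symm.toContinuousLinearEquiv : F →L[ℂ] E).completion.toLinearMap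
    (by
      apply LinearMap.ext
      intro x
      induction x using UniformSpace.Completion.induction_on with
      | hp =>
        exact isClosed_eq (((e.toContinuousLinearEquiv : E →L[ℂ] F).completion.continuous).comp
          ((e.symm.toContinuousLinearEquiv : F →L[ℂ] E).completion.continuous)) continuous_id
      | ih x =>
        change (e.toContinuousLinearEquiv : E →L[ℂ] F).completion
          ((e.symm.toContinuousLinearEquiv : F →L[ℂ] E).completion x) = x
        rw [ContinuousLinearMap.completion_apply_coe, ContinuousLinearMap.completion_apply_coe]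
        congr 1
        exact e.apply_symm_apply x)
    (by
      apply LinearMap.ext
      intro x
      induction x using UniformSpace.Completion.induction_on with
      | hp =>
        exact isClosed_eq (((e.symm.toContinuousLinearEquiv : F →L[ℂ] E).completion.continuous).comp
          ((e.toContinuousLinearEquiv : E →L[ℂ] F).completion.continuous)) continuous_id
      | ih x =>
        change (e.symm.toContinuousLinearEquiv : F →L[ℂ] E).completion
          ((e.toContinuousLinearEquiv : E →L[ℂ] F).completion x) = x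
        rw [ContinuousLinearMap.completion_apply_coe, ContinuousLinearMap.completion_apply_coe]
        congr 1
        exact e.symm_apply_apply x)
  norm_map' := by
    intro x
    induction x using UniformSpace.Completion.induction_on with
    | hp =>
      exact isClosed_eq (continuous_norm.comp
        ((e.toContinuousLinearEquiv : E →L[ℂ] F).completion.continuous)) continuous_norm
    | ih x =>
      change ‖(e.toContinuousLinearEquiv : E →L[ℂ] F).completion x‖ = ‖(x : UniformSpace.Completion E)‖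
      rw [ContinuousLinearMap.completion_apply_coe, UniformSpace.Completion.norm_coe,
        UniformSpace.Completion.norm_coe]
      exact e.norm_map x

theorem tensor_shift_compl_coe {E F : Type} [NormedAddCommGroup E] [InnerProductSpace ℂ E]
    [NormedAddCommGroup F] [InnerProductSpace ℂ F] (e : E ≃ₗᵢ[ℂ] F) (x : E) :
    tensor_shift_compl e (x : UniformSpace.Completion E) = ((e x : F) : UniformSpace.Completion F) := by
  change (e.toContinuousLinearEquiv : E →L[ℂ] F).completion x = _
  rw [ContinuousLinearMap.completion_apply_coe]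
  rfl

/-- operators on the completed tensor product are determined by pure tensors -/
theorem tensor_shift_ext {E F Z : Type} [NormedAddCommGroup E] [InnerProductSpace ℂ E]
    [NormedAddCommGroup F] [InnerProductSpace ℂ F] [NormedAddCommGroup Z] [NormedSpace ℂ Z]
    (S T : UniformSpace.Completion (E ⊗[ℂ] F) →L[ℂ] Z)
    (h : ∀ (x : E) (y : F), S ((x ⊗ₜ[ℂ] y : E ⊗[ℂ] F) : UniformSpace.Completion (E ⊗[ℂ] F)) =
      T ((x ⊗ₜ[ℂ] y : E ⊗[ℂ] F) : UniformSpace.Completion (E ⊗[ℂ] F))) : S = T := by
  apply ContinuousLinearMap.ext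
  intro ξ
  induction ξ using UniformSpace.Completion.induction_on with
  | hp => exact isClosed_eq S.continuous T.continuous
  | ih x =>
    induction x using TensorProduct.induction_on with
    | zero => rw [UniformSpace.Completion.coe_zero, map_zero, map_zero]
    | add x y hx hy => rw [UniformSpace.Completion.coe_add, map_add, map_add, hx, hy]
    | tmul x y => exact h x y

theorem tensor_shift_coe_sum {E : Type} [NormedAddCommGroup E] [InnerProductSpace ℂ E]
    {ι : Type} (s : Finset ι) (f : ι → E) :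
    ((∑ i ∈ s, f i : E) : UniformSpace.Completion E) =
      ∑ i ∈ s, (f i : UniformSpace.Completion E) :=
  map_sum (UniformSpace.Completion.toComplL (𝕜 := ℂ) (E := E)) f s

/-- the tensor product of two operators -/
noncomputable def tensor_shift_op {E F : Type} [NormedAddCommGroup E] [InnerProductSpace ℂ E]
    [NormedAddCommGroup F] [InnerProductSpace ℂ F] (x : E →L[ℂ] E) (y : F →L[ℂ] F) :
    UniformSpace.Completion (E ⊗[ℂ] F) →L[ℂ] UniformSpace.Completion (E ⊗[ℂ] F) :=
  (TensorProduct.mapL x y).completion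

theorem tensor_shift_op_tmul {E F : Type} [NormedAddCommGroup E] [InnerProductSpace ℂ E]
    [NormedAddCommGroup F] [InnerProductSpace ℂ F] (x : E →L[ℂ] E) (y : F →L[ℂ] F) (h : E) (k : F) :
    tensor_shift_op x y ((h ⊗ₜ[ℂ] k : E ⊗[ℂ] F) : UniformSpace.Completion (E ⊗[ℂ] F)) =
      ((x h ⊗ₜ[ℂ] y k : E ⊗[ℂ] F) : UniformSpace.Completion (E ⊗[ℂ] F)) := by
  unfold tensor_shift_op
  rw [ContinuousLinearMap.completion_apply_coe]
  rfl

/-- action of a matrix with a single entry -/
theorem tensor_shift_amp_single {m : ℕ} {N : VonNeumannAlgebra H}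
    {N' : VonNeumannAlgebra (Dir m H)} {e : Matrix (Fin m) (Fin m) (Elt N) ≃⋆ₐ[ℂ] Elt N'}
    (he : IsAmp m N N' e) (i j : Fin m) (a : Elt N) (g : Dir m H) :
    ((e (Matrix.single i j a) : Elt N') : Dir m H →L[ℂ] Dir m H) g =
      tensor_shift_sg i ((a : H →L[ℂ] H) (g j)) := by
  ext l
  rw [he, tensor_shift_sg_apply]
  by_cases hl : l = i
  · subst hl
    rw [if_pos rfl, Finset.sum_eq_single j]
    · rw [Matrix.single_apply_same]
    · intro j' _ hj'
      rw [Matrix.single_apply, if_neg (fun h => hj' h.2.symm)]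
      rfl
    · intro hi; exact absurd (Finset.mem_univ j) hi
  · rw [if_neg hl]
    refine Finset.sum_eq_zero fun j' _ => ?_
    rw [Matrix.single_apply, if_neg (fun h => hl h.1.symm)]
    rfl

/-- action of a matrix on a vector with a single entry -/
theorem tensor_shift_amp_sg {m : ℕ} {N : VonNeumannAlgebra H}
    {N' : VonNeumannAlgebra (Dir m H)} {e : Matrix (Fin m) (Fin m) (Elt N) ≃⋆ₐ[ℂ] Elt N'}
    (he : IsAmp m N N' e) (X : Matrix (Fin m) (Fin m) (Elt N)) (j : Fin m) (h : H) :
    ((e X : Elt N') : Dir m H →L[ℂ] Dir m H) (tensor_shift_sg j h) =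
      ∑ i, tensor_shift_sg i (((X i j : Elt N) : H →L[ℂ] H) h) := by
  ext l
  rw [he, tensor_shift_sum_sg (fun i => ((X i j : Elt N) : H →L[ℂ] H) h) l,
    Finset.sum_eq_single j]
  · rw [tensor_shift_sg_apply, if_pos rfl]
  · intro j' _ hj'
    rw [tensor_shift_sg_apply, if_neg hj', map_zero]
  · intro hi; exact absurd (Finset.mem_univ j) hi

/-- JOB: matrices can be moved from one tensor factor to the other. -/
theorem tensor_shift (m : ℕ) (N : VonNeumannAlgebra H) (M : VonNeumannAlgebra K)
    {N' : VonNeumannAlgebra (Dir m H)} {e : Matrix (Fin m) (Fin m) (Elt N) ≃⋆ₐ[ℂ] Elt N'}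
    (he : IsAmp m N N' e)
    {M' : VonNeumannAlgebra (Dir m K)} {f : Matrix (Fin m) (Fin m) (Elt M) ≃⋆ₐ[ℂ] Elt M'}
    (hf : IsAmp m M M' f) :
    Nonempty (Elt (tensorVN N' M) ≃⋆ₐ[ℂ] Elt (tensorVN N M')) := by
  classical
  set V := tensor_shift_compl (tensor_shift_e (m := m) (H := H) (K := K)) with hV
  have hVt : ∀ (g : Dir m H) (k : K),
      V ((g ⊗ₜ[ℂ] k : Dir m H ⊗[ℂ] K) : UniformSpace.Completion (Dir m H ⊗[ℂ] K)) =
      ∑ i, (((g i) ⊗ₜ[ℂ] (tensor_shift_sg i k : Dir m K) : H ⊗[ℂ] Dir m K) :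
        UniformSpace.Completion (H ⊗[ℂ] Dir m K)) := by
    intro g k
    rw [hV, tensor_shift_compl_coe]
    change ((tensor_shift_v m H K (g ⊗ₜ[ℂ] k) : H ⊗[ℂ] Dir m K) :
        UniformSpace.Completion (H ⊗[ℂ] Dir m K)) = _
    rw [tensor_shift_v_tmul, tensor_shift_coe_sum]
  refine tensor_shift_conj V.conjStarAlgEquiv _ _ ?_ ?_
  · rintro T ⟨x, hx, y, hy, hT⟩
    set X := e.symm ⟨x, hx⟩ with hX
    have hxX : x = ((e X : Elt N') : Dir m H →L[ℂ] Dir m H) := by
      rw [hX, e.apply_symm_apply]
    refine ⟨Fin m × Fin m, Finset.univ, fun p => tensor_shift_op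
      ((X p.1 p.2 : Elt N) : H →L[ℂ] H)
      ((f (Matrix.single p.1 p.2 ⟨y, hy⟩) : Elt M') : Dir m K →L[ℂ] Dir m K), ?_, ?_⟩
    · intro p _
      exact ⟨_, (X p.1 p.2).2, _, (f (Matrix.single p.1 p.2 ⟨y, hy⟩)).2, fun h k =>
        tensor_shift_op_tmul _ _ h k⟩
    · have key : ∀ z, V (T z) = (∑ p : Fin m × Fin m, tensor_shift_op
          ((X p.1 p.2 : Elt N) : H →L[ℂ] H)
          ((f (Matrix.single p.1 p.2 ⟨y, hy⟩) : Elt M') : Dir m K →L[ℂ] Dir m K)) (V z) := by
        have hext := tensor_shift_ext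
          ((V.toContinuousLinearEquiv : UniformSpace.Completion (Dir m H ⊗[ℂ] K) →L[ℂ]
            UniformSpace.Completion (H ⊗[ℂ] Dir m K)) ∘L T)
          ((∑ p : Fin m × Fin m, tensor_shift_op
            ((X p.1 p.2 : Elt N) : H →L[ℂ] H)
            ((f (Matrix.single p.1 p.2 ⟨y, hy⟩) : Elt M') : Dir m K →L[ℂ] Dir m K)) ∘L
            (V.toContinuousLinearEquiv : UniformSpace.Completion (Dir m H ⊗[ℂ] K) →L[ℂ]
              UniformSpace.Completion (H ⊗[ℂ] Dir m K))) ?_
        · intro z
          exact DFunLike.congr_fun hext z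
        · intro g k
          change V (T ((g ⊗ₜ[ℂ] k : Dir m H ⊗[ℂ] K) :
            UniformSpace.Completion (Dir m H ⊗[ℂ] K))) = (∑ p : Fin m × Fin m, tensor_shift_op
            ((X p.1 p.2 : Elt N) : H →L[ℂ] H)
            ((f (Matrix.single p.1 p.2 ⟨y, hy⟩) : Elt M') : Dir m K →L[ℂ] Dir m K))
            (V ((g ⊗ₜ[ℂ] k : Dir m H ⊗[ℂ] K) : UniformSpace.Completion (Dir m H ⊗[ℂ] K)))
          rw [hT g k, hVt, hVt, ContinuousLinearMap.sum_apply, Fintype.sum_prod_type]
          refine Finset.sum_congr rfl fun i _ => ?_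
          have e1 : (x g) i = ∑ j, ((X i j : Elt N) : H →L[ℂ] H) (g j) := by
            rw [hxX, he]
          rw [e1, TensorProduct.sum_tmul, tensor_shift_coe_sum]
          refine Finset.sum_congr rfl fun j _ => ?_
          rw [map_sum, Finset.sum_eq_single j]
          · rw [tensor_shift_op_tmul, tensor_shift_amp_single hf, tensor_shift_sg_apply,
              if_pos rfl]
          · intro l _ hl
            rw [tensor_shift_op_tmul, tensor_shift_amp_single hf, tensor_shift_sg_apply,
              if_neg (Ne.symm hl), map_zero, map_zero, TensorProduct.tmul_zero,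
              UniformSpace.Completion.coe_zero]
          · intro hi; exact absurd (Finset.mem_univ j) hi
      apply ContinuousLinearMap.ext
      intro z
      rw [LinearIsometryEquiv.conjStarAlgEquiv_apply_apply, key, V.apply_symm_apply]
  · rintro T ⟨a, ha, b, hb, hT⟩
    set B := f.symm ⟨b, hb⟩ with hB
    have hbB : b = ((f B : Elt M') : Dir m K →L[ℂ] Dir m K) := by
      rw [hB, f.apply_symm_apply]
    refine ⟨Fin m × Fin m, Finset.univ, fun p => tensor_shift_op
      ((e (Matrix.single p.1 p.2 ⟨a, ha⟩) : Elt N') : Dir m H →L[ℂ] Dir m H)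
      ((B p.1 p.2 : Elt M) : K →L[ℂ] K), ?_, ?_⟩
    · intro p _
      exact ⟨_, (e (Matrix.single p.1 p.2 ⟨a, ha⟩)).2, _, (B p.1 p.2).2, fun h k =>
        tensor_shift_op_tmul _ _ h k⟩
    · have key : ∀ z, T (V z) = V ((∑ p : Fin m × Fin m, tensor_shift_op
          ((e (Matrix.single p.1 p.2 ⟨a, ha⟩) : Elt N') : Dir m H →L[ℂ] Dir m H)
          ((B p.1 p.2 : Elt M) : K →L[ℂ] K)) z) := by
        have hext := tensor_shift_ext
          (T ∘L (V.toContinuousLinearEquiv : UniformSpace.Completion (Dir m H ⊗[ℂ] K) →L[ℂ]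
            UniformSpace.Completion (H ⊗[ℂ] Dir m K)))
          ((V.toContinuousLinearEquiv : UniformSpace.Completion (Dir m H ⊗[ℂ] K) →L[ℂ]
              UniformSpace.Completion (H ⊗[ℂ] Dir m K)) ∘L
            (∑ p : Fin m × Fin m, tensor_shift_op
            ((e (Matrix.single p.1 p.2 ⟨a, ha⟩) : Elt N') : Dir m H →L[ℂ] Dir m H)
            ((B p.1 p.2 : Elt M) : K →L[ℂ] K))) ?_
        · intro z
          exact DFunLike.congr_fun hext z
        · intro g k
          change T (V ((g ⊗ₜ[ℂ] k : Dir m H ⊗[ℂ] K) :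
            UniformSpace.Completion (Dir m H ⊗[ℂ] K))) = V ((∑ p : Fin m × Fin m, tensor_shift_op
            ((e (Matrix.single p.1 p.2 ⟨a, ha⟩) : Elt N') : Dir m H →L[ℂ] Dir m H)
            ((B p.1 p.2 : Elt M) : K →L[ℂ] K))
            ((g ⊗ₜ[ℂ] k : Dir m H ⊗[ℂ] K) : UniformSpace.Completion (Dir m H ⊗[ℂ] K)))
          rw [hVt, map_sum, ContinuousLinearMap.sum_apply, map_sum, Fintype.sum_prod_type,
            Finset.sum_comm]
          refine Finset.sum_congr rfl fun j _ => ?_
          have e1 : b (tensor_shift_sg j k) =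
              ∑ i, tensor_shift_sg i (((B i j : Elt M) : K →L[ℂ] K) k) := by
            rw [hbB, tensor_shift_amp_sg hf]
          rw [hT, e1, TensorProduct.tmul_sum, tensor_shift_coe_sum]
          refine Finset.sum_congr rfl fun i _ => ?_
          rw [tensor_shift_op_tmul, tensor_shift_amp_single he, hVt, Finset.sum_eq_single i]
          · rw [tensor_shift_sg_apply, if_pos rfl]
          · intro l _ hl
            rw [tensor_shift_sg_apply, if_neg hl, TensorProduct.zero_tmul,
              UniformSpace.Completion.coe_zero]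
          · intro hi; exact absurd (Finset.mem_univ i) hi
      apply ContinuousLinearMap.ext
      intro z
      rw [LinearIsometryEquiv.symm_conjStarAlgEquiv_apply_apply, key, V.symm_apply_apply]

end Pool.Agent.Helper436.AD
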