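import Mathlib
import Pool.Agent.Helper436.AD.Base
import Pool.Agent.Helper436.SM.Transfer

set_option autoImplicit false
set_option linter.unusedSectionVars false

open scoped Topology
open Filter

namespace Pool.Agent.Helper436.AD

open Pool.Agent.Helper278 Pool.Agent.Helper436.SM

universe u v w

theorem Tm.ev_map_aux {ι : Type} {A : Type u} [Ring A] [StarRing A] [Algebra ℂ A] {B : Type v}
    [Ring B] [StarRing B] [Algebra ℂ B] (e : A →⋆ₐ[ℂ] B) (x : ι → A) (t : Tm ι) :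
    t.ev (fun j => e (x j)) = e (t.ev x) := by
  induction t with
  | var i => rfl
  | one => exact (map_one e).symm
  | star t ih =>
    simp only [Tm.ev]
    rw [ih, map_star]
  | mul s t ihs iht =>
    simp only [Tm.ev]
    rw [ihs, iht, map_mul]
  | add s t ihs iht =>
    simp only [Tm.ev]
    rw [ihs, iht, map_add]
  | smul c t ih =>
    simp only [Tm.ev]
    rw [ih, map_smul]

/-- JOB: the three theorems. -/
theorem Fm.ev_map {ι : Type} {A : Type u} [Ring A] [StarRing A] [Algebra ℂ A] {B : Type v} [Ring B]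
    [StarRing B] [Algebra ℂ B] (e : A →⋆ₐ[ℂ] B) {φ : A → ℂ} {ψ : B → ℂ}
    (he : ∀ x, ψ (e x) = φ x) (x : ι → A) (f : Fm ι) :
    f.ev ψ (fun j => e (x j)) = f.ev φ x := by
  induction f with
  | n2s t =>
    simp only [Fm.ev, AD.n2s]
    rw [Tm.ev_map_aux e x t, ← map_star, ← map_mul, he]
  | trs t =>
    simp only [Fm.ev]
    rw [Tm.ev_map_aux e x t, he]
  | op H hH f g ihf ihg =>
    simp only [Fm.ev]
    rw [ihf, ihg]

theorem Tm.ev_pi {ι : Type} {I : Type w} {A : Type} [CStarAlgebra A] {τ : A → ℂ}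
    {Q : Type w} [Ring Q] [StarRing Q] [Algebra ℂ Q] {U : Ultrafilter I} {π : (I → A) → Q}
    {φ : Q → ℂ} (h : CE.IsTracialUltrapower τ U π φ) (x : ι → I → A)
    (hx : ∀ j, CE.BddFam (x j)) (t : Tm ι) :
    CE.BddFam (fun i => t.ev (fun j => x j i)) ∧
      π (fun i => t.ev (fun j => x j i)) = t.ev (fun j => π (x j)) := by
  induction t with
  | var i => exact ⟨hx i, rfl⟩
  | one =>
    refine ⟨⟨‖(1 : A)‖, fun i => le_rfl⟩, ?_⟩
    simp only [Tm.ev]
    exact h.quot.one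
  | star t ih =>
    obtain ⟨⟨C, hC⟩, h2⟩ := ih
    refine ⟨⟨C, fun i => ?_⟩, ?_⟩
    · simp only [Tm.ev]
      rw [norm_star]
      exact hC i
    · simp only [Tm.ev]
      rw [h.quot.star _ ⟨C, hC⟩, h2]
  | mul s t ihs iht =>
    obtain ⟨⟨C, hC⟩, h2⟩ := ihs
    obtain ⟨⟨C', hC'⟩, h2'⟩ := iht
    refine ⟨⟨C * C', fun i => ?_⟩, ?_⟩
    · simp only [Tm.ev]
      exact (norm_mul_le _ _).trans (mul_le_mul (hC i) (hC' i) (norm_nonneg _)
        ((norm_nonneg _).trans (hC i)))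
    · simp only [Tm.ev]
      rw [h.quot.mul _ _ ⟨C, hC⟩ ⟨C', hC'⟩, h2, h2']
  | add s t ihs iht =>
    obtain ⟨⟨C, hC⟩, h2⟩ := ihs
    obtain ⟨⟨C', hC'⟩, h2'⟩ := iht
    refine ⟨⟨C + C', fun i => ?_⟩, ?_⟩
    · simp only [Tm.ev]
      exact (norm_add_le _ _).trans (add_le_add (hC i) (hC' i))
    · simp only [Tm.ev]
      rw [h.quot.add _ _ ⟨C, hC⟩ ⟨C', hC'⟩, h2, h2']
  | smul c t ih =>
    obtain ⟨⟨C, hC⟩, h2⟩ := ih
    refine ⟨⟨‖c‖ * C, fun i => ?_⟩, ?_⟩
    · simp only [Tm.ev]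
      rw [norm_smul]
      exact mul_le_mul_of_nonneg_left (hC i) (norm_nonneg _)
    · simp only [Tm.ev]
      rw [h.quot.smul c _ ⟨C, hC⟩, h2]

/-- Łoś for quantifier free formulas -/
theorem Fm.tendsto {ι : Type} {I : Type w} {A : Type} [CStarAlgebra A] {τ : A → ℂ}
    {Q : Type w} [Ring Q] [StarRing Q] [Algebra ℂ Q] {U : Ultrafilter I} {π : (I → A) → Q}
    {φ : Q → ℂ} (h : CE.IsTracialUltrapower τ U π φ) (x : ι → I → A)
    (hx : ∀ j, CE.BddFam (x j)) (f : Fm ι) :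
    Tendsto (fun i => f.ev τ (fun j => x j i)) U (𝓝 (f.ev φ (fun j => π (x j)))) := by
  induction f with
  | n2s t =>
    simp only [Fm.ev, AD.n2s]
    obtain ⟨hb, he⟩ := Tm.ev_pi h x hx t
    have hbs : CE.BddFam (fun i => Star.star (t.ev (fun j => x j i))) := by
      obtain ⟨C, hC⟩ := hb
      exact ⟨C, fun i => by rw [norm_star]; exact hC i⟩
    have hbm : CE.BddFam (fun i => Star.star (t.ev (fun j => x j i)) * t.ev (fun j => x j i)) := by
      obtain ⟨C, hC⟩ := hb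
      obtain ⟨C', hC'⟩ := hbs
      exact ⟨C' * C, fun i => (norm_mul_le _ _).trans (mul_le_mul (hC' i) (hC i) (norm_nonneg _)
        ((norm_nonneg _).trans (hC' i)))⟩
    have h1 := h.trace _ hbm
    rw [h.quot.mul _ _ hbs hb, h.quot.star _ hb, he] at h1
    exact (Complex.continuous_re.tendsto _).comp h1
  | trs t =>
    simp only [Fm.ev]
    obtain ⟨hb, he⟩ := Tm.ev_pi h x hx t
    have h1 := h.trace _ hb
    rw [he] at h1
    exact h1.norm.pow 2
  | op H hH f g ihf ihg =>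
    simp only [Fm.ev]
    exact (hH.tendsto (f.ev φ (fun j => π (x j)), g.ev φ (fun j => π (x j)))).comp
      (ihf.prodMk_nhds ihg)

end Pool.Agent.Helper436.AD
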