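import Mathlib
import Pool.Agent.Helper436.AD.Sat

set_option autoImplicit false
set_option linter.unusedSectionVars false

namespace Pool.Agent.Helper436.AD

open Pool.Agent.Helper278

section uc

variable {A : Type} [Ring A] [StarRing A] [Algebra ℂ A] [StarModule ℂ A] {τ : A →ₗ[ℂ] ℂ}

theorem uc_one (h : TrAlg τ) : n2 τ (1 : A) = 1 := by
  unfold n2
  rw [star_one, one_mul, h.one]
  simp

theorem uc_smul (h : TrAlg τ) (c : ℂ) (x : A) : n2 τ (c • x) = ‖c‖ * n2 τ x := by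
  have h1 : n2 τ (c • x) ^ 2 = (‖c‖ * n2 τ x) ^ 2 := by
    rw [h.n2_sq, mul_pow, h.n2_sq, star_smul, smul_mul_smul_comm, map_smul, smul_eq_mul]
    have e : star c * c = ((‖c‖ ^ 2 : ℝ) : ℂ) := by
      rw [Complex.star_def, ← Complex.normSq_eq_conj_mul_self, Complex.normSq_eq_norm_sq]
    rw [e, Complex.re_ofReal_mul]
  exact (pow_left_inj₀ (n2_nonneg _ _) (mul_nonneg (norm_nonneg _) (n2_nonneg _ _))
    two_ne_zero).1 h1

theorem uc_ul (u a : A) (hu : u ∈ unitary A) : n2 τ (u * a) = n2 τ a := by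
  unfold n2
  have e : star (u * a) * (u * a) = star a * a := by
    rw [star_mul, mul_assoc, ← mul_assoc (star u), hu.1, one_mul]
  rw [e]

theorem uc_ur (h : TrAlg τ) (u a : A) (hu : u ∈ unitary A) : n2 τ (a * u) = n2 τ a := by
  unfold n2
  have e : τ (star (a * u) * (a * u)) = τ (star a * a) := by
    rw [star_mul, mul_assoc, h.comm, ← mul_assoc, mul_assoc _ u, hu.2, mul_one]
  rw [e]

end uc

theorem uc_a {ι : Type} (t : Tm ι) : ∃ C : ℝ, 0 ≤ C ∧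
    ∀ (A : Type) [Ring A] [StarRing A] [Algebra ℂ A] [StarModule ℂ A]
      (τ : A →ₗ[ℂ] ℂ), TrAlg τ → ∀ x : ι → A, (∀ i, x i ∈ unitary A) → ∀ a : A,
      n2 τ (t.ev x * a) ≤ C * n2 τ a ∧ n2 τ (a * t.ev x) ≤ C * n2 τ a := by
  induction t with
  | var i =>
    refine ⟨1, zero_le_one, ?_⟩
    intro A _ _ _ _ τ h x hx a
    rw [one_mul]
    exact ⟨(uc_ul (τ := τ) (x i) a (hx i)).le, (uc_ur h (x i) a (hx i)).le⟩
  | one =>
    refine ⟨1, zero_le_one, ?_⟩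
    intro A _ _ _ _ τ h x hx a
    show n2 τ (1 * a) ≤ _ ∧ n2 τ (a * 1) ≤ _
    rw [one_mul, one_mul, mul_one]
    exact ⟨le_rfl, le_rfl⟩
  | star t ih =>
    obtain ⟨C, hC, h1⟩ := ih
    refine ⟨C, hC, ?_⟩
    intro A _ _ _ _ τ h x hx a
    show n2 τ (Star.star (t.ev x) * a) ≤ _ ∧ n2 τ (a * Star.star (t.ev x)) ≤ _
    have h2 := h1 A τ h x hx (Star.star a)
    rw [h.n2_star] at h2
    constructor
    · rw [← h.n2_star (Star.star (t.ev x) * a), star_mul, star_star]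
      exact h2.2
    · rw [← h.n2_star (a * Star.star (t.ev x)), star_mul, star_star]
      exact h2.1
  | mul s t ihs iht =>
    obtain ⟨C, hC, h1⟩ := ihs
    obtain ⟨C', hC', h2⟩ := iht
    refine ⟨C * C', mul_nonneg hC hC', ?_⟩
    intro A _ _ _ _ τ h x hx a
    show n2 τ (s.ev x * t.ev x * a) ≤ _ ∧ n2 τ (a * (s.ev x * t.ev x)) ≤ _
    constructor
    · rw [mul_assoc]
      calc n2 τ (s.ev x * (t.ev x * a)) ≤ C * n2 τ (t.ev x * a) := (h1 A τ h x hx _).1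
        _ ≤ C * (C' * n2 τ a) := mul_le_mul_of_nonneg_left (h2 A τ h x hx _).1 hC
        _ = C * C' * n2 τ a := by ring
    · rw [← mul_assoc]
      calc n2 τ (a * s.ev x * t.ev x) ≤ C' * n2 τ (a * s.ev x) := (h2 A τ h x hx _).2
        _ ≤ C' * (C * n2 τ a) := mul_le_mul_of_nonneg_left (h1 A τ h x hx _).2 hC'
        _ = C * C' * n2 τ a := by ring
  | add s t ihs iht =>
    obtain ⟨C, hC, h1⟩ := ihs
    obtain ⟨C', hC', h2⟩ := iht
    refine ⟨C + C', add_nonneg hC hC', ?_⟩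
    intro A _ _ _ _ τ h x hx a
    show n2 τ ((s.ev x + t.ev x) * a) ≤ _ ∧ n2 τ (a * (s.ev x + t.ev x)) ≤ _
    have e1 := h1 A τ h x hx a
    have e2 := h2 A τ h x hx a
    constructor
    · rw [add_mul]
      have := h.n2_add_le (s.ev x * a) (t.ev x * a)
      linarith [e1.1, e2.1]
    · rw [mul_add]
      have := h.n2_add_le (a * s.ev x) (a * t.ev x)
      linarith [e1.2, e2.2]
  | smul c t ih =>
    obtain ⟨C, hC, h1⟩ := ih
    refine ⟨‖c‖ * C, mul_nonneg (norm_nonneg _) hC, ?_⟩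
    intro A _ _ _ _ τ h x hx a
    show n2 τ ((c • t.ev x) * a) ≤ _ ∧ n2 τ (a * (c • t.ev x)) ≤ _
    have e1 := h1 A τ h x hx a
    rw [smul_mul_assoc, mul_smul_comm, uc_smul h, uc_smul h, mul_assoc]
    exact ⟨mul_le_mul_of_nonneg_left e1.1 (norm_nonneg _),
      mul_le_mul_of_nonneg_left e1.2 (norm_nonneg _)⟩

theorem uc_b {ι : Type} (t : Tm ι) : ∃ L : ℝ, 0 ≤ L ∧
    ∀ (A : Type) [Ring A] [StarRing A] [Algebra ℂ A] [StarModule ℂ A]
      (τ : A →ₗ[ℂ] ℂ), TrAlg τ → ∀ x y : ι → A, (∀ i, x i ∈ unitary A) →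
      (∀ i, y i ∈ unitary A) → ∀ δ : ℝ, 0 ≤ δ → (∀ i, n2 τ (x i - y i) ≤ δ) →
      n2 τ (t.ev x - t.ev y) ≤ L * δ := by
  induction t with
  | var i =>
    refine ⟨1, zero_le_one, ?_⟩
    intro A _ _ _ _ τ h x y hx hy δ hδ hd
    rw [one_mul]
    exact hd i
  | one =>
    refine ⟨0, le_rfl, ?_⟩
    intro A _ _ _ _ τ h x y hx hy δ hδ hd
    show n2 τ ((1 : A) - 1) ≤ _
    rw [sub_self, h.n2_zero, zero_mul]
  | star t ih =>
    obtain ⟨L, hL, h1⟩ := ih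
    refine ⟨L, hL, ?_⟩
    intro A _ _ _ _ τ h x y hx hy δ hδ hd
    show n2 τ (Star.star (t.ev x) - Star.star (t.ev y)) ≤ _
    rw [← star_sub, h.n2_star]
    exact h1 A τ h x y hx hy δ hδ hd
  | mul s t ihs iht =>
    obtain ⟨L, hL, h1⟩ := ihs
    obtain ⟨L', hL', h2⟩ := iht
    obtain ⟨C, hC, c1⟩ := uc_a s
    obtain ⟨C', hC', c2⟩ := uc_a t
    refine ⟨C * L' + C' * L, by positivity, ?_⟩
    intro A _ _ _ _ τ h x y hx hy δ hδ hd
    show n2 τ (s.ev x * t.ev x - s.ev y * t.ev y) ≤ _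
    have e : s.ev x * t.ev x - s.ev y * t.ev y =
        s.ev x * (t.ev x - t.ev y) + (s.ev x - s.ev y) * t.ev y := by noncomm_ring
    rw [e]
    have a1 := (c1 A τ h x hx (t.ev x - t.ev y)).1
    have a2 := (c2 A τ h y hy (s.ev x - s.ev y)).2
    have a3 := mul_le_mul_of_nonneg_left (h2 A τ h x y hx hy δ hδ hd) hC
    have a4 := mul_le_mul_of_nonneg_left (h1 A τ h x y hx hy δ hδ hd) hC'
    have a5 := h.n2_add_le (s.ev x * (t.ev x - t.ev y)) ((s.ev x - s.ev y) * t.ev y)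
    calc n2 τ (s.ev x * (t.ev x - t.ev y) + (s.ev x - s.ev y) * t.ev y)
        ≤ C * (L' * δ) + C' * (L * δ) := by linarith
      _ = (C * L' + C' * L) * δ := by ring
  | add s t ihs iht =>
    obtain ⟨L, hL, h1⟩ := ihs
    obtain ⟨L', hL', h2⟩ := iht
    refine ⟨L + L', add_nonneg hL hL', ?_⟩
    intro A _ _ _ _ τ h x y hx hy δ hδ hd
    show n2 τ (s.ev x + t.ev x - (s.ev y + t.ev y)) ≤ _
    rw [add_sub_add_comm]
    have a5 := h.n2_add_le (s.ev x - s.ev y) (t.ev x - t.ev y)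
    have a3 := h2 A τ h x y hx hy δ hδ hd
    have a4 := h1 A τ h x y hx hy δ hδ hd
    rw [add_mul]
    linarith
  | smul c t ih =>
    obtain ⟨L, hL, h1⟩ := ih
    refine ⟨‖c‖ * L, mul_nonneg (norm_nonneg _) hL, ?_⟩
    intro A _ _ _ _ τ h x y hx hy δ hδ hd
    show n2 τ (c • t.ev x - c • t.ev y) ≤ _
    rw [← smul_sub, uc_smul h, mul_assoc]
    exact mul_le_mul_of_nonneg_left (h1 A τ h x y hx hy δ hδ hd) (norm_nonneg _)

theorem uc_n2 {ι : Type} (t : Tm ι) : ∃ C : ℝ, 0 ≤ C ∧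
    ∀ (A : Type) [Ring A] [StarRing A] [Algebra ℂ A] [StarModule ℂ A]
      (τ : A →ₗ[ℂ] ℂ), TrAlg τ → ∀ x : ι → A, (∀ i, x i ∈ unitary A) → n2 τ (t.ev x) ≤ C := by
  obtain ⟨C, hC, h1⟩ := uc_a t
  refine ⟨C, hC, ?_⟩
  intro A _ _ _ _ τ h x hx
  have := (h1 A τ h x hx 1).1
  rwa [mul_one, uc_one h, mul_one] at this

theorem uc_tr {A : Type} [Ring A] [StarRing A] [Algebra ℂ A] [StarModule ℂ A] {τ : A →ₗ[ℂ] ℂ}
    (h : TrAlg τ) (a : A) : ‖τ a‖ ≤ n2 τ a := by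
  have := h.cauchy 1 a
  rwa [star_one, one_mul, uc_one h, one_mul] at this

theorem uc_n2s {A : Type} [Ring A] [StarRing A] [Algebra ℂ A] [StarModule ℂ A] {τ : A →ₗ[ℂ] ℂ}
    (h : TrAlg τ) (a : A) : AD.n2s τ a = n2 τ a ^ 2 := (h.n2_sq a).symm

theorem uc_sq (u v C e : ℝ) (hu : 0 ≤ u) (hv : 0 ≤ v) (hu' : u ≤ C) (hv' : v ≤ C)
    (h : |u - v| ≤ e) : |u ^ 2 - v ^ 2| ≤ 2 * C * e := by
  have h1 : u ^ 2 - v ^ 2 = (u - v) * (u + v) := by ring
  rw [h1, abs_mul, abs_of_nonneg (add_nonneg hu hv)]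
  have h0 : 0 ≤ e := (abs_nonneg _).trans h
  calc |u - v| * (u + v) ≤ e * (C + C) := by
        apply mul_le_mul h (by linarith) (by linarith) h0
    _ = 2 * C * e := by ring

theorem uc_main {ι : Type} (f : Fm ι) :
    (∃ B : ℝ, 0 ≤ B ∧ ∀ (A : Type) [Ring A] [StarRing A] [Algebra ℂ A] [StarModule ℂ A]
      (τ : A →ₗ[ℂ] ℂ), TrAlg τ → ∀ x : ι → A, (∀ i, x i ∈ unitary A) → |f.ev τ x| ≤ B) ∧
    ∀ ε : ℝ, 0 < ε →
    ∃ δ : ℝ, 0 < δ ∧ ∀ (A : Type) [Ring A] [StarRing A] [Algebra ℂ A] [StarModule ℂ A]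
      (τ : A →ₗ[ℂ] ℂ), TrAlg τ → ∀ x y : ι → A, (∀ i, x i ∈ unitary A) → (∀ i, y i ∈ unitary A) →
      (∀ i, n2 τ (x i - y i) ≤ δ) → |f.ev τ x - f.ev τ y| ≤ ε := by
  induction f with
  | n2s t =>
    obtain ⟨C, hC, c1⟩ := uc_n2 t
    obtain ⟨L, hL, l1⟩ := uc_b t
    refine ⟨⟨C ^ 2, by positivity, ?_⟩, ?_⟩
    · intro A _ _ _ _ τ h x hx
      show |AD.n2s τ (t.ev x)| ≤ _
      rw [uc_n2s h, abs_of_nonneg (by positivity)]
      exact pow_le_pow_left₀ (n2_nonneg _ _) (c1 A τ h x hx) 2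
    · intro ε hε
      refine ⟨ε / (2 * C * L + 1), by positivity, ?_⟩
      intro A _ _ _ _ τ h x y hx hy hd
      show |AD.n2s τ (t.ev x) - AD.n2s τ (t.ev y)| ≤ _
      rw [uc_n2s h, uc_n2s h]
      have e1 := l1 A τ h x y hx hy _ (by positivity) hd
      have e2 : |n2 τ (t.ev x) - n2 τ (t.ev y)| ≤ L * (ε / (2 * C * L + 1)) := by
        refine le_trans ?_ e1
        rw [abs_sub_le_iff]
        constructor
        · have := h.n2_add_le (t.ev x - t.ev y) (t.ev y)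
          rw [sub_add_cancel] at this
          linarith
        · have := h.n2_add_le (t.ev y - t.ev x) (t.ev x)
          rw [sub_add_cancel, h.n2_sub_comm] at this
          linarith
      refine (uc_sq _ _ C _ (n2_nonneg _ _) (n2_nonneg _ _) (c1 A τ h x hx) (c1 A τ h y hy)
        e2).trans ?_
      rw [← mul_assoc, ← mul_div_assoc, div_le_iff₀ (by positivity)]
      nlinarith [mul_nonneg hC hL]
  | trs t =>
    obtain ⟨C, hC, c1⟩ := uc_n2 t
    obtain ⟨L, hL, l1⟩ := uc_b t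
    refine ⟨⟨C ^ 2, by positivity, ?_⟩, ?_⟩
    · intro A _ _ _ _ τ h x hx
      show |‖τ (t.ev x)‖ ^ 2| ≤ _
      rw [abs_of_nonneg (by positivity)]
      exact pow_le_pow_left₀ (norm_nonneg _) ((uc_tr h _).trans (c1 A τ h x hx)) 2
    · intro ε hε
      refine ⟨ε / (2 * C * L + 1), by positivity, ?_⟩
      intro A _ _ _ _ τ h x y hx hy hd
      show |‖τ (t.ev x)‖ ^ 2 - ‖τ (t.ev y)‖ ^ 2| ≤ _
      have e1 := l1 A τ h x y hx hy _ (by positivity) hd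
      have e2 : |‖τ (t.ev x)‖ - ‖τ (t.ev y)‖| ≤ L * (ε / (2 * C * L + 1)) := by
        refine le_trans ?_ e1
        refine (abs_norm_sub_norm_le _ _).trans ?_
        rw [← map_sub]
        exact uc_tr h _
      refine (uc_sq _ _ C _ (norm_nonneg _) (norm_nonneg _) ((uc_tr h _).trans (c1 A τ h x hx))
        ((uc_tr h _).trans (c1 A τ h y hy)) e2).trans ?_
      rw [← mul_assoc, ← mul_div_assoc, div_le_iff₀ (by positivity)]
      nlinarith [mul_nonneg hC hL]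
  | op H hH f g ihf ihg =>
    obtain ⟨⟨B, hB, b1⟩, d1⟩ := ihf
    obtain ⟨⟨B', hB', b2⟩, d2⟩ := ihg
    have hK : IsCompact (Set.Icc (-B) B ×ˢ Set.Icc (-B') B') :=
      isCompact_Icc.prod isCompact_Icc
    have hmem : ∀ (A : Type) [Ring A] [StarRing A] [Algebra ℂ A] [StarModule ℂ A]
        (τ : A →ₗ[ℂ] ℂ), TrAlg τ → ∀ x : ι → A, (∀ i, x i ∈ unitary A) →
        (f.ev τ x, g.ev τ x) ∈ Set.Icc (-B) B ×ˢ Set.Icc (-B') B' := by
      intro A _ _ _ _ τ h x hx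
      exact ⟨abs_le.1 (b1 A τ h x hx), abs_le.1 (b2 A τ h x hx)⟩
    refine ⟨?_, ?_⟩
    · obtain ⟨M, hM⟩ := hK.exists_bound_of_continuousOn hH.continuousOn
      refine ⟨|M|, abs_nonneg _, ?_⟩
      intro A _ _ _ _ τ h x hx
      have := hM _ (hmem A τ h x hx)
      exact this.trans (le_abs_self M)
    · intro ε hε
      have huc := hK.uniformContinuousOn_of_continuous hH.continuousOn
      rw [Metric.uniformContinuousOn_iff] at huc
      obtain ⟨η, hη, huc'⟩ := huc ε hε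
      obtain ⟨δ, hδ, e1⟩ := d1 (η / 2) (by positivity)
      obtain ⟨δ', hδ', e2⟩ := d2 (η / 2) (by positivity)
      refine ⟨min δ δ', lt_min hδ hδ', ?_⟩
      intro A _ _ _ _ τ h x y hx hy hd
      have a1 := e1 A τ h x y hx hy (fun i => (hd i).trans (min_le_left _ _))
      have a2 := e2 A τ h x y hx hy (fun i => (hd i).trans (min_le_right _ _))
      have a3 := huc' _ (hmem A τ h x hx) _ (hmem A τ h y hy) (by
        rw [Prod.dist_eq, max_lt_iff, Real.dist_eq, Real.dist_eq]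
        constructor
        · exact lt_of_le_of_lt a1 (by linarith)
        · exact lt_of_le_of_lt a2 (by linarith))
      rw [Real.dist_eq] at a3
      exact a3.le

/-- JOB: formulas are uniformly continuous on unitaries, uniformly over all tracial algebras. -/
theorem Fm.ucont {ι : Type} [Finite ι] (f : Fm ι) (ε : ℝ) (hε : 0 < ε) :
    ∃ δ : ℝ, 0 < δ ∧ ∀ (A : Type) [Ring A] [StarRing A] [Algebra ℂ A] [StarModule ℂ A]
      (τ : A →ₗ[ℂ] ℂ), TrAlg τ → ∀ x y : ι → A, (∀ i, x i ∈ unitary A) → (∀ i, y i ∈ unitary A) →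
      (∀ i, n2 τ (x i - y i) ≤ δ) → |f.ev τ x - f.ev τ y| ≤ ε :=
  (uc_main f).2 ε hε

end Pool.Agent.Helper436.AD
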