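import Mathlib
import Pool.Agent.Helper278.DefsG
import Pool.Agent.Helper278.CEMod
import Pool.Agent.Helper278.HU.H3
import Pool.Agent.Helper278.HU.H5
import Pool.Agent.Helper278.HU.H6
import Pool.Agent.Helper278.HU.H7
import Pool.Agent.Helper278.HU.H8
import Pool.Agent.Helper278.HU.H9
import Pool.Agent.Helper436.SN.StmtG
import Pool.Agent.Helper436.AD.Sat
import Pool.Agent.Helper436.AD.LFF
import Pool.Agent.Helper436.AD.T2
import Pool.Agent.Helper436.AD.Los

set_option autoImplicit false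
set_option linter.unusedSectionVars false

open scoped InnerProductSpace ComplexOrder Topology
open Filter

namespace Pool.Agent.Helper436.AD

open Pool.Agent.Helper278 Pool.Agent.Helper436.SM Pool.Agent.Helper436.SN

/-- what is needed from the (nonseparable) ultraproduct of the algebras `M_{8^k}` -/
structure Big {A : Type} [Ring A] [StarRing A] [Algebra ℂ A] [StarModule ℂ A]
    (φ : A →ₗ[ℂ] ℂ) : Prop where
  tr : TrAlg φ
  bdd : ∀ a : A, ∃ C : ℝ, ∀ b, n2 φ (a * b) ≤ C * n2 φ b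
  polar : ∀ x : A, ∃ v ∈ unitary A, ∃ b : A, x = v * (star b * b)
  polar3 : ∀ x : Matrix (Fin 3) (Fin 3) A, ∃ v ∈ unitary (Matrix (Fin 3) (Fin 3) A),
    ∃ b : Matrix (Fin 3) (Fin 3) A, x = v * (star b * b)
  sat : ∃ p : Fin 13 → A, UU Set.univ p ∧ ∀ w : Fin 6 → A, UU Set.univ w →
    ∃ z : Fin 2 → A, UU Set.univ z ∧ FF (10 ^ 8) φ p w z ≤ 0
  unsat : ∃ c : ℝ, 0 < c ∧ ∀ p : Fin 13 → Matrix (Fin 3) (Fin 3) A, UU Set.univ p →
    ∃ w : Fin 6 → Matrix (Fin 3) (Fin 3) A, UU Set.univ w ∧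
      ∀ z : Fin 2 → Matrix (Fin 3) (Fin 3) A, UU Set.univ z → c ≤ FF (10 ^ 8) (mtr 3 φ) p w z
  gap : ∃ g : Fin 5 → A, (∀ l, g l ∈ unitary A) ∧
    ∀ x, n2 φ (x - φ x • (1 : A)) ≤ 20 * ∑ l, n2 φ (g l * x - x * g l)
  inf : ∃ W : ℕ → A, (∀ i, W i ∈ unitary A) ∧ ∀ i j, i ≠ j → φ (star (W i) * W j) = 0

end Pool.Agent.Helper436.AD

namespace Pool.Agent.Helper278.HU

open Pool.Agent.Helper278.CE Pool.Agent.Helper436.AD Pool.Agent.Helper436.SM Pool.Agent.Helper436.SN

section restr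

variable {A : Type} [Ring A] [StarRing A] [Algebra ℂ A] [StarModule ℂ A] (φ : A →ₗ[ℂ] ℂ)
  (T : StarSubalgebra ℂ A)

/-- restriction of the trace -/
noncomputable def rs : T →ₗ[ℂ] ℂ where
  toFun a := φ (a : A)
  map_add' a b := by
    show φ ((a : A) + (b : A)) = _
    rw [map_add]
  map_smul' c a := by
    show φ (c • (a : A)) = _
    rw [map_smul]
    rfl

theorem rs_tr (h : TrAlg φ) : TrAlg (rs φ T) where
  one := h.one
  comm x y := h.comm x y
  nonneg x := h.nonneg x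
  conj x := h.conj x
  faithful x hx := Subtype.ext (h.faithful x hx)

theorem n2_rs (a : T) : n2 (rs φ T) a = n2 φ (a : A) := rfl

end restr

theorem asg_map {A B : Type} [Ring A] [StarRing A] [Algebra ℂ A] [Ring B] [StarRing B]
    [Algebra ℂ B] (e : A →⋆ₐ[ℂ] B) (p : Fin 13 → A) (w : Fin 6 → A) (z : Fin 2 → A) :
    asg (fun i => e (p i)) (fun i => e (w i)) (fun i => e (z i)) = fun k => e (asg p w z k) := by
  funext k
  rcases k with k | k | k <;> rfl

theorem ev_asg {A B : Type} [Ring A] [StarRing A] [Algebra ℂ A] [Ring B] [StarRing B]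
    [Algebra ℂ B] (e : A →⋆ₐ[ℂ] B) {φ : A → ℂ} {ψ : B → ℂ} (he : ∀ x, ψ (e x) = φ x)
    (f : Fm Ix3) (p : Fin 13 → A) (w : Fin 6 → A) (z : Fin 2 → A) :
    f.ev ψ (asg (fun i => e (p i)) (fun i => e (w i)) (fun i => e (z i))) =
      f.ev φ (asg p w z) := by
  rw [asg_map, Fm.ev_map e he]

theorem hull_main {A : Type} [Ring A] [StarRing A] [Algebra ℂ A] [StarModule ℂ A] {φ : A →ₗ[ℂ] ℂ}
    (h : Big φ) :
    ∃ (K : Type) (_ : NormedAddCommGroup K) (_ : InnerProductSpace ℂ K) (_ : CompleteSpace K)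
      (P : VonNeumannAlgebra K) (τ : Elt P → ℂ), IsIIOneFactor P τ ∧ IsSeparable τ ∧
      (∀ ε : ℝ, 0 < ε → Sat (fFF (10 ^ 8)) τ ε) ∧
      ∃ c : ℝ, 0 < c ∧ ¬ Sat (fFF (10 ^ 8)) (mtr 3 τ) c := by
  obtain ⟨S, p, c, hc, hG⟩ := exists_good h.polar h.polar3 h.sat h.unsat h.gap h.inf
  obtain ⟨T, hT⟩ := exists_T h.tr h.bdd hG.cl
  have hST : ∀ s ∈ S, s ∈ T := by
    intro s hs
    have : s ∈ (T : Set A) := by
      rw [hT]
      exact sub_closS h.tr S hs
    exact this
  have hTr := rs_tr φ T h.tr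
  have hbT : ∀ a : T, ∃ C : ℝ, ∀ b : T, n2 (rs φ T) (a * b) ≤ C * n2 (rs φ T) b := by
    intro a
    obtain ⟨C, hC⟩ := h.bdd (a : A)
    exact ⟨C, fun b => hC (b : A)⟩
  obtain ⟨K, _, _, _, j, hd, hj⟩ := exists_gns hTr
  set e := LHom hTr hd hj hbT with hee
  have he0 : ∀ a : T, tauL j (e a) = rs φ T a := tauL_LHom hTr hd hj hbT
  have he : ∀ a : T, tauL j (e a) = φ (a : A) := he0
  have ht : TrAlg (tauL j) := tauL_tr hTr hd hj hbT
  have hde : ∀ (X : Elt (MM j)) (ε : ℝ), 0 < ε → ∃ a : T, n2 (tauL j) (X - e a) < ε :=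
    dense_LHom hTr hd hj hbT
  refine ⟨K, inferInstance, inferInstance, inferInstance, MM j, fun X => tauL j X,
    ⟨?_, ?_, ⟨?_, ?_, ?_⟩, ?_⟩, ?_, ?_, ?_⟩
  · intro z hz hcom
    obtain ⟨c', hc'⟩ := center_P h.tr hG hT ht e he hde ⟨z, hz⟩ fun Y =>
      Subtype.ext (hcom _ Y.2)
    exact ⟨c', congrArg Subtype.val hc'⟩
  · exact infinite_P h.tr hG hT ht e he
  · exact ht.one
  · exact ht.comm
  · exact ht.faithful
  · exact normal_vector (MM j) _ (j 1) fun _ => rfl
  · refine ⟨e '' (Subtype.val ⁻¹' S), (hG.countable.preimage Subtype.val_injective).image _, ?_⟩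
    intro X ε hε
    obtain ⟨a, ha⟩ := hde X (ε / 2) (by positivity)
    have hamem : (a : A) ∈ closS φ S := by rw [← hT]; exact a.2
    obtain ⟨s, hs, has⟩ := hamem (ε / 2) (by positivity)
    refine ⟨e ⟨s, hST s hs⟩, ⟨⟨s, hST s hs⟩, hs, rfl⟩, ?_⟩
    show n2 (tauL j) (X - e ⟨s, hST s hs⟩) < ε
    have h1 := ht.n2_tri X (e a) (e ⟨s, hST s hs⟩)
    have h2 : n2 (tauL j) (e a - e ⟨s, hST s hs⟩) = n2 φ ((a : A) - s) := by
      unfold n2
      rw [← map_sub, ← map_star, ← map_mul, he]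
      rfl
    rw [h2] at h1
    linarith
  · refine sat_gen ht {X | ∃ v : T, (v : A) ∈ unitary A ∧ (v : A) ∈ S ∧ X = e v} ?_ ?_
      (fFF (10 ^ 8)) ?_ (fun i => e ⟨p i, hST _ (hG.hp i).2⟩) ?_ ?_
    · rintro _ ⟨v, hv, _, rfl⟩
      refine Unitary.map_mem e ?_
      rw [Unitary.mem_iff] at hv ⊢
      exact ⟨Subtype.ext hv.1, Subtype.ext hv.2⟩
    · intro X hX ε hε
      obtain ⟨v, h1, h2, h3⟩ := dense_U h.tr hG hT ht e he hde X hX ε hε
      exact ⟨e v, ⟨v, h1, h2, rfl⟩, h3⟩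
    · intro ε hε
      obtain ⟨δ, hδ, h1⟩ := Fm.ucont (fFF (10 ^ 8)) ε hε
      exact ⟨δ, hδ, h1 (Elt (MM j)) (tauL j) ht⟩
    · intro i
      refine Unitary.map_mem e ?_
      have hv := (hG.hp i).1
      rw [Unitary.mem_iff] at hv ⊢
      exact ⟨Subtype.ext hv.1, Subtype.ext hv.2⟩
    · intro w hw
      choose v hv1 hv2 hv3 using hw
      obtain ⟨z, hz, hFF⟩ := hG.sat (fun i => (v i : A)) fun i => ⟨hv1 i, hv2 i⟩
      refine ⟨fun i => e ⟨z i, hST _ (hz i).2⟩, ?_, ?_⟩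
      · intro i
        refine Unitary.map_mem e ?_
        have hv := (hz i).1
        rw [Unitary.mem_iff] at hv ⊢
        exact ⟨Subtype.ext hv.1, Subtype.ext hv.2⟩
      · have hw' : w = fun i => e (v i) := funext hv3
        rw [hw', ev_asg e he0 (fFF (10 ^ 8)) (fun i => ⟨p i, hST _ (hG.hp i).2⟩) v
          (fun i => ⟨z i, hST _ (hz i).2⟩)]
        have h1 := ev_asg (T.subtype) (φ := rs φ T) (ψ := φ) (fun _ => rfl) (fFF (10 ^ 8))
          (fun i => ⟨p i, hST _ (hG.hp i).2⟩) v (fun i => ⟨z i, hST _ (hz i).2⟩)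
        rw [← h1, fFF_ev]
        exact hFF
  · have ht3 := mtrL_trAlg ht
    have he3 : ∀ x : Matrix (Fin 3) (Fin 3) T, mtrL (tauL j) (mapM e x) = mtrL (rs φ T) x := by
      intro x
      show mtr 3 _ _ = mtr 3 _ _
      unfold mtr
      simp only [mapM_apply, he0]
    have hs3 : ∀ x : Matrix (Fin 3) (Fin 3) T, mtr 3 φ (mapM T.subtype x) = mtrL (rs φ T) x := by
      intro x
      rfl
    refine ⟨c / 2, by positivity, ?_⟩
    refine unsat_gen ht3 {X | ∃ v : Matrix (Fin 3) (Fin 3) T,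
        mapM T.subtype v ∈ unitary (Matrix (Fin 3) (Fin 3) A) ∧ (∀ a b, (v a b : A) ∈ S) ∧
        X = mapM e v} ?_ ?_ (fFF (10 ^ 8)) ?_ c hc ?_
    · rintro _ ⟨v, hv, _, rfl⟩
      refine Unitary.map_mem (mapM e) ?_
      rw [Unitary.mem_iff] at hv ⊢
      rw [← map_star, ← map_mul, ← map_mul] at hv
      constructor
      · ext a b
        have := congrFun (congrFun hv.1 a) b
        rw [mapM_apply] at this
        have h2 : ((1 : Matrix (Fin 3) (Fin 3) A) a b) =
            (((1 : Matrix (Fin 3) (Fin 3) T) a b : T) : A) := by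
          rw [Matrix.one_apply, Matrix.one_apply]
          split_ifs <;> rfl
        rw [h2] at this
        exact this
      · ext a b
        have := congrFun (congrFun hv.2 a) b
        rw [mapM_apply] at this
        have h2 : ((1 : Matrix (Fin 3) (Fin 3) A) a b) =
            (((1 : Matrix (Fin 3) (Fin 3) T) a b : T) : A) := by
          rw [Matrix.one_apply, Matrix.one_apply]
          split_ifs <;> rfl
        rw [h2] at this
        exact this
    · intro X hX ε hε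
      obtain ⟨v, h1, h2, h3⟩ := dense_U3 h.tr hG hT ht e he hde X hX ε hε
      exact ⟨mapM e v, ⟨v, h1, h2, rfl⟩, h3⟩
    · intro ε hε
      obtain ⟨δ, hδ, h1⟩ := Fm.ucont (fFF (10 ^ 8)) ε hε
      exact ⟨δ, hδ, h1 (Matrix (Fin 3) (Fin 3) (Elt (MM j))) (mtrL (tauL j)) ht3⟩
    · intro q hq
      choose v hv1 hv2 hv3 using hq
      obtain ⟨w, hw, hFF⟩ := hG.unsat (fun i => mapM T.subtype (v i)) fun i => ⟨hv1 i, hv2 i⟩
      let w' : Fin 6 → Matrix (Fin 3) (Fin 3) T := fun i a b => ⟨w i a b, hST _ ((hw i).2 a b)⟩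
      have hw' : ∀ i, mapM T.subtype (w' i) = w i := fun i => rfl
      refine ⟨fun i => mapM e (w' i), ?_, ?_⟩
      · intro i
        refine Unitary.map_mem (mapM e) ?_
        have hv := (hw i).1
        rw [← hw'] at hv
        rw [Unitary.mem_iff] at hv ⊢
        rw [← map_star, ← map_mul, ← map_mul] at hv
        constructor
        · ext a b
          have := congrFun (congrFun hv.1 a) b
          rw [mapM_apply] at this
          have h2 : ((1 : Matrix (Fin 3) (Fin 3) A) a b) =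
              (((1 : Matrix (Fin 3) (Fin 3) T) a b : T) : A) := by
            rw [Matrix.one_apply, Matrix.one_apply]
            split_ifs <;> rfl
          rw [h2] at this
          exact this
        · ext a b
          have := congrFun (congrFun hv.2 a) b
          rw [mapM_apply] at this
          have h2 : ((1 : Matrix (Fin 3) (Fin 3) A) a b) =
              (((1 : Matrix (Fin 3) (Fin 3) T) a b : T) : A) := by
            rw [Matrix.one_apply, Matrix.one_apply]
            split_ifs <;> rfl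
          rw [h2] at this
          exact this
      · intro z hz
        choose y hy1 hy2 hy3 using hz
        have e1 : q = fun i => mapM e (v i) := funext hv3
        have e2 : z = fun i => mapM e (y i) := funext hy3
        rw [e1, e2, ev_asg (mapM e) he3 (fFF (10 ^ 8)) v w' y,
          ← ev_asg (mapM T.subtype) hs3 (fFF (10 ^ 8)) v w' y, fFF_ev]
        exact hFF _ hy1

end Pool.Agent.Helper278.HU

namespace Pool.Agent.Helper436.AD

open Pool.Agent.Helper278 Pool.Agent.Helper436.SM Pool.Agent.Helper436.SN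

/-- the separable hull -/
theorem hull {A : Type} [Ring A] [StarRing A] [Algebra ℂ A] [StarModule ℂ A] {φ : A →ₗ[ℂ] ℂ}
    (h : Big φ) :
    ∃ (K : Type) (_ : NormedAddCommGroup K) (_ : InnerProductSpace ℂ K) (_ : CompleteSpace K)
      (P : VonNeumannAlgebra K) (τ : Elt P → ℂ), IsIIOneFactor P τ ∧ IsSeparable τ ∧
      (∀ ε : ℝ, 0 < ε → Sat (fFF (10 ^ 8)) τ ε) ∧
      ∃ c : ℝ, 0 < c ∧ ¬ Sat (fFF (10 ^ 8)) (mtr 3 τ) c := Pool.Agent.Helper278.HU.hull_main h

end Pool.Agent.Helper436.AD
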