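import Mathlib
import Pool.Agent.Helper436.SM.Main
import Pool.Agent.Helper436.SM.Transfer
import Pool.Agent.Helper436.AD.Sat
import Pool.Agent.Helper436.AD.Los

set_option autoImplicit false
set_option linter.unusedSectionVars false

open scoped Topology
open Filter

namespace Pool.Agent.Helper436.AD

open Pool.Agent.Helper278 Pool.Agent.Helper436.SM

universe w

variable {H K : Type} [NormedAddCommGroup H] [InnerProductSpace ℂ H] [CompleteSpace H]
  [NormedAddCommGroup K] [InnerProductSpace ℂ K] [CompleteSpace K]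

theorem asg_comp {A B : Type*} (g : A → B) (p : Fin 13 → A) (w : Fin 6 → A) (z : Fin 2 → A) :
    (fun j => g (asg p w z j)) = asg (fun j => g (p j)) (fun j => g (w j)) (fun j => g (z j)) := by
  funext j
  rcases j with j | j | j <;> rfl

/- JOB: the three theorems. -/

theorem Sat.up {N : VonNeumannAlgebra H} {T : TracialState N} {I : Type w} {U : Ultrafilter I}
    {Q : Type w} [Ring Q] [StarRing Q] [Algebra ℂ Q] {π : (I → Elt N) → Q} {φ : Q → ℂ}
    (hπ : CE.IsTracialUltrapower (fun x => T.τ x) U π φ) (f : Fm Ix3) {r : ℝ}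
    (h : Sat f (fun x => T.τ x) r) : Sat f φ r := by
  obtain ⟨p, hp, hw⟩ := h
  refine ⟨fun j => π (fun _ => p j), fun j => ⟨pi_unitary hπ (fun _ => (hp j).1), Set.mem_univ _⟩,
    fun W hW => ?_⟩
  choose x hx hxW using fun j => exists_lift hπ (W j) (hW j).1
  choose z hz hzr using fun i => hw (fun j => x j i) (fun j => ⟨hx j i, Set.mem_univ _⟩)
  refine ⟨fun j => π (fun i => z i j), fun j => ⟨pi_unitary hπ (fun i => (hz i j).1),
    Set.mem_univ _⟩, ?_⟩
  have hb : ∀ j : Ix3, CE.BddFam (asg (fun j (_ : I) => p j) x (fun j i => z i j) j) := by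
    intro j
    rcases j with j | j | j
    · exact bdd_un (fun _ => (hp j).1)
    · exact bdd_un (hx j)
    · exact bdd_un (fun i => (hz i j).1)
  have ht := Fm.tendsto hπ (asg (fun j (_ : I) => p j) x (fun j i => z i j)) hb f
  have e1 : (fun j => π (asg (fun j (_ : I) => p j) x (fun j i => z i j) j)) =
      asg (fun j => π (fun _ => p j)) W (fun j => π (fun i => z i j)) := by
    rw [asg_comp π]
    congr 1
    funext j
    exact hxW j
  rw [e1] at ht
  refine le_of_tendsto ht (Eventually.of_forall fun i => ?_)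
  have e2 : (fun j => asg (fun j (_ : I) => p j) x (fun j i => z i j) j i) =
      asg p (fun j => x j i) (z i) := asg_comp (fun y : I → Elt N => y i) _ _ _
  show f.ev (fun x => T.τ x) (fun j => asg (fun j (_ : I) => p j) x (fun j i => z i j) j i) ≤ r
  rw [e2]
  exact hzr i

theorem Sat.down {N : VonNeumannAlgebra H} {T : TracialState N} {I : Type w} {U : Ultrafilter I}
    {Q : Type w} [Ring Q] [StarRing Q] [Algebra ℂ Q] {π : (I → Elt N) → Q} {φ : Q → ℂ}
    (hπ : CE.IsTracialUltrapower (fun x => T.τ x) U π φ) (f : Fm Ix3) {r r' : ℝ} (hr : r < r')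
    (h : Sat f φ r) : Sat f (fun x => T.τ x) r' := by
  obtain ⟨P, hP, hw⟩ := h
  choose p hp hpP using fun j => exists_lift hπ (P j) (hP j).1
  have key : ∀ᶠ i in (U : Filter I), ∀ w : Fin 6 → Elt N, UU Set.univ w →
      ∃ z : Fin 2 → Elt N, UU Set.univ z ∧
        f.ev (fun x => T.τ x) (asg (fun j => p j i) w z) ≤ r' := by
    by_contra hcon
    rw [← Ultrafilter.eventually_not] at hcon
    have h6 : ∀ i, ∃ w : Fin 6 → Elt N, UU Set.univ w ∧
        ((¬ ∀ w : Fin 6 → Elt N, UU Set.univ w →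
          ∃ z : Fin 2 → Elt N, UU Set.univ z ∧
            f.ev (fun x => T.τ x) (asg (fun j => p j i) w z) ≤ r') →
        ∀ z : Fin 2 → Elt N, UU Set.univ z →
          r' < f.ev (fun x => T.τ x) (asg (fun j => p j i) w z)) := by
      intro i
      by_cases hi : ∀ w : Fin 6 → Elt N, UU Set.univ w →
          ∃ z : Fin 2 → Elt N, UU Set.univ z ∧
            f.ev (fun x => T.τ x) (asg (fun j => p j i) w z) ≤ r'
      · exact ⟨fun _ => 1, fun _ => ⟨one_mem _, Set.mem_univ _⟩, fun h => absurd hi h⟩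
      · have hi' := hi
        push Not at hi'
        obtain ⟨w, hw1, hw2⟩ := hi'
        exact ⟨w, hw1, fun _ => hw2⟩
    choose w hwu hwr using h6
    obtain ⟨Z, hZ, hZr⟩ := hw (fun j => π (fun i => w i j))
      (fun j => ⟨pi_unitary hπ (fun i => (hwu i j).1), Set.mem_univ _⟩)
    choose z hz hzZ using fun j => exists_lift hπ (Z j) (hZ j).1
    have hb : ∀ j : Ix3, CE.BddFam (asg p (fun j i => w i j) z j) := by
      intro j
      rcases j with j | j | j
      · exact bdd_un (hp j)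
      · exact bdd_un (fun i => (hwu i j).1)
      · exact bdd_un (hz j)
    have ht := Fm.tendsto hπ (asg p (fun j i => w i j) z) hb f
    have e1 : (fun j => π (asg p (fun j i => w i j) z j)) =
        asg P (fun j => π (fun i => w i j)) Z := by
      rw [asg_comp π]
      have a1 : (fun j => π (p j)) = P := funext hpP
      have a2 : (fun j => π (z j)) = Z := funext hzZ
      rw [a1, a2]
    rw [e1] at ht
    have h7 := ht.eventually (gt_mem_nhds (lt_of_le_of_lt hZr hr))
    obtain ⟨i, h8, h9⟩ := (h7.and hcon).exists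
    have h10 := hwr i h9 (fun j => z j i) (fun j => ⟨hz j i, Set.mem_univ _⟩)
    have e2 : (fun j => asg p (fun j i => w i j) z j i) =
        asg (fun j => p j i) (w i) (fun j => z j i) := asg_comp (fun y : I → Elt N => y i) _ _ _
    have h8' : f.ev (fun x => T.τ x) (fun j => asg p (fun j i => w i j) z j i) < r' := h8
    rw [e2] at h8'
    exact absurd h8' (not_lt.2 h10.le)
  obtain ⟨i, hi⟩ := key.exists
  exact ⟨fun j => p j i, fun j => ⟨hp j i, Set.mem_univ _⟩, hi⟩

theorem Sat.map_iso {P Q : Type w} [Ring P] [StarRing P] [Algebra ℂ P] [Ring Q] [StarRing Q]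
    [Algebra ℂ Q] {φ : P → ℂ} {ψ : Q → ℂ} (e : P ≃⋆ₐ[ℂ] Q) (he : ∀ x, ψ (e x) = φ x)
    (f : Fm Ix3) {r : ℝ} (h : Sat f φ r) : Sat f ψ r := by
  obtain ⟨p, hp, hw⟩ := h
  have hun : ∀ x, x ∈ unitary P → e x ∈ unitary Q := fun x hx => (un_map e x).2 hx
  refine ⟨fun j => e (p j), fun j => ⟨hun _ (hp j).1, Set.mem_univ _⟩, fun W hW => ?_⟩
  obtain ⟨z, hz, hzr⟩ := hw (fun j => e.symm (W j)) (fun j => ⟨by
    have := (hW j).1
    rw [← e.apply_symm_apply (W j), un_map e] at this
    exact this, Set.mem_univ _⟩)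
  refine ⟨fun j => e (z j), fun j => ⟨hun _ (hz j).1, Set.mem_univ _⟩, ?_⟩
  have h1 := Fm.ev_map (e : P →⋆ₐ[ℂ] Q) (φ := φ) (ψ := ψ) he
    (asg p (fun j => e.symm (W j)) z) f
  have e1 : (fun j => (e : P →⋆ₐ[ℂ] Q) (asg p (fun j => e.symm (W j)) z j)) =
      asg (fun j => e (p j)) W (fun j => e (z j)) := by
    rw [asg_comp (fun x => (e : P →⋆ₐ[ℂ] Q) x)]
    congr 1
    funext j
    exact e.apply_symm_apply (W j)
  rw [e1] at h1
  rw [h1]
  exact hzr

theorem Sat.elem {N : VonNeumannAlgebra H} {τ : Elt N → ℂ} (hN : IsIIOneFactor N τ)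
    {M : VonNeumannAlgebra K} {σ : Elt M → ℂ} (hM : IsIIOneFactor M σ)
    (hE : ElemEquiv.{w} τ σ) (f : Fm Ix3) {r r' : ℝ} (hr : r < r') (h : Sat f τ r) :
    Sat f σ r' := by
  obtain ⟨I, J, U, V, P, Q, _, _, _, _, _, _, π, φ, ρ, ψ, h1, h2, ⟨e⟩⟩ := hE
  have h1' : CE.IsTracialUltrapower (fun x => (mkState N τ hN.normal hN.trace).τ x) U π φ := h1
  have h2' : CE.IsTracialUltrapower (fun x => (mkState M σ hM.normal hM.trace).τ x) V ρ ψ := h2
  have hiso : ∀ x, ψ (e x) = φ x := iso_trace hN.center hN.infinite h1' h2' e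
  have k1 : Sat f φ r := Sat.up h1' f h
  exact Sat.down h2' f hr (Sat.map_iso e hiso f k1)

end Pool.Agent.Helper436.AD
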