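import Mathlib
import Pool.Agent.Helper436.SM.Pauli
import Pool.Agent.Helper436.SN.PX
import Pool.Agent.Helper278.CEGap
import Pool.Agent.Helper436.AD.Base

set_option autoImplicit false
set_option linter.unusedSectionVars false

namespace Pool.Agent.Helper436.AD

open Pool.Agent.Helper278 Pool.Agent.Helper278.CE Pool.Agent.Helper436.SM Pool.Agent.Helper436.SN

variable {A : Type} [Ring A] [StarRing A] [Algebra ℂ A] [StarModule ℂ A] {τ : A →ₗ[ℂ] ℂ}
  {W : VV → A}

/-- tracial algebra with a complete system of Paulis -/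
structure PW (τ : A →ₗ[ℂ] ℂ) (W : VV → A) : Prop where
  tr : TrAlg τ
  sys : PauliSys τ W
  parseval : ∀ x : A, HasSum (fun v => ‖τ (star (W v) * x)‖ ^ 2) (n2 τ x ^ 2)

/-- the coefficients of `x` -/
noncomputable def PW.hat (h : PW τ W) (x : A) : EllTwo VV :=
  ⟨fun v => τ (star (W v) * x), by
    refine memℓp_gen ?_
    simpa using (h.parseval x).summable⟩

theorem PW.hat_apply (h : PW τ W) (x : A) (v : VV) : h.hat x v = τ (star (W v) * x) := rfl

/-- combinations of Paulis with labels in `H` -/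
def SP (W : VV → A) (H : Set VV) : Submodule ℂ A := Submodule.span ℂ (W '' H)

/-- the unitary `U` permutes the Paulis, up to phases, according to `g` -/
structure Impl (W : VV → A) (U : A) (g : VV → VV) : Prop where
  unit : U ∈ unitary A
  conj : ∀ v, ∃ c : ℂ, ‖c‖ = 1 ∧ U * W v = c • (W (g v) * U)

/-- labels supported in `[a, b)` -/
def lab (a b : ℕ) : AddSubgroup VV where
  carrier := {v | ∀ i, (i < a ∨ b ≤ i) → v i = 0}
  zero_mem' := fun _ _ => rfl
  add_mem' := fun {v w} hv hw i hi => by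
    rw [Finsupp.add_apply, hv i hi, hw i hi, add_zero]
  neg_mem' := fun {v} hv i hi => by
    rw [Finsupp.neg_apply, hv i hi, neg_zero]

/-- labels in `[0, 3k)` with equal first and second block -/
def labH (k : ℕ) : AddSubgroup VV where
  carrier := {v | (∀ i, 3 * k ≤ i → v i = 0) ∧ ∀ i, i < k → v i = v (k + i)}
  zero_mem' := ⟨fun _ _ => rfl, fun _ _ => rfl⟩
  add_mem' := fun {v w} hv hw => ⟨fun i hi => by
    rw [Finsupp.add_apply, hv.1 i hi, hw.1 i hi, add_zero], fun i hi => by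
    rw [Finsupp.add_apply, Finsupp.add_apply, hv.2 i hi, hw.2 i hi]⟩
  neg_mem' := fun {v} hv => ⟨fun i hi => by
    rw [Finsupp.neg_apply, hv.1 i hi, neg_zero], fun i hi => by
    rw [Finsupp.neg_apply, Finsupp.neg_apply, hv.2 i hi]⟩

/-- `x_i += y_(a+b-1-i)` on the block `[a, b)` -/
noncomputable def shA (a b : ℕ) (v : VV) : VV :=
  v + ∑ i ∈ Finset.Ico a b, Finsupp.single i ((v (a + b - 1 - i)).2, (0 : ZMod 2))

/-- `x_i += y_(a+b-i)` on the block `[a, b)` -/
noncomputable def shC (a b : ℕ) (v : VV) : VV :=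
  v + ∑ i ∈ Finset.Ico (a + 1) b, Finsupp.single i ((v (a + b - i)).2, (0 : ZMod 2))

/-- `y_i += x_(a+b-2-i)` on the block `[a, b)` -/
noncomputable def shD (a b : ℕ) (v : VV) : VV :=
  v + ∑ i ∈ Finset.Ico a (b - 1), Finsupp.single i ((0 : ZMod 2), (v (a + b - 2 - i)).1)

/-- swap of `[a, a+k)` and `[b, b+k)` -/
def swp (a b k : ℕ) (i : ℕ) : ℕ :=
  if a ≤ i ∧ i < a + k then i - a + b else if b ≤ i ∧ i < b + k then i - b + a else i

/-- swap of the blocks `[a, a+k)` and `[b, b+k)` of labels -/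
noncomputable def sw (a b k : ℕ) (v : VV) : VV := v.mapDomain (swp a b k)

/-- The three gates and the two Paulis of the block `[a, b)`. -/
structure Gates (W : VV → A) (a b : ℕ) (q : Fin 5 → A) : Prop where
  unit : ∀ l, q l ∈ unitary A
  mem : ∀ l, q l ∈ SP W (lab a b)
  ga : Impl W (q 0) (shA a b)
  gc : Impl W (q 1) (shC a b)
  gd : Impl W (q 2) (shD a b)
  g3 : q 3 = W (Finsupp.single (b - 1) (0, 1))
  g4 : q 4 = W (Finsupp.single a (1, 0))

/-- The parameters of the sentence in `M_{8^k}`. -/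
structure Par (W : VV → A) (k : ℕ) (p : Fin 13 → A) : Prop where
  unit : ∀ l, p l ∈ unitary A
  mem : ∀ l, p l ∈ SP W (lab 0 (3 * k))
  q : Gates W k (3 * k) ![p 0, p 1, p 2, p 3, p 4]
  g : Gates W (2 * k) (3 * k) ![p 5, p 6, p 7, p 8, p 9]
  h : ∃ f, Impl W (p 10) f ∧ ∀ v : VV, (∀ i, 2 * k ≤ i → v i = 0) → ∀ i, i < k →
    (f v) (2 * k + i) = v i + v (k + i)
  hm : p 10 ∈ SP W (labH k)
  F : Impl W (p 11) (sw 0 k k)
  C : Impl W (p 12) (sw 0 k k ∘ sw k (2 * k) k)

end Pool.Agent.Helper436.AD
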