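import Mathlib
import Pool.Agent.Helper436.AD.Pau

set_option autoImplicit false
set_option linter.unusedSectionVars false

namespace Pool.Agent.Helper436.AD

open Pool.Agent.Helper278 Pool.Agent.Helper278.CE Pool.Agent.Helper436.SM Pool.Agent.Helper436.SN

variable {A : Type} [Ring A] [StarRing A] [Algebra ℂ A] [StarModule ℂ A] {τ : A →ₗ[ℂ] ℂ}
  {W : VV → A}

/- JOB: all theorems. -/

theorem SP_mono (W : VV → A) {H H' : Set VV} (h : H ⊆ H') : SP W H ≤ SP W H' :=
  Submodule.span_mono (Set.image_mono h)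

theorem SP_one (h : PW τ W) (H : AddSubgroup VV) : (1 : A) ∈ SP W H := by
  rw [← h.sys.zero]
  exact Submodule.subset_span ⟨0, H.zero_mem, rfl⟩

theorem SP_mul (h : PW τ W) (H : AddSubgroup VV) {x y : A} (hx : x ∈ SP W H) (hy : y ∈ SP W H) :
    x * y ∈ SP W H := by
  unfold SP at hx hy ⊢
  induction hx using Submodule.span_induction with
  | mem x hx =>
    obtain ⟨v, hv, rfl⟩ := hx
    induction hy using Submodule.span_induction with
    | mem y hy =>
      obtain ⟨w, hw, rfl⟩ := hy
      rw [h.sys.mul]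
      exact Submodule.smul_mem _ _ (Submodule.subset_span ⟨v + w, H.add_mem hv hw, rfl⟩)
    | zero => rw [mul_zero]; exact Submodule.zero_mem _
    | add y z _ _ h1 h2 => rw [mul_add]; exact Submodule.add_mem _ h1 h2
    | smul c y _ h1 => rw [mul_smul_comm]; exact Submodule.smul_mem _ _ h1
  | zero => rw [zero_mul]; exact Submodule.zero_mem _
  | add y z _ _ h1 h2 => rw [add_mul]; exact Submodule.add_mem _ h1 h2
  | smul c y _ h1 => rw [smul_mul_assoc]; exact Submodule.smul_mem _ _ h1

theorem SP_star (h : PW τ W) (H : Set VV) {x : A} (hx : x ∈ SP W H) : star x ∈ SP W H := by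
  unfold SP at hx ⊢
  induction hx using Submodule.span_induction with
  | mem x hx =>
    obtain ⟨v, hv, rfl⟩ := hx
    rw [h.sys.star]
    exact Submodule.smul_mem _ _ (Submodule.subset_span ⟨v, hv, rfl⟩)
  | zero => rw [star_zero]; exact Submodule.zero_mem _
  | add y z _ _ h1 h2 => rw [star_add]; exact Submodule.add_mem _ h1 h2
  | smul c y _ h1 => rw [star_smul]; exact Submodule.smul_mem _ _ h1

theorem SP_W (W : VV → A) {H : Set VV} {v : VV} (hv : v ∈ H) : W v ∈ SP W H :=
  Submodule.subset_span ⟨v, hv, rfl⟩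

theorem W_unitary (h : PW τ W) (v : VV) : W v ∈ unitary A := by
  rw [Unitary.mem_iff]
  constructor
  · rw [h.sys.star, smul_mul_assoc, h.sys.mul, smul_smul, sg_mul_self, one_smul, vv_add_self,
      h.sys.zero]
  · rw [h.sys.star, mul_smul_comm, h.sys.mul, smul_smul, sg_mul_self, one_smul, vv_add_self,
      h.sys.zero]

theorem W_comm (h : PW τ W) (v w : VV) : W v * W w = sg (sf v w) • (W w * W v) := by
  rw [h.sys.mul v w, h.sys.mul w v, smul_smul]
  unfold sf
  rw [sg_add, mul_assoc, sg_mul_self, mul_one, add_comm w v]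

/-- elements with labels in `H` commute with the Paulis orthogonal to `H` -/
theorem SP_comm (h : PW τ W) {H : Set VV} {x : A} (hx : x ∈ SP W H) (v : VV)
    (hv : ∀ u ∈ H, sf v u = 0) : x * W v = W v * x := by
  unfold SP at hx
  induction hx using Submodule.span_induction with
  | mem x hx =>
    obtain ⟨u, hu, rfl⟩ := hx
    rw [W_comm h u v, sf_comm, hv u hu]
    unfold SM.sg
    rw [if_pos rfl, one_smul]
  | zero => rw [mul_zero, zero_mul]
  | add y z _ _ h1 h2 => rw [add_mul, mul_add, h1, h2]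
  | smul c y _ h1 => rw [smul_mul_assoc, mul_smul_comm, h1]

theorem SP_comm' (h : PW τ W) {H H' : Set VV} {x y : A} (hx : x ∈ SP W H) (hy : y ∈ SP W H')
    (hv : ∀ u ∈ H, ∀ v ∈ H', sf u v = 0) : x * y = y * x := by
  have hy' := hy
  unfold SP at hy'
  clear hy
  induction hy' using Submodule.span_induction with
  | mem y hy =>
    obtain ⟨v, hv', rfl⟩ := hy
    exact SP_comm h hx v (fun u hu => by rw [sf_comm]; exact hv u hu v hv')
  | zero => rw [mul_zero, zero_mul]
  | add y z _ _ h1 h2 => rw [add_mul, mul_add, h1, h2]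
  | smul c y _ h1 => rw [smul_mul_assoc, mul_smul_comm, h1]

theorem W_ne (h : PW τ W) {v w : VV} (hvw : v ≠ w) : τ (star (W v) * W w) = 0 := by
  rw [h.sys.star, smul_mul_assoc, h.sys.mul, smul_smul, map_smul, h.sys.trace, if_neg, smul_zero]
  intro h0
  apply hvw
  have h1 : v + w + w = w := by rw [h0, zero_add]
  rw [add_assoc, vv_add_self, add_zero] at h1
  exact h1

theorem SP_hat (h : PW τ W) {H : Set VV} {x : A} (hx : x ∈ SP W H) {v : VV} (hv : v ∉ H) :
    h.hat x v = 0 := by
  rw [h.hat_apply]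
  unfold SP at hx
  induction hx using Submodule.span_induction with
  | mem x hx =>
    obtain ⟨u, hu, rfl⟩ := hx
    exact W_ne h (fun e => hv (e ▸ hu))
  | zero => rw [mul_zero, map_zero]
  | add y z _ _ h1 h2 => rw [mul_add, map_add, h1, h2, add_zero]
  | smul c y _ h1 => rw [mul_smul_comm, map_smul, h1, smul_zero]

theorem sf_lab {a b c d : ℕ} (hbc : b ≤ c) {u v : VV} (hu : u ∈ lab a b) (hv : v ∈ lab c d) :
    sf u v = 0 := by
  rw [sf_comm]
  exact sf_eq_zero c v u (fun i hi => hv i (Or.inl hi)) (fun i hi => hu i (Or.inr (hbc.trans hi)))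

theorem impl_mul {U U' : A} {g g' : VV → VV} (hU : Impl W U g) (hU' : Impl W U' g') :
    Impl W (U * U') (g ∘ g') := by
  refine ⟨mul_mem hU.unit hU'.unit, fun v => ?_⟩
  obtain ⟨c', hc', h1⟩ := hU'.conj v
  obtain ⟨c, hc, h2⟩ := hU.conj (g' v)
  refine ⟨c' * c, by rw [norm_mul, hc, hc', mul_one], ?_⟩
  rw [mul_assoc, h1, mul_smul_comm, ← mul_assoc, h2, smul_mul_assoc, smul_smul, mul_assoc]
  rfl

theorem impl_inj (h : PW τ W) {U : A} {g : VV → VV} (hU : Impl W U g) : Function.Injective g := by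
  intro v w hvw
  by_contra hne
  obtain ⟨c, hc, h1⟩ := hU.conj v
  obtain ⟨c', hc', h2⟩ := hU.conj w
  have hu : star U * U = 1 := (Unitary.mem_iff.1 hU.unit).1
  have h3 : W v = c • (star U * (W (g v) * U)) := by
    rw [← mul_smul_comm, ← h1, ← mul_assoc, hu, one_mul]
  have h4 : W w = c' • (star U * (W (g w) * U)) := by
    rw [← mul_smul_comm, ← h2, ← mul_assoc, hu, one_mul]
  have h5 : c' • W v = c • W w := by
    rw [h3, h4, hvw, smul_smul, smul_smul, mul_comm]
  have h6 : τ (star (W w) * (c' • W v)) = 0 := by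
    rw [mul_smul_comm, map_smul, W_ne h (fun e => hne e.symm), smul_zero]
  rw [h5, mul_smul_comm, map_smul, (Unitary.mem_iff.1 (W_unitary h w)).1, h.tr.one,
    smul_eq_mul, mul_one] at h6
  rw [h6, norm_zero] at hc
  exact zero_ne_one hc

theorem impl_W (h : PW τ W) (u : VV) : Impl W (W u) id := by
  exact ⟨W_unitary h u, fun v => ⟨SM.sg (sf u v), norm_sg _, W_comm h u v⟩⟩

theorem impl_one (h : PW τ W) : Impl W (1 : A) id :=
  ⟨one_mem _, fun v => ⟨1, by simp, by simp⟩⟩

end Pool.Agent.Helper436.AD
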