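import Mathlib
import Pool.Agent.Helper436.AD.Pau

set_option autoImplicit false
set_option linter.unusedSectionVars false

namespace Pool.Agent.Helper436.AD

open Pool.Agent.Helper278 Pool.Agent.Helper278.CE Pool.Agent.Helper436.SM Pool.Agent.Helper436.SN

variable {A : Type} [Ring A] [StarRing A] [Algebra ℂ A] [StarModule ℂ A] {τ : A →ₗ[ℂ] ℂ}
  {W : VV → A}

/- JOB: all theorems. -/

theorem norm_hat (h : PW τ W) (x : A) : ‖h.hat x‖ = n2 τ x := by
  have h1 := (norm_sq_eq (h.hat x)).unique (h.parseval x)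
  exact (sq_eq_sq₀ (norm_nonneg _) (n2_nonneg _ _)).1 h1

theorem hat_sub (h : PW τ W) (x y : A) : h.hat (x - y) = h.hat x - h.hat y := by
  ext t
  show τ (star (W t) * (x - y)) = τ (star (W t) * x) - τ (star (W t) * y)
  rw [mul_sub, map_sub]

theorem hat_add (h : PW τ W) (x y : A) : h.hat (x + y) = h.hat x + h.hat y := by
  ext t
  show τ (star (W t) * (x + y)) = τ (star (W t) * x) + τ (star (W t) * y)
  rw [mul_add, map_add]

theorem hat_smul (h : PW τ W) (c : ℂ) (x : A) : h.hat (c • x) = c • h.hat x := by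
  ext t
  show τ (star (W t) * (c • x)) = c • τ (star (W t) * x)
  rw [mul_smul_comm, map_smul]

theorem hat_conj_aux (h : PW τ W) {U : A} (hU : U ∈ unitary A) (c : ℂ) (v v' : VV)
    (hc : U * W v = c • (W v' * U)) (x : A) :
    star c * h.hat (U * x * star U) v' = h.hat x v := by
  rw [PW.hat_apply, PW.hat_apply]
  have h1 : star (W v) * star U = star c • (star U * star (W v')) := by
    have h2 := congrArg star hc
    rw [star_mul, star_smul, star_mul] at h2
    exact h2
  have hUU : star U * U = 1 := (Unitary.mem_iff.1 hU).1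
  have h3 : τ (star (W v') * (U * x * star U)) = τ (star U * star (W v') * (U * x)) := by
    calc τ (star (W v') * (U * x * star U)) = τ ((star (W v') * (U * x)) * star U) := by
          rw [mul_assoc (star (W v'))]
      _ = τ (star U * (star (W v') * (U * x))) := h.tr.comm _ _
      _ = τ (star U * star (W v') * (U * x)) := by rw [mul_assoc]
  rw [h3, ← smul_eq_mul, ← map_smul, ← smul_mul_assoc, ← h1]
  congr 1
  rw [mul_assoc, ← mul_assoc (star U), hUU, one_mul]

theorem norm_hat_conj (h : PW τ W) {U : A} {g : VV → VV} (hU : Impl W U g) (x : A) (v : VV) :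
    ‖h.hat (U * x * star U) (g v)‖ = ‖h.hat x v‖ := by
  obtain ⟨c, hc, he⟩ := hU.conj v
  have h1 := hat_conj_aux h hU.unit c v (g v) he x
  rw [← h1, norm_mul, norm_star, hc, one_mul]

theorem norm_hat_W (h : PW τ W) (v w : VV) : ‖h.hat (W v) w‖ = if w + v = 0 then 1 else 0 := by
  rw [PW.hat_apply, h.sys.star, smul_mul_assoc, h.sys.mul, smul_smul, map_smul, h.sys.trace,
    norm_smul, norm_mul, norm_sg, norm_sg]
  split_ifs <;> simp

theorem impl_inj (h : PW τ W) {U : A} {g : VV → VV} (hU : Impl W U g) :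
    Function.Injective g := by
  intro v v' hv
  have h1 := norm_hat_conj h hU (W v) v
  have h2 := norm_hat_conj h hU (W v) v'
  rw [← hv, h1, norm_hat_W, norm_hat_W, if_pos (vv_add_self v)] at h2
  by_cases h3 : v' + v = 0
  · have h4 : v' + v + v = 0 + v := by rw [h3]
    rw [add_assoc, vv_add_self, add_zero, zero_add] at h4
    exact h4.symm
  · rw [if_neg h3] at h2
    exact absurd h2 one_ne_zero

theorem n2_conj_sub (h : PW τ W) {U : A} (hU : U ∈ unitary A) (x : A) :
    n2 τ (U * x * star U - x) = n2 τ (U * x - x * U) := by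
  have h1 : star U * U = 1 := (Unitary.mem_iff.1 hU).1
  have h2 : U * star U = 1 := (Unitary.mem_iff.1 hU).2
  have h3 : U * x * star U - x = (U * x - x * U) * star U := by
    rw [sub_mul, mul_assoc x, h2, mul_one]
  rw [h3]
  refine PX.n2_mul_right h.tr _ _ ?_
  rw [star_star]
  exact h1

theorem norm_cut_conj (h : PW τ W) {U : A} {g : VV → VV} (hU : Impl W U g) (E : Set VV) (x : A) :
    ‖cut (g '' E) (h.hat (U * x * star U))‖ = ‖cut E (h.hat x)‖ := by
  have hinj := impl_inj h hU
  have h1 := norm_sq_eq (cut (g '' E) (h.hat (U * x * star U)))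
  have h2 := norm_sq_eq (cut E (h.hat x))
  have h3 := (hinj.hasSum_iff (f := fun w => ‖cut (g '' E) (h.hat (U * x * star U)) w‖ ^ 2)
    (a := ‖cut (g '' E) (h.hat (U * x * star U))‖ ^ 2) (by
      intro w hw
      have hw' : w ∉ g '' E := by
        rintro ⟨v, _, rfl⟩
        exact hw ⟨v, rfl⟩
      beta_reduce
      rw [cut_apply_not_mem _ hw', norm_zero, zero_pow two_ne_zero])).2 h1
  have h4 : ‖cut (g '' E) (h.hat (U * x * star U))‖ ^ 2 = ‖cut E (h.hat x)‖ ^ 2 := by
    refine h3.unique (h2.congr_fun fun v => ?_)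
    show ‖cut (g '' E) (h.hat (U * x * star U)) (g v)‖ ^ 2 = ‖cut E (h.hat x) v‖ ^ 2
    by_cases hv : v ∈ E
    · rw [cut_apply_mem _ hv, cut_apply_mem _ (Set.mem_image_of_mem g hv), norm_hat_conj h hU]
    · have hv' : g v ∉ g '' E := by
        rintro ⟨w, hw, hwe⟩
        exact hv (hinj hwe ▸ hw)
      rw [cut_apply_not_mem _ hv, cut_apply_not_mem _ hv']
  exact (sq_eq_sq₀ (norm_nonneg _) (norm_nonneg _)).1 h4

/-- the mass moves with the gate -/
theorem impl_mass (h : PW τ W) {U : A} {g : VV → VV} (hU : Impl W U g) (E : Set VV) (x : A) :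
    ‖cut E (h.hat x)‖ ≤ ‖cut (g '' E) (h.hat x)‖ + n2 τ (U * x - x * U) := by
  rw [← norm_cut_conj h hU E x, ← n2_conj_sub h hU.unit x, ← norm_hat h, hat_sub]
  have h1 : cut (g '' E) (h.hat (U * x * star U)) = cut (g '' E) (h.hat x) +
      cut (g '' E) (h.hat (U * x * star U) - h.hat x) := by
    rw [cut_sub]
    abel
  rw [h1]
  exact (norm_add_le _ _).trans (add_le_add le_rfl (norm_cut_le_norm _ _))

theorem impl_mass' (h : PW τ W) {U : A} {g : VV → VV} (hU : Impl W U g) (E F : Set VV)
    (hEF : ∀ v ∈ E, g v ∈ F) (x : A) :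
    ‖cut E (h.hat x)‖ ≤ ‖cut F (h.hat x)‖ + n2 τ (U * x - x * U) := by
  refine (impl_mass h hU E x).trans (add_le_add (norm_cut_le _ _ ?_ _) le_rfl)
  rintro _ ⟨v, hv, rfl⟩
  exact hEF v hv

theorem W_unitary (h : PW τ W) (w : VV) : W w ∈ unitary A := by
  have h1 : W w * W w = SM.sg (bf w w) • (1 : A) := by
    rw [h.sys.mul, vv_add_self, h.sys.zero]
  refine Unitary.mem_iff.2 ⟨?_, ?_⟩
  · rw [h.sys.star, smul_mul_assoc, h1, smul_smul, sg_mul_self, one_smul]
  · rw [h.sys.star, mul_smul_comm, h1, smul_smul, sg_mul_self, one_smul]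

theorem sg_anti : ∀ a b : ZMod 2, a + b = 1 → (b = 0 ↔ ¬ a = 0) := by decide

/-- commuting with a Pauli kills the anticommuting labels -/
theorem pauli_mass (h : PW τ W) (w : VV) (x : A) :
    ‖cut {v | sf v w = 1} (h.hat x)‖ ≤ n2 τ (W w * x - x * W w) := by
  rw [← n2_conj_sub h (W_unitary h w) x, ← norm_hat h]
  have h1 := norm_sq_eq (cut {v | sf v w = 1} (h.hat x))
  have h2 := norm_sq_eq (h.hat (W w * x * star (W w) - x))
  have h3 : ‖cut {v | sf v w = 1} (h.hat x)‖ ^ 2 ≤ ‖h.hat (W w * x * star (W w) - x)‖ ^ 2 := by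
    refine hasSum_le (fun v => ?_) h1 h2
    by_cases hv : v ∈ {v | sf v w = 1}
    · have hv' : bf v w + bf w v = 1 := hv
      have hsg : SM.sg (bf w v) = -1 * SM.sg (bf v w) := by
        have h4 := sg_anti _ _ hv'
        unfold SM.sg
        by_cases h5 : bf v w = 0
        · rw [if_pos h5, if_neg (fun h6 => (h4.1 h6) h5), mul_one]
        · rw [if_neg h5, if_pos (h4.2 h5)]
          norm_num
      have hc : W w * W v = (-1 : ℂ) • (W v * W w) := by
        rw [h.sys.mul, h.sys.mul, smul_smul, ← hsg, add_comm w v]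
      have h6 := hat_conj_aux h (W_unitary h w) (-1) v v hc x
      rw [cut_apply_mem _ hv, hat_sub]
      have h7 : (h.hat (W w * x * star (W w)) - h.hat x) v =
          h.hat (W w * x * star (W w)) v - h.hat x v := rfl
      have h8 : h.hat (W w * x * star (W w)) v = -(h.hat x v) := by
        rw [← h6, star_neg, star_one, neg_one_mul, neg_neg]
      rw [h7, h8]
      have h9 : ‖-(h.hat x v) - h.hat x v‖ = 2 * ‖h.hat x v‖ := by
        have h10 : -(h.hat x v) - h.hat x v = -(2 * h.hat x v) := by ring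
        rw [h10, norm_neg, norm_mul, Complex.norm_ofNat]
      rw [h9]
      have h11 := norm_nonneg (h.hat x v)
      nlinarith
    · rw [cut_apply_not_mem _ hv, norm_zero, zero_pow two_ne_zero]
      exact sq_nonneg _
  exact (sq_le_sq₀ (norm_nonneg _) (norm_nonneg _)).1 h3

end Pool.Agent.Helper436.AD
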