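import Mathlib
import Pool.Agent.Helper436.AD.Pau
import Pool.Agent.Helper436.AD.G0

set_option autoImplicit false
set_option linter.unusedSectionVars false

namespace Pool.Agent.Helper436.AD

open Pool.Agent.Helper278 Pool.Agent.Helper278.CE Pool.Agent.Helper436.SM Pool.Agent.Helper436.SN

variable {A : Type} [Ring A] [StarRing A] [Algebra ℂ A] [StarModule ℂ A] {τ : A →ₗ[ℂ] ℂ}
  {W : VV → A}





/- JOB: the theorems below. -/

/-- transvection -/
noncomputable def tv (u v : VV) : VV := v + sf v u • u

theorem z2 (x : ZMod 2) : x = 0 ∨ x = 1 := by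
  revert x
  decide

theorem exists_tv (h : PW τ W) (H : AddSubgroup VV) (u : VV) (hu : u ∈ H) :
    ∃ U : A, Impl W U (tv u) ∧ U ∈ SP W H := by
  obtain ⟨α, hα1, hα2, hα3⟩ : ∃ α : ℂ, ‖α‖ = 1 ∧ α * α * sg (bf u u) = 1 ∧
      star α * sg (bf u u) = α := by
    rcases z2 (bf u u) with hb | hb
    · exact ⟨1, by simp, by simp [SM.sg, hb], by simp [SM.sg, hb]⟩
    · exact ⟨Complex.I, by simp, by simp [SM.sg, hb], by simp [SM.sg, hb]⟩
  have hα0 : α ≠ 0 := by
    intro h0
    rw [h0, norm_zero] at hα1
    exact zero_ne_one hα1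
  set X : A := α • W u with hX
  have hXs : star X = X := by
    rw [hX, star_smul, h.sys.star, smul_smul, hα3]
  have hXX : X * X = 1 := by
    rw [hX, smul_mul_smul_comm, h.sys.mul, vv_add_self, h.sys.zero, smul_smul, hα2, one_smul]
  set Y : A := Complex.I • X with hY
  have hYs : star Y = -Y := by
    rw [hY, star_smul, hXs, Complex.star_def, Complex.conj_I, neg_smul]
  have hYY : Y * Y = -1 := by
    rw [hY, smul_mul_smul_comm, hXX, Complex.I_mul_I, neg_smul, one_smul]
  set r : ℂ := (((√2)⁻¹ : ℝ) : ℂ) with hr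
  have hr2 : r * r * 2 = 1 := by
    rw [hr, ← Complex.ofReal_mul]
    have : (√2)⁻¹ * (√2)⁻¹ * 2 = (1 : ℝ) := by
      rw [← mul_inv, Real.mul_self_sqrt (by norm_num)]
      norm_num
    exact_mod_cast this
  have hrs : star r = r := by
    rw [hr, Complex.star_def, Complex.conj_ofReal]
  have h2 : (r * r) • ((1 : A) + 1) = 1 := by
    rw [show ((1 : A) + 1) = (2 : ℂ) • (1 : A) from (two_smul ℂ (1 : A)).symm, smul_smul, hr2,
      one_smul]
  have hUs : star (r • (1 + Y)) = r • (1 - Y) := by
    rw [star_smul, hrs, star_add, star_one, hYs, ← sub_eq_add_neg]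
  refine ⟨r • (1 + Y), ⟨?_, ?_⟩, ?_⟩
  · rw [Unitary.mem_iff, hUs]
    constructor
    · rw [smul_mul_smul_comm]
      have : (1 - Y) * (1 + Y) = 1 + 1 := by
        have e : (1 - Y) * (1 + Y) = 1 - Y * Y := by noncomm_ring
        rw [e, hYY, sub_neg_eq_add]
      rw [this, h2]
    · rw [smul_mul_smul_comm]
      have : (1 + Y) * (1 - Y) = 1 + 1 := by
        have e : (1 + Y) * (1 - Y) = 1 - Y * Y := by noncomm_ring
        rw [e, hYY, sub_neg_eq_add]
      rw [this, h2]
  · intro v
    have hcomm : W u * W v = sg (sf v u) • (W v * W u) := by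
      rw [W_comm h u v, sf_comm]
    have hYv : Y * W v = sg (sf v u) • (W v * Y) := by
      rw [hY, hX, smul_mul_assoc, smul_mul_assoc, hcomm, mul_smul_comm, mul_smul_comm]
      rw [smul_comm α, smul_comm Complex.I]
    rcases z2 (sf v u) with hs | hs
    · refine ⟨1, by simp, ?_⟩
      have e1 : tv u v = v := by
        unfold tv
        rw [hs, zero_smul, add_zero]
      rw [e1, one_smul, smul_mul_assoc, mul_smul_comm]
      congr 1
      rw [add_mul, mul_add, hYv, hs]
      simp [SM.sg]
    · have e1 : tv u v = v + u := by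
        unfold tv
        rw [hs, one_smul]
      rw [e1]
      have hsg : sg (1 : ZMod 2) = -1 := by simp [SM.sg]
      rw [hs, hsg, neg_smul, one_smul] at hYv
      set κ : ℂ := sg (bf v u) * α⁻¹ * (-Complex.I) with hκ
      have hκ1 : ‖κ‖ = 1 := by
        rw [hκ, norm_mul, norm_mul, norm_sg, norm_inv, hα1, norm_neg, Complex.norm_I]
        norm_num
      have hκ0 : κ ≠ 0 := by
        intro h0
        rw [h0, norm_zero] at hκ1
        exact zero_ne_one hκ1
      have hWu : W u = (α⁻¹ * (-Complex.I)) • Y := by
        rw [hY, hX, smul_smul, smul_smul]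
        have : α⁻¹ * -Complex.I * Complex.I * α = 1 := by
          have hI := Complex.I_mul_I
          field_simp
          linear_combination -hI
        rw [this, one_smul]
      have hWvu : W (v + u) = κ • (W v * Y) := by
        have h3 := h.sys.mul v u
        have h4 : W (v + u) = sg (bf v u) • (W v * W u) := by
          rw [h3, smul_smul, sg_mul_self, one_smul]
        rw [h4, hWu, mul_smul_comm, smul_smul, hκ, mul_assoc]
      refine ⟨-κ⁻¹, by rw [norm_neg, norm_inv, hκ1, inv_one], ?_⟩
      have e2 : W (v + u) * (r • (1 + Y)) = (κ * r) • (W v * Y - W v) := by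
        rw [hWvu, smul_mul_smul_comm]
        congr 1
        rw [mul_add, mul_one, mul_assoc, hYY, mul_neg, mul_one, sub_eq_add_neg]
      rw [e2, smul_smul]
      have e3 : -κ⁻¹ * (κ * r) = -r := by
        field_simp
      rw [e3, smul_mul_assoc, add_mul, one_mul, hYv, neg_smul, ← smul_neg]
      congr 1
      abel
  · have hY' : Y ∈ SP W H := by
      rw [hY, hX]
      exact Submodule.smul_mem _ _ (Submodule.smul_mem _ _
        (Submodule.subset_span (Set.mem_image_of_mem W hu)))
    exact Submodule.smul_mem _ _ (Submodule.add_mem _ (SP_one h H) hY')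

/-- two commuting labels -/
theorem exists_kk (h : PW τ W) (H : AddSubgroup VV) (a b : VV) (ha : a ∈ H) (hb : b ∈ H)
    (hab : sf a b = 0) :
    ∃ U : A, Impl W U (fun v => v + (sf v a • b + sf v b • a)) ∧ U ∈ SP W H := by
  obtain ⟨U1, hU1, hm1⟩ := exists_tv h H (a + b) (H.add_mem ha hb)
  obtain ⟨U2, hU2, hm2⟩ := exists_tv h H a ha
  obtain ⟨U3, hU3, hm3⟩ := exists_tv h H b hb
  refine ⟨U1 * (U2 * U3), ?_, SP_mul h H hm1 (SP_mul h H hm2 hm3)⟩
  have hI := impl_mul hU1 (impl_mul hU2 hU3)
  have e : (fun v => v + (sf v a • b + sf v b • a)) = tv (a + b) ∘ (tv a ∘ tv b) := by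
    funext v
    simp only [Function.comp_apply, tv]
    have sa : sf a a = 0 := by unfold sf; exact CharTwo.add_self_eq_zero _
    have sb : sf b b = 0 := by unfold sf; exact CharTwo.add_self_eq_zero _
    have hba : sf b a = 0 := by rw [sf_comm]; exact hab
    have sadd : ∀ x y z : VV, sf x (y + z) = sf x y + sf x z := by
      intro x y z
      rw [sf_comm, sf_add_left, sf_comm y x, sf_comm z x]
    have ssm : ∀ (c : ZMod 2) (x y : VV), sf (c • x) y = c * sf x y := by
      intro c x y
      rcases z2 c with rfl | rfl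
      · rw [zero_smul, zero_mul]
        unfold sf
        rw [bf_zero_left, bf_zero_right, add_zero]
      · rw [one_smul, one_mul]
    simp only [sf_add_left, sadd, ssm, sa, sb, hab, hba, mul_zero, add_zero]
    have haa := vv_add_self a
    have hbb := vv_add_self b
    rcases z2 (sf v a) with h1 | h1 <;> rcases z2 (sf v b) with h2 | h2
    · rw [h1, h2]; simp
    · rw [h1, h2]
      simp only [zero_smul, one_smul, zero_add, add_zero]
      have : v + b + (a + b) = v + a + (b + b) := by abel
      rw [this, hbb, add_zero]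
    · rw [h1, h2]
      simp only [zero_smul, one_smul, zero_add, add_zero]
      have : v + a + (a + b) = v + b + (a + a) := by abel
      rw [this, haa, add_zero]
    · rw [h1, h2]
      have h11 : (1 : ZMod 2) + 1 = 0 := by decide
      simp only [one_smul, h11, zero_smul, add_zero]
      abel
  rw [e]
  exact hI

/-- symmetric forms on isotropic families -/
theorem exists_sym (h : PW τ W) (H : AddSubgroup VV) (e : ℕ → VV) (he : ∀ i, e i ∈ H)
    (hiso : ∀ i j, sf (e i) (e j) = 0) (n : ℕ) (S : ℕ → ℕ → ZMod 2) (hS : ∀ i j, S i j = S j i) :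
    ∃ U : A, Impl W U (fun v => v + ∑ i ∈ Finset.range n, ∑ j ∈ Finset.range n,
      (S i j * sf v (e j)) • e i) ∧ U ∈ SP W H := by
  have sadd : ∀ x y z : VV, sf x (y + z) = sf x y + sf x z := by
    intro x y z
    rw [sf_comm, sf_add_left, sf_comm y x, sf_comm z x]
  have ssm : ∀ (c : ZMod 2) (x y : VV), sf (c • x) y = c * sf x y := by
    intro c x y
    rcases z2 c with rfl | rfl
    · rw [zero_smul, zero_mul]
      unfold sf
      rw [bf_zero_left, bf_zero_right, add_zero]
    · rw [one_smul, one_mul]
  have s0 : ∀ y : VV, sf 0 y = 0 := by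
    intro y
    unfold sf
    rw [bf_zero_left, bf_zero_right, add_zero]
  let Good : (VV → VV) → Prop := fun δ =>
    (∀ v w, (∀ j, sf v (e j) = sf w (e j)) → δ v = δ w) ∧ (∀ v j, sf (δ v) (e j) = 0) ∧
    ∃ U : A, Impl W U (fun v => v + δ v) ∧ U ∈ SP W H
  have gadd : ∀ δ δ', Good δ → Good δ' → Good (fun v => δ v + δ' v) := by
    rintro δ δ' ⟨a1, a2, U, hU, hm⟩ ⟨b1, b2, U', hU', hm'⟩
    refine ⟨?_, ?_, U * U', ?_, SP_mul h H hm hm'⟩
    · intro v w hvw
      show δ v + δ' v = δ w + δ' w
      rw [a1 v w hvw, b1 v w hvw]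
    · intro v j
      show sf (δ v + δ' v) (e j) = 0
      rw [sf_add_left, a2, b2, add_zero]
    · have hI := impl_mul hU hU'
      have e1 : (fun v => v + (δ v + δ' v)) = (fun v => v + δ v) ∘ (fun v => v + δ' v) := by
        funext v
        simp only [Function.comp_apply]
        have : δ (v + δ' v) = δ v := by
          apply a1
          intro j
          rw [sf_add_left, b2, add_zero]
        rw [this]
        abel
      rw [e1]
      exact hI
  have gzero : Good (fun _ => 0) := by
    refine ⟨fun _ _ _ => rfl, fun v j => s0 _, 1, ⟨one_mem _, ?_⟩, SP_one h H⟩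
    intro v
    refine ⟨1, by simp, ?_⟩
    simp
  have gsmul : ∀ (c : ZMod 2) δ, Good δ → Good (fun v => c • δ v) := by
    intro c δ hδ
    rcases z2 c with rfl | rfl
    · simp only [zero_smul]
      exact gzero
    · simp only [one_smul]
      exact hδ
  have gtv : ∀ j, Good (fun v => sf v (e j) • e j) := by
    intro j
    refine ⟨?_, ?_, exists_tv h H (e j) (he j)⟩
    · intro v w hvw
      show sf v (e j) • e j = sf w (e j) • e j
      rw [hvw j]
    · intro v i
      show sf (sf v (e j) • e j) (e i) = 0
      rw [ssm, hiso, mul_zero]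
  have gkk : ∀ i j, Good (fun v => sf v (e i) • e j + sf v (e j) • e i) := by
    intro i j
    refine ⟨?_, ?_, exists_kk h H (e i) (e j) (he i) (he j) (hiso i j)⟩
    · intro v w hvw
      show sf v (e i) • e j + sf v (e j) • e i = sf w (e i) • e j + sf w (e j) • e i
      rw [hvw j, hvw i]
    · intro v l
      show sf (sf v (e i) • e j + sf v (e j) • e i) (e l) = 0
      rw [sf_add_left, ssm, ssm, hiso, hiso, mul_zero, mul_zero, add_zero]
  have gsum : ∀ (s : Finset ℕ) (δ : ℕ → VV → VV), (∀ i, Good (δ i)) →
      Good (fun v => ∑ i ∈ s, δ i v) := by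
    intro s δ hδ
    classical
    induction s using Finset.induction_on with
    | empty => simpa using gzero
    | insert i s hi ih =>
      have := gadd _ _ (hδ i) ih
      simpa [Finset.sum_insert hi] using this
  have main : Good (fun v => ∑ i ∈ Finset.range n, ∑ j ∈ Finset.range n,
      (S i j * sf v (e j)) • e i) := by
    induction n with
    | zero => simpa using gzero
    | succ n ih =>
      have h1 := gadd _ _ (gadd _ _ ih (gsum (Finset.range n)
        (fun i v => S i n • (sf v (e i) • e n + sf v (e n) • e i))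
        (fun i => gsmul (S i n) _ (gkk i n)))) (gsmul (S n n) _ (gtv n))
      have e1 : (fun v => ∑ i ∈ Finset.range (n + 1), ∑ j ∈ Finset.range (n + 1),
          (S i j * sf v (e j)) • e i) = fun v => (∑ i ∈ Finset.range n, ∑ j ∈ Finset.range n,
          (S i j * sf v (e j)) • e i) +
          (∑ i ∈ Finset.range n, S i n • (sf v (e i) • e n + sf v (e n) • e i)) +
          S n n • (sf v (e n) • e n) := by
        funext v
        rw [Finset.sum_range_succ]
        simp only [Finset.sum_range_succ, Finset.sum_add_distrib, smul_add, smul_smul]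
        have e2 : ∑ j ∈ Finset.range n, (S n j * sf v (e j)) • e n =
            ∑ j ∈ Finset.range n, (S j n * sf v (e j)) • e n :=
          Finset.sum_congr rfl fun j _ => by rw [hS n j]
        rw [e2]
        abel
      rw [e1]
      exact h1
  exact main.2.2

end Pool.Agent.Helper436.AD
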