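import Mathlib
import Pool.Agent.Helper436.AD.Pau
import Pool.Agent.Helper436.AD.G0
import Pool.Agent.Helper436.AD.G2

set_option autoImplicit false
set_option linter.unusedSectionVars false

namespace Pool.Agent.Helper436.AD

open Pool.Agent.Helper278 Pool.Agent.Helper278.CE Pool.Agent.Helper436.SM Pool.Agent.Helper436.SN

variable {A : Type} [Ring A] [StarRing A] [Algebra ℂ A] [StarModule ℂ A] {τ : A →ₗ[ℂ] ℂ}
  {W : VV → A}



/- JOB: the theorem below. -/

theorem exists_gates_sum (e : ℕ → VV) (n : ℕ) (S : ℕ → ℕ → ZMod 2) (J : Finset ℕ)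
    (hJ : J ⊆ Finset.range n) (p : ℕ → ℕ)
    (hp : ∀ i ∈ J, p i < n ∧ ∀ j, S i j = if j = p i then 1 else 0)
    (h0 : ∀ i, i ∉ J → ∀ j, S i j = 0 ∨ e i = 0) (v : VV) :
    v + ∑ i ∈ Finset.range n, ∑ j ∈ Finset.range n, (S i j * sf v (e j)) • e i =
      v + ∑ i ∈ J, sf v (e (p i)) • e i := by
  congr 1
  rw [← Finset.sum_subset hJ]
  · refine Finset.sum_congr rfl fun i hi => ?_
    rw [Finset.sum_eq_single (p i)]
    · rw [(hp i hi).2 (p i), if_pos rfl, one_mul]
    · intro j _ hj
      rw [(hp i hi).2 j, if_neg hj, zero_mul, zero_smul]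
    · intro h
      exact absurd (Finset.mem_range.2 (hp i hi).1) h
  · intro i _ hi
    refine Finset.sum_eq_zero fun j _ => ?_
    rcases h0 i hi j with h | h
    · rw [h, zero_mul, zero_smul]
    · rw [h, smul_zero]

theorem exists_gates_sf_zero_left (w : VV) : sf 0 w = 0 := by
  unfold sf
  rw [bf_zero_left, bf_zero_right, add_zero]

theorem exists_gates_sf_zero_right (w : VV) : sf w 0 = 0 := by
  unfold sf
  rw [bf_zero_left, bf_zero_right, add_zero]

/-- the labels `c` in the block `[a, b)` -/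
noncomputable def egE (a b : ℕ) (c : ZMod 2 × ZMod 2) (i : ℕ) : VV :=
  if a ≤ i ∧ i < b then Finsupp.single i c else 0

theorem egE_mem (a b : ℕ) (c : ZMod 2 × ZMod 2) (i : ℕ) : egE a b c i ∈ lab a b := by
  unfold egE
  split_ifs with h
  · intro j hj
    rw [Finsupp.single_eq_of_ne]
    rintro rfl
    omega
  · exact (lab a b).zero_mem

theorem egE_iso (a b : ℕ) (c : ZMod 2 × ZMod 2) (hc : c.1 * c.2 = 0) (i j : ℕ) :
    sf (egE a b c i) (egE a b c j) = 0 := by
  unfold egE
  split_ifs with h1 h2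
  · rw [sf_single]
    by_cases hij : i = j
    · subst hij
      rw [Finsupp.single_eq_same]
      rw [mul_comm c.2 c.1, hc, zero_add]
    · rw [Finsupp.single_eq_of_ne hij]
      simp
  · exact exists_gates_sf_zero_right _
  · exact exists_gates_sf_zero_left _
  · exact exists_gates_sf_zero_left _

theorem egE_in {a b : ℕ} (c : ZMod 2 × ZMod 2) {i : ℕ} (h1 : a ≤ i) (h2 : i < b) :
    egE a b c i = Finsupp.single i c := by
  unfold egE
  rw [if_pos ⟨h1, h2⟩]

theorem exists_gates_A (a b : ℕ) (v : VV) :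
    v + ∑ i ∈ Finset.range b, ∑ j ∈ Finset.range b,
      ((if a ≤ i ∧ a ≤ j ∧ i + j + 1 = a + b then (1 : ZMod 2) else 0) *
        sf v (egE a b (1, 0) j)) • egE a b (1, 0) i = shA a b v := by
  rw [exists_gates_sum (egE a b (1, 0)) b
    (fun i j => if a ≤ i ∧ a ≤ j ∧ i + j + 1 = a + b then (1 : ZMod 2) else 0) (Finset.Ico a b)
    (fun i hi => Finset.mem_range.2 (Finset.mem_Ico.1 hi).2) (fun i => a + b - 1 - i)]
  · unfold shA
    congr 1
    refine Finset.sum_congr rfl fun i hi => ?_
    rw [Finset.mem_Ico] at hi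
    rw [egE_in _ hi.1 hi.2, egE_in _ (by omega) (by omega), sf_comm, sf_single,
      Finsupp.smul_single]
    congr 1
    ext <;> simp
  · intro i hi
    rw [Finset.mem_Ico] at hi
    refine ⟨by omega, fun j => ?_⟩
    beta_reduce
    by_cases hj : j = a + b - 1 - i
    · rw [if_pos hj, if_pos]
      omega
    · rw [if_neg hj, if_neg]
      omega
  · intro i hi j
    left
    rw [Finset.mem_Ico] at hi
    beta_reduce
    rw [if_neg]
    omega

theorem exists_gates_C (a b : ℕ) (v : VV) :
    v + ∑ i ∈ Finset.range b, ∑ j ∈ Finset.range b,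
      ((if a < i ∧ a < j ∧ i + j = a + b then (1 : ZMod 2) else 0) *
        sf v (egE a b (1, 0) j)) • egE a b (1, 0) i = shC a b v := by
  rw [exists_gates_sum (egE a b (1, 0)) b
    (fun i j => if a < i ∧ a < j ∧ i + j = a + b then (1 : ZMod 2) else 0) (Finset.Ico (a + 1) b)
    (fun i hi => Finset.mem_range.2 (Finset.mem_Ico.1 hi).2) (fun i => a + b - i)]
  · unfold shC
    congr 1
    refine Finset.sum_congr rfl fun i hi => ?_
    rw [Finset.mem_Ico] at hi
    rw [egE_in _ (by omega) hi.2, egE_in _ (by omega) (by omega), sf_comm, sf_single,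
      Finsupp.smul_single]
    congr 1
    ext <;> simp
  · intro i hi
    rw [Finset.mem_Ico] at hi
    refine ⟨by omega, fun j => ?_⟩
    beta_reduce
    by_cases hj : j = a + b - i
    · rw [if_pos hj, if_pos]
      omega
    · rw [if_neg hj, if_neg]
      omega
  · intro i hi j
    left
    rw [Finset.mem_Ico] at hi
    beta_reduce
    rw [if_neg]
    omega

theorem exists_gates_D (a b : ℕ) (v : VV) :
    v + ∑ i ∈ Finset.range b, ∑ j ∈ Finset.range b,
      ((if a ≤ i ∧ a ≤ j ∧ i + j + 2 = a + b then (1 : ZMod 2) else 0) *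
        sf v (egE a b (0, 1) j)) • egE a b (0, 1) i = shD a b v := by
  rw [exists_gates_sum (egE a b (0, 1)) b
    (fun i j => if a ≤ i ∧ a ≤ j ∧ i + j + 2 = a + b then (1 : ZMod 2) else 0)
    (Finset.Ico a (b - 1))
    (fun i hi => Finset.mem_range.2 (by have := (Finset.mem_Ico.1 hi).2; omega))
    (fun i => a + b - 2 - i)]
  · unfold shD
    congr 1
    refine Finset.sum_congr rfl fun i hi => ?_
    rw [Finset.mem_Ico] at hi
    rw [egE_in _ hi.1 (by omega), egE_in _ (by omega) (by omega), sf_comm, sf_single,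
      Finsupp.smul_single]
    congr 1
    ext <;> simp
  · intro i hi
    rw [Finset.mem_Ico] at hi
    refine ⟨by omega, fun j => ?_⟩
    beta_reduce
    by_cases hj : j = a + b - 2 - i
    · rw [if_pos hj, if_pos]
      omega
    · rw [if_neg hj, if_neg]
      omega
  · intro i hi j
    left
    rw [Finset.mem_Ico] at hi
    beta_reduce
    rw [if_neg]
    omega

/-- the gates of a block exist -/
theorem exists_gates (h : PW τ W) (a b : ℕ) (hab : a < b) : ∃ q : Fin 5 → A, Gates W a b q := by
  obtain ⟨Ua, hUa, mUa⟩ := exists_sym h (lab a b) (egE a b (1, 0)) (egE_mem a b _)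
    (egE_iso a b _ (by simp)) b
    (fun i j => if a ≤ i ∧ a ≤ j ∧ i + j + 1 = a + b then (1 : ZMod 2) else 0) (by
      intro i j
      beta_reduce
      congr 1
      apply propext
      constructor <;> (intro hh; omega))
  obtain ⟨Uc, hUc, mUc⟩ := exists_sym h (lab a b) (egE a b (1, 0)) (egE_mem a b _)
    (egE_iso a b _ (by simp)) b
    (fun i j => if a < i ∧ a < j ∧ i + j = a + b then (1 : ZMod 2) else 0) (by
      intro i j
      beta_reduce
      congr 1
      apply propext
      constructor <;> (intro hh; omega))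
  obtain ⟨Ud, hUd, mUd⟩ := exists_sym h (lab a b) (egE a b (0, 1)) (egE_mem a b _)
    (egE_iso a b _ (by simp)) b
    (fun i j => if a ≤ i ∧ a ≤ j ∧ i + j + 2 = a + b then (1 : ZMod 2) else 0) (by
      intro i j
      beta_reduce
      congr 1
      apply propext
      constructor <;> (intro hh; omega))
  beta_reduce at hUa hUc hUd
  rw [show (fun v : VV => v + ∑ i ∈ Finset.range b, ∑ j ∈ Finset.range b,
      ((if a ≤ i ∧ a ≤ j ∧ i + j + 1 = a + b then (1 : ZMod 2) else 0) *
        sf v (egE a b (1, 0) j)) • egE a b (1, 0) i) = shA a b from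
    funext (exists_gates_A a b)] at hUa
  rw [show (fun v : VV => v + ∑ i ∈ Finset.range b, ∑ j ∈ Finset.range b,
      ((if a < i ∧ a < j ∧ i + j = a + b then (1 : ZMod 2) else 0) *
        sf v (egE a b (1, 0) j)) • egE a b (1, 0) i) = shC a b from
    funext (exists_gates_C a b)] at hUc
  rw [show (fun v : VV => v + ∑ i ∈ Finset.range b, ∑ j ∈ Finset.range b,
      ((if a ≤ i ∧ a ≤ j ∧ i + j + 2 = a + b then (1 : ZMod 2) else 0) *
        sf v (egE a b (0, 1) j)) • egE a b (0, 1) i) = shD a b from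
    funext (exists_gates_D a b)] at hUd
  have m3 : W (Finsupp.single (b - 1) (0, 1)) ∈ SP W (lab a b) := by
    refine Submodule.subset_span ⟨_, ?_, rfl⟩
    have := egE_mem a b (0, 1) (b - 1)
    rw [egE_in _ (by omega) (by omega)] at this
    exact this
  have m4 : W (Finsupp.single a (1, 0)) ∈ SP W (lab a b) := by
    refine Submodule.subset_span ⟨_, ?_, rfl⟩
    have := egE_mem a b (1, 0) a
    rw [egE_in _ (by omega) (by omega)] at this
    exact this
  refine ⟨![Ua, Uc, Ud, W (Finsupp.single (b - 1) (0, 1)), W (Finsupp.single a (1, 0))], ?_⟩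
  refine ⟨?_, ?_, hUa, hUc, hUd, rfl, rfl⟩
  · intro l
    fin_cases l
    · exact hUa.unit
    · exact hUc.unit
    · exact hUd.unit
    · exact W_unitary h _
    · exact W_unitary h _
  · intro l
    fin_cases l
    · exact mUa
    · exact mUc
    · exact mUd
    · exact m3
    · exact m4

end Pool.Agent.Helper436.AD
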