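import Mathlib
import Pool.Agent.Helper436.AD.Pau
import Pool.Agent.Helper436.AD.G0
import Pool.Agent.Helper436.AD.G2
import Pool.Agent.Helper436.AD.G3

set_option autoImplicit false
set_option linter.unusedSectionVars false

namespace Pool.Agent.Helper436.AD

open Pool.Agent.Helper278 Pool.Agent.Helper278.CE Pool.Agent.Helper436.SM Pool.Agent.Helper436.SN

variable {A : Type} [Ring A] [StarRing A] [Algebra ℂ A] [StarModule ℂ A] {τ : A →ₗ[ℂ] ℂ}
  {W : VV → A}









/- JOB: the theorems below. -/

theorem swp_invol (a b k : ℕ) (hab : a + k ≤ b) (i : ℕ) : swp a b k (swp a b k i) = i := by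
  unfold swp
  split_ifs <;> omega

theorem sw_apply (a b k : ℕ) (hab : a + k ≤ b) (v : VV) (j : ℕ) :
    sw a b k v j = v (swp a b k j) := by
  have hinj : Function.Injective (swp a b k) := by
    intro x y hxy
    rw [← swp_invol a b k hab x, ← swp_invol a b k hab y, hxy]
  unfold sw
  conv_lhs => rw [← swp_invol a b k hab j]
  exact Finsupp.mapDomain_apply hinj v (swp a b k j)

theorem z2_add_self (x : ZMod 2 × ZMod 2) : x + x = 0 := by
  revert x
  decide

theorem impl_congr {U : A} {g g' : VV → VV} (h : Impl W U g) (hg : g = g') : Impl W U g' := hg ▸ h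

theorem sf_single' (i : ℕ) (c : ZMod 2 × ZMod 2) (v : VV) :
    sf v (Finsupp.single i c) = c.2 * (v i).1 + (v i).2 * c.1 := by
  rw [sf_comm, sf_single]

theorem sf_add_right' (u v w : VV) : sf w (u + v) = sf w u + sf w v := by
  rw [sf_comm, sf_add_left, sf_comm u, sf_comm v]

/-- the pair gate -/
theorem exists_pair (h : PW τ W) (H : AddSubgroup VV) (a b : ℕ) (hab : a < b)
    (hH : ∀ c, Finsupp.single a c + Finsupp.single b c ∈ H) :
    ∃ U : A, Impl W U (sw a b 1) ∧ U ∈ SP W H := by
  obtain ⟨U, hU, hUm⟩ := exists_kk h H (Finsupp.single a (1, 0) + Finsupp.single b (1, 0))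
    (Finsupp.single a (0, 1) + Finsupp.single b (0, 1)) (hH _) (hH _) (by
      have hne : b ≠ a := by omega
      have hne' : a ≠ b := by omega
      rw [sf_add_left, sf_single, sf_single]
      simp [Finsupp.single_apply, hne, hne']
      decide)
  refine ⟨U, impl_congr hU ?_, hUm⟩
  funext v
  ext1 j
  rw [sw_apply a b 1 (by omega)]
  rw [sf_add_right', sf_add_right', sf_single', sf_single', sf_single', sf_single']
  simp only [Finsupp.add_apply, Finsupp.smul_apply, Finsupp.single_apply, zero_mul, mul_one,
    mul_zero, one_mul, zero_add, add_zero]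
  have hs : swp a b 1 j = if j = a then b else if j = b then a else j := by
    unfold swp
    split_ifs <;> omega
  rw [hs]
  by_cases h1 : j = a
  · subst h1
    have hne : b ≠ j := by omega
    simp only [if_true, if_neg hne, add_zero]
    generalize v j = x
    generalize v b = y
    revert x y
    decide
  · by_cases h2 : j = b
    · subst h2
      have hne : a ≠ j := by omega
      rw [if_neg h1]
      simp only [if_true, if_neg hne, zero_add]
      generalize v j = x
      generalize v a = y
      revert x y
      decide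
    · have hne1 : a ≠ j := fun h => h1 h.symm
      have hne2 : b ≠ j := fun h => h2 h.symm
      rw [if_neg h1, if_neg h2]
      simp only [if_neg hne1, if_neg hne2, add_zero, smul_zero]

/-- swap gates -/
theorem exists_swap (h : PW τ W) (a b k : ℕ) (hab : a + k ≤ b) :
    ∃ U : A, Impl W U (sw a b k) ∧ U ∈ SP W (lab a (b + k)) := by
  have key : ∀ m, m ≤ k → ∃ U : A, Impl W U (sw a b m) ∧ U ∈ SP W (lab a (b + k)) := by
    intro m
    induction m with
    | zero =>
      intro _
      refine ⟨1, impl_congr (impl_one h) ?_, SP_one h _⟩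
      funext v
      ext1 j
      rw [sw_apply a b 0 (by omega)]
      unfold swp
      rw [if_neg (by omega), if_neg (by omega)]
      rfl
    | succ m ih =>
      intro hm
      obtain ⟨U, hU, hUm⟩ := ih (by omega)
      obtain ⟨U', hU', hUm'⟩ := exists_pair h (lab a (b + k)) (a + m) (b + m) (by omega) (by
        intro c i hi
        rw [Finsupp.add_apply, Finsupp.single_apply, Finsupp.single_apply, if_neg (by omega),
          if_neg (by omega), add_zero])
      refine ⟨U * U', impl_congr (impl_mul hU hU') ?_, SP_mul h _ hUm hUm'⟩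
      funext v
      ext1 j
      rw [Function.comp_apply, sw_apply a b m (by omega), sw_apply (a + m) (b + m) 1 (by omega),
        sw_apply a b (m + 1) (by omega)]
      congr 1
      unfold swp
      split_ifs <;> omega
  exact key k le_rfl

/-- the controlled gate -/
theorem exists_ctrl (h : PW τ W) (k : ℕ) : ∃ (U : A) (f : VV → VV), Impl W U f ∧
    U ∈ SP W (labH k) ∧ ∀ v : VV, (∀ i, 2 * k ≤ i → v i = 0) → ∀ i, i < k →
      (f v) (2 * k + i) = v i + v (k + i) := by
  have key : ∀ m, m ≤ k → ∃ (U : A) (f : VV → VV), Impl W U f ∧ U ∈ SP W (labH k) ∧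
      (∀ v i, i < k → (f v) i + (f v) (k + i) = v i + v (k + i)) ∧
      (∀ v i, m ≤ i → i < k → (f v) (2 * k + i) = v (2 * k + i)) ∧
      (∀ v i, i < m → (f v) (2 * k + i) = v (2 * k + i) + (v i + v (k + i))) := by
    intro m
    induction m with
    | zero =>
      intro _
      exact ⟨1, id, impl_one h, SP_one h _, fun v i _ => rfl, fun v i _ _ => rfl,
        fun v i hi => absurd hi (by omega)⟩
    | succ m ih =>
      intro hm
      obtain ⟨U, f, hU, hUm, h1, h2, h3⟩ := ih (by omega)
      have hXm : ∀ c : ZMod 2 × ZMod 2,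
          Finsupp.single m c + Finsupp.single (k + m) c ∈ labH k := by
        intro c
        refine ⟨fun i hi => ?_, fun i hi => ?_⟩
        · rw [Finsupp.add_apply, Finsupp.single_apply, Finsupp.single_apply, if_neg (by omega),
            if_neg (by omega), add_zero]
        · rw [Finsupp.add_apply, Finsupp.single_apply, Finsupp.single_apply, Finsupp.add_apply,
            Finsupp.single_apply, Finsupp.single_apply, if_neg (show ¬ (k + m = i) by omega),
            if_neg (show ¬ (m = k + i) by omega), add_zero, zero_add]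
          by_cases hmi : m = i
          · rw [if_pos hmi, if_pos (by omega)]
          · rw [if_neg hmi, if_neg (by omega)]
      have hZm : ∀ c : ZMod 2 × ZMod 2, Finsupp.single (2 * k + m) c ∈ labH k := by
        intro c
        refine ⟨fun i hi => ?_, fun i hi => ?_⟩
        · rw [Finsupp.single_apply, if_neg (by omega)]
        · rw [Finsupp.single_apply, Finsupp.single_apply, if_neg (by omega), if_neg (by omega)]
      have horth : ∀ c c' : ZMod 2 × ZMod 2,
          sf (Finsupp.single m c + Finsupp.single (k + m) c) (Finsupp.single (2 * k + m) c') = 0 := by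
        intro c c'
        rw [sf_add_left, sf_single, sf_single, Finsupp.single_apply, Finsupp.single_apply,
          if_neg (by omega), if_neg (by omega)]
        simp
      obtain ⟨U1, hU1, hU1m⟩ := exists_kk h (labH k) _ _ (hXm (1, 0)) (hZm (0, 1)) (horth _ _)
      obtain ⟨U2, hU2, hU2m⟩ := exists_kk h (labH k) _ _ (hXm (0, 1)) (hZm (1, 0)) (horth _ _)
      -- description of the two gates
      have hg : ∀ (c c' : ZMod 2 × ZMod 2) (v : VV), ∀ (g : VV),
          g = v + (sf v (Finsupp.single m c + Finsupp.single (k + m) c) •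
            Finsupp.single (2 * k + m) c' + sf v (Finsupp.single (2 * k + m) c') •
            (Finsupp.single m c + Finsupp.single (k + m) c)) →
          (∀ i, i < k → g i + g (k + i) = v i + v (k + i)) ∧
          (∀ i, i ≠ m → i < k → g (2 * k + i) = v (2 * k + i)) ∧
          g (2 * k + m) = v (2 * k + m) +
            sf v (Finsupp.single m c + Finsupp.single (k + m) c) • c' := by
        rintro c c' v g rfl
        generalize sf v (Finsupp.single m c + Finsupp.single (k + m) c) = s
        generalize sf v (Finsupp.single (2 * k + m) c') = t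
        refine ⟨fun i hi => ?_, fun i hi hik => ?_, ?_⟩
        · simp only [Finsupp.add_apply, Finsupp.smul_apply, Finsupp.single_apply]
          rw [if_neg (show ¬ (2 * k + m = i) by omega), if_neg (show ¬ (k + m = i) by omega),
            if_neg (show ¬ (2 * k + m = k + i) by omega), if_neg (show ¬ (m = k + i) by omega)]
          by_cases hmi : m = i
          · rw [if_pos hmi, if_pos (by omega)]
            have := z2_add_self (t • c)
            simp only [smul_zero, zero_add, add_zero]
            calc v i + t • c + (v (k + i) + t • c) = v i + v (k + i) + (t • c + t • c) := by abel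
              _ = v i + v (k + i) := by rw [this, add_zero]
          · rw [if_neg hmi, if_neg (by omega)]
            simp only [smul_zero, add_zero]
        · simp only [Finsupp.add_apply, Finsupp.smul_apply, Finsupp.single_apply]
          rw [if_neg (show ¬ (2 * k + m = 2 * k + i) by omega), if_neg (show ¬ (m = 2 * k + i) by omega),
            if_neg (show ¬ (k + m = 2 * k + i) by omega)]
          simp only [smul_zero, add_zero]
        · simp only [Finsupp.add_apply, Finsupp.smul_apply, Finsupp.single_apply]
          rw [if_neg (show ¬ (m = 2 * k + m) by omega),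
            if_neg (show ¬ (k + m = 2 * k + m) by omega)]
          simp only [smul_zero, add_zero, if_true]
      have hIm := impl_mul hU2 (impl_mul hU1 hU)
      refine ⟨U2 * (U1 * U), _, hIm, SP_mul h _ hU2m (SP_mul h _ hU1m hUm), ?_, ?_, ?_⟩
      · intro v i hi
        obtain ⟨a1, a2, a3⟩ := hg (1, 0) (0, 1) (f v) _ rfl
        obtain ⟨b1, b2, b3⟩ := hg (0, 1) (1, 0) _ _ (rfl : _ = (_ : VV))
        exact (b1 i hi).trans ((a1 i hi).trans (h1 v i hi))
      · intro v i hmi hik
        obtain ⟨a1, a2, a3⟩ := hg (1, 0) (0, 1) (f v) _ rfl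
        obtain ⟨b1, b2, b3⟩ := hg (0, 1) (1, 0) _ _ (rfl : _ = (_ : VV))
        exact (b2 i (by omega) hik).trans ((a2 i (by omega) hik).trans (h2 v i (by omega) hik))
      · intro v i hi
        obtain ⟨a1, a2, a3⟩ := hg (1, 0) (0, 1) (f v) _ rfl
        obtain ⟨b1, b2, b3⟩ := hg (0, 1) (1, 0) _ _ (rfl : _ = (_ : VV))
        rcases Nat.lt_succ_iff_lt_or_eq.mp hi with hlt | heq
        · exact (b2 i (by omega) (by omega)).trans
            ((a2 i (by omega) (by omega)).trans (h3 v i hlt))
        · subst heq
          refine b3.trans ?_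
          simp only [Function.comp_apply]
          have hsX : ∀ w : VV, sf w (Finsupp.single i ((1 : ZMod 2), (0 : ZMod 2)) +
              Finsupp.single (k + i) (1, 0)) = (w i + w (k + i)).2 := by
            intro w
            rw [sf_add_right', sf_single', sf_single', Prod.snd_add]
            ring
          have hsY : ∀ w : VV, sf w (Finsupp.single i ((0 : ZMod 2), (1 : ZMod 2)) +
              Finsupp.single (k + i) (0, 1)) = (w i + w (k + i)).1 := by
            intro w
            rw [sf_add_right', sf_single', sf_single', Prod.fst_add]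
            ring
          rw [hsY, a1 i (by omega), a3, h2 v i le_rfl (by omega), hsX, h1 v i (by omega)]
          generalize v (2 * k + i) = x
          generalize v i + v (k + i) = y
          revert x y
          decide
  obtain ⟨U, f, hU, hUm, h1, h2, h3⟩ := key k le_rfl
  refine ⟨U, f, hU, hUm, fun v hv i hi => ?_⟩
  rw [h3 v i hi, hv (2 * k + i) (by omega), zero_add]

/-- the parameters exist -/
theorem exists_par (h : PW τ W) (k : ℕ) (hk : 1 ≤ k) : ∃ p : Fin 13 → A, Par W k p := by
  obtain ⟨q, hq⟩ := exists_gates h k (3 * k) (by omega)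
  obtain ⟨g, hg⟩ := exists_gates h (2 * k) (3 * k) (by omega)
  obtain ⟨U, f, hU, hUm, hf⟩ := exists_ctrl h k
  obtain ⟨S, hS, hSm⟩ := exists_swap h 0 k k (by omega)
  obtain ⟨T, hT, hTm⟩ := exists_swap h k (2 * k) k (by omega)
  have mono : ∀ H : AddSubgroup VV, (∀ v ∈ H, ∀ i, 3 * k ≤ i → v i = 0) →
      ∀ x ∈ SP W (H : Set VV), x ∈ SP W (lab 0 (3 * k) : Set VV) := by
    intro H hH x hx
    refine SP_mono W ?_ hx
    intro v hv i hi
    exact hH v hv i (by omega)
  have m1 : ∀ x ∈ SP W (lab k (3 * k)), x ∈ SP W (lab 0 (3 * k)) :=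
    mono _ (fun v hv i hi => hv i (by omega))
  have m2 : ∀ x ∈ SP W (lab (2 * k) (3 * k)), x ∈ SP W (lab 0 (3 * k)) :=
    mono _ (fun v hv i hi => hv i (by omega))
  have m3 : ∀ x ∈ SP W (labH k), x ∈ SP W (lab 0 (3 * k)) :=
    mono _ (fun v hv i hi => hv.1 i (by omega))
  have m4 : ∀ x ∈ SP W (lab 0 (k + k)), x ∈ SP W (lab 0 (3 * k)) :=
    mono _ (fun v hv i hi => hv i (by omega))
  have m5 : ∀ x ∈ SP W (lab k (2 * k + k)), x ∈ SP W (lab 0 (3 * k)) :=
    mono _ (fun v hv i hi => hv i (by omega))
  have hST := impl_mul hS hT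
  refine ⟨![q 0, q 1, q 2, q 3, q 4, g 0, g 1, g 2, g 3, g 4, U, S, S * T], ?_, ?_, ?_, ?_,
    ⟨f, hU, hf⟩, hUm, hS, hST⟩
  · intro l
    fin_cases l
    exacts [hq.unit 0, hq.unit 1, hq.unit 2, hq.unit 3, hq.unit 4, hg.unit 0, hg.unit 1,
      hg.unit 2, hg.unit 3, hg.unit 4, hU.unit, hS.unit, hST.unit]
  · intro l
    fin_cases l
    exacts [m1 _ (hq.mem 0), m1 _ (hq.mem 1), m1 _ (hq.mem 2), m1 _ (hq.mem 3), m1 _ (hq.mem 4),
      m2 _ (hg.mem 0), m2 _ (hg.mem 1), m2 _ (hg.mem 2), m2 _ (hg.mem 3), m2 _ (hg.mem 4),
      m3 _ hUm, m4 _ hSm, SP_mul h _ (m4 _ hSm) (m5 _ hTm)]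
  · have : (![q 0, q 1, q 2, q 3, q 4] : Fin 5 → A) = q := by
      funext l
      fin_cases l <;> rfl
    exact this.symm ▸ hq
  · have : (![g 0, g 1, g 2, g 3, g 4] : Fin 5 → A) = g := by
      funext l
      fin_cases l <;> rfl
    exact this.symm ▸ hg

end Pool.Agent.Helper436.AD
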