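import Mathlib
import Pool.Agent.Helper436.AD.Pau
import Pool.Agent.Helper436.AD.G1

set_option autoImplicit false
set_option linter.unusedSectionVars false

namespace Pool.Agent.Helper436.AD

open Pool.Agent.Helper278 Pool.Agent.Helper278.CE Pool.Agent.Helper436.SM Pool.Agent.Helper436.SN

variable {A : Type} [Ring A] [StarRing A] [Algebra ℂ A] [StarModule ℂ A] {τ : A →ₗ[ℂ] ℂ}
  {W : VV → A}



/- JOB: the theorems below. -/

/-- the last `i` in `[a, b)` with `x_i = 1`, plus one (zero if there is none) -/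
noncomputable def dx (a b : ℕ) (v : VV) : ℕ :=
  ((Finset.Ico a b).filter fun i => (v i).1 ≠ 0).sup (fun i => i - a + 1)

/-- the same for the reversed `y`: the last `i` in `[a, b)` with `y_(a+b-1-i) = 1`, plus one -/
noncomputable def dy (a b : ℕ) (v : VV) : ℕ :=
  ((Finset.Ico a b).filter fun i => (v (a + b - 1 - i)).2 ≠ 0).sup (fun i => i - a + 1)

/-- degree plus one of a sequence on `[a, b)` -/
noncomputable def gdeg (a b : ℕ) (f : ℕ → ZMod 2) : ℕ :=
  ((Finset.Ico a b).filter fun i => f i ≠ 0).sup (fun i => i - a + 1)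

theorem dx_eq (a b : ℕ) (v : VV) : dx a b v = gdeg a b (fun i => (v i).1) := rfl

theorem dy_eq (a b : ℕ) (v : VV) : dy a b v = gdeg a b (fun i => (v (a + b - 1 - i)).2) := rfl

theorem gdeg_le (a b : ℕ) (f : ℕ → ZMod 2) (m : ℕ) :
    gdeg a b f ≤ m ↔ ∀ i, a ≤ i → i < b → f i ≠ 0 → i - a + 1 ≤ m := by
  unfold gdeg
  rw [Finset.sup_le_iff]
  constructor
  · intro h i h1 h2 h3
    exact h i (Finset.mem_filter.mpr ⟨Finset.mem_Ico.mpr ⟨h1, h2⟩, h3⟩)
  · intro h i hi
    obtain ⟨h1, h3⟩ := Finset.mem_filter.mp hi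
    obtain ⟨h1, h2⟩ := Finset.mem_Ico.mp h1
    exact h i h1 h2 h3

theorem le_gdeg (a b : ℕ) (f : ℕ → ZMod 2) (i : ℕ) (h1 : a ≤ i) (h2 : i < b) (h3 : f i ≠ 0) :
    i - a + 1 ≤ gdeg a b f :=
  (gdeg_le a b f _).mp le_rfl i h1 h2 h3

theorem gdeg_zero_of_lt (a b : ℕ) (f : ℕ → ZMod 2) (i : ℕ) (h1 : a ≤ i) (h2 : i < b)
    (h : gdeg a b f < i - a + 1) : f i = 0 := by
  by_contra h3
  have := le_gdeg a b f i h1 h2 h3
  omega

theorem gdeg_top (a b : ℕ) (f : ℕ → ZMod 2) (h : gdeg a b f ≠ 0) :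
    ∃ d, gdeg a b f = d + 1 ∧ a + d < b ∧ f (a + d) ≠ 0 := by
  have hne : ((Finset.Ico a b).filter fun i => f i ≠ 0).Nonempty := by
    rw [Finset.nonempty_iff_ne_empty]
    intro he
    apply h
    unfold gdeg
    rw [he, Finset.sup_empty]
    rfl
  obtain ⟨i, hi, he⟩ := Finset.exists_mem_eq_sup _ hne (fun i => i - a + 1)
  obtain ⟨h1, h3⟩ := Finset.mem_filter.mp hi
  obtain ⟨h1, h2⟩ := Finset.mem_Ico.mp h1
  refine ⟨i - a, he, by omega, ?_⟩
  rw [show a + (i - a) = i by omega]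
  exact h3

theorem gdeg_congr (a b : ℕ) (f g : ℕ → ZMod 2) (h : ∀ i, a ≤ i → i < b → f i = g i) :
    gdeg a b f = gdeg a b g := by
  unfold gdeg
  have e : ((Finset.Ico a b).filter fun i => f i ≠ 0) =
      ((Finset.Ico a b).filter fun i => g i ≠ 0) := by
    apply Finset.filter_congr
    intro i hi
    obtain ⟨h1, h2⟩ := Finset.mem_Ico.mp hi
    rw [h i h1 h2]
  rw [e]

/-- adding a sequence of smaller degree -/
theorem gdeg_add (a b : ℕ) (f g : ℕ → ZMod 2) (h : gdeg a b f < gdeg a b g) :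
    gdeg a b (fun i => f i + g i) = gdeg a b g := by
  obtain ⟨d, hd, hdb, hg⟩ := gdeg_top a b g (by omega)
  apply le_antisymm
  · rw [gdeg_le]
    intro i h1 h2 h3
    by_contra hcon
    apply h3
    rw [gdeg_zero_of_lt a b f i h1 h2 (by omega), gdeg_zero_of_lt a b g i h1 h2 (by omega),
      add_zero]
  · have h1 : (fun i => f i + g i) (a + d) ≠ 0 := by
      simp only
      rw [gdeg_zero_of_lt a b f (a + d) (by omega) hdb (by omega), zero_add]
      exact hg
    have h2 := le_gdeg a b (fun i => f i + g i) (a + d) (by omega) hdb h1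
    omega

/-- adding a sequence shifted up by one -/
theorem gdeg_shift (a b : ℕ) (f g k : ℕ → ZMod 2) (h : gdeg a b f ≤ gdeg a b g)
    (h0 : gdeg a b g ≠ 0) (htop : g (b - 1) = 0)
    (hk : ∀ i, a ≤ i → i + 1 < b → k (i + 1) = f (i + 1) + g i) :
    gdeg a b g < gdeg a b k := by
  obtain ⟨d, hd, hdb, hg⟩ := gdeg_top a b g h0
  have hne : a + d ≠ b - 1 := by
    intro e
    rw [e] at hg
    exact hg htop
  have h1 : k (a + d + 1) ≠ 0 := by
    rw [hk (a + d) (by omega) (by omega),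
      gdeg_zero_of_lt a b f (a + d + 1) (by omega) (by omega) (by omega), zero_add]
    exact hg
  have h2 := le_gdeg a b k (a + d + 1) (by omega) (by omega) h1
  omega

theorem sum_single_apply (s : Finset ℕ) (f : ℕ → ZMod 2 × ZMod 2) (j : ℕ) :
    (∑ i ∈ s, Finsupp.single i (f i)) j = if j ∈ s then f j else 0 := by
  classical
  rw [Finsupp.finsetSum_apply]
  simp only [Finsupp.single_apply]
  rw [Finset.sum_ite_eq']

theorem shA_apply (a b : ℕ) (v : VV) (j : ℕ) : shA a b v j =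
    v j + if j ∈ Finset.Ico a b then ((v (a + b - 1 - j)).2, (0 : ZMod 2)) else 0 := by
  unfold shA
  rw [Finsupp.add_apply, sum_single_apply]

theorem shC_apply (a b : ℕ) (v : VV) (j : ℕ) : shC a b v j =
    v j + if j ∈ Finset.Ico (a + 1) b then ((v (a + b - j)).2, (0 : ZMod 2)) else 0 := by
  unfold shC
  rw [Finsupp.add_apply, sum_single_apply]

theorem shD_apply (a b : ℕ) (v : VV) (j : ℕ) : shD a b v j =
    v j + if j ∈ Finset.Ico a (b - 1) then ((0 : ZMod 2), (v (a + b - 2 - j)).1) else 0 := by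
  unfold shD
  rw [Finsupp.add_apply, sum_single_apply]

theorem shA_snd (a b : ℕ) (v : VV) (j : ℕ) : (shA a b v j).2 = (v j).2 := by
  rw [shA_apply]
  split_ifs <;> simp

theorem shC_snd (a b : ℕ) (v : VV) (j : ℕ) : (shC a b v j).2 = (v j).2 := by
  rw [shC_apply]
  split_ifs <;> simp

theorem shD_fst (a b : ℕ) (v : VV) (j : ℕ) : (shD a b v j).1 = (v j).1 := by
  rw [shD_apply]
  split_ifs <;> simp

theorem shA_dx (a b : ℕ) (hab : a < b) (v : VV) (hv : dx a b v < dy a b v) :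
    dx a b (shA a b v) = dy a b (shA a b v) ∧ dx a b (shA a b v) ≠ 0 := by
  simp only [dx_eq, dy_eq] at *
  have e1 : gdeg a b (fun i => (shA a b v (a + b - 1 - i)).2) =
      gdeg a b (fun i => (v (a + b - 1 - i)).2) := by
    simp only [shA_snd]
  have e2 : gdeg a b (fun i => (shA a b v i).1) =
      gdeg a b (fun i => (v i).1 + (v (a + b - 1 - i)).2) := by
    apply gdeg_congr
    intro i h1 h2
    rw [shA_apply, if_pos (Finset.mem_Ico.mpr ⟨h1, h2⟩)]
    rfl
  have e3 := gdeg_add a b (fun i => (v i).1) (fun i => (v (a + b - 1 - i)).2) hv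
  rw [e1, e2]
  constructor
  · exact e3
  · rw [e3]
    omega

theorem shC_dx (a b : ℕ) (hab : a < b) (v : VV) (hv : dx a b v ≤ dy a b v) (h0 : dy a b v ≠ 0)
    (htop : (v a).2 = 0) : dy a b (shC a b v) < dx a b (shC a b v) := by
  simp only [dx_eq, dy_eq] at *
  have e1 : gdeg a b (fun i => (shC a b v (a + b - 1 - i)).2) =
      gdeg a b (fun i => (v (a + b - 1 - i)).2) := by
    simp only [shC_snd]
  rw [e1]
  refine gdeg_shift a b (fun i => (v i).1) (fun i => (v (a + b - 1 - i)).2) _ hv h0 ?_ ?_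
  · rw [show a + b - 1 - (b - 1) = a by omega]
    exact htop
  · intro i h1 h2
    rw [shC_apply, if_pos (Finset.mem_Ico.mpr ⟨by omega, h2⟩),
      show a + b - (i + 1) = a + b - 1 - i by omega]
    rfl

theorem shD_dx (a b : ℕ) (hab : a < b) (v : VV) (hv : dy a b v ≤ dx a b v) (h0 : dx a b v ≠ 0)
    (htop : (v (b - 1)).1 = 0) : dx a b (shD a b v) < dy a b (shD a b v) := by
  simp only [dx_eq, dy_eq] at *
  have e1 : gdeg a b (fun i => (shD a b v i).1) = gdeg a b (fun i => (v i).1) := by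
    simp only [shD_fst]
  rw [e1]
  refine gdeg_shift a b (fun i => (v (a + b - 1 - i)).2) (fun i => (v i).1) _ hv h0 htop ?_
  intro i h1 h2
  rw [shD_apply, if_pos (Finset.mem_Ico.mpr ⟨by omega, by omega⟩),
    show a + b - 2 - (a + b - 1 - (i + 1)) = i by omega]
  rfl

theorem sf_single_a (v : VV) (a : ℕ) :
    sf v (Finsupp.single a ((1 : ZMod 2), (0 : ZMod 2))) = (v a).2 := by
  unfold sf bf
  rw [Finsupp.sum_single_index (by simp)]
  simp only [zero_mul, add_zero]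
  unfold Finsupp.sum
  have h1 : ∀ i ∈ v.support, (v i).2 * ((Finsupp.single a ((1 : ZMod 2), (0 : ZMod 2)) :
      ℕ →₀ ZMod 2 × ZMod 2) i).1 = if i = a then (v a).2 else 0 := by
    intro i _
    by_cases h : i = a
    · subst h
      rw [Finsupp.single_eq_same, if_pos rfl, mul_one]
    · rw [Finsupp.single_eq_of_ne h, if_neg h]
      simp
  rw [Finset.sum_congr rfl h1, Finset.sum_ite_eq']
  by_cases h : a ∈ v.support
  · rw [if_pos h]
  · rw [if_neg h]
    rw [Finsupp.notMem_support_iff] at h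
    rw [h]
    rfl

theorem sf_single_b (v : VV) (b : ℕ) :
    sf v (Finsupp.single b ((0 : ZMod 2), (1 : ZMod 2))) = (v b).1 := by
  unfold sf bf
  rw [Finsupp.sum_single_index (by simp)]
  unfold Finsupp.sum
  have h1 : ∀ i ∈ v.support, (v i).2 * ((Finsupp.single b ((0 : ZMod 2), (1 : ZMod 2)) :
      ℕ →₀ ZMod 2 × ZMod 2) i).1 = 0 := by
    intro i _
    by_cases h : i = b
    · subst h
      rw [Finsupp.single_eq_same, mul_zero]
    · rw [Finsupp.single_eq_of_ne h]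
      simp
  rw [Finset.sum_congr rfl h1, Finset.sum_const_zero, zero_add, one_mul]

theorem block_cover (a b : ℕ) (v : VV) (i : ℕ) (h1 : a ≤ i) (h2 : i < b) (h3 : v i ≠ 0) :
    dx a b v ≠ 0 ∨ dy a b v ≠ 0 := by
  by_cases hx : (v i).1 ≠ 0
  · left
    rw [dx_eq]
    have := le_gdeg a b (fun i => (v i).1) i h1 h2 hx
    omega
  · right
    have hy : (v i).2 ≠ 0 := by
      intro hy
      apply h3
      push Not at hx
      exact Prod.ext hx hy
    rw [dy_eq]
    have := le_gdeg a b (fun i => (v (a + b - 1 - i)).2) (a + b - 1 - i) (by omega) (by omega)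
      (by
        show (v (a + b - 1 - (a + b - 1 - i))).2 ≠ 0
        rw [show a + b - 1 - (a + b - 1 - i) = i by omega]
        exact hy)
    omega

theorem cut_cover_le (R S T : Set VV) (f : EllTwo VV) (h : R ⊆ S ∪ T) (hd : Disjoint S T) :
    ‖cut R f‖ ≤ ‖cut S f‖ + ‖cut T f‖ := by
  refine (norm_cut_le R (S ∪ T) h f).trans ?_
  have h2 := norm_cut_disj S T hd f
  have hs := norm_nonneg (cut S f)
  have ht := norm_nonneg (cut T f)
  refine (sq_le_sq₀ (norm_nonneg _) (by positivity)).1 ?_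
  rw [← h2]
  nlinarith [mul_nonneg hs ht]

theorem gap_arith (α β γ κ : ℝ) (ha : 0 ≤ α) (hb : 0 ≤ β) (hc : 0 ≤ γ) (hk : 0 ≤ κ)
    (h0 : α ≤ γ + κ) (h1 : α ^ 2 + γ ^ 2 ≤ (β + 2 * κ) ^ 2)
    (h2 : β ^ 2 + γ ^ 2 ≤ (α + 2 * κ) ^ 2) : α ^ 2 + β ^ 2 + γ ^ 2 ≤ (20 * κ) ^ 2 := by
  have h3 : β ≤ α + 2 * κ := by
    refine (sq_le_sq₀ hb (by positivity)).1 ?_
    nlinarith [sq_nonneg γ]
  have h4 : γ ^ 2 ≤ 2 * κ * (α + β) + 4 * κ ^ 2 := by nlinarith
  have h5 : γ ^ 2 ≤ 4 * κ * γ + 12 * κ ^ 2 := by nlinarith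
  have h6 : γ ≤ 6 * κ := by
    by_contra hcon
    push Not at hcon
    nlinarith [mul_pos (sub_pos.mpr hcon) (by linarith : (0 : ℝ) < γ)]
  have h7 : α ≤ 7 * κ := by linarith
  have h8 : β ≤ 9 * κ := by linarith
  have h9 : α ^ 2 ≤ (7 * κ) ^ 2 := pow_le_pow_left₀ ha h7 2
  have h10 : β ^ 2 ≤ (9 * κ) ^ 2 := pow_le_pow_left₀ hb h8 2
  have h11 : γ ^ 2 ≤ (6 * κ) ^ 2 := pow_le_pow_left₀ hc h6 2
  nlinarith [sq_nonneg κ]

/-- the gap of a block: constant `20` is enough (the proof gives about 15) -/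
theorem gap_block (h : PW τ W) (a b : ℕ) (hab : a < b) (q : Fin 5 → A) (hq : Gates W a b q)
    (x : A) (κ : ℝ) (hκ : ∀ l, n2 τ (q l * x - x * q l) ≤ κ) :
    ‖cut {v : VV | ∃ i, a ≤ i ∧ i < b ∧ v i ≠ 0} (h.hat x)‖ ≤ 20 * κ := by
  have hP4 : ‖cut {v : VV | (v a).2 = 1} (h.hat x)‖ ≤ κ := by
    have h1 := pauli_mass h (Finsupp.single a ((1 : ZMod 2), (0 : ZMod 2))) x
    simp only [sf_single_a] at h1
    rw [← hq.g4] at h1
    exact h1.trans (hκ 4)
  have hP3 : ‖cut {v : VV | (v (b - 1)).1 = 1} (h.hat x)‖ ≤ κ := by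
    have h1 := pauli_mass h (Finsupp.single (b - 1) ((0 : ZMod 2), (1 : ZMod 2))) x
    simp only [sf_single_b] at h1
    rw [← hq.g3] at h1
    exact h1.trans (hκ 3)
  have hk : 0 ≤ κ := (norm_nonneg _).trans hP4
  have hz : ∀ t : ZMod 2, t ≠ 1 → t = 0 := by decide
  have hz' : (0 : ZMod 2) ≠ 1 := by decide
  have hA := impl_mass' h hq.ga {v | dx a b v < dy a b v}
    {v | dx a b v = dy a b v ∧ dx a b v ≠ 0} (fun v hv => shA_dx a b hab v hv) x
  have hC := impl_mass' h hq.gc {v | dx a b v ≤ dy a b v ∧ dy a b v ≠ 0 ∧ (v a).2 = 0}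
    {v | dy a b v < dx a b v} (fun v hv => shC_dx a b hab v hv.1 hv.2.1 hv.2.2) x
  have hD := impl_mass' h hq.gd {v | dy a b v ≤ dx a b v ∧ dx a b v ≠ 0 ∧ (v (b - 1)).1 = 0}
    {v | dx a b v < dy a b v} (fun v hv => shD_dx a b hab v hv.1 hv.2.1 hv.2.2) x
  have hd13 : Disjoint {v : VV | dx a b v < dy a b v}
      {v : VV | dx a b v = dy a b v ∧ dx a b v ≠ 0} := by
    rw [Set.disjoint_left]
    intro v (h1 : dx a b v < dy a b v) (h2 : dx a b v = dy a b v ∧ dx a b v ≠ 0)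
    omega
  have hd23 : Disjoint {v : VV | dy a b v < dx a b v}
      {v : VV | dx a b v = dy a b v ∧ dx a b v ≠ 0} := by
    rw [Set.disjoint_left]
    intro v (h1 : dy a b v < dx a b v) (h2 : dx a b v = dy a b v ∧ dx a b v ≠ 0)
    omega
  have hd132 : Disjoint ({v : VV | dx a b v < dy a b v} ∪
      {v : VV | dx a b v = dy a b v ∧ dx a b v ≠ 0}) {v : VV | dy a b v < dx a b v} := by
    rw [Set.disjoint_left]
    rintro v (h1 | h1) (h2 : dy a b v < dx a b v)
    · have h3 : dx a b v < dy a b v := h1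
      omega
    · have h3 : dx a b v = dy a b v ∧ dx a b v ≠ 0 := h1
      omega
  have e13 := norm_cut_disj _ _ hd13 (h.hat x)
  have e23 := norm_cut_disj _ _ hd23 (h.hat x)
  have e132 := norm_cut_disj _ _ hd132 (h.hat x)
  have c1 := cut_cover_le ({v : VV | dx a b v < dy a b v} ∪
      {v : VV | dx a b v = dy a b v ∧ dx a b v ≠ 0})
    {v | dx a b v ≤ dy a b v ∧ dy a b v ≠ 0 ∧ (v a).2 = 0} {v : VV | (v a).2 = 1} (h.hat x)
    (by
      intro v hv
      have h1 : dx a b v ≤ dy a b v ∧ dy a b v ≠ 0 := by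
        rcases hv with h1 | h1
        · have h3 : dx a b v < dy a b v := h1
          omega
        · have h3 : dx a b v = dy a b v ∧ dx a b v ≠ 0 := h1
          omega
      by_cases h2 : (v a).2 = 1
      · exact Or.inr h2
      · exact Or.inl ⟨h1.1, h1.2, hz _ h2⟩)
    (by
      rw [Set.disjoint_left]
      intro v h1 h2
      have h3 : (v a).2 = 0 := h1.2.2
      have h4 : (v a).2 = 1 := h2
      rw [h3] at h4
      exact hz' h4)
  have c2 := cut_cover_le ({v : VV | dy a b v < dx a b v} ∪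
      {v : VV | dx a b v = dy a b v ∧ dx a b v ≠ 0})
    {v | dy a b v ≤ dx a b v ∧ dx a b v ≠ 0 ∧ (v (b - 1)).1 = 0}
    {v : VV | (v (b - 1)).1 = 1} (h.hat x)
    (by
      intro v hv
      have h1 : dy a b v ≤ dx a b v ∧ dx a b v ≠ 0 := by
        rcases hv with h1 | h1
        · have h3 : dy a b v < dx a b v := h1
          omega
        · have h3 : dx a b v = dy a b v ∧ dx a b v ≠ 0 := h1
          omega
      by_cases h2 : (v (b - 1)).1 = 1
      · exact Or.inr h2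
      · exact Or.inl ⟨h1.1, h1.2, hz _ h2⟩)
    (by
      rw [Set.disjoint_left]
      intro v h1 h2
      have h3 : (v (b - 1)).1 = 0 := h1.2.2
      have h4 : (v (b - 1)).1 = 1 := h2
      rw [h3] at h4
      exact hz' h4)
  have hcov : {v : VV | ∃ i, a ≤ i ∧ i < b ∧ v i ≠ 0} ⊆ ({v : VV | dx a b v < dy a b v} ∪
      {v : VV | dx a b v = dy a b v ∧ dx a b v ≠ 0}) ∪ {v : VV | dy a b v < dx a b v} := by
    rintro v ⟨i, h1, h2, h3⟩
    have h4 := block_cover a b v i h1 h2 h3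
    rcases lt_trichotomy (dx a b v) (dy a b v) with h5 | h5 | h5
    · exact Or.inl (Or.inl h5)
    · exact Or.inl (Or.inr ⟨h5, by omega⟩)
    · exact Or.inr h5
  have hfin := norm_cut_le _ _ hcov (h.hat x)
  refine hfin.trans ?_
  refine (sq_le_sq₀ (norm_nonneg _) (by positivity)).1 ?_
  rw [← e132, ← e13]
  generalize hα : ‖cut {v : VV | dx a b v < dy a b v} (h.hat x)‖ = α at *
  generalize hβ : ‖cut {v : VV | dy a b v < dx a b v} (h.hat x)‖ = β at *
  generalize hγ : ‖cut {v : VV | dx a b v = dy a b v ∧ dx a b v ≠ 0} (h.hat x)‖ = γ at *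
  have ha : 0 ≤ α := by rw [← hα]; exact norm_nonneg _
  have hb : 0 ≤ β := by rw [← hβ]; exact norm_nonneg _
  have hc : 0 ≤ γ := by rw [← hγ]; exact norm_nonneg _
  have k0 := hκ 0
  have k1 := hκ 1
  have k2 := hκ 2
  have h1 : α ^ 2 + γ ^ 2 ≤ (β + 2 * κ) ^ 2 := by
    rw [e13]
    exact pow_le_pow_left₀ (norm_nonneg _) (by linarith) 2
  have h2 : β ^ 2 + γ ^ 2 ≤ (α + 2 * κ) ^ 2 := by
    rw [e23]
    exact pow_le_pow_left₀ (norm_nonneg _) (by linarith) 2
  have h3 := gap_arith α β γ κ ha hb hc hk (by linarith) h1 h2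
  linarith

end Pool.Agent.Helper436.AD
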