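import Mathlib
import Pool.Agent.Helper436.AD.G0
import Pool.Agent.Helper436.AD.G1
import Pool.Agent.Helper436.AD.G4
import Pool.Agent.Helper436.AD.G5

set_option autoImplicit false
set_option linter.unusedSectionVars false

namespace Pool.Agent.Helper436.AD

open Pool.Agent.Helper278 Pool.Agent.Helper278.CE Pool.Agent.Helper436.SM Pool.Agent.Helper436.SN

variable {A : Type} [Ring A] [StarRing A] [Algebra ℂ A] [StarModule ℂ A] {τ : A →ₗ[ℂ] ℂ}
  {W : VV → A}

theorem n2_umul {U a : A} (hU : star U * U = 1) : n2 τ (U * a) = n2 τ a := by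
  unfold n2
  rw [star_mul, mul_assoc, ← mul_assoc (star U), hU, one_mul]

theorem n2_quarter (h : TrAlg τ) (y : A) : n2 τ ((1 / 4 : ℂ) • y) = 1 / 4 * n2 τ y := by
  unfold n2
  have e : τ (star ((1 / 4 : ℂ) • y) * ((1 / 4 : ℂ) • y)) = (((1 / 4 : ℝ) ^ 2 : ℝ) : ℂ) * τ (star y * y) := by
    rw [star_smul, smul_mul_smul_comm, map_smul, smul_eq_mul]
    congr 1
    have h4 : star (1 / 4 : ℂ) = (1 / 4 : ℂ) := by
      rw [Complex.star_def, map_div₀, map_one]
      congr 1
      exact Complex.conj_ofNat 4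
    rw [h4]
    push_cast
    ring
  rw [e, Complex.re_ofReal_mul, Real.sqrt_mul (by positivity), Real.sqrt_sq (by norm_num)]

/-- average over the Paulis of the site `m` -/
noncomputable def avg (W : VV → A) (m : ℕ) (x : A) : A :=
  (1 / 4 : ℂ) • ∑ c : ZMod 2 × ZMod 2,
    W (Finsupp.single m c) * x * star (W (Finsupp.single m c))

theorem sum_sg (a b : ZMod 2) : ∑ c : ZMod 2 × ZMod 2, SM.sg (c.2 * a + b * c.1) =
    if (a, b) = ((0, 0) : ZMod 2 × ZMod 2) then 4 else 0 := by
  have hu : (Finset.univ : Finset (ZMod 2)) = {0, 1} := by decide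
  rw [Fintype.sum_prod_type]
  simp only [hu]
  rw [Finset.sum_pair (by decide), Finset.sum_pair (by decide), Finset.sum_pair (by decide)]
  have hab : (a = 0 ∨ a = 1) ∧ (b = 0 ∨ b = 1) := by
    revert a b
    decide
  have h11 : (1 : ZMod 2) + 1 = 0 := by decide
  have h10 : (1 : ZMod 2) ≠ 0 := by decide
  obtain ⟨ha | ha, hb | hb⟩ := hab <;> subst ha <;> subst hb <;>
    simp [SM.sg, h11] <;> norm_num

theorem avg_W (h : PW τ W) (m : ℕ) (v : VV) :
    avg W m (W v) = if v m = 0 then W v else 0 := by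
  unfold avg
  have h1 : ∀ c : ZMod 2 × ZMod 2, W (Finsupp.single m c) * W v * star (W (Finsupp.single m c)) =
      SM.sg (c.2 * (v m).1 + (v m).2 * c.1) • W v := by
    intro c
    rw [W_comm h, smul_mul_assoc, mul_assoc, (Unitary.mem_iff.1 (W_unitary h _)).2, mul_one, sf_single]
  rw [Finset.sum_congr rfl fun c _ => h1 c, ← Finset.sum_smul, sum_sg, smul_smul]
  by_cases hv : v m = 0
  · rw [if_pos hv, if_pos (by rw [hv]; rfl)]
    norm_num
  · rw [if_neg hv, if_neg (by intro e; exact hv (by rw [← Prod.eta (v m)] ; exact e))]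
    norm_num

theorem avg_zero (W : VV → A) (m : ℕ) : avg W m (0 : A) = 0 := by
  unfold avg
  simp

theorem avg_add (W : VV → A) (m : ℕ) (x y : A) : avg W m (x + y) = avg W m x + avg W m y := by
  unfold avg
  rw [← smul_add, ← Finset.sum_add_distrib]
  congr 1
  exact Finset.sum_congr rfl fun c _ => by rw [mul_add, add_mul]

theorem avg_smul (W : VV → A) (m : ℕ) (c : ℂ) (x : A) : avg W m (c • x) = c • avg W m x := by
  unfold avg
  have e : ∑ d : ZMod 2 × ZMod 2, W (Finsupp.single m d) * (c • x) * star (W (Finsupp.single m d)) =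
      c • ∑ d : ZMod 2 × ZMod 2, W (Finsupp.single m d) * x * star (W (Finsupp.single m d)) := by
    rw [Finset.smul_sum]
    exact Finset.sum_congr rfl fun d _ => by rw [mul_smul_comm, smul_mul_assoc]
  rw [e, smul_comm]

theorem avg_contr (h : PW τ W) (m : ℕ) {x : A} (hx : ∀ a, n2 τ (x * a) ≤ n2 τ a) (a : A) :
    n2 τ (avg W m x * a) ≤ n2 τ a := by
  unfold avg
  rw [smul_mul_assoc, n2_quarter h.tr, Finset.sum_mul]
  have hsum : ∀ (s : Finset (ZMod 2 × ZMod 2)) (f : ZMod 2 × ZMod 2 → A),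
      n2 τ (∑ c ∈ s, f c) ≤ ∑ c ∈ s, n2 τ (f c) := by
    intro s f
    classical
    induction s using Finset.induction_on with
    | empty => rw [Finset.sum_empty, Finset.sum_empty, h.tr.n2_zero]
    | insert c s hc ih =>
      rw [Finset.sum_insert hc, Finset.sum_insert hc]
      exact (h.tr.n2_add_le _ _).trans (add_le_add le_rfl ih)
  have hone : ∀ c : ZMod 2 × ZMod 2,
      n2 τ (W (Finsupp.single m c) * x * star (W (Finsupp.single m c)) * a) ≤ n2 τ a := by
    intro c
    have hU := Unitary.mem_iff.1 (W_unitary h (Finsupp.single m c))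
    rw [mul_assoc, mul_assoc, n2_umul hU.1]
    refine (hx _).trans (le_of_eq ?_)
    exact n2_umul (by rw [star_star]; exact hU.2)
  have h2 := (hsum Finset.univ
    (fun c => W (Finsupp.single m c) * x * star (W (Finsupp.single m c)) * a)).trans
    (Finset.sum_le_sum fun c _ => hone c)
  rw [Finset.sum_const, Finset.card_univ, Fintype.card_prod, ZMod.card] at h2
  simp only [nsmul_eq_mul] at h2
  push_cast at h2
  linarith

theorem hat_zero (h : PW τ W) : h.hat (0 : A) = 0 := by
  have := hat_sub h (0 : A) 0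
  rw [sub_self, sub_self] at this
  exact this

theorem avg_SP (h : PW τ W) (m : ℕ) {x : A} (hx : x ∈ SP W (lab 0 (m + 1))) :
    avg W m x ∈ SP W (lab 0 m) ∧
      h.hat (avg W m x) = cut (lab 0 m : Set VV) (h.hat x) := by
  unfold SP at hx
  induction hx using Submodule.span_induction with
  | mem x hx =>
    obtain ⟨v, hv, rfl⟩ := hx
    rw [avg_W h]
    by_cases hvm : v m = 0
    · rw [if_pos hvm]
      have hv' : v ∈ (lab 0 m : Set VV) := by
        intro i hi
        rcases hi with hi | hi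
        · omega
        · rcases Nat.eq_or_lt_of_le hi with e | e
          · rw [← e]; exact hvm
          · exact hv i (Or.inr e)
      have hm : W v ∈ SP W (lab 0 m) := SP_W W hv'
      refine ⟨hm, ?_⟩
      ext w
      by_cases hw : w ∈ (lab 0 m : Set VV)
      · rw [cut_apply_mem _ hw]
      · rw [cut_apply_not_mem _ hw, SP_hat h hm hw]
    · rw [if_neg hvm]
      refine ⟨Submodule.zero_mem _, ?_⟩
      rw [hat_zero]
      ext w
      by_cases hw : w ∈ (lab 0 m : Set VV)
      · rw [cut_apply_mem _ hw, h.hat_apply, W_ne h]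
        · rfl
        · rintro rfl
          exact hvm (hw m (Or.inr le_rfl))
      · rw [cut_apply_not_mem _ hw]
        rfl
  | zero =>
    rw [avg_zero, hat_zero]
    refine ⟨Submodule.zero_mem _, ?_⟩
    ext w
    by_cases hw : w ∈ (lab 0 m : Set VV)
    · rw [cut_apply_mem _ hw]
    · rw [cut_apply_not_mem _ hw]
      rfl
  | add y z _ _ h1 h2 =>
    rw [avg_add, hat_add, hat_add, h1.2, h2.2]
    refine ⟨Submodule.add_mem _ h1.1 h2.1, ?_⟩
    ext w
    show cut (lab 0 m : Set VV) (h.hat y) w + cut (lab 0 m : Set VV) (h.hat z) w = _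
    by_cases hw : w ∈ (lab 0 m : Set VV)
    · rw [cut_apply_mem _ hw, cut_apply_mem _ hw, cut_apply_mem _ hw]
      rfl
    · rw [cut_apply_not_mem _ hw, cut_apply_not_mem _ hw, cut_apply_not_mem _ hw, add_zero]
  | smul c y _ h1 =>
    rw [avg_smul, hat_smul, hat_smul, h1.2]
    refine ⟨Submodule.smul_mem _ _ h1.1, ?_⟩
    ext w
    show c * cut (lab 0 m : Set VV) (h.hat y) w = _
    by_cases hw : w ∈ (lab 0 m : Set VV)
    · rw [cut_apply_mem _ hw, cut_apply_mem _ hw]
      rfl
    · rw [cut_apply_not_mem _ hw, cut_apply_not_mem _ hw, mul_zero]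

/-- JOB: the conditional expectation onto the first sites. -/
theorem exists_cond (h : PW τ W) {k n : ℕ} (hkn : k ≤ n) {x : A} (hx : x ∈ SP W (lab 0 n))
    (hu : x ∈ unitary A) :
    ∃ x0 ∈ SP W (lab 0 k), (∀ a, n2 τ (x0 * a) ≤ n2 τ a) ∧
      h.hat x0 = cut (lab 0 k : Set VV) (h.hat x) := by
  induction hkn using Nat.decreasingInduction with
  | of_succ k hk ih =>
    obtain ⟨x0, hx0, hc, hh⟩ := ih
    obtain ⟨h1, h2⟩ := avg_SP h k hx0
    refine ⟨avg W k x0, h1, avg_contr h k hc, ?_⟩
    rw [h2, hh]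
    ext w
    by_cases hw : w ∈ (lab 0 k : Set VV)
    · have hw' : w ∈ (lab 0 (k + 1) : Set VV) := by
        intro i hi
        exact hw i (by omega)
      rw [cut_apply_mem _ hw, cut_apply_mem _ hw', cut_apply_mem _ hw]
    · rw [cut_apply_not_mem _ hw, cut_apply_not_mem _ hw]
  | self =>
    refine ⟨x, hx, fun a => (n2_umul (Unitary.mem_iff.1 hu).1).le, ?_⟩
    ext w
    by_cases hw : w ∈ (lab 0 n : Set VV)
    · rw [cut_apply_mem _ hw]
    · rw [cut_apply_not_mem _ hw, SP_hat h hx hw]

/-- JOB: elements with finitely many labels are the sums of their coefficients. -/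
theorem eq_of_hat (h : PW τ W) {x y : A} (hxy : h.hat x = h.hat y) : x = y := by
  have h1 : n2 τ (x - y) = 0 := by
    rw [← norm_hat h, hat_sub, hxy, sub_self, norm_zero]
  have h2 := h.tr.n2_sq (x - y)
  rw [h1] at h2
  have h3 : τ (star (x - y) * (x - y)) = 0 := by
    apply Complex.ext
    · rw [← h2]; simp
    · rw [h.tr.im_zero]; simp
  exact sub_eq_zero.mp (h.tr.faithful _ h3)


end Pool.Agent.Helper436.AD
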