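import Mathlib
import Pool.Agent.Helper436.AD.G0
import Pool.Agent.Helper436.AD.G1
import Pool.Agent.Helper436.AD.G4
import Pool.Agent.Helper436.AD.G5
import Pool.Agent.Helper436.AD.P1

set_option autoImplicit false
set_option linter.unusedSectionVars false

namespace Pool.Agent.Helper436.AD

open Pool.Agent.Helper278 Pool.Agent.Helper278.CE Pool.Agent.Helper436.SM Pool.Agent.Helper436.SN

variable {A : Type} [Ring A] [StarRing A] [Algebra ℂ A] [StarModule ℂ A] {τ : A →ₗ[ℂ] ℂ}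
  {W : VV → A}
theorem exb_def (h : PW τ W) (p : Fin 13 → A) (x : A) :
    0 ≤ dd τ p x ∧
    (∀ l : Fin 5, n2 τ (cmt (![p 0, p 1, p 2, p 3, p 4] l) x) ≤ Real.sqrt (dd τ p x)) ∧
    (∀ l : Fin 5, n2 τ (cmt (![p 5, p 6, p 7, p 8, p 9] l) (yy (p 11) x)) ≤
      Real.sqrt (dd τ p x)) ∧
    n2 τ (cmt (p 10) (yy (p 11) x)) ≤ Real.sqrt (dd τ p x) := by
  have e : ∀ a : A, n2s τ a = n2 τ a ^ 2 := fun a => (h.tr.n2_sq a).symm
  have nn : ∀ a : A, 0 ≤ n2s τ a := fun a => by rw [e]; positivity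
  have key : ∀ a : A, n2s τ a ≤ dd τ p x → n2 τ a ≤ Real.sqrt (dd τ p x) := fun a ha => by
    rw [e] at ha
    exact Real.le_sqrt_of_sq_le ha
  have hdd : dd τ p x = n2s τ (x ^ 4 - 1) +
    (n2s τ (cmt (p 0) x) + n2s τ (cmt (p 1) x) + n2s τ (cmt (p 2) x) + n2s τ (cmt (p 3) x) +
      n2s τ (cmt (p 4) x)) +
    (n2s τ (cmt (p 5) (yy (p 11) x)) + n2s τ (cmt (p 6) (yy (p 11) x)) +
      n2s τ (cmt (p 7) (yy (p 11) x)) + n2s τ (cmt (p 8) (yy (p 11) x)) +
      n2s τ (cmt (p 9) (yy (p 11) x))) +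
    n2s τ (cmt (p 10) (yy (p 11) x)) := rfl
  have a0 := nn (x ^ 4 - 1)
  have b0 := nn (cmt (p 0) x)
  have b1 := nn (cmt (p 1) x)
  have b2 := nn (cmt (p 2) x)
  have b3 := nn (cmt (p 3) x)
  have b4 := nn (cmt (p 4) x)
  have c5 := nn (cmt (p 5) (yy (p 11) x))
  have c6 := nn (cmt (p 6) (yy (p 11) x))
  have c7 := nn (cmt (p 7) (yy (p 11) x))
  have c8 := nn (cmt (p 8) (yy (p 11) x))
  have c9 := nn (cmt (p 9) (yy (p 11) x))
  have c10 := nn (cmt (p 10) (yy (p 11) x))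
  refine ⟨by rw [hdd]; linarith, fun l => ?_, fun l => ?_, key _ (by rw [hdd]; linarith)⟩
  · fin_cases l
    · exact key (cmt (p 0) x) (by rw [hdd]; linarith)
    · exact key (cmt (p 1) x) (by rw [hdd]; linarith)
    · exact key (cmt (p 2) x) (by rw [hdd]; linarith)
    · exact key (cmt (p 3) x) (by rw [hdd]; linarith)
    · exact key (cmt (p 4) x) (by rw [hdd]; linarith)
  · fin_cases l
    · exact key (cmt (p 5) (yy (p 11) x)) (by rw [hdd]; linarith)
    · exact key (cmt (p 6) (yy (p 11) x)) (by rw [hdd]; linarith)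
    · exact key (cmt (p 7) (yy (p 11) x)) (by rw [hdd]; linarith)
    · exact key (cmt (p 8) (yy (p 11) x)) (by rw [hdd]; linarith)
    · exact key (cmt (p 9) (yy (p 11) x)) (by rw [hdd]; linarith)

theorem exb_fin (k : ℕ) : ((lab 0 k : AddSubgroup VV) : Set VV).Finite := by
  refine Set.Finite.of_injOn (f := fun v : VV => fun i : Fin k => v i) (t := Set.univ)
    (fun _ _ => Set.mem_univ _) ?_ Set.finite_univ
  intro v hv w hw hvw
  refine Finsupp.ext fun i => ?_
  by_cases hi : i < k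
  · exact congrFun hvw ⟨i, hi⟩
  · rw [hv i (Or.inr (not_lt.1 hi)), hw i (Or.inr (not_lt.1 hi))]

theorem exb_indep (h : PW τ W) {k m : ℕ} {a b : A} (ha : a ∈ SP W (lab 0 k))
    (hb : b ∈ SP W (lab k m)) : τ (a * b) = τ a * τ b := by
  unfold SP at ha hb
  induction ha using Submodule.span_induction with
  | mem a ha =>
    obtain ⟨v, hv, rfl⟩ := ha
    induction hb using Submodule.span_induction with
    | mem b hb =>
      obtain ⟨w, hw, rfl⟩ := hb
      rw [h.sys.mul, map_smul, h.sys.trace, h.sys.trace, h.sys.trace, smul_eq_mul]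
      by_cases hv0 : v = 0
      · subst hv0
        rw [bf_zero_left, zero_add]
        simp [SM.sg]
      · have hvw : v + w ≠ 0 := by
          intro h0
          apply hv0
          refine Finsupp.ext fun i => ?_
          by_cases hi : i < k
          · have h1 : (v + w) i = 0 := by rw [h0]; rfl
            rw [Finsupp.add_apply, hw i (Or.inl hi), add_zero] at h1
            exact h1
          · exact hv i (Or.inr (not_lt.1 hi))
        rw [if_neg hv0, if_neg hvw, mul_zero, zero_mul]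
    | zero => simp
    | add b c _ _ h1 h2 => rw [mul_add, map_add, map_add, h1, h2, mul_add]
    | smul c b _ h1 =>
      rw [mul_smul_comm, map_smul, map_smul, h1, smul_eq_mul, smul_eq_mul]; ring
  | zero => simp
  | add a c _ _ h1 h2 => rw [add_mul, map_add, map_add, h1, h2, add_mul]
  | smul c a _ h1 => rw [smul_mul_assoc, map_smul, map_smul, h1, smul_eq_mul, smul_eq_mul]; ring

theorem exb_sw_lo {k : ℕ} {w : VV} (hw : w ∈ lab 0 k) (i : ℕ) (hi : i < k) :
    sw 0 k k w i = 0 := by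
  rw [sw_apply 0 k k (by omega)]
  have : swp 0 k k i = i + k := by
    unfold swp
    split_ifs <;> omega
  rw [this]
  exact hw _ (Or.inr (by omega))

theorem exb_sw_hi {k : ℕ} (w : VV) (i : ℕ) (hi : i < k) :
    sw 0 k k w (k + i) = w i := by
  rw [sw_apply 0 k k (by omega)]
  have : swp 0 k k (k + i) = i := by
    unfold swp
    split_ifs <;> omega
  rw [this]

theorem exb_sw_mem {k : ℕ} {w : VV} (hw : w ∈ lab 0 k) : sw 0 k k w ∈ lab k (2 * k) := by
  intro i hi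
  rcases hi with hi | hi
  · exact exb_sw_lo hw i hi
  · rw [sw_apply 0 k k (by omega)]
    have : swp 0 k k i = i := by
      unfold swp
      split_ifs <;> omega
    rw [this]
    exact hw _ (Or.inr (by omega))

theorem exb_conj_mem {F : A} {g : VV → VV} (hF : Impl W F g) {H H' : Set VV}
    (hg : ∀ v ∈ H, g v ∈ H') {a : A} (ha : a ∈ SP W H) : F * a * star F ∈ SP W H' := by
  unfold SP at ha ⊢
  induction ha using Submodule.span_induction with
  | mem a ha =>
    obtain ⟨v, hv, rfl⟩ := ha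
    obtain ⟨c, hc, e⟩ := hF.conj v
    rw [e, smul_mul_assoc, mul_assoc, (Unitary.mem_iff.1 hF.unit).2, mul_one]
    exact Submodule.smul_mem _ _ (Submodule.subset_span ⟨g v, hg v hv, rfl⟩)
  | zero => simp
  | add a b _ _ h1 h2 => rw [mul_add, add_mul]; exact Submodule.add_mem _ h1 h2
  | smul c a _ h1 => rw [mul_smul_comm, smul_mul_assoc]; exact Submodule.smul_mem _ _ h1

theorem exb_hat_star (h : PW τ W) (x : A) (w : VV) : ‖h.hat (star x) w‖ = ‖h.hat x w‖ := by
  rw [PW.hat_apply, PW.hat_apply]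
  have e1 : star (W w) * star x = star (x * W w) := (star_mul _ _).symm
  rw [e1, h.tr.conj, norm_star, h.tr.comm, h.sys.star, smul_mul_assoc, map_smul, norm_smul,
    norm_sg, one_mul]

theorem exb_hat_y (h : PW τ W) {k : ℕ} {F : A} (hF : Impl W F (sw 0 k k)) {x0 : A}
    (hx0 : x0 ∈ SP W (lab 0 k)) {v w : VV} (hv : v ∈ lab 0 k) (hw : w ∈ lab 0 k) :
    ‖h.hat (x0 * (F * star x0 * star F)) (v + sw 0 k k w)‖ = ‖h.hat x0 v‖ * ‖h.hat x0 w‖ := by
  have hb : F * star x0 * star F ∈ SP W (lab k (2 * k)) :=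
    exb_conj_mem hF (fun u hu => exb_sw_mem hu) (SP_star h _ hx0)
  have e1 : W (v + sw 0 k k w) = SM.sg (bf v (sw 0 k k w)) • (W v * W (sw 0 k k w)) := by
    rw [h.sys.mul, smul_smul, sg_mul_self, one_smul]
  rw [PW.hat_apply, e1, star_smul, star_mul, smul_mul_assoc, map_smul, norm_smul, norm_star,
    norm_sg, one_mul]
  have e2 : τ (star (W (sw 0 k k w)) * star (W v) * (x0 * (F * star x0 * star F))) =
     τ ((star (W v) * x0) * ((F * star x0 * star F) * star (W (sw 0 k k w)))) := by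
    rw [mul_assoc (star (W (sw 0 k k w))), h.tr.comm]
    congr 1
    simp only [mul_assoc]
  rw [e2, exb_indep h (SP_mul h _ (SP_star h _ (SP_W W hv)) hx0)
    (SP_mul h _ hb (SP_star h _ (SP_W W (exb_sw_mem hw)))), norm_mul]
  congr 1
  rw [h.tr.comm]
  have h3 := norm_hat_conj h hF (star x0) w
  rw [exb_hat_star] at h3
  rw [← h3]
  rfl

theorem exb_cut_le (S T : Set VV) (f : EllTwo VV) (h : ∀ v ∈ S, v ∉ T → f v = 0) :
    ‖cut S f‖ ≤ ‖cut T f‖ := by
  have h1 := norm_sq_eq (cut S f)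
  have h2 := norm_sq_eq (cut T f)
  have h3 : ‖cut S f‖ ^ 2 ≤ ‖cut T f‖ ^ 2 := by
    refine hasSum_le (fun g => ?_) h1 h2
    by_cases hg : g ∈ S
    · by_cases hT : g ∈ T
      · rw [cut_apply_mem f hg, cut_apply_mem f hT]
      · rw [cut_apply_mem f hg, h g hg hT, norm_zero, zero_pow two_ne_zero]
        positivity
    · rw [cut_apply_not_mem f hg, norm_zero, zero_pow two_ne_zero]
      positivity
  exact (sq_le_sq₀ (norm_nonneg _) (norm_nonneg _)).1 h3

theorem exb_z2 : ∀ a b : ZMod 2 × ZMod 2, a + b = 0 → a = b := by decide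

/-- the final computation -/
theorem exb_arith (T : Finset VV) (a : VV → ℝ) (ha : ∀ v, 0 ≤ a v) (δ N : ℝ) (hδ0 : 0 ≤ δ)
    (hδ : δ ≤ 1 / 10000) (hS1 : ∑ v ∈ T, a v ≤ 1) (hS2 : 1 - 400 * δ ≤ ∑ v ∈ T, a v)
    (hN : N ≤ 4761 * δ) (hoff : ∑ q ∈ T.offDiag, a q.1 * a q.2 ≤ N) :
    ∃ v ∈ T, 1 - 6000 * δ ≤ a v := by
  classical
  by_contra hcon
  push Not at hcon
  have hsq : (∑ v ∈ T, a v) ^ 2 = ∑ v ∈ T, a v * a v + ∑ q ∈ T.offDiag, a q.1 * a q.2 := by
    rw [sq, Finset.sum_mul_sum, ← Finset.sum_product', ← Finset.diag_union_offDiag,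
      Finset.sum_union (Finset.disjoint_diag_offDiag _), Finset.sum_diag]
  have hpos : 0 < ∑ v ∈ T, a v := by linarith
  obtain ⟨v0, hv0, hv0'⟩ : ∃ v ∈ T, 0 < a v := by
    by_contra hno
    push Not at hno
    have : ∑ v ∈ T, a v ≤ 0 := Finset.sum_nonpos hno
    linarith
  have hlt : ∑ v ∈ T, a v * a v < ∑ v ∈ T, (1 - 6000 * δ) * a v := by
    refine Finset.sum_lt_sum (fun v hv => ?_) ⟨v0, hv0, ?_⟩
    · exact mul_le_mul_of_nonneg_right (hcon v hv).le (ha v)
    · exact mul_lt_mul_of_pos_right (hcon v0 hv0) hv0'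
  rw [← Finset.mul_sum] at hlt
  have hle : (1 - 6000 * δ) * ∑ v ∈ T, a v ≤ 1 - 6000 * δ := by
    have : 0 ≤ 1 - 6000 * δ := by linarith
    nlinarith
  have hsq2 : (1 - 400 * δ) ^ 2 ≤ (∑ v ∈ T, a v) ^ 2 :=
    pow_le_pow_left₀ (by linarith) hS2 2
  nlinarith

/-- JOB: almost fixed unitaries have one large coefficient. -/
theorem exists_big (h : PW τ W) {k : ℕ} (hk : 1 ≤ k) {p : Fin 13 → A} (hp : Par W k p) {x : A}
    (hx : x ∈ SP W (lab 0 (3 * k))) (hu : x ∈ unitary A) (hδ : dd τ p x ≤ 1 / 10000) :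
    ∃ v ∈ lab 0 k, 1 - 6000 * dd τ p x ≤ ‖h.hat x v‖ ^ 2 := by
  classical
  obtain ⟨hd0, hq, hg, hh⟩ := exb_def h p x
  obtain ⟨δ, hδe⟩ : ∃ δ, δ = dd τ p x := ⟨_, rfl⟩
  rw [← hδe] at hd0 hq hg hh hδ ⊢
  obtain ⟨s, hse⟩ : ∃ s, s = Real.sqrt δ := ⟨_, rfl⟩
  rw [← hse] at hq hg hh
  have hs2 : s ^ 2 = δ := by rw [hse]; exact Real.sq_sqrt hd0
  have hs0 : 0 ≤ s := by rw [hse]; exact Real.sqrt_nonneg _
  have hFu := hp.unit 11
  have hFmem := hp.mem 11
  have hFI := hp.F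
  obtain ⟨F, hFe⟩ : ∃ F, F = p 11 := ⟨_, rfl⟩
  rw [← hFe] at hFu hFmem hg hh hFI
  have hFF : F * star F = 1 := (Unitary.mem_iff.1 hFu).2
  have hFF' : star F * F = 1 := (Unitary.mem_iff.1 hFu).1
  have hxx : x * star x = 1 := (Unitary.mem_iff.1 hu).2
  have hxx' : star x * x = 1 := (Unitary.mem_iff.1 hu).1
  obtain ⟨y, hye⟩ : ∃ y, y = yy F x := ⟨_, rfl⟩
  rw [← hye] at hg hh
  have hymem : y ∈ SP W (lab 0 (3 * k)) := by
    rw [hye]
    unfold yy
    exact SP_mul h _ (SP_mul h _ (SP_mul h _ hx hFmem) (SP_star h _ hx)) (SP_star h _ hFmem)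
  have g1 := gap_block h k (3 * k) (by omega) _ hp.q x s (fun l => hq l)
  have g2 := gap_block h (2 * k) (3 * k) (by omega) _ hp.g y s (fun l => hg l)
  obtain ⟨f, hf, hfv⟩ := hp.h
  have g3 := impl_mass' h hf
    {v : VV | (∀ i, 2 * k ≤ i → v i = 0) ∧ ∃ i, i < k ∧ v i ≠ v (k + i)}
    {v : VV | ∃ i, 2 * k ≤ i ∧ i < 3 * k ∧ v i ≠ 0} (by
      rintro v ⟨h1, i, hi, h2⟩
      refine ⟨2 * k + i, by omega, by omega, ?_⟩
      rw [hfv v h1 i hi]
      intro h3
      exact h2 (exb_z2 _ _ h3)) y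
  have g3' : ‖cut {v : VV | (∀ i, 2 * k ≤ i → v i = 0) ∧ ∃ i, i < k ∧ v i ≠ v (k + i)}
      (h.hat y)‖ ≤ 21 * s := by
    have h4 : n2 τ (p 10 * y - y * p 10) ≤ s := hh
    linarith
  -- the mass of y outside the diagonal
  have hDy : ‖cut {v : VV | ¬ ((∀ i, 2 * k ≤ i → v i = 0) ∧ ∀ i, i < k → v i = v (k + i))}
      (h.hat y)‖ ≤ 29 * s := by
    have h5 := exb_cut_le
      {v : VV | ¬ ((∀ i, 2 * k ≤ i → v i = 0) ∧ ∀ i, i < k → v i = v (k + i))}
      ({v : VV | (∀ i, 2 * k ≤ i → v i = 0) ∧ ∃ i, i < k ∧ v i ≠ v (k + i)} ∪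
        {v : VV | ∃ i, 2 * k ≤ i ∧ i < 3 * k ∧ v i ≠ 0}) (h.hat y) (by
        intro v hv hv2
        refine SP_hat h hymem ?_
        intro hv3
        have hv3' : ∀ i, (i < 0 ∨ 3 * k ≤ i) → v i = 0 := hv3
        apply hv
        have hz : ∀ i, 2 * k ≤ i → v i = 0 := by
          intro i hi
          by_contra hne
          by_cases hi3 : i < 3 * k
          · exact hv2 (Or.inr ⟨i, hi, hi3, hne⟩)
          · exact hne (hv3' i (Or.inr (not_lt.1 hi3)))
        refine ⟨hz, fun i hi => ?_⟩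
        by_contra hne
        exact hv2 (Or.inl ⟨hz, i, hi, hne⟩))
    have h6 := norm_cut_disj
      {v : VV | (∀ i, 2 * k ≤ i → v i = 0) ∧ ∃ i, i < k ∧ v i ≠ v (k + i)}
      {v : VV | ∃ i, 2 * k ≤ i ∧ i < 3 * k ∧ v i ≠ 0} (by
        rw [Set.disjoint_left]
        rintro v ⟨h7, _⟩ ⟨i, h8, _, h9⟩
        exact h9 (h7 i h8)) (h.hat y)
    refine h5.trans ?_
    refine (sq_le_sq₀ (norm_nonneg _) (by positivity)).1 ?_
    rw [← h6]
    have h10 := pow_le_pow_left₀ (norm_nonneg _) g3' 2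
    have h11 := pow_le_pow_left₀ (norm_nonneg _) g2 2
    nlinarith
  -- the conditional expectation
  obtain ⟨x0, hx0, hcontr, hhat⟩ := exists_cond h (by omega : k ≤ 3 * k) hx hu
  have hcompl : ‖cut ((lab 0 k : AddSubgroup VV) : Set VV)ᶜ (h.hat x)‖ ≤ 20 * s := by
    refine le_trans ?_ g1
    refine exb_cut_le _ _ _ ?_
    intro v hv hv2
    refine SP_hat h hx ?_
    intro hv3
    have hv3' : ∀ i, (i < 0 ∨ 3 * k ≤ i) → v i = 0 := hv3
    apply hv
    intro i hi
    have hi' : k ≤ i := by omega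
    by_contra hne
    by_cases hi3 : i < 3 * k
    · exact hv2 ⟨i, hi', hi3, hne⟩
    · exact hne (hv3' i (Or.inr (not_lt.1 hi3)))
  have hdist : n2 τ (x - x0) ≤ 20 * s := by
    rw [← norm_hat h, hat_sub, hhat]
    have he : h.hat x - cut ((lab 0 k : AddSubgroup VV) : Set VV) (h.hat x) =
        cut ((lab 0 k : AddSubgroup VV) : Set VV)ᶜ (h.hat x) := by
      ext v
      show h.hat x v - cut ((lab 0 k : AddSubgroup VV) : Set VV) (h.hat x) v = _
      by_cases hv : v ∈ ((lab 0 k : AddSubgroup VV) : Set VV)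
      · rw [cut_apply_mem _ hv, cut_apply_not_mem _ (Set.notMem_compl_iff.2 hv), sub_self]
      · rw [cut_apply_not_mem _ hv, cut_apply_mem _ (Set.mem_compl hv), sub_zero]
    rw [he]
    exact hcompl
  have hyy0 : n2 τ (y - x0 * (F * star x0 * star F)) ≤ 40 * s := by
    have e1 : y - x0 * (F * star x0 * star F) = (x - x0) * (F * star x * star F) +
        x0 * (F * star (x - x0) * star F) := by
      rw [hye]
      unfold yy
      rw [star_sub]
      noncomm_ring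
    have e2 : n2 τ ((x - x0) * (F * star x * star F)) = n2 τ (x - x0) := by
      refine PX.n2_mul_right h.tr _ _ ?_
      rw [star_mul, star_mul, star_star, star_star]
      calc F * star x * star F * (F * (x * star F)) = F * (star x * (star F * F) * x) * star F := by
            noncomm_ring
        _ = 1 := by rw [hFF', mul_one, hxx', mul_one, hFF]
    have e3 : n2 τ (x0 * (F * star (x - x0) * star F)) ≤ n2 τ (x - x0) := by
      refine (hcontr _).trans ?_
      rw [PX.n2_mul_right h.tr _ _ (by rw [star_star]; exact hFF'), PX.n2_mul_left _ _ hFF',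
        h.tr.n2_star]
    rw [e1]
    refine (h.tr.n2_add_le _ _).trans ?_
    rw [e2]
    linarith
  have hDy0 : ‖cut {v : VV | ¬ ((∀ i, 2 * k ≤ i → v i = 0) ∧ ∀ i, i < k → v i = v (k + i))}
      (h.hat (x0 * (F * star x0 * star F)))‖ ≤ 69 * s := by
    have e1 : cut {v : VV | ¬ ((∀ i, 2 * k ≤ i → v i = 0) ∧ ∀ i, i < k → v i = v (k + i))}
        (h.hat (x0 * (F * star x0 * star F))) =
        cut {v : VV | ¬ ((∀ i, 2 * k ≤ i → v i = 0) ∧ ∀ i, i < k → v i = v (k + i))} (h.hat y) -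
        cut {v : VV | ¬ ((∀ i, 2 * k ≤ i → v i = 0) ∧ ∀ i, i < k → v i = v (k + i))}
          (h.hat (y - x0 * (F * star x0 * star F))) := by
      rw [hat_sub, cut_sub, sub_sub_cancel]
    rw [e1]
    refine (norm_sub_le _ _).trans ?_
    have e2 : ‖cut {v : VV | ¬ ((∀ i, 2 * k ≤ i → v i = 0) ∧ ∀ i, i < k → v i = v (k + i))}
          (h.hat (y - x0 * (F * star x0 * star F)))‖ ≤ 40 * s := by
      refine (norm_cut_le_norm _ _).trans ?_
      rw [norm_hat h]
      exact hyy0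
    linarith
  -- the finite set of labels
  have hfin := exb_fin k
  have hTmem : ∀ v, v ∈ hfin.toFinset ↔ v ∈ lab 0 k := fun v => by
    rw [Set.Finite.mem_toFinset]
    rfl
  have hSsum : ∑ v ∈ hfin.toFinset, ‖h.hat x v‖ ^ 2 =
      ‖cut ((lab 0 k : AddSubgroup VV) : Set VV) (h.hat x)‖ ^ 2 := by
    have h1 := norm_sq_eq (cut ((lab 0 k : AddSubgroup VV) : Set VV) (h.hat x))
    have h2 : HasSum (fun v => ‖cut ((lab 0 k : AddSubgroup VV) : Set VV) (h.hat x) v‖ ^ 2)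
        (∑ v ∈ hfin.toFinset, ‖cut ((lab 0 k : AddSubgroup VV) : Set VV) (h.hat x) v‖ ^ 2) :=
      hasSum_sum_of_ne_finset_zero (by
        intro v hv
        beta_reduce
        rw [cut_apply_not_mem _ (fun hv2 => hv ((hTmem v).2 hv2)), norm_zero,
          zero_pow two_ne_zero])
    rw [h1.unique h2]
    refine Finset.sum_congr rfl fun v hv => ?_
    beta_reduce
    rw [cut_apply_mem _ (show v ∈ ((lab 0 k : AddSubgroup VV) : Set VV) from (hTmem v).1 hv)]
  have hone : ‖cut ((lab 0 k : AddSubgroup VV) : Set VV) (h.hat x)‖ ^ 2 +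
      ‖cut ((lab 0 k : AddSubgroup VV) : Set VV)ᶜ (h.hat x)‖ ^ 2 = 1 := by
    rw [norm_cut_disj _ _ disjoint_compl_right, Set.union_compl_self, cut_univ, norm_hat h,
      h.tr.n2_sq, hxx', h.tr.one, Complex.one_re]
  have hcut2 := pow_le_pow_left₀ (norm_nonneg _) hcompl 2
  have hcut3 := sq_nonneg ‖cut ((lab 0 k : AddSubgroup VV) : Set VV)ᶜ (h.hat x)‖
  have hoff : ∑ q ∈ hfin.toFinset.offDiag, ‖h.hat x q.1‖ ^ 2 * ‖h.hat x q.2‖ ^ 2 ≤
      ‖cut {v : VV | ¬ ((∀ i, 2 * k ≤ i → v i = 0) ∧ ∀ i, i < k → v i = v (k + i))}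
        (h.hat (x0 * (F * star x0 * star F)))‖ ^ 2 := by
    have h1 := norm_sq_eq
      (cut {v : VV | ¬ ((∀ i, 2 * k ≤ i → v i = 0) ∧ ∀ i, i < k → v i = v (k + i))}
        (h.hat (x0 * (F * star x0 * star F))))
    have hinj : Set.InjOn (fun q : VV × VV => q.1 + sw 0 k k q.2)
        (hfin.toFinset.offDiag : Set (VV × VV)) := by
      rintro ⟨v, w⟩ hvw ⟨v', w'⟩ hvw' he
      obtain ⟨hv, hw, _⟩ := Finset.mem_offDiag.1 (Finset.mem_coe.1 hvw)
      obtain ⟨hv', hw', _⟩ := Finset.mem_offDiag.1 (Finset.mem_coe.1 hvw')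
      have hv1 := (hTmem v).1 hv
      have hw1 := (hTmem w).1 hw
      have hv1' := (hTmem v').1 hv'
      have hw1' := (hTmem w').1 hw'
      have he' : v + sw 0 k k w = v' + sw 0 k k w' := he
      have hvv : v = v' := by
        refine Finsupp.ext fun i => ?_
        by_cases hi : i < k
        · have h2 : (v + sw 0 k k w) i = (v' + sw 0 k k w') i := by rw [he']
          rw [Finsupp.add_apply, Finsupp.add_apply, exb_sw_lo hw1 i hi, exb_sw_lo hw1' i hi,
            add_zero, add_zero] at h2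
          exact h2
        · rw [hv1 i (Or.inr (not_lt.1 hi)), hv1' i (Or.inr (not_lt.1 hi))]
      have hww : w = w' := by
        refine Finsupp.ext fun i => ?_
        by_cases hi : i < k
        · have h2 : (v + sw 0 k k w) (k + i) = (v' + sw 0 k k w') (k + i) := by rw [he']
          rw [Finsupp.add_apply, Finsupp.add_apply, exb_sw_hi w i hi, exb_sw_hi w' i hi, hvv] at h2
          exact add_left_cancel h2
        · rw [hw1 i (Or.inr (not_lt.1 hi)), hw1' i (Or.inr (not_lt.1 hi))]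
      rw [hvv, hww]
    have h3 : ∑ q ∈ hfin.toFinset.offDiag, ‖h.hat x q.1‖ ^ 2 * ‖h.hat x q.2‖ ^ 2 =
        ∑ u ∈ hfin.toFinset.offDiag.image (fun q : VV × VV => q.1 + sw 0 k k q.2),
        ‖cut {v : VV | ¬ ((∀ i, 2 * k ≤ i → v i = 0) ∧ ∀ i, i < k → v i = v (k + i))}
        (h.hat (x0 * (F * star x0 * star F))) u‖ ^ 2 := by
      rw [Finset.sum_image hinj]
      refine Finset.sum_congr rfl fun q hq' => ?_
      obtain ⟨v, w⟩ := q
      obtain ⟨hv, hw, hne⟩ := Finset.mem_offDiag.1 hq'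
      have hv1 := (hTmem v).1 hv
      have hw1 := (hTmem w).1 hw
      have hmem : v + sw 0 k k w ∈
          {v : VV | ¬ ((∀ i, 2 * k ≤ i → v i = 0) ∧ ∀ i, i < k → v i = v (k + i))} := by
        rintro ⟨_, h5⟩
        apply hne
        show v = w
        refine Finsupp.ext fun i => ?_
        by_cases hi : i < k
        · have h6 := h5 i hi
          rw [Finsupp.add_apply, Finsupp.add_apply, exb_sw_lo hw1 i hi, exb_sw_hi w i hi,
            add_zero, hv1 (k + i) (Or.inr (by omega)), zero_add] at h6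
          exact h6
        · rw [hv1 i (Or.inr (not_lt.1 hi)), hw1 i (Or.inr (not_lt.1 hi))]
      show ‖h.hat x v‖ ^ 2 * ‖h.hat x w‖ ^ 2 = ‖cut _ _ (v + sw 0 k k w)‖ ^ 2
      rw [cut_apply_mem _ hmem, exb_hat_y h hFI hx0 hv1 hw1, hhat,
        cut_apply_mem _ (show v ∈ ((lab 0 k : AddSubgroup VV) : Set VV) from hv1),
        cut_apply_mem _ (show w ∈ ((lab 0 k : AddSubgroup VV) : Set VV) from hw1), mul_pow]
    rw [h3]
    exact sum_le_hasSum _ (fun u _ => sq_nonneg _) h1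
  have hN := pow_le_pow_left₀ (norm_nonneg _) hDy0 2
  obtain ⟨v, hv, hv2⟩ := exb_arith hfin.toFinset (fun v => ‖h.hat x v‖ ^ 2)
    (fun v => sq_nonneg _) δ _ hd0 hδ (by rw [hSsum]; linarith) (by rw [hSsum]; nlinarith)
    (by nlinarith) hoff
  exact ⟨v, (hTmem v).1 hv, hv2⟩

end Pool.Agent.Helper436.AD
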