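import Mathlib
import Pool.Agent.Helper436.AD.G0
import Pool.Agent.Helper436.AD.G1
import Pool.Agent.Helper436.AD.G4
import Pool.Agent.Helper436.AD.G5
import Pool.Agent.Helper436.AD.P2

set_option autoImplicit false
set_option linter.unusedSectionVars false

namespace Pool.Agent.Helper436.AD

open Pool.Agent.Helper278 Pool.Agent.Helper278.CE Pool.Agent.Helper436.SM Pool.Agent.Helper436.SN

variable {A : Type} [Ring A] [StarRing A] [Algebra ℂ A] [StarModule ℂ A] {τ : A →ₗ[ℂ] ℂ}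
  {W : VV → A}

theorem near_pauli_root2 (a b : ℂ) (ha : ‖a‖ = 1) (hb : ‖b‖ = 1) :
    ‖a - b‖ ≤ ‖a ^ 2 - b ^ 2‖ ∨ ‖a + b‖ ≤ ‖a ^ 2 - b ^ 2‖ := by
  have hpar := parallelogram_law_with_norm ℂ a b
  rw [ha, hb] at hpar
  have hm : ‖a ^ 2 - b ^ 2‖ = ‖a + b‖ * ‖a - b‖ := by
    rw [← norm_mul]
    congr 1
    ring
  have h1 := norm_nonneg (a - b)
  have h2 := norm_nonneg (a + b)
  by_cases h : 1 ≤ ‖a + b‖
  · left
    rw [hm]
    nlinarith
  · right
    rw [hm]
    push Not at h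
    have h3 : 1 ≤ ‖a - b‖ := by
      by_contra h4
      push Not at h4
      nlinarith
    nlinarith

theorem near_pauli_root4 (m : ℂ) (hm : ‖m‖ = 1) : ∃ μ : ℂ, μ ^ 4 = 1 ∧ ‖m - μ‖ ≤ ‖m ^ 4 - 1‖ := by
  have hm2 : ‖m ^ 2‖ = 1 := by rw [norm_pow, hm, one_pow]
  have e4 : (m ^ 2) ^ 2 - 1 ^ 2 = m ^ 4 - 1 := by ring
  have hI4 : Complex.I ^ 4 = 1 := Complex.I_pow_four
  rcases near_pauli_root2 (m ^ 2) 1 hm2 norm_one with h | h
  · rw [e4] at h
    have e2 : m ^ 2 - 1 ^ 2 = m ^ 2 - 1 := by ring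
    rcases near_pauli_root2 m 1 hm norm_one with h' | h'
    · rw [e2] at h'
      exact ⟨1, by norm_num, h'.trans h⟩
    · rw [e2] at h'
      refine ⟨-1, by norm_num, ?_⟩
      rw [sub_neg_eq_add]
      exact h'.trans h
  · rw [e4] at h
    have e2 : m ^ 2 - Complex.I ^ 2 = m ^ 2 + 1 := by
      rw [Complex.I_sq]
      ring
    rcases near_pauli_root2 m Complex.I hm Complex.norm_I with h' | h'
    · rw [e2] at h'
      exact ⟨Complex.I, hI4, h'.trans h⟩
    · rw [e2] at h'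
      refine ⟨-Complex.I, ?_, ?_⟩
      · have : (-Complex.I) ^ 4 = Complex.I ^ 4 := by ring
        rw [this, hI4]
      · rw [sub_neg_eq_add]
        exact h'.trans h

theorem near_pauli_sub_sq (hτ : TrAlg τ) (a b : A) (ha : a ∈ unitary A) (hb : b ∈ unitary A)
    (l : ℂ) (hl : ‖l‖ = 1) :
    n2 τ (a - l • b) ^ 2 = 2 - 2 * (l * τ (star a * b)).re := by
  have hl2 : (star l) * l = 1 := by
    rw [mul_comm, Complex.star_def, Complex.mul_conj, Complex.normSq_eq_norm_sq, hl]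
    norm_num
  rw [hτ.n2_sq]
  have e : star (a - l • b) * (a - l • b) = 1 + 1 - (l • (star a * b) + star l • (star b * a)) := by
    rw [star_sub, star_smul, sub_mul, mul_sub, mul_sub, smul_mul_smul_comm, hl2, one_smul,
      (Unitary.mem_iff.1 ha).1, (Unitary.mem_iff.1 hb).1, mul_smul_comm, smul_mul_assoc]
    abel
  have e2 : τ (star b * a) = star (τ (star a * b)) := by
    rw [← hτ.conj, star_mul, star_star]
  rw [e, map_sub, map_add, map_add, map_smul, map_smul, hτ.one, e2, smul_eq_mul, smul_eq_mul,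
    ← star_mul']
  simp only [Complex.sub_re, Complex.add_re, Complex.one_re, Complex.star_def, Complex.conj_re]
  ring

theorem near_pauli_phase (hτ : TrAlg τ) (a b : A) (ha : a ∈ unitary A) (hb : b ∈ unitary A)
    (t : ℝ) (ht : t < 1) (h : 1 - t ≤ ‖τ (star a * b)‖) :
    ∃ l : ℂ, ‖l‖ = 1 ∧ n2 τ (a - l • b) ^ 2 ≤ 2 * t := by
  have hn : ‖τ (star a * b)‖ ≠ 0 := by
    intro h0
    rw [h0] at h
    linarith
  have hl : ‖(star (τ (star a * b)) / (‖τ (star a * b)‖ : ℂ))‖ = 1 := by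
    rw [norm_div, norm_star, Complex.norm_real, norm_norm, div_self hn]
  refine ⟨star (τ (star a * b)) / (‖τ (star a * b)‖ : ℂ), hl, ?_⟩
  rw [near_pauli_sub_sq hτ a b ha hb _ hl]
  have e : (star (τ (star a * b)) / (‖τ (star a * b)‖ : ℂ)) * τ (star a * b) =
      ((‖τ (star a * b)‖ : ℝ) : ℂ) := by
    rw [div_mul_eq_mul_div, mul_comm, Complex.star_def, Complex.mul_conj,
      Complex.normSq_eq_norm_sq, Complex.ofReal_pow, sq, mul_div_assoc, div_self, mul_one]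
    exact_mod_cast hn
  rw [e, Complex.ofReal_re]
  linarith

theorem near_pauli_sq (hτ : TrAlg τ) (a b : A) (ha : a ∈ unitary A) (hb : b ∈ unitary A)
    (l : ℂ) (hl : ‖l‖ = 1) (s : ℝ) (h : n2 τ (a - l • b) ≤ s) :
    n2 τ (a * a - (l * l) • (b * b)) ≤ 2 * s := by
  have e : a * a - (l * l) • (b * b) = a * (a - l • b) + l • ((a - l • b) * b) := by
    rw [mul_sub, sub_mul, smul_sub, mul_smul_comm, smul_mul_assoc, smul_smul]
    abel
  rw [e]
  refine (hτ.n2_add_le _ _).trans ?_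
  rw [PX.n2_mul_left a _ (Unitary.mem_iff.1 ha).1, PX.n2_smul hτ, hl, one_mul,
    PX.n2_mul_right hτ _ _ (Unitary.mem_iff.1 hb).2]
  linarith

theorem near_pauli_W4 (h : PW τ W) (v : VV) : W v * W v * (W v * W v) = 1 := by
  have h1 : W v * W v = SM.sg (bf v v) • (1 : A) := by
    rw [h.sys.mul, vv_add_self, h.sys.zero]
  rw [h1, smul_mul_smul_comm, sg_mul_self, one_smul, one_mul]

theorem near_pauli_core (h : PW τ W) {x : A} (hu : x ∈ unitary A) (v : VV) (m : ℂ)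
    (hm : ‖m‖ = 1) (s r : ℝ) (hs : n2 τ (x - m • W v) ≤ s) (hr : n2 τ (x ^ 4 - 1) ≤ r) :
    ∃ μ : ℂ, μ ^ 4 = 1 ∧ n2 τ (x - μ • W v) ≤ 5 * s + r := by
  have hW : W v ∈ unitary A := ⟨by
    rw [h.sys.star, smul_mul_assoc, h.sys.mul, smul_smul, sg_mul_self, one_smul, vv_add_self, h.sys.zero], by
    rw [h.sys.star, mul_smul_comm, h.sys.mul, smul_smul, sg_mul_self, one_smul, vv_add_self, h.sys.zero]⟩
  have h2 := near_pauli_sq h.tr x (W v) hu hW m hm s hs
  have h4 := near_pauli_sq h.tr (x * x) (W v * W v) (mul_mem hu hu) (mul_mem hW hW) (m * m)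
    (by rw [norm_mul, hm, one_mul]) _ h2
  rw [near_pauli_W4 h v] at h4
  have hx4 : x * x * (x * x) = x ^ 4 := by
    rw [← pow_two, ← pow_two, ← pow_mul]
  have hm4 : m * m * (m * m) = m ^ 4 := by ring
  rw [hx4, hm4] at h4
  obtain ⟨μ, hμ, hμ2⟩ := near_pauli_root4 m hm
  refine ⟨μ, hμ, ?_⟩
  have h5 : ‖m ^ 4 - 1‖ ≤ 4 * s + r := by
    have e1 : n2 τ ((m ^ 4 - 1) • (1 : A)) = ‖m ^ 4 - 1‖ := by
      rw [PX.n2_smul h.tr]
      have : n2 τ (1 : A) = 1 := by
        unfold n2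
        rw [star_one, one_mul, h.tr.one]
        simp
      rw [this, mul_one]
    rw [← e1]
    have e2 : (m ^ 4 - 1) • (1 : A) = (x ^ 4 - 1) - (x ^ 4 - m ^ 4 • (1 : A)) := by
      rw [sub_smul, one_smul]
      abel
    rw [e2]
    refine (h.tr.n2_sub_le _ _).trans ?_
    linarith
  have e3 : x - μ • W v = (x - m • W v) + (m - μ) • W v := by
    rw [sub_smul]
    abel
  rw [e3]
  refine (h.tr.n2_add_le _ _).trans ?_
  have h6 : n2 τ ((m - μ) • W v) = ‖m - μ‖ := by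
    rw [PX.n2_smul h.tr]
    have : n2 τ (W v) = 1 := by
      unfold n2
      rw [(Unitary.mem_iff.1 hW).1, h.tr.one]
      simp
    rw [this, mul_one]
  rw [h6]
  linarith


/-- JOB: almost fixed unitaries are close to Paulis. -/
theorem near_pauli (h : PW τ W) {k : ℕ} (hk : 1 ≤ k) {p : Fin 13 → A} (hp : Par W k p) {x : A}
    (hx : x ∈ SP W (lab 0 (3 * k))) (hu : x ∈ unitary A) :
    ∃ v ∈ lab 0 k, ∃ μ : ℂ, μ ^ 4 = 1 ∧ n2s τ (x - μ • W v) ≤ 300000 * dd τ p x := by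
  have hnn : ∀ y : A, 0 ≤ n2s τ y := fun y => h.tr.re_nonneg y
  have hdd : n2s τ (x ^ 4 - 1) ≤ dd τ p x := by
    unfold dd
    have a0 := hnn (cmt (p 0) x)
    have a1 := hnn (cmt (p 1) x)
    have a2 := hnn (cmt (p 2) x)
    have a3 := hnn (cmt (p 3) x)
    have a4 := hnn (cmt (p 4) x)
    have a5 := hnn (cmt (p 5) (yy (p 11) x))
    have a6 := hnn (cmt (p 6) (yy (p 11) x))
    have a7 := hnn (cmt (p 7) (yy (p 11) x))
    have a8 := hnn (cmt (p 8) (yy (p 11) x))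
    have a9 := hnn (cmt (p 9) (yy (p 11) x))
    have a10 := hnn (cmt (p 10) (yy (p 11) x))
    linarith
  obtain ⟨δ, hδ⟩ : ∃ δ, δ = dd τ p x := ⟨_, rfl⟩
  have hδ0 : 0 ≤ δ := by
    rw [hδ]
    exact (hnn _).trans hdd
  have hn2s : ∀ y : A, n2s τ y = n2 τ y ^ 2 := fun y => (h.tr.n2_sq y).symm
  by_cases hbig : dd τ p x ≤ 1 / 10000
  · obtain ⟨v, hv, hvx⟩ := exists_big h hk hp hx hu hbig
    have hW : W v ∈ unitary A := ⟨by
      rw [h.sys.star, smul_mul_assoc, h.sys.mul, smul_smul, sg_mul_self, one_smul, vv_add_self,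
        h.sys.zero], by
      rw [h.sys.star, mul_smul_comm, h.sys.mul, smul_smul, sg_mul_self, one_smul, vv_add_self,
        h.sys.zero]⟩
    rw [h.hat_apply, ← hδ] at hvx
    rw [← hδ] at hbig hdd
    have hstar : ‖τ (star x * W v)‖ = ‖τ (star (W v) * x)‖ := by
      have : star x * W v = star (star (W v) * x) := by rw [star_mul, star_star]
      rw [this, h.tr.conj, norm_star]
    have ha0 := norm_nonneg (τ (star (W v) * x))
    have ha : 6 / 10 ≤ ‖τ (star (W v) * x)‖ := by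
      by_contra h1
      push Not at h1
      nlinarith
    have ha1 : 1 - 3750 * δ ≤ ‖τ (star x * W v)‖ := by
      rw [hstar]
      nlinarith
    obtain ⟨m, hm, hms⟩ := near_pauli_phase h.tr x (W v) hu hW (3750 * δ) (by linarith) ha1
    have hr : n2 τ (x ^ 4 - 1) ^ 2 ≤ δ := by
      rw [← hn2s]
      exact hdd
    obtain ⟨μ, hμ, hμ2⟩ := near_pauli_core h hu v m hm _ _ le_rfl le_rfl
    refine ⟨v, hv, μ, hμ, ?_⟩
    rw [hn2s, ← hδ]
    have hs0 := n2_nonneg τ (x - m • W v)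
    have hr0 := n2_nonneg τ (x ^ 4 - 1)
    have h3 : n2 τ (x - μ • W v) ^ 2 ≤ (5 * n2 τ (x - m • W v) + n2 τ (x ^ 4 - 1)) ^ 2 :=
      pow_le_pow_left₀ (n2_nonneg _ _) hμ2 2
    nlinarith [sq_nonneg (n2 τ (x - m • W v) - n2 τ (x ^ 4 - 1))]
  · push Not at hbig
    refine ⟨0, (lab 0 k).zero_mem, 1, one_pow 4, ?_⟩
    rw [hn2s, one_smul, h.sys.zero]
    have h1 : n2 τ (1 : A) = 1 := by
      unfold n2
      rw [star_one, one_mul, h.tr.one]
      simp
    have h2 : n2 τ x = 1 := by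
      unfold n2
      rw [(Unitary.mem_iff.1 hu).1, h.tr.one]
      simp
    have h3 : n2 τ (x - 1) ≤ 2 := by
      refine (h.tr.n2_sub_le _ _).trans ?_
      rw [h1, h2]
      norm_num
    have h4 := n2_nonneg τ (x - 1)
    nlinarith

end Pool.Agent.Helper436.AD
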