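import Mathlib
import Pool.Agent.Helper436.AD.G0
import Pool.Agent.Helper436.AD.G1
import Pool.Agent.Helper436.AD.G4
import Pool.Agent.Helper436.AD.G5

set_option autoImplicit false
set_option linter.unusedSectionVars false

namespace Pool.Agent.Helper436.AD

open Pool.Agent.Helper278 Pool.Agent.Helper278.CE Pool.Agent.Helper436.SM Pool.Agent.Helper436.SN

variable {A : Type} [Ring A] [StarRing A] [Algebra ℂ A] [StarModule ℂ A] {τ : A →ₗ[ℂ] ℂ}
  {W : VV → A}

/-- shift of labels -/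
noncomputable def shl (m : ℕ) (v : VV) : VV := v.mapDomain (fun i => i + m)

/- JOB: the theorems. -/

theorem p4_shl_apply (m : ℕ) (v : VV) (j : ℕ) : shl m v j = if m ≤ j then v (j - m) else 0 := by
  unfold shl
  split_ifs with h
  · have h1 := Finsupp.mapDomain_apply (f := fun i => i + m) (add_left_injective m) v (j - m)
    have h2 : j - m + m = j := by omega
    rw [← h1]
    show _ = (Finsupp.mapDomain (fun i => i + m) v) (j - m + m)
    rw [h2]
  · refine Finsupp.mapDomain_of_notMem_range v j ?_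
    rintro ⟨i, hi⟩
    have : i + m = j := hi
    omega

theorem p4_conj {U : A} {g : VV → VV} (hU : Impl W U g) (v : VV) :
    ∃ c : ℂ, ‖c‖ = 1 ∧ U * W v * star U = c • W (g v) := by
  obtain ⟨c, hc, h1⟩ := hU.conj v
  refine ⟨c, hc, ?_⟩
  rw [h1, smul_mul_assoc, mul_assoc, (Unitary.mem_iff.1 hU.unit).2, mul_one]

theorem p4_sf_sum {ι : Type} (s : Finset ι) (f : ι → VV) (w : VV) :
    sf (∑ i ∈ s, f i) w = ∑ i ∈ s, sf (f i) w := by
  classical
  induction s using Finset.induction_on with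
  | empty =>
    rw [Finset.sum_empty, Finset.sum_empty]
    unfold sf
    rw [bf_zero_left, bf_zero_right, add_zero]
  | insert a s ha ih => rw [Finset.sum_insert ha, Finset.sum_insert ha, sf_add_left, ih]

theorem p4_decomp {k : ℕ} {v : VV} (hv : v ∈ lab 0 k) :
    v + sw 0 k k v = ∑ i ∈ Finset.range k, Finsupp.single i (v i) +
      ∑ i ∈ Finset.Ico k (2 * k), Finsupp.single i (v (i - k)) := by
  ext1 j
  rw [Finsupp.add_apply, Finsupp.add_apply, sum_single_apply, sum_single_apply,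
    sw_apply 0 k k (by omega)]
  simp only [Finset.mem_range, Finset.mem_Ico]
  unfold swp
  by_cases h1 : j < k
  · rw [if_pos (by omega), if_pos h1, if_neg (by omega)]
    congr 1
    exact hv _ (Or.inr (by omega))
  · by_cases h2 : j < 2 * k
    · rw [if_neg (by omega), if_pos (by omega), if_neg h1, if_pos (by omega),
        hv j (Or.inr (by omega))]
      rfl
    · rw [if_neg (by omega), if_neg (by omega), if_neg h1, if_neg (by omega),
        hv j (Or.inr (by omega)), add_zero]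

theorem p4_labH {k : ℕ} {v w : VV} (hv : v ∈ lab 0 k) (hw : w ∈ labH k) :
    sf (v + sw 0 k k v) w = 0 := by
  rw [p4_decomp hv, sf_add_left, p4_sf_sum, p4_sf_sum, Finset.sum_Ico_eq_sum_range]
  have h2 : 2 * k - k = k := by omega
  rw [h2]
  have h3 : ∀ i ∈ Finset.range k, sf (Finsupp.single (k + i) (v (k + i - k))) w =
      sf (Finsupp.single i (v i)) w := by
    intro i hi
    rw [Finset.mem_range] at hi
    rw [sf_single, sf_single, ← hw.2 i hi, Nat.add_sub_cancel_left]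
  rw [Finset.sum_congr rfl h3]
  exact CharTwo.add_self_eq_zero _

theorem p4_cmt {x y : A} (c : ℂ) (h : x * y = y * x) : cmt x (c • y) = 0 := by
  unfold cmt
  rw [mul_smul_comm, smul_mul_assoc, h, sub_self]

theorem p4_n2s_zero (τ : A →ₗ[ℂ] ℂ) : n2s τ (0 : A) = 0 := by
  unfold n2s
  rw [mul_zero, map_zero]
  rfl

theorem p4_yy (h : PW τ W) {F : A} {g : VV → VV} (hF : Impl W F g) (v : VV) (μ : ℂ) :
    ∃ c : ℂ, yy F (μ • W v) = c • W (v + g v) := by
  obtain ⟨c, hc, h1⟩ := p4_conj hF v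
  refine ⟨star μ * SM.sg (bf v v) * μ * c * SM.sg (bf v (g v)), ?_⟩
  have e1 : yy F (μ • W v) = star μ • SM.sg (bf v v) • μ • (W v * (F * W v * star F)) := by
    unfold yy
    rw [star_smul, h.sys.star]
    simp only [smul_mul_assoc, mul_smul_comm, mul_assoc]
  rw [e1, h1, mul_smul_comm, h.sys.mul, smul_smul, smul_smul, smul_smul, smul_smul]

theorem dd_pauli (h : PW τ W) {k : ℕ} (hk : 1 ≤ k) {p : Fin 13 → A} (hp : Par W k p) {v : VV}
    (hv : v ∈ lab 0 k) {μ : ℂ} (hμ : μ ^ 4 = 1) : dd τ p (μ • W v) = 0 := by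
  have hx4 : (μ • W v) ^ 4 - 1 = 0 := by
    have h2 : W v ^ 2 = sg (bf v v) • (1 : A) := by
      rw [sq, h.sys.mul, vv_add_self, h.sys.zero]
    have h4 : W v ^ 4 = 1 := by
      rw [show (4 : ℕ) = 2 * 2 from rfl, pow_mul, h2, sq, smul_mul_smul_comm, sg_mul_self,
        one_smul, mul_one]
    rw [smul_pow, hμ, one_smul, h4, sub_self]
  have hq : ∀ l : Fin 5, cmt ((![p 0, p 1, p 2, p 3, p 4] : Fin 5 → A) l) (μ • W v) = 0 := fun l =>
    p4_cmt μ (SP_comm h (hp.q.mem l) v (fun u hu => sf_lab (le_refl k) hv hu))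
  obtain ⟨c, hc⟩ := p4_yy h hp.F v μ
  have hvs : v + sw 0 k k v ∈ lab 0 (2 * k) := by
    intro i hi
    rw [Finsupp.add_apply, sw_apply 0 k k (by omega), hv i (Or.inr (by omega))]
    unfold swp
    rw [if_neg (by omega), if_neg (by omega), hv i (Or.inr (by omega)), add_zero]
  have hg : ∀ l : Fin 5, cmt ((![p 5, p 6, p 7, p 8, p 9] : Fin 5 → A) l)
      (yy (p 11) (μ • W v)) = 0 := fun l => by
    rw [hc]
    exact p4_cmt c (SP_comm h (hp.g.mem l) _ (fun u hu => sf_lab (le_refl (2 * k)) hvs hu))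
  have hm : cmt (p 10) (yy (p 11) (μ • W v)) = 0 := by
    rw [hc]
    exact p4_cmt c (SP_comm h hp.hm _ (fun u hu => p4_labH hv hu))
  have q0 : cmt (p 0) (μ • W v) = 0 := hq 0
  have q1 : cmt (p 1) (μ • W v) = 0 := hq 1
  have q2 : cmt (p 2) (μ • W v) = 0 := hq 2
  have q3 : cmt (p 3) (μ • W v) = 0 := hq 3
  have q4 : cmt (p 4) (μ • W v) = 0 := hq 4
  have g0 : cmt (p 5) (yy (p 11) (μ • W v)) = 0 := hg 0
  have g1 : cmt (p 6) (yy (p 11) (μ • W v)) = 0 := hg 1
  have g2 : cmt (p 7) (yy (p 11) (μ • W v)) = 0 := hg 2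
  have g3 : cmt (p 8) (yy (p 11) (μ • W v)) = 0 := hg 3
  have g4 : cmt (p 9) (yy (p 11) (μ • W v)) = 0 := hg 4
  unfold dd
  rw [hx4, q0, q1, q2, q3, q4, g0, g1, g2, g3, g4, hm, p4_n2s_zero]
  norm_num

theorem p4_sw1 {k : ℕ} {v : VV} (hv : v ∈ lab 0 k) : sw k (2 * k) k v = v := by
  ext1 j
  rw [sw_apply k (2 * k) k (by omega)]
  unfold swp
  by_cases h1 : j < k
  · rw [if_neg (by omega), if_neg (by omega)]
  · rw [hv j (Or.inr (by omega))]
    refine hv _ (Or.inr ?_)
    split_ifs <;> omega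

theorem p4_sw2 {k : ℕ} {v : VV} (hv : v ∈ lab 0 k) : sw 0 k k v = shl k v := by
  ext1 j
  rw [sw_apply 0 k k (by omega), p4_shl_apply]
  unfold swp
  by_cases h1 : j < k
  · rw [if_pos (by omega), if_neg (by omega)]
    exact hv _ (Or.inr (by omega))
  · by_cases h2 : j < 2 * k
    · rw [if_neg (by omega), if_pos (by omega), if_pos (by omega), add_zero]
    · rw [if_neg (by omega), if_neg (by omega), if_pos (by omega), hv j (Or.inr (by omega)),
        hv (j - k) (Or.inr (by omega))]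

theorem p4_sw3 {k : ℕ} {v : VV} (hv : v ∈ lab 0 k) : sw k (2 * k) k (shl k v) = shl (2 * k) v := by
  ext1 j
  rw [sw_apply k (2 * k) k (by omega), p4_shl_apply, p4_shl_apply]
  unfold swp
  by_cases h1 : j < k
  · rw [if_neg (show ¬ (k ≤ j ∧ j < k + k) by omega),
      if_neg (show ¬ (2 * k ≤ j ∧ j < 2 * k + k) by omega), if_neg (by omega), if_neg (by omega)]
  · by_cases h2 : j < 2 * k
    · rw [if_pos (show (k ≤ j ∧ j < k + k) by omega), if_pos (by omega), if_neg (by omega)]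
      exact hv _ (Or.inr (by omega))
    · by_cases h3 : j < 3 * k
      · rw [if_neg (show ¬ (k ≤ j ∧ j < k + k) by omega),
          if_pos (show (2 * k ≤ j ∧ j < 2 * k + k) by omega), if_pos (by omega), if_pos (by omega)]
        congr 1
        omega
      · rw [if_neg (show ¬ (k ≤ j ∧ j < k + k) by omega),
          if_neg (show ¬ (2 * k ≤ j ∧ j < 2 * k + k) by omega), if_pos (by omega),
          if_pos (by omega), hv (j - k) (Or.inr (by omega)), hv (j - 2 * k) (Or.inr (by omega))]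

theorem p4_sw4 {k : ℕ} {v : VV} (hv : v ∈ lab 0 k) : sw 0 k k (shl (2 * k) v) = shl (2 * k) v := by
  ext1 j
  rw [sw_apply 0 k k (by omega), p4_shl_apply, p4_shl_apply]
  unfold swp
  by_cases h1 : j < k
  · rw [if_pos (show (0 ≤ j ∧ j < 0 + k) by omega), if_neg (by omega), if_neg (by omega)]
  · by_cases h2 : j < 2 * k
    · rw [if_neg (show ¬ (0 ≤ j ∧ j < 0 + k) by omega),
        if_pos (show (k ≤ j ∧ j < k + k) by omega), if_neg (by omega), if_neg (by omega)]
    · rw [if_neg (show ¬ (0 ≤ j ∧ j < 0 + k) by omega),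
        if_neg (show ¬ (k ≤ j ∧ j < k + k) by omega)]

theorem cj1_pauli (h : PW τ W) {k : ℕ} (hk : 1 ≤ k) {p : Fin 13 → A} (hp : Par W k p) {v : VV}
    (hv : v ∈ lab 0 k) : ∃ c : ℂ, ‖c‖ = 1 ∧ cj1 p (W v) = c • W (shl k v) := by
  obtain ⟨c, hc, h1⟩ := p4_conj hp.C v
  refine ⟨c, hc, h1.trans ?_⟩
  rw [Function.comp_apply, p4_sw1 hv, p4_sw2 hv]

theorem cj2_pauli (h : PW τ W) {k : ℕ} (hk : 1 ≤ k) {p : Fin 13 → A} (hp : Par W k p) {v : VV}
    (hv : v ∈ lab 0 k) : ∃ c : ℂ, ‖c‖ = 1 ∧ cj2 p (W v) = c • W (shl (2 * k) v) := by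
  obtain ⟨c, hc, h1⟩ := p4_conj (impl_mul hp.C hp.C) v
  refine ⟨c, hc, h1.trans ?_⟩
  show c • W (sw 0 k k (sw k (2 * k) k (sw 0 k k (sw k (2 * k) k v)))) = _
  rw [p4_sw1 hv, p4_sw2 hv, p4_sw3 hv, p4_sw4 hv]

theorem shl_mem {k a m : ℕ} {v : VV} (hv : v ∈ lab a k) : shl m v ∈ lab (a + m) (k + m) := by
  intro i hi
  rw [p4_shl_apply]
  split_ifs with h1
  · exact hv _ (by omega)
  · rfl

end Pool.Agent.Helper436.AD
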