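import Mathlib
import Pool.Agent.Helper436.AD.G0
import Pool.Agent.Helper436.AD.G1
import Pool.Agent.Helper436.AD.G4
import Pool.Agent.Helper436.AD.G5
import Pool.Agent.Helper436.AD.P4

set_option autoImplicit false
set_option linter.unusedSectionVars false

namespace Pool.Agent.Helper436.AD

open Pool.Agent.Helper278 Pool.Agent.Helper278.CE Pool.Agent.Helper436.SM Pool.Agent.Helper436.SN

variable {A : Type} [Ring A] [StarRing A] [Algebra ℂ A] [StarModule ℂ A] {τ : A →ₗ[ℂ] ℂ}
  {W : VV → A}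
theorem et_lab_finite (a b : ℕ) : Finite (lab a b) := by
  have hinj : Function.Injective (fun (v : lab a b) (i : Fin b) => (v : VV) (i : ℕ)) := by
    intro v w hvw
    apply Subtype.ext
    ext1 i
    by_cases hi : i < b
    · exact congrFun hvw ⟨i, hi⟩
    · rw [v.2 i (Or.inr (not_lt.1 hi)), w.2 i (Or.inr (not_lt.1 hi))]
  exact Finite.of_injective _ hinj

theorem et_z2 : ∀ t : ZMod 2, ((if t = 1 then (1 : ℕ) else 0) + if t + 1 = 1 then (1 : ℕ) else 0) = 1 := by
  decide

theorem et_half {G : Type} [Fintype G] [AddCommGroup G] (f : G → ZMod 2)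
    (hf : ∀ u v, f (u + v) = f u + f v) (u0 : G) (h0 : f u0 = 1) :
    (Fintype.card G : ℝ) = 2 * ∑ u, (if f u = 1 then (1 : ℝ) else 0) := by
  have h1 : ∑ u, (if f u = 1 then (1 : ℝ) else 0) = ∑ u, (if f u + 1 = 1 then (1 : ℝ) else 0) := by
    rw [← Equiv.sum_comp (Equiv.addRight u0)]
    refine Finset.sum_congr rfl fun u _ => ?_
    rw [Equiv.coe_addRight, hf, h0]
  rw [two_mul]
  nth_rw 2 [h1]
  rw [← Finset.sum_add_distrib]
  have h2 : ∀ u : G, ((if f u = 1 then (1 : ℝ) else 0) + if f u + 1 = 1 then (1 : ℝ) else 0) = 1 := by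
    intro u
    have := et_z2 (f u)
    exact_mod_cast this
  rw [Finset.sum_congr rfl fun u _ => h2 u]
  simp

theorem et_shl_add (m : ℕ) (u v : VV) : shl m (u + v) = shl m u + shl m v := by
  unfold shl
  exact Finsupp.mapDomain_add

theorem et_shl_single (m i : ℕ) (c : ZMod 2 × ZMod 2) :
    shl m (Finsupp.single i c) = Finsupp.single (i + m) c := by
  unfold shl
  rw [Finsupp.mapDomain_single]

theorem et_shl_zero (u : VV) : shl 0 u = u := by
  unfold shl
  have : (fun i : ℕ => i + 0) = id := rfl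
  rw [this, Finsupp.mapDomain_id]

theorem et_pick : ∀ a : ZMod 2 × ZMod 2, a ≠ 0 → ∃ c : ZMod 2 × ZMod 2,
    c.2 * a.1 + a.2 * c.1 = 1 := by decide

/-- mass of the labels anticommuting with `w` -/
theorem et_mass (h : PW τ W) (Fs : Finset VV) (w : VV) (x : A) :
    ∑ v ∈ Fs, (if sf v w = 1 then ‖h.hat x v‖ ^ 2 else 0) ≤ n2s τ (cmt (W w) x) := by
  have h1 := pauli_mass h w x
  have h2 : n2s τ (cmt (W w) x) = n2 τ (W w * x - x * W w) ^ 2 := (h.tr.n2_sq _).symm
  rw [h2]
  have h3 : ‖cut {v | sf v w = 1} (h.hat x)‖ ^ 2 ≤ n2 τ (W w * x - x * W w) ^ 2 :=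
    pow_le_pow_left₀ (norm_nonneg _) h1 2
  refine le_trans ?_ h3
  have h4 := norm_sq_eq (cut {v | sf v w = 1} (h.hat x))
  refine le_trans (le_of_eq ?_) (sum_le_hasSum Fs (fun i _ => sq_nonneg _) h4)
  refine Finset.sum_congr rfl fun v _ => ?_
  by_cases hv : sf v w = 1
  · have hv' : v ∈ {v | sf v w = 1} := hv
    rw [if_pos hv, cut_apply_mem _ hv']
  · have hv' : v ∉ {v | sf v w = 1} := hv
    rw [if_neg hv, cut_apply_not_mem _ hv', norm_zero, zero_pow two_ne_zero]

theorem et_smul (c : ℂ) (hc : ‖c‖ = 1) (y x : A) :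
    n2s τ (cmt (c • y) x) = n2s τ (cmt y x) := by
  have h1 : cmt (c • y) x = c • cmt y x := by
    unfold cmt
    rw [smul_mul_assoc, mul_smul_comm, smul_sub]
  have h2 : star c * c = 1 := by
    have h3 := Complex.normSq_eq_conj_mul_self (z := c)
    have h4 : Complex.normSq c = 1 := by
      rw [Complex.normSq_eq_norm_sq, hc]
      norm_num
    rw [h4] at h3
    exact_mod_cast h3.symm
  rw [h1]
  unfold n2s
  rw [star_smul, smul_mul_smul_comm, h2, one_smul]

/-- JOB: commutators with Paulis control the variance. -/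
theorem exists_test (h : PW τ W) {k : ℕ} (hk : 1 ≤ k) {p : Fin 13 → A} (hp : Par W k p) {x : A}
    (hx : x ∈ SP W (lab 0 (3 * k))) :
    ∃ u ∈ lab 0 k, vr τ x ≤ 5 * (n2s τ (cmt (W u) x) + n2s τ (cmt (cj1 p (W u)) x) +
      n2s τ (cmt (cj2 p (W u)) x)) := by
  classical
  have hfinG : Finite (lab 0 k) := et_lab_finite 0 k
  have hfinV : Finite (lab 0 (3 * k)) := et_lab_finite 0 (3 * k)
  let _ : Fintype (lab 0 k) := Fintype.ofFinite _
  have hVf : (lab 0 (3 * k) : Set VV).Finite := Set.toFinite _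
  set Fs : Finset VV := hVf.toFinset with hFs
  have hmem : ∀ v, v ∈ Fs ↔ v ∈ lab 0 (3 * k) := fun v => hVf.mem_toFinset
  set a : VV → ℝ := fun v => ‖h.hat x v‖ ^ 2 with ha
  have ha0 : ∀ v, 0 ≤ a v := fun v => sq_nonneg _
  have hsum : n2s τ x = ∑ v ∈ Fs, a v := by
    have h1 : n2s τ x = n2 τ x ^ 2 := (h.tr.n2_sq _).symm
    rw [h1]
    refine (h.parseval x).unique (hasSum_sum_of_ne_finset_zero ?_)
    intro v hv
    have hv' : v ∉ (lab 0 (3 * k) : Set VV) := fun hc => hv ((hmem v).2 hc)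
    have h2 := SP_hat h hx hv'
    rw [h.hat_apply] at h2
    rw [h2, norm_zero, zero_pow two_ne_zero]
  have hτ : ‖τ x‖ ^ 2 = a 0 := by
    rw [ha]
    beta_reduce
    rw [h.hat_apply, h.sys.zero, star_one, one_mul]
  have h0F : (0 : VV) ∈ Fs := (hmem 0).2 (zero_mem _)
  have hvr : vr τ x = ∑ v ∈ Fs.erase 0, a v := by
    unfold vr
    rw [hsum, hτ, ← Finset.add_sum_erase Fs a h0F]
    ring
  -- lower bound for the three commutators
  have hT : ∀ u ∈ lab 0 k, ∑ v ∈ Fs, ((if sf v (shl 0 u) = 1 then a v else 0) +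
      (if sf v (shl k u) = 1 then a v else 0) + (if sf v (shl (2 * k) u) = 1 then a v else 0)) ≤
      n2s τ (cmt (W u) x) + n2s τ (cmt (cj1 p (W u)) x) + n2s τ (cmt (cj2 p (W u)) x) := by
    intro u hu
    rw [Finset.sum_add_distrib, Finset.sum_add_distrib]
    obtain ⟨c1, hc1, e1⟩ := cj1_pauli h hk hp hu
    obtain ⟨c2, hc2, e2⟩ := cj2_pauli h hk hp hu
    rw [e1, e2, et_smul c1 hc1, et_smul c2 hc2, et_shl_zero]
    exact add_le_add (add_le_add (et_mass h Fs u x) (et_mass h Fs (shl k u) x))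
      (et_mass h Fs (shl (2 * k) u) x)
  by_contra hcon
  push Not at hcon
  have hlt : ∀ u : lab 0 k, 5 * ∑ v ∈ Fs, ((if sf v (shl 0 (u : VV)) = 1 then a v else 0) +
      (if sf v (shl k (u : VV)) = 1 then a v else 0) +
      (if sf v (shl (2 * k) (u : VV)) = 1 then a v else 0)) < vr τ x := fun u =>
    lt_of_le_of_lt (mul_le_mul_of_nonneg_left (hT u u.2) (by norm_num)) (hcon u u.2)
  have hne : (Finset.univ : Finset (lab 0 k)).Nonempty := ⟨0, Finset.mem_univ _⟩
  have hs := Finset.sum_lt_sum_of_nonempty hne (fun u _ => hlt u)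
  rw [Finset.sum_const, Finset.card_univ, nsmul_eq_mul, ← Finset.mul_sum, Finset.sum_comm] at hs
  -- the average
  have hcard : ∀ v ∈ Fs.erase 0, (Fintype.card (lab 0 k) : ℝ) / 2 * a v ≤
      ∑ u : lab 0 k, ((if sf v (shl 0 (u : VV)) = 1 then a v else 0) +
      (if sf v (shl k (u : VV)) = 1 then a v else 0) +
      (if sf v (shl (2 * k) (u : VV)) = 1 then a v else 0)) := by
    intro v hv
    rw [Finset.mem_erase] at hv
    obtain ⟨hv0, hvF⟩ := hv
    have hvl := (hmem v).1 hvF
    obtain ⟨i, hi⟩ : ∃ i, v i ≠ 0 := by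
      by_contra hc
      push Not at hc
      exact hv0 (Finsupp.ext hc)
    have hi3 : i < 3 * k := by
      by_contra hc
      exact hi (hvl i (Or.inr (not_lt.1 hc)))
    obtain ⟨c, hc⟩ := et_pick (v i) hi
    -- a block
    have hblock : ∀ m : ℕ, m ≤ i → i < m + k → (Fintype.card (lab 0 k) : ℝ) / 2 * a v ≤
        ∑ u : lab 0 k, (if sf v (shl m (u : VV)) = 1 then a v else 0) := by
      intro m hm hmk
      have hu0 : Finsupp.single (i - m) c ∈ lab 0 k := by
        intro j hj
        rw [Finsupp.single_apply, if_neg (by omega)]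
      have h1 := et_half (fun u : lab 0 k => sf v (shl m (u : VV))) (by
        intro u u'
        change sf v (shl m ((u : VV) + (u' : VV))) = _
        rw [et_shl_add, sf_add_right']) ⟨Finsupp.single (i - m) c, hu0⟩ (by
        change sf v (shl m (Finsupp.single (i - m) c)) = 1
        rw [et_shl_single, show i - m + m = i by omega, sf_single']
        exact hc)
      have h2 : ∑ u : lab 0 k, (if sf v (shl m (u : VV)) = 1 then a v else 0) =
          (∑ u : lab 0 k, (if sf v (shl m (u : VV)) = 1 then (1 : ℝ) else 0)) * a v := by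
        rw [Finset.sum_mul]
        refine Finset.sum_congr rfl fun u _ => ?_
        split_ifs
        · rw [one_mul]
        · rw [zero_mul]
      rw [h2, h1]
      apply le_of_eq
      ring
    have hnn : ∀ m : ℕ, 0 ≤ ∑ u : lab 0 k, (if sf v (shl m (u : VV)) = 1 then a v else 0) :=
      fun m => Finset.sum_nonneg fun u _ => by
        split_ifs
        · exact ha0 v
        · exact le_rfl
    rw [Finset.sum_add_distrib, Finset.sum_add_distrib]
    have n0 := hnn 0
    have n1 := hnn k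
    have n2' := hnn (2 * k)
    rcases Nat.lt_or_ge i k with h1 | h1
    · have := hblock 0 (by omega) (by omega)
      linarith
    · rcases Nat.lt_or_ge i (2 * k) with h2 | h2
      · have := hblock k h1 (by omega)
        linarith
      · have := hblock (2 * k) h2 (by omega)
        linarith
  have hfin : (Fintype.card (lab 0 k) : ℝ) / 2 * vr τ x ≤
      ∑ v ∈ Fs, ∑ u : lab 0 k, ((if sf v (shl 0 (u : VV)) = 1 then a v else 0) +
      (if sf v (shl k (u : VV)) = 1 then a v else 0) +
      (if sf v (shl (2 * k) (u : VV)) = 1 then a v else 0)) := by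
    rw [hvr, Finset.mul_sum]
    refine (Finset.sum_le_sum hcard).trans ?_
    refine Finset.sum_le_sum_of_subset_of_nonneg (Finset.erase_subset _ _) fun v _ _ => ?_
    refine Finset.sum_nonneg fun u _ => ?_
    have h1 : ∀ m : ℕ, 0 ≤ (if sf v (shl m (u : VV)) = 1 then a v else 0) := fun m => by
      split_ifs
      · exact ha0 v
      · exact le_rfl
    exact add_nonneg (add_nonneg (h1 0) (h1 k)) (h1 (2 * k))
  have hvr0 : 0 ≤ vr τ x := by
    rw [hvr]
    exact Finset.sum_nonneg fun v _ => ha0 v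
  have hcp : (0 : ℝ) < Fintype.card (lab 0 k) := by
    have : 0 < Fintype.card (lab 0 k) := Fintype.card_pos_iff.2 ⟨0⟩
    exact_mod_cast this
  nlinarith [mul_nonneg hcp.le hvr0]

end Pool.Agent.Helper436.AD
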