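import Mathlib
import Pool.Agent.Helper436.AD.G0
import Pool.Agent.Helper436.AD.G1
import Pool.Agent.Helper436.AD.G4
import Pool.Agent.Helper436.AD.G5
import Pool.Agent.Helper436.AD.P3
import Pool.Agent.Helper436.AD.P5

set_option autoImplicit false
set_option linter.unusedSectionVars false

namespace Pool.Agent.Helper436.AD

open Pool.Agent.Helper278 Pool.Agent.Helper278.CE Pool.Agent.Helper436.SM Pool.Agent.Helper436.SN

variable {A : Type} [Ring A] [StarRing A] [Algebra ℂ A] [StarModule ℂ A] {τ : A →ₗ[ℂ] ℂ}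
  {W : VV → A}

theorem ps_n2s (h : PW τ W) (x : A) : n2s τ x = n2 τ x ^ 2 := (h.tr.n2_sq x).symm

theorem ps_n2s_nonneg (h : PW τ W) (x : A) : 0 ≤ n2s τ x := by
  rw [ps_n2s h]
  exact sq_nonneg _

theorem ps_dd_nonneg (h : PW τ W) (p : Fin 13 → A) (x : A) : 0 ≤ dd τ p x := by
  have h0 := ps_n2s_nonneg h
  unfold dd
  have h1 := h0 (x ^ 4 - 1)
  have h2 := h0 (cmt (p 0) x)
  have h3 := h0 (cmt (p 1) x)
  have h4 := h0 (cmt (p 2) x)
  have h5 := h0 (cmt (p 3) x)
  have h6 := h0 (cmt (p 4) x)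
  have h7 := h0 (cmt (p 5) (yy (p 11) x))
  have h8 := h0 (cmt (p 6) (yy (p 11) x))
  have h9 := h0 (cmt (p 7) (yy (p 11) x))
  have h10 := h0 (cmt (p 8) (yy (p 11) x))
  have h11 := h0 (cmt (p 9) (yy (p 11) x))
  have h12 := h0 (cmt (p 10) (yy (p 11) x))
  linarith

theorem ps_smul_unitary {μ : ℂ} (hμ : ‖μ‖ = 1) {x : A} (hx : x ∈ unitary A) :
    μ • x ∈ unitary A := by
  have h1 : star μ * μ = 1 := by
    rw [Complex.star_def, ← Complex.normSq_eq_conj_mul_self, Complex.normSq_eq_norm_sq, hμ]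
    simp
  have h2 : μ * star μ = 1 := by rw [mul_comm, h1]
  obtain ⟨h3, h4⟩ := Unitary.mem_iff.1 hx
  refine Unitary.mem_iff.2 ⟨?_, ?_⟩
  · rw [star_smul, smul_mul_smul_comm, h1, h3, one_smul]
  · rw [star_smul, smul_mul_smul_comm, h2, h4, one_smul]

theorem ps_prod (h : PW τ W) {x y a b : A} (hx : x ∈ unitary A) (hb : b ∈ unitary A) :
    n2 τ (x * y - a * b) ≤ n2 τ (x - a) + n2 τ (y - b) := by
  have e : x * y - a * b = (x - a) * b + x * (y - b) := by
    rw [sub_mul, mul_sub]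
    abel
  rw [e]
  refine (h.tr.n2_add_le _ _).trans ?_
  rw [PX.n2_mul_left x _ (Unitary.mem_iff.1 hx).1,
    PX.n2_mul_right h.tr b _ (Unitary.mem_iff.1 hb).2]

/-- if `a b = b a` then `x y` and `y x` are close -/
theorem ps_cmt (h : PW τ W) {x y a b : A} (hx : x ∈ unitary A) (hy : y ∈ unitary A)
    (ha : a ∈ unitary A) (hb : b ∈ unitary A) (hab : a * b = b * a) :
    n2 τ (x * y - y * x) ≤ 2 * (n2 τ (x - a) + n2 τ (y - b)) := by
  have e : x * y - y * x = (x * y - a * b) - (y * x - b * a) := by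
    rw [hab]
    abel
  rw [e]
  refine (h.tr.n2_sub_le _ _).trans ?_
  have h1 := ps_prod h (y := y) (a := a) hx hb
  have h2 := ps_prod h (y := x) (a := b) hy ha
  linarith

theorem ps_cmt' (h : PW τ W) {x y a b : A} (hx : x ∈ unitary A) (hy : y ∈ unitary A)
    (ha : a ∈ unitary A) (hb : b ∈ unitary A) (hab : a * b = -(b * a)) :
    n2 τ (x * y + y * x) ≤ 2 * (n2 τ (x - a) + n2 τ (y - b)) := by
  have e : x * y + y * x = (x * y - a * b) + (y * x - b * a) := by
    rw [hab]
    abel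
  rw [e]
  refine (h.tr.n2_add_le _ _).trans ?_
  have h1 := ps_prod h (y := y) (a := a) hx hb
  have h2 := ps_prod h (y := x) (a := b) hy ha
  linarith

theorem ps_conj (h : PW τ W) {C : A} (hC : C ∈ unitary A) (x y : A) :
    n2 τ (C * x * star C - C * y * star C) = n2 τ (x - y) := by
  have e : C * x * star C - C * y * star C = C * (x - y) * star C := by
    rw [mul_sub, sub_mul]
  rw [e, PX.n2_mul_right h.tr (star C) _ (by rw [star_star]; exact (Unitary.mem_iff.1 hC).1),
    PX.n2_mul_left C _ (Unitary.mem_iff.1 hC).1]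

theorem ps_conj_unitary {C x : A} (hC : C ∈ unitary A) (hx : x ∈ unitary A) :
    C * x * star C ∈ unitary A :=
  mul_mem (mul_mem hC hx) (Unitary.star_mem hC)

/-- distances of fourth roots of unity -/
theorem ps_roots {μ ν : ℂ} (hμ : μ ^ 4 = 1) (hν : ν ^ 4 = 1) (hne : μ ≠ ν) : 2 ≤ ‖μ - ν‖ ^ 2 := by
  have key : ∀ z : ℂ, z ^ 4 = 1 → z = 1 ∨ z = -1 ∨ z = Complex.I ∨ z = -Complex.I := by
    intro z hz
    have h1 : (z - 1) * ((z + 1) * ((z - Complex.I) * (z + Complex.I))) = 0 := by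
      have h2 : (z - 1) * ((z + 1) * ((z - Complex.I) * (z + Complex.I))) =
          (z ^ 2 - 1) * (z ^ 2 - Complex.I ^ 2) := by ring
      rw [h2, Complex.I_sq]
      linear_combination hz
    rcases mul_eq_zero.1 h1 with h | h
    · left; linear_combination h
    rcases mul_eq_zero.1 h with h | h
    · right; left; linear_combination h
    rcases mul_eq_zero.1 h with h | h
    · right; right; left; linear_combination h
    · right; right; right; linear_combination h
  rw [← Complex.normSq_eq_norm_sq, Complex.normSq_apply]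
  rcases key μ hμ with rfl | rfl | rfl | rfl <;> rcases key ν hν with rfl | rfl | rfl | rfl <;>
    first
      | exact absurd rfl hne
      | (simp; try norm_num)

/-- distances of different Paulis -/
theorem ps_dist (h : PW τ W) {v v' : VV} {μ ν : ℂ} (hμ : μ ^ 4 = 1) (hν : ν ^ 4 = 1)
    (hne : μ • W v ≠ ν • W v') : 2 ≤ n2 τ (μ • W v - ν • W v') ^ 2 := by
  have hμ1 : ‖μ‖ = 1 := Complex.norm_eq_one_of_pow_eq_one hμ (by norm_num)
  have hν1 : ‖ν‖ = 1 := Complex.norm_eq_one_of_pow_eq_one hν (by norm_num)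
  by_cases hv : v = v'
  · subst hv
    have hmn : μ ≠ ν := fun e => hne (by rw [e])
    rw [← sub_smul, PX.n2_smul h.tr, mul_pow]
    have h1 : n2 τ (W v) ^ 2 = 1 := by
      rw [h.tr.n2_sq, (Unitary.mem_iff.1 (W_unitary h v)).1, h.tr.one]
      simp
    rw [h1, mul_one]
    exact ps_roots hμ hν hmn
  · have h1 : star (μ • W v - ν • W v') * (μ • W v - ν • W v') =
        (star μ * μ) • (star (W v) * W v) + (star ν * ν) • (star (W v') * W v') -
        ((star μ * ν) • (star (W v) * W v') + (star ν * μ) • (star (W v') * W v)) := by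
      rw [star_sub, star_smul, star_smul, sub_mul, mul_sub, mul_sub, smul_mul_smul_comm,
        smul_mul_smul_comm, smul_mul_smul_comm, smul_mul_smul_comm]
      abel
    have h2 : star μ * μ = 1 := by
      rw [Complex.star_def, ← Complex.normSq_eq_conj_mul_self, Complex.normSq_eq_norm_sq, hμ1]
      simp
    have h3 : star ν * ν = 1 := by
      rw [Complex.star_def, ← Complex.normSq_eq_conj_mul_self, Complex.normSq_eq_norm_sq, hν1]
      simp
    rw [h.tr.n2_sq, h1, h2, h3, one_smul, one_smul, (Unitary.mem_iff.1 (W_unitary h v)).1,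
      (Unitary.mem_iff.1 (W_unitary h v')).1, map_sub, map_add, map_add, map_smul, map_smul,
      W_ne h hv, W_ne h (fun e => hv e.symm), h.tr.one, smul_zero, smul_zero]
    norm_num

theorem ps_W_smul_comm (h : PW τ W) {v v' : VV} (hsf : sf v v' = 0) (μ ν : ℂ) :
    (μ • W v) * (ν • W v') = (ν • W v') * (μ • W v) := by
  rw [smul_mul_smul_comm, smul_mul_smul_comm, W_comm h v v', hsf]
  have : SM.sg 0 = 1 := by unfold SM.sg; rw [if_pos rfl]
  rw [this, one_smul, mul_comm μ ν]

theorem ps_pos {t : ℝ} (ht : t ≤ 0) : pos t ≤ 0 := by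
  unfold pos
  rw [max_eq_left ht]

/-- JOB: the positive side. -/
theorem pos_side (h : PW τ W) {k : ℕ} (hk : 1 ≤ k) :
    ∃ p : Fin 13 → A, UU (SP W (lab 0 (3 * k)) : Set A) p ∧
      ∀ w : Fin 6 → A, UU (SP W (lab 0 (3 * k)) : Set A) w →
        ∃ z : Fin 2 → A, UU (SP W (lab 0 (3 * k)) : Set A) z ∧ FF (10 ^ 8) τ p w z ≤ 0 := by
  classical
  obtain ⟨p, hp⟩ := exists_par h k hk
  refine ⟨p, fun i => ⟨hp.unit i, hp.mem i⟩, fun w hw => ?_⟩
  obtain ⟨v, hv, μ, hμ, hx⟩ := near_pauli h hk hp (hw 0).2 (hw 0).1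
  obtain ⟨v', hv', ν, hν, hy⟩ := near_pauli h hk hp (hw 1).2 (hw 1).1
  obtain ⟨u, hu, hV⟩ := exists_test h hk hp (x := s4 w)
    (Submodule.add_mem _ (Submodule.add_mem _ (Submodule.add_mem _ (hw 2).2 (hw 3).2) (hw 4).2)
      (hw 5).2)
  have hμ1 : ‖μ‖ = 1 := Complex.norm_eq_one_of_pow_eq_one hμ (by norm_num)
  have hν1 : ‖ν‖ = 1 := Complex.norm_eq_one_of_pow_eq_one hν (by norm_num)
  have ha : μ • W v ∈ unitary A := ps_smul_unitary hμ1 (W_unitary h v)
  have hb : ν • W v' ∈ unitary A := ps_smul_unitary hν1 (W_unitary h v')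
  have hab : (μ • W v) * (ν • W v') = (μ * ν * SM.sg (bf v v')) • W (v + v') := by
    rw [smul_mul_smul_comm, h.sys.mul, smul_smul]
  have hlab : ∀ t : VV, t ∈ lab 0 k → t ∈ (lab 0 (3 * k) : Set VV) := by
    intro t ht i hi
    refine ht i ?_
    omega
  have hsg4 : ∀ t : ZMod 2, SM.sg t ^ 4 = 1 := by
    intro t
    have h1 := sg_mul_self t
    calc SM.sg t ^ 4 = (SM.sg t * SM.sg t) * (SM.sg t * SM.sg t) := by ring
      _ = 1 := by rw [h1, one_mul]
  set D : ℝ := dd τ p (w 0) + dd τ p (w 1) with hD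
  have hD0 : 0 ≤ D := add_nonneg (ps_dd_nonneg h p _) (ps_dd_nonneg h p _)
  set E : ℝ := n2 τ (w 0 - μ • W v) + n2 τ (w 1 - ν • W v') with hE
  have hE0 : 0 ≤ E := add_nonneg (n2_nonneg _ _) (n2_nonneg _ _)
  have hE2 : E ^ 2 ≤ 600000 * D := by
    rw [ps_n2s h] at hx hy
    have h1 := sq_nonneg (n2 τ (w 0 - μ • W v) - n2 τ (w 1 - ν • W v'))
    rw [hE, hD]
    nlinarith
  have hE4 : (2 * E) ^ 2 ≤ 10 ^ 8 * D := by nlinarith
  have hbig : ∀ t : ℝ, 0 ≤ t → t ≤ 2 * E → t ^ 2 - 10 ^ 8 * D ≤ 0 := by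
    intro t h0 h1
    have h2 : t ^ 2 ≤ (2 * E) ^ 2 := pow_le_pow_left₀ h0 h1 2
    linarith
  refine ⟨![(μ * ν * SM.sg (bf v v')) • W (v + v'), W u], ?_, ?_⟩
  · intro i
    fin_cases i
    · refine ⟨?_, ?_⟩
      · show (μ * ν * SM.sg (bf v v')) • W (v + v') ∈ unitary A
        rw [← hab]
        exact mul_mem ha hb
      · show (μ * ν * SM.sg (bf v v')) • W (v + v') ∈ SP W (lab 0 (3 * k) : Set VV)
        exact Submodule.smul_mem _ _ (SP_W W (hlab _ (AddSubgroup.add_mem _ hv hv')))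
    · exact ⟨W_unitary h u, SP_W W (hlab _ hu)⟩
  · have z0 : (![(μ * ν * SM.sg (bf v v')) • W (v + v'), W u] : Fin 2 → A) 0 =
        (μ * ν * SM.sg (bf v v')) • W (v + v') := rfl
    have z1 : (![(μ * ν * SM.sg (bf v v')) • W (v + v'), W u] : Fin 2 → A) 1 = W u := rfl
    unfold FF
    rw [z0, z1, ← hD]
    -- 1
    have t1 : pos (min (n2s τ (w 0 - w 1)) (pos (1 - n2s τ (w 0 - w 1))) - 10 ^ 8 * D) ≤ 0 := by
      apply ps_pos
      by_cases hab' : μ • W v = ν • W v'
      · have h1 : n2 τ (w 0 - w 1) ≤ 2 * E := by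
          have e : w 0 - w 1 = (w 0 - μ • W v) - (w 1 - ν • W v') := by
            rw [hab']
            abel
          rw [e]
          refine (h.tr.n2_sub_le _ _).trans ?_
          linarith
        have h2 := hbig _ (n2_nonneg _ _) h1
        rw [← ps_n2s h] at h2
        have h3 := min_le_left (n2s τ (w 0 - w 1)) (pos (1 - n2s τ (w 0 - w 1)))
        linarith
      · have h1 := ps_dist h hμ hν hab'
        have h2 : n2 τ (μ • W v - ν • W v') ≤ n2 τ (w 0 - w 1) + E := by
          have e : μ • W v - ν • W v' = (w 0 - w 1) - ((w 0 - μ • W v) - (w 1 - ν • W v')) := by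
            abel
          rw [e]
          refine (h.tr.n2_sub_le _ _).trans (add_le_add le_rfl ?_)
          exact h.tr.n2_sub_le _ _
        have h3 := min_le_right (n2s τ (w 0 - w 1)) (pos (1 - n2s τ (w 0 - w 1)))
        have h5 := n2_nonneg τ (w 0 - w 1)
        have h6 := n2_nonneg τ (μ • W v - ν • W v')
        by_cases hE3 : E ≤ 1 / 3
        · have h4 : 1 ≤ n2s τ (w 0 - w 1) := by
            rw [ps_n2s h]
            by_contra hcon
            push Not at hcon
            have h7 : n2 τ (w 0 - w 1) < 1 := by nlinarith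
            nlinarith
          have h8 : pos (1 - n2s τ (w 0 - w 1)) ≤ 0 := ps_pos (by linarith)
          have h9 : 0 ≤ 10 ^ 8 * D := by positivity
          linarith
        · push Not at hE3
          have h8 : pos (1 - n2s τ (w 0 - w 1)) ≤ 1 := by
            unfold pos
            exact max_le (by norm_num) (by linarith [ps_n2s_nonneg h (w 0 - w 1)])
          have h9 : 1 ≤ 9 * E ^ 2 := by nlinarith
          nlinarith
    -- 2
    have t2 : dd τ p ((μ * ν * SM.sg (bf v v')) • W (v + v')) ≤ 0 := by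
      refine (dd_pauli h hk hp (AddSubgroup.add_mem _ hv hv') ?_).le
      rw [mul_pow, mul_pow, hμ, hν, hsg4]
      norm_num
    -- 3
    have t3 : pos (n2s τ (w 0 * w 1 - (μ * ν * SM.sg (bf v v')) • W (v + v')) - 10 ^ 8 * D) ≤ 0 := by
      apply ps_pos
      rw [← hab, ps_n2s h]
      refine hbig _ (n2_nonneg _ _) ?_
      have := ps_prod h (y := w 1) (a := μ • W v) (hw 0).1 hb
      linarith
    -- 4
    have t4 : pos (min (n2s τ (w 0 * w 1 - w 1 * w 0)) (n2s τ (w 0 * w 1 + w 1 * w 0)) -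
        10 ^ 8 * D) ≤ 0 := by
      apply ps_pos
      by_cases hs : sf v v' = 0
      · have h1 := ps_cmt h (hw 0).1 (hw 1).1 ha hb (ps_W_smul_comm h hs μ ν)
        have h2 := hbig _ (n2_nonneg _ _) h1
        rw [← ps_n2s h] at h2
        have h3 := min_le_left (n2s τ (w 0 * w 1 - w 1 * w 0)) (n2s τ (w 0 * w 1 + w 1 * w 0))
        linarith
      · have hanti : (μ • W v) * (ν • W v') = -((ν • W v') * (μ • W v)) := by
          rw [smul_mul_smul_comm, smul_mul_smul_comm, W_comm h v v']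
          have : SM.sg (sf v v') = -1 := by unfold SM.sg; rw [if_neg hs]
          rw [this, smul_smul, ← neg_smul, mul_comm μ ν]
          congr 1
          ring
        have h1 := ps_cmt' h (hw 0).1 (hw 1).1 ha hb hanti
        have h2 := hbig _ (n2_nonneg _ _) h1
        rw [← ps_n2s h] at h2
        have h3 := min_le_right (n2s τ (w 0 * w 1 - w 1 * w 0)) (n2s τ (w 0 * w 1 + w 1 * w 0))
        linarith
    -- 5
    have t5 : pos (n2s τ (cmt (w 0) (cj1 p (w 1))) - 10 ^ 8 * D) ≤ 0 := by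
      apply ps_pos
      obtain ⟨c, hc, h1⟩ := cj1_pauli h hk hp hv'
      have h2 : cj1 p (ν • W v') = (ν * c) • W (shl k v') := by
        have : cj1 p (ν • W v') = ν • cj1 p (W v') := by
          unfold cj1
          rw [mul_smul_comm, smul_mul_assoc]
        rw [this, h1, smul_smul]
      have h3 : (μ • W v) * cj1 p (ν • W v') = cj1 p (ν • W v') * (μ • W v) := by
        rw [h2]
        exact ps_W_smul_comm h (sf_lab (by omega) hv (shl_mem (m := k) hv')) _ _
      have h4 := ps_cmt h (hw 0).1 (ps_conj_unitary (hp.unit 12) (hw 1).1) ha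
        (ps_conj_unitary (hp.unit 12) hb) h3
      rw [ps_conj h (hp.unit 12)] at h4
      have h5 := hbig _ (n2_nonneg _ _) h4
      rw [← ps_n2s h] at h5
      exact h5
    -- 6
    have t6 : pos (n2s τ (cmt (w 0) (cj2 p (w 1))) - 10 ^ 8 * D) ≤ 0 := by
      apply ps_pos
      obtain ⟨c, hc, h1⟩ := cj2_pauli h hk hp hv'
      have hC := mul_mem (hp.unit 12) (hp.unit 12)
      have h2 : cj2 p (ν • W v') = (ν * c) • W (shl (2 * k) v') := by
        have : cj2 p (ν • W v') = ν • cj2 p (W v') := by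
          unfold cj2
          rw [mul_smul_comm, smul_mul_assoc]
        rw [this, h1, smul_smul]
      have h3 : (μ • W v) * cj2 p (ν • W v') = cj2 p (ν • W v') * (μ • W v) := by
        rw [h2]
        exact ps_W_smul_comm h (sf_lab (by omega) hv (shl_mem (m := 2 * k) hv')) _ _
      have h4 := ps_cmt h (hw 0).1 (ps_conj_unitary hC (hw 1).1) ha
        (ps_conj_unitary hC hb) h3
      rw [ps_conj h hC] at h4
      have h5 := hbig _ (n2_nonneg _ _) h4
      rw [← ps_n2s h] at h5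
      exact h5
    -- 7
    have t7 : dd τ p (W u) ≤ 0 := by
      have := dd_pauli h hk hp hu (μ := 1) (by norm_num)
      rw [one_smul] at this
      exact this.le
    -- 8
    have t8 : pos (vr τ (s4 w) - 5 * (n2s τ (cmt (W u) (s4 w)) + n2s τ (cmt (cj1 p (W u)) (s4 w)) +
        n2s τ (cmt (cj2 p (W u)) (s4 w)))) ≤ 0 := ps_pos (by linarith)
    linarith

end Pool.Agent.Helper436.AD
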