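import Mathlib

set_option autoImplicit false

namespace Pool.Agent.Helper436.AD

/-- the square of the normalised 2-norm of a matrix -/
noncomputable def ms {ι : Type} [Fintype ι] (A : Matrix ι ι ℂ) : ℝ :=
  (∑ i, ∑ j, ‖A i j‖ ^ 2) / Fintype.card ι

/-- The negative side: `S` is a set of unitaries, `C` a unitary. -/
structure Bad {ι : Type} [Fintype ι] [DecidableEq ι] (η : ℝ) (C : Matrix ι ι ℂ)
    (S : Set (Matrix ι ι ℂ)) : Prop where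
  hC : C ∈ unitary (Matrix ι ι ℂ)
  hS : ∀ x ∈ S, x ∈ unitary (Matrix ι ι ℂ)
  s1 : ∀ x ∈ S, ∀ y ∈ S, ms (x - y) ≤ η ∨ 1 / 2 ≤ ms (x - y)
  s2 : ∀ x ∈ S, ∀ y ∈ S, ∃ z ∈ S, ms (x * y - z) ≤ η
  s3 : ∀ x ∈ S, ∀ y ∈ S, ms (x * y - y * x) ≤ η ∨ ms (x * y + y * x) ≤ η
  s4 : ∀ x ∈ S, ∀ y ∈ S, ms (x * (C * y * star C) - (C * y * star C) * x) ≤ η
  s4' : ∀ x ∈ S, ∀ y ∈ S,
    ms (x * (C * C * y * star (C * C)) - (C * C * y * star (C * C)) * x) ≤ η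
  s5 : (Complex.I • (1 : Matrix ι ι ℂ)) ∈ S
  s6 : ∀ x ∈ S, ms (x ^ 4 - 1) ≤ η
  s7 : ∀ u : Fin 4 → Matrix ι ι ℂ, (∀ i, u i ∈ unitary (Matrix ι ι ℂ)) → ∃ x ∈ S,
    ms (∑ i, u i) - ‖Matrix.trace (∑ i, u i) / Fintype.card ι‖ ^ 2 ≤
      5 * (ms (x * (∑ i, u i) - (∑ i, u i) * x) +
        ms (C * x * star C * (∑ i, u i) - (∑ i, u i) * (C * x * star C)) +
        ms (C * C * x * star (C * C) * (∑ i, u i) - (∑ i, u i) * (C * C * x * star (C * C)))) + η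

end Pool.Agent.Helper436.AD
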