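import Mathlib
import Pool.Agent.Helper436.AD.NegStmt

set_option autoImplicit false
set_option linter.unusedSectionVars false

namespace Pool.Agent.Helper436.AD

variable {ι : Type} [Fintype ι] [DecidableEq ι]

/-- the square of the Hilbert-Schmidt norm -/
noncomputable def hs {α β : Type} [Fintype α] [Fintype β] (A : Matrix α β ℂ) : ℝ :=
  ∑ i, ∑ j, ‖A i j‖ ^ 2

/-- the normalised 2-norm of a matrix -/
noncomputable def m2 (A : Matrix ι ι ℂ) : ℝ := Real.sqrt (ms A)

/-- the normalised trace -/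
noncomputable def nt (A : Matrix ι ι ℂ) : ℂ := Matrix.trace A / Fintype.card ι

theorem ms_eq (A : Matrix ι ι ℂ) : ms A = hs A / Fintype.card ι := rfl

theorem hs_nonneg' {α β : Type} [Fintype α] [Fintype β] (A : Matrix α β ℂ) : 0 ≤ hs A :=
  Finset.sum_nonneg fun _ _ => Finset.sum_nonneg fun _ _ => sq_nonneg _

/-- a matrix as a vector -/
noncomputable def vec' {α β : Type} [Fintype α] [Fintype β] (A : Matrix α β ℂ) :
    EuclideanSpace ℂ (α × β) := WithLp.toLp 2 fun p => A p.1 p.2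

theorem sqrt_hs_eq' {α β : Type} [Fintype α] [Fintype β] (A : Matrix α β ℂ) :
    Real.sqrt (hs A) = ‖vec' A‖ := by
  rw [EuclideanSpace.norm_eq]
  congr 1
  rw [Fintype.sum_prod_type]
  rfl

theorem vec_add' {α β : Type} [Fintype α] [Fintype β] (A B : Matrix α β ℂ) :
    vec' (A + B) = vec' A + vec' B := rfl

theorem hs_smul' {α β : Type} [Fintype α] [Fintype β] (c : ℂ) (A : Matrix α β ℂ) :
    hs (c • A) = ‖c‖ ^ 2 * hs A := by
  unfold hs
  rw [Finset.mul_sum]
  refine Finset.sum_congr rfl fun i _ => ?_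
  rw [Finset.mul_sum]
  refine Finset.sum_congr rfl fun j _ => ?_
  rw [Matrix.smul_apply, smul_eq_mul, norm_mul, mul_pow]

theorem hs_conj' {α β : Type} [Fintype α] [Fintype β] (A : Matrix α β ℂ) :
    hs A.conjTranspose = hs A := by
  unfold hs
  rw [Finset.sum_comm]
  refine Finset.sum_congr rfl fun i _ => Finset.sum_congr rfl fun j _ => ?_
  rw [Matrix.conjTranspose_apply, norm_star]

theorem hs_eq' {α β : Type} [Fintype α] [Fintype β] (A : Matrix α β ℂ) :
    hs A = (Matrix.trace (A.conjTranspose * A)).re := by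
  unfold hs Matrix.trace
  rw [Finset.sum_comm, Complex.re_sum]
  refine Finset.sum_congr rfl fun j _ => ?_
  rw [Matrix.diag_apply, Matrix.mul_apply, Complex.re_sum]
  refine Finset.sum_congr rfl fun i _ => ?_
  rw [Matrix.conjTranspose_apply, Complex.star_def, ← Complex.normSq_eq_conj_mul_self,
    Complex.ofReal_re, Complex.normSq_eq_norm_sq]

theorem hs_mul_left' {U : Matrix ι ι ℂ} (hU : U ∈ unitary (Matrix ι ι ℂ)) (A : Matrix ι ι ℂ) :
    hs (U * A) = hs A := by
  rw [hs_eq', hs_eq', Matrix.conjTranspose_mul]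
  have h1 : U.conjTranspose * U = 1 := (Unitary.mem_iff.mp hU).1
  have h2 : A.conjTranspose * U.conjTranspose * (U * A) = A.conjTranspose * A := by
    rw [Matrix.mul_assoc, ← Matrix.mul_assoc U.conjTranspose, h1, Matrix.one_mul]
  rw [h2]

theorem hs_one' : hs (1 : Matrix ι ι ℂ) = Fintype.card ι := by
  unfold hs
  have : ∀ i : ι, ∑ j, ‖(1 : Matrix ι ι ℂ) i j‖ ^ 2 = 1 := by
    intro i
    rw [Finset.sum_eq_single i]
    · simp
    · intro j _ hj
      rw [Matrix.one_apply_ne hj.symm]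
      simp
    · intro h; exact absurd (Finset.mem_univ _) h
  simp [this]

theorem m2_eq' (A : Matrix ι ι ℂ) : m2 A = Real.sqrt (hs A) / Real.sqrt (Fintype.card ι) := by
  unfold m2
  rw [ms_eq, Real.sqrt_div (hs_nonneg' A)]

theorem trace_cs' {α β : Type} [Fintype α] [Fintype β] (A : Matrix α β ℂ)
    (B : Matrix β α ℂ) : ‖Matrix.trace (A * B)‖ ≤ Real.sqrt (hs A) * Real.sqrt (hs B) := by
  have h1 : Matrix.trace (A * B) = ∑ p : α × β, A p.1 p.2 * B p.2 p.1 := by
    rw [Fintype.sum_prod_type]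
    rfl
  have h2 : hs A = ∑ p : α × β, ‖A p.1 p.2‖ ^ 2 := by
    rw [Fintype.sum_prod_type]
    rfl
  have h3 : hs B = ∑ p : α × β, ‖B p.2 p.1‖ ^ 2 := by
    rw [Fintype.sum_prod_type]
    exact Finset.sum_comm
  rw [h1, h2, h3]
  refine (norm_sum_le _ _).trans ?_
  simp only [norm_mul]
  exact Real.sum_mul_le_sqrt_mul_sqrt _ _ _

theorem ms_nonneg (A : Matrix ι ι ℂ) : 0 ≤ ms A := by
  rw [ms_eq]
  exact div_nonneg (hs_nonneg' A) (Nat.cast_nonneg _)

theorem m2_nonneg (A : Matrix ι ι ℂ) : 0 ≤ m2 A := by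
  exact Real.sqrt_nonneg _

theorem m2_sq (A : Matrix ι ι ℂ) : m2 A ^ 2 = ms A := by
  exact Real.sq_sqrt (ms_nonneg A)

theorem m2_add (A B : Matrix ι ι ℂ) : m2 (A + B) ≤ m2 A + m2 B := by
  rw [m2_eq', m2_eq', m2_eq', ← add_div]
  refine div_le_div_of_nonneg_right ?_ (Real.sqrt_nonneg _)
  rw [sqrt_hs_eq', sqrt_hs_eq', sqrt_hs_eq', vec_add']
  exact norm_add_le _ _

theorem m2_neg (A : Matrix ι ι ℂ) : m2 (-A) = m2 A := by
  have h1 : hs (-A) = hs A := by
    have h := hs_smul' (-1) A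
    rw [neg_one_smul] at h
    rw [h]
    simp
  rw [m2_eq', m2_eq', h1]

theorem m2_sub_comm (A B : Matrix ι ι ℂ) : m2 (A - B) = m2 (B - A) := by
  rw [← m2_neg, neg_sub]

theorem m2_tri (A B D : Matrix ι ι ℂ) : m2 (A - D) ≤ m2 (A - B) + m2 (B - D) := by
  have h := m2_add (A - B) (B - D)
  rwa [sub_add_sub_cancel] at h

theorem m2_smul (c : ℂ) (A : Matrix ι ι ℂ) : m2 (c • A) = ‖c‖ * m2 A := by
  rw [m2_eq', m2_eq', hs_smul', Real.sqrt_mul (sq_nonneg _), Real.sqrt_sq (norm_nonneg _),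
    mul_div_assoc]

theorem m2_star (A : Matrix ι ι ℂ) : m2 (star A) = m2 A := by
  rw [m2_eq', m2_eq', Matrix.star_eq_conjTranspose, hs_conj']

/-- multiplication by unitaries -/
theorem m2_mul_left {U : Matrix ι ι ℂ} (hU : U ∈ unitary (Matrix ι ι ℂ)) (A : Matrix ι ι ℂ) :
    m2 (U * A) = m2 A := by
  rw [m2_eq', m2_eq', hs_mul_left' hU]

theorem m2_mul_right {U : Matrix ι ι ℂ} (hU : U ∈ unitary (Matrix ι ι ℂ)) (A : Matrix ι ι ℂ) :
    m2 (A * U) = m2 A := by
  rw [← m2_star, star_mul, m2_mul_left (Unitary.star_mem hU), m2_star]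

theorem m2_one [Nonempty ι] : m2 (1 : Matrix ι ι ℂ) = 1 := by
  rw [m2_eq', hs_one']
  refine div_self ?_
  rw [Real.sqrt_ne_zero (Nat.cast_nonneg _)]
  exact_mod_cast Fintype.card_ne_zero

theorem m2_unitary [Nonempty ι] {U : Matrix ι ι ℂ} (hU : U ∈ unitary (Matrix ι ι ℂ)) :
    m2 U = 1 := by
  have h := m2_mul_left hU (1 : Matrix ι ι ℂ)
  rwa [mul_one, m2_one] at h

theorem norm_nt_le [Nonempty ι] (A : Matrix ι ι ℂ) : ‖nt A‖ ≤ m2 A := by
  have hc : (0:ℝ) < Fintype.card ι := by exact_mod_cast Fintype.card_pos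
  unfold nt
  rw [norm_div, Complex.norm_natCast, m2_eq', div_le_div_iff₀ hc (Real.sqrt_pos.mpr hc)]
  have h := trace_cs' A (1 : Matrix ι ι ℂ)
  rw [mul_one, hs_one'] at h
  calc ‖A.trace‖ * √(Fintype.card ι : ℝ) ≤
        (√(hs A) * √(Fintype.card ι : ℝ)) * √(Fintype.card ι : ℝ) :=
        mul_le_mul_of_nonneg_right h (Real.sqrt_nonneg _)
    _ = √(hs A) * (Fintype.card ι : ℝ) := by
        rw [mul_assoc, Real.mul_self_sqrt hc.le]

/-- `hs A = Re Tr (A* A)` -/
theorem hs_eq {α β : Type} [Fintype α] [Fintype β] (A : Matrix α β ℂ) :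
    hs A = (Matrix.trace (A.conjTranspose * A)).re := by
  exact hs_eq' A

theorem sqrt_hs_add {α β : Type} [Fintype α] [Fintype β] (A B : Matrix α β ℂ) :
    Real.sqrt (hs (A + B)) ≤ Real.sqrt (hs A) + Real.sqrt (hs B) := by
  rw [sqrt_hs_eq', sqrt_hs_eq', sqrt_hs_eq', vec_add']
  exact norm_add_le _ _

/-- Cauchy-Schwarz for the trace -/
theorem norm_trace_mul_le {α β : Type} [Fintype α] [Fintype β] (A : Matrix α β ℂ)
    (B : Matrix β α ℂ) : ‖Matrix.trace (A * B)‖ ≤ Real.sqrt (hs A) * Real.sqrt (hs B) := by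
  exact trace_cs' A B

/-- multiplication by a contraction, `T* T + R* R = 1` -/
theorem hs_mul_le {α β γ δ : Type} [Fintype α] [Fintype β] [Fintype γ] [Fintype δ]
    [DecidableEq β] (T : Matrix α β ℂ) (R : Matrix γ β ℂ)
    (hT : T.conjTranspose * T + R.conjTranspose * R = 1) (A : Matrix β δ ℂ) :
    hs (T * A) ≤ hs A := by
  have h1 : hs (T * A) + hs (R * A) = hs A := by
    rw [hs_eq', hs_eq', hs_eq', Matrix.conjTranspose_mul, Matrix.conjTranspose_mul,
      ← Complex.add_re, ← Matrix.trace_add]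
    congr 2
    calc A.conjTranspose * T.conjTranspose * (T * A) + A.conjTranspose * R.conjTranspose * (R * A)
        = A.conjTranspose * (T.conjTranspose * T + R.conjTranspose * R) * A := by
          rw [Matrix.mul_add, Matrix.add_mul]
          simp only [Matrix.mul_assoc]
      _ = A.conjTranspose * A := by rw [hT, Matrix.mul_one]
  linarith [hs_nonneg' (R * A)]

theorem hs_conj {α β : Type} [Fintype α] [Fintype β] (A : Matrix α β ℂ) :
    hs A.conjTranspose = hs A := by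
  exact hs_conj' A

end Pool.Agent.Helper436.AD
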