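import Mathlib
import Pool.Agent.Helper436.AD.N0

set_option autoImplicit false
set_option linter.unusedSectionVars false

namespace Pool.Agent.Helper436.AD

/-- an approximate representation `f` of the group `G`, commuting with its conjugates by `C` and
`C * C` and approximately irreducible together with them -/
structure Apx {ι : Type} [Fintype ι] [DecidableEq ι] {G : Type} [Group G] (ε : ℝ)
    (C : Matrix ι ι ℂ) (f : G → Matrix ι ι ℂ) : Prop where
  hC : C ∈ unitary (Matrix ι ι ℂ)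
  hf : ∀ g, f g ∈ unitary (Matrix ι ι ℂ)
  mul : ∀ g h, m2 (f g * f h - f (g * h)) ≤ ε
  sep : ∀ g h, g ≠ h → 1 / 2 ≤ m2 (f g - f h)
  comm : ∀ g h, m2 (f g * f h - f h * f g) ≤ ε ∨ m2 (f g * f h + f h * f g) ≤ ε
  c1 : ∀ g h, m2 (f g * (C * f h * star C) - (C * f h * star C) * f g) ≤ ε
  c2 : ∀ g h, m2 (f g * (C * C * f h * star (C * C)) - (C * C * f h * star (C * C)) * f g) ≤ ε
  im : ∃ c : G, m2 (f c - Complex.I • (1 : Matrix ι ι ℂ)) ≤ ε
  four : ∀ g, m2 (f g ^ 4 - 1) ≤ ε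
  big : ∀ u : Fin 4 → Matrix ι ι ℂ, (∀ i, u i ∈ unitary (Matrix ι ι ℂ)) → ∃ g : G,
    ms (∑ i, u i) - ‖nt (∑ i, u i)‖ ^ 2 ≤
      10 * (ms (f g * (∑ i, u i) - (∑ i, u i) * f g) +
        ms (C * f g * star C * (∑ i, u i) - (∑ i, u i) * (C * f g * star C)) +
        ms (C * C * f g * star (C * C) * (∑ i, u i) -
          (∑ i, u i) * (C * C * f g * star (C * C)))) + ε

section

variable {ι : Type} [Fintype ι] [DecidableEq ι] {Γ : Type} [Group Γ] [Fintype Γ] [DecidableEq Γ]

/-- the left regular representation, tensored with the identity -/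
def Lg (g : Γ) : Matrix (Γ × ι) (Γ × ι) ℂ :=
  fun a b => if a.1 = g * b.1 ∧ a.2 = b.2 then 1 else 0

/-- the isometry of Gowers and Hatami -/
noncomputable def Jm (F : Γ → Matrix ι ι ℂ) : Matrix (Γ × ι) ι ℂ :=
  fun a k => ((1 / Real.sqrt (Fintype.card Γ) : ℝ) : ℂ) * star (F a.1 k a.2)

/-- a projection that commutes with the representation -/
structure Inv (E : Matrix (Γ × ι) (Γ × ι) ℂ) : Prop where
  idem : E * E = E
  herm : E.conjTranspose = E
  comm : ∀ g : Γ, E * Lg g = Lg g * E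

end

/-- the triple product -/
def Fp {ι : Type} [Fintype ι] [DecidableEq ι] {G : Type} (C : Matrix ι ι ℂ)
    (f : G → Matrix ι ι ℂ) (γ : G × G × G) : Matrix ι ι ℂ :=
  f γ.1 * (C * f γ.2.1 * star C) * (C * C * f γ.2.2 * star (C * C))

end Pool.Agent.Helper436.AD
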