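import Mathlib
import Pool.Agent.Helper436.AD.NDef

set_option autoImplicit false
set_option linter.unusedSectionVars false

namespace Pool.Agent.Helper436.AD

theorem ea_group {ι : Type} [Fintype ι] [DecidableEq ι] [Nonempty ι] {G : Type} (s : ℝ)
    (hs0 : 0 < s) (hs1 : s ≤ 1 / 1000)
    (f : G → Matrix ι ι ℂ) (hf : ∀ g, f g ∈ unitary (Matrix ι ι ℂ))
    (uniq : ∀ g h, m2 (f g - f h) < 1 / 2 → g = h)
    (mulG : G → G → G) (hmul : ∀ g h, m2 (f g * f h - f (mulG g h)) ≤ 2 * s)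
    (e : G) (he : m2 (f e - 1) ≤ 4 * s) (four : ∀ g, m2 (f g ^ 4 - 1) ≤ s) :
    ∃ (_ : Group G), ∀ g h : G, m2 (f g * f h - f (g * h)) ≤ 2 * s := by
  have hmul' : ∀ g h, m2 (f (mulG g h) - f g * f h) ≤ 2 * s := by
    intro g h
    rw [m2_sub_comm]
    exact hmul g h
  letI : Mul G := ⟨mulG⟩
  letI : One G := ⟨e⟩
  letI : _root_.Inv G := ⟨fun g => mulG (mulG g g) g⟩
  refine ⟨Group.ofLeftAxioms ?_ ?_ ?_, fun g h => hmul g h⟩
  · intro a b c
    change mulG (mulG a b) c = mulG a (mulG b c)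
    apply uniq
    have h1 := hmul' (mulG a b) c
    have h2 : m2 (f (mulG a b) * f c - f a * f b * f c) ≤ 2 * s := by
      rw [← sub_mul, m2_mul_right (hf c)]
      exact hmul' a b
    have h3 : m2 (f a * f b * f c - f a * f (mulG b c)) ≤ 2 * s := by
      rw [mul_assoc, ← mul_sub, m2_mul_left (hf a)]
      exact hmul b c
    have h4 := hmul a (mulG b c)
    have t1 := m2_tri (f (mulG (mulG a b) c)) (f (mulG a b) * f c) (f (mulG a (mulG b c)))
    have t2 := m2_tri (f (mulG a b) * f c) (f a * f b * f c) (f (mulG a (mulG b c)))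
    have t3 := m2_tri (f a * f b * f c) (f a * f (mulG b c)) (f (mulG a (mulG b c)))
    linarith
  · intro a
    change mulG e a = a
    apply uniq
    have h1 := hmul' e a
    have h2 : m2 (f e * f a - f a) ≤ 4 * s := by
      have : f e * f a - f a = (f e - 1) * f a := by rw [sub_mul, one_mul]
      rw [this, m2_mul_right (hf a)]
      exact he
    have t1 := m2_tri (f (mulG e a)) (f e * f a) (f a)
    linarith
  · intro a
    change mulG (mulG (mulG a a) a) a = e
    apply uniq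
    have h1 := hmul' (mulG (mulG a a) a) a
    have h2 : m2 (f (mulG (mulG a a) a) * f a - f (mulG a a) * f a * f a) ≤ 2 * s := by
      rw [← sub_mul, m2_mul_right (hf a)]
      exact hmul' (mulG a a) a
    have h3 : m2 (f (mulG a a) * f a * f a - f a * f a * f a * f a) ≤ 2 * s := by
      rw [← sub_mul, m2_mul_right (hf a), ← sub_mul, m2_mul_right (hf a)]
      exact hmul' a a
    have h4 : m2 (f a * f a * f a * f a - 1) ≤ s := by
      have : f a * f a * f a * f a = f a ^ 4 := by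
        rw [pow_succ, pow_succ, pow_succ, pow_one]
      rw [this]
      exact four a
    have h5 : m2 (1 - f e) ≤ 4 * s := by
      rw [m2_sub_comm]
      exact he
    have t1 := m2_tri (f (mulG (mulG (mulG a a) a) a)) (f (mulG (mulG a a) a) * f a) (f e)
    have t2 := m2_tri (f (mulG (mulG a a) a) * f a) (f (mulG a a) * f a * f a) (f e)
    have t3 := m2_tri (f (mulG a a) * f a * f a) (f a * f a * f a * f a) (f e)
    have t4 := m2_tri (f a * f a * f a * f a) 1 (f e)
    linarith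

theorem ea_finite {ι : Type} [Fintype ι] [DecidableEq ι] [Nonempty ι] {G : Type}
    (f : G → Matrix ι ι ℂ) (hf : ∀ g, f g ∈ unitary (Matrix ι ι ℂ))
    (uniq : ∀ g h, m2 (f g - f h) < 1 / 2 → g = h) : Finite G := by
  classical
  have hn : (0 : ℝ) < Fintype.card ι := by exact_mod_cast Fintype.card_pos
  obtain ⟨ε, hε⟩ : ∃ ε : ℝ, ε = 1 / (4 * ((Fintype.card ι : ℝ) + 1)) := ⟨_, rfl⟩
  have hεpos : 0 < ε := by rw [hε]; positivity
  have hcomp : IsCompact (Metric.closedBall (0 : ι → ι → ℂ) 1) := isCompact_closedBall _ _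
  obtain ⟨t, ht, hcov⟩ := Metric.totallyBounded_iff.1 hcomp.totallyBounded ε hεpos
  have hmem : ∀ g, (fun i j => f g i j) ∈ Metric.closedBall (0 : ι → ι → ℂ) 1 := by
    intro g
    rw [mem_closedBall_zero_iff, pi_norm_le_iff_of_nonneg zero_le_one]
    intro i
    rw [pi_norm_le_iff_of_nonneg zero_le_one]
    intro j
    exact entry_norm_bound_of_unitary (hf g) i j
  have hch : ∀ g, ∃ y ∈ t, dist (fun i j => f g i j) y < ε := by
    intro g
    simpa using hcov (hmem g)
  choose y hy hd using hch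
  haveI : Finite t := ht
  refine Finite.of_injective (fun g => (⟨y g, hy g⟩ : t)) ?_
  intro g h hgh
  have hyy : y g = y h := congrArg Subtype.val hgh
  apply uniq
  have hdist : dist (fun i j => f g i j) (fun i j => f h i j) < 2 * ε := by
    have h1 := hd g
    have h2 := hd h
    rw [← hyy, dist_comm] at h2
    have h3 := dist_triangle (fun i j => f g i j) (y g) (fun i j => f h i j)
    linarith
  have hentry : ∀ i j, ‖(f g - f h) i j‖ ≤ 2 * ε := by
    intro i j
    have e0 : ‖(f g - f h) i j‖ = dist (f g i j) (f h i j) := by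
      rw [dist_eq_norm, Matrix.sub_apply]
    have e1 : dist (f g i j) (f h i j) ≤ dist (fun j => f g i j) (fun j => f h i j) :=
      dist_le_pi_dist (fun j => f g i j) (fun j => f h i j) j
    have e2 : dist (fun j => f g i j) (fun j => f h i j) ≤
        dist (fun i j => f g i j) (fun i j => f h i j) :=
      dist_le_pi_dist (fun i j => f g i j) (fun i j => f h i j) i
    linarith
  have hms : ms (f g - f h) ≤ Fintype.card ι * (2 * ε) ^ 2 := by
    unfold ms
    rw [div_le_iff₀ hn]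
    calc ∑ i, ∑ j, ‖(f g - f h) i j‖ ^ 2 ≤ ∑ i : ι, ∑ j : ι, (2 * ε) ^ 2 :=
          Finset.sum_le_sum fun i _ => Finset.sum_le_sum fun j _ =>
            pow_le_pow_left₀ (norm_nonneg _) (hentry i j) 2
      _ = Fintype.card ι * (2 * ε) ^ 2 * Fintype.card ι := by
          rw [Finset.sum_const, Finset.sum_const, Finset.card_univ, nsmul_eq_mul, nsmul_eq_mul]
          ring
  unfold m2
  rw [Real.sqrt_lt' (by norm_num)]
  refine lt_of_le_of_lt hms ?_
  have h4 : (2 * ε) ^ 2 = 1 / (4 * ((Fintype.card ι : ℝ) + 1) ^ 2) := by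
    rw [hε]
    field_simp
    ring
  rw [h4, mul_one_div, div_lt_iff₀ (by positivity)]
  nlinarith

theorem ea_comm {ι : Type} [Fintype ι] [DecidableEq ι] (s : ℝ) (hs0 : 0 ≤ s)
    (u : Fin 4 → Matrix ι ι ℂ) (hu : ∀ i, u i ∈ unitary (Matrix ι ι ℂ)) (X Y : Matrix ι ι ℂ)
    (hXY : m2 (X - Y) ≤ s) :
    ms (X * (∑ i, u i) - (∑ i, u i) * X) ≤ 2 * ms (Y * (∑ i, u i) - (∑ i, u i) * Y) + 128 * s ^ 2 := by
  have hcomm : ∀ i, m2 ((X - Y) * u i - u i * (X - Y)) ≤ 2 * s := by
    intro i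
    have h1 := m2_add ((X - Y) * u i) (-(u i * (X - Y)))
    rw [m2_neg, m2_mul_left (hu i), m2_mul_right (hu i), ← sub_eq_add_neg] at h1
    linarith
  have hsum : m2 ((X - Y) * (∑ i, u i) - (∑ i, u i) * (X - Y)) ≤ 8 * s := by
    have e1 : (X - Y) * (∑ i, u i) - (∑ i, u i) * (X - Y) =
        (((X - Y) * u 0 - u 0 * (X - Y)) + ((X - Y) * u 1 - u 1 * (X - Y))) +
        (((X - Y) * u 2 - u 2 * (X - Y)) + ((X - Y) * u 3 - u 3 * (X - Y))) := by
      rw [Fin.sum_univ_four]
      noncomm_ring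
    rw [e1]
    have a1 := m2_add (((X - Y) * u 0 - u 0 * (X - Y)) + ((X - Y) * u 1 - u 1 * (X - Y)))
      (((X - Y) * u 2 - u 2 * (X - Y)) + ((X - Y) * u 3 - u 3 * (X - Y)))
    have a2 := m2_add ((X - Y) * u 0 - u 0 * (X - Y)) ((X - Y) * u 1 - u 1 * (X - Y))
    have a3 := m2_add ((X - Y) * u 2 - u 2 * (X - Y)) ((X - Y) * u 3 - u 3 * (X - Y))
    have b0 := hcomm 0
    have b1 := hcomm 1
    have b2 := hcomm 2
    have b3 := hcomm 3
    linarith
  obtain ⟨W, hW⟩ : ∃ W : Matrix ι ι ℂ, W = ∑ i, u i := ⟨_, rfl⟩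
  rw [← hW] at hsum ⊢
  have h1 : m2 (X * W - W * X) ≤ m2 (Y * W - W * Y) + 8 * s := by
    have e1 : X * W - W * X = (Y * W - W * Y) + ((X - Y) * W - W * (X - Y)) := by noncomm_ring
    rw [e1]
    have := m2_add (Y * W - W * Y) ((X - Y) * W - W * (X - Y))
    linarith
  rw [← m2_sq, ← m2_sq]
  have h2 := m2_nonneg (X * W - W * X)
  have h3 := m2_nonneg (Y * W - W * Y)
  have h4 : m2 (X * W - W * X) ^ 2 ≤ (m2 (Y * W - W * Y) + 8 * s) ^ 2 :=
    pow_le_pow_left₀ h2 h1 2
  nlinarith [sq_nonneg (m2 (Y * W - W * Y) - 8 * s)]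


/-- JOB: the group of classes. -/
theorem exists_apx {ι : Type} [Fintype ι] [DecidableEq ι] [Nonempty ι] {η : ℝ} (hη : 0 < η)
    (hη1 : η ≤ 1 / 10 ^ 6) {C : Matrix ι ι ℂ} {S : Set (Matrix ι ι ℂ)} (h : Bad η C S) :
    ∃ (G : Type) (_ : Group G) (_ : Fintype G) (_ : DecidableEq G) (f : G → Matrix ι ι ℂ),
      Apx (60 * Real.sqrt η) C f := by
  classical
  obtain ⟨s, hs⟩ : ∃ s, s = Real.sqrt η := ⟨_, rfl⟩
  have hs0 : 0 < s := by rw [hs]; exact Real.sqrt_pos.2 hη
  have hs2 : s ^ 2 = η := by rw [hs]; exact Real.sq_sqrt hη.le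
  have hs1 : s ≤ 1 / 1000 := by
    rw [hs, Real.sqrt_le_iff]
    refine ⟨by norm_num, hη1.trans (by norm_num)⟩
  rw [← hs]
  have hm : ∀ A : Matrix ι ι ℂ, ms A ≤ η → m2 A ≤ s := fun A hA => by
    rw [hs]
    exact Real.sqrt_le_sqrt hA
  have hnear : ∀ x ∈ S, ∀ y ∈ S, m2 (x - y) < 1 / 2 → m2 (x - y) ≤ s := by
    intro x hx y hy hxy
    rcases h.s1 x hx y hy with h1 | h1
    · exact hm _ h1
    · exfalso
      rw [← m2_sq] at h1
      have := m2_nonneg (x - y)
      nlinarith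
  have hzero : m2 (0 : Matrix ι ι ℂ) = 0 := by
    have := m2_smul (0 : ℂ) (0 : Matrix ι ι ℂ)
    rw [zero_smul, norm_zero, zero_mul] at this
    exact this
  let r : Setoid S :=
    { r := fun x y => m2 (x.1 - y.1) ≤ s
      iseqv := by
        refine ⟨?_, ?_, ?_⟩
        · intro x
          rw [sub_self, hzero]
          exact hs0.le
        · intro x y hxy
          rw [m2_sub_comm]
          exact hxy
        · intro x y z hxy hyz
          refine hnear _ x.2 _ z.2 ?_
          have := m2_tri x.1 y.1 z.1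
          linarith }
  let G := Quotient r
  obtain ⟨f, hfdef⟩ : ∃ f : G → Matrix ι ι ℂ, f = fun g => (Quotient.out g).1 := ⟨_, rfl⟩
  have hfS : ∀ g, f g ∈ S := fun g => by
    rw [hfdef]
    exact (Quotient.out g).2
  have hf : ∀ g, f g ∈ unitary (Matrix ι ι ℂ) := fun g => h.hS _ (hfS g)
  have hcl : ∀ x : S, m2 (x.1 - f (Quotient.mk r x)) ≤ s := by
    intro x
    have h1 : r.r (Quotient.out (Quotient.mk r x)) x := Quotient.exact (Quotient.out_eq _)
    rw [hfdef, m2_sub_comm]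
    exact h1
  have uniq : ∀ g h, m2 (f g - f h) < 1 / 2 → g = h := by
    intro g k hgk
    have h1 := hnear _ (hfS g) _ (hfS k) hgk
    rw [hfdef] at h1
    exact Quotient.out_equiv_out.1 h1
  have hprod : ∀ g k : G, ∃ z : S, m2 (f g * f k - z.1) ≤ s := by
    intro g k
    obtain ⟨z, hz, hz2⟩ := h.s2 _ (hfS g) _ (hfS k)
    exact ⟨⟨z, hz⟩, hm _ hz2⟩
  choose p hp using hprod
  have hmul : ∀ g k : G, m2 (f g * f k - f (Quotient.mk r (p g k))) ≤ 2 * s := by
    intro g k
    have h1 := hp g k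
    have h2 := hcl (p g k)
    have h3 := m2_tri (f g * f k) (p g k).1 (f (Quotient.mk r (p g k)))
    linarith
  have four : ∀ g : G, m2 (f g ^ 4 - 1) ≤ s := fun g => hm _ (h.s6 _ (hfS g))
  obtain ⟨e, he⟩ : ∃ e : G, m2 (f e - 1) ≤ 4 * s := by
    obtain ⟨z2, hz2, hz2'⟩ := h.s2 _ h.s5 _ h.s5
    obtain ⟨z3, hz3, hz3'⟩ := h.s2 _ hz2 _ hz2
    have h1 := hm _ hz2'
    have h2 := hm _ hz3'
    have h3 := hcl ⟨z3, hz3⟩
    have e1 : (Complex.I • (1 : Matrix ι ι ℂ)) * (Complex.I • (1 : Matrix ι ι ℂ)) = -1 := by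
      rw [smul_mul_smul_comm, Complex.I_mul_I, one_mul, neg_one_smul]
    rw [e1] at h1
    have h4 : m2 (1 + z2) ≤ s := by
      rw [← m2_neg, neg_add]
      exact h1
    have h5 : m2 (z2 * z2 - 1) ≤ 2 * s := by
      have e2 : z2 * z2 - 1 = z2 * (1 + z2) + (-(1 + z2)) := by noncomm_ring
      rw [e2]
      have := m2_add (z2 * (1 + z2)) (-(1 + z2))
      rw [m2_neg, m2_mul_left (h.hS _ hz2)] at this
      linarith
    refine ⟨Quotient.mk r ⟨z3, hz3⟩, ?_⟩
    have t1 := m2_tri (f (Quotient.mk r ⟨z3, hz3⟩)) z3 1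
    have t2 := m2_tri z3 (z2 * z2) 1
    rw [m2_sub_comm] at h3
    rw [m2_sub_comm] at h2
    linarith
  obtain ⟨grp, hgrp⟩ := ea_group s hs0 hs1 f hf uniq (fun g k => Quotient.mk r (p g k)) hmul e he four
  haveI : Finite G := ea_finite f hf uniq
  refine ⟨G, grp, Fintype.ofFinite G, Classical.decEq G, f, ?_⟩
  refine { hC := h.hC, hf := hf, mul := ?_, sep := ?_, comm := ?_, c1 := ?_, c2 := ?_, im := ?_,
           four := ?_, big := ?_ }
  · intro g k
    have := hgrp g k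
    linarith
  · intro g k hgk
    by_contra hcon
    push Not at hcon
    exact hgk (uniq g k hcon)
  · intro g k
    rcases h.s3 _ (hfS g) _ (hfS k) with h1 | h1
    · left
      have := hm _ h1
      linarith
    · right
      have := hm _ h1
      linarith
  · intro g k
    have := hm _ (h.s4 _ (hfS g) _ (hfS k))
    linarith
  · intro g k
    have := hm _ (h.s4' _ (hfS g) _ (hfS k))
    linarith
  · refine ⟨Quotient.mk r ⟨_, h.s5⟩, ?_⟩
    have := hcl ⟨_, h.s5⟩
    rw [m2_sub_comm] at this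
    linarith
  · intro g
    have := four g
    linarith
  · intro u hu
    obtain ⟨x, hx, hx7⟩ := h.s7 u hu
    refine ⟨Quotient.mk r ⟨x, hx⟩, ?_⟩
    have h0 : m2 (x - f (Quotient.mk r ⟨x, hx⟩)) ≤ s := hcl ⟨x, hx⟩
    obtain ⟨y, hy⟩ : ∃ y, y = f (Quotient.mk r ⟨x, hx⟩) := ⟨_, rfl⟩
    rw [← hy] at h0 ⊢
    have hCs : star C ∈ unitary (Matrix ι ι ℂ) := Unitary.star_mem h.hC
    have hCC : C * C ∈ unitary (Matrix ι ι ℂ) := mul_mem h.hC h.hC
    have hCCs : star (C * C) ∈ unitary (Matrix ι ι ℂ) := Unitary.star_mem hCC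
    have h1 : m2 (C * x * star C - C * y * star C) ≤ s := by
      rw [← sub_mul, ← mul_sub, m2_mul_right hCs, m2_mul_left h.hC]
      exact h0
    have h2 : m2 (C * C * x * star (C * C) - C * C * y * star (C * C)) ≤ s := by
      rw [← sub_mul, ← mul_sub, m2_mul_right hCCs, m2_mul_left hCC]
      exact h0
    have c0 := ea_comm s hs0.le u hu x y h0
    have c1 := ea_comm s hs0.le u hu _ _ h1
    have c2 := ea_comm s hs0.le u hu _ _ h2
    have hfin : 1921 * η ≤ 60 * s := by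
      rw [← hs2]
      nlinarith
    have hnt : nt (∑ i, u i) = Matrix.trace (∑ i, u i) / Fintype.card ι := rfl
    rw [hnt]
    rw [hs2] at c0 c1 c2
    linarith

end Pool.Agent.Helper436.AD
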