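import Mathlib
import Pool.Agent.Helper436.AD.NDef

set_option autoImplicit false
set_option linter.unusedSectionVars false

namespace Pool.Agent.Helper436.AD

theorem ag_l {ι : Type} [Fintype ι] [DecidableEq ι] {U A B : Matrix ι ι ℂ} {ε : ℝ}
    (hU : U ∈ unitary (Matrix ι ι ℂ)) (h : m2 (A - B) ≤ ε) : m2 (U * A - U * B) ≤ ε := by
  rw [← mul_sub, m2_mul_left hU]; exact h

theorem ag_r {ι : Type} [Fintype ι] [DecidableEq ι] {U A B : Matrix ι ι ℂ} {ε : ℝ}
    (hU : U ∈ unitary (Matrix ι ι ℂ)) (h : m2 (A - B) ≤ ε) : m2 (A * U - B * U) ≤ ε := by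
  rw [← sub_mul, m2_mul_right hU]; exact h

theorem ag_t {ι : Type} [Fintype ι] [DecidableEq ι] {A B D : Matrix ι ι ℂ} {a b : ℝ}
    (h1 : m2 (A - B) ≤ a) (h2 : m2 (B - D) ≤ b) : m2 (A - D) ≤ a + b :=
  (m2_tri A B D).trans (add_le_add h1 h2)

theorem ag_s {ι : Type} [Fintype ι] [DecidableEq ι] {A B : Matrix ι ι ℂ} {a : ℝ}
    (h1 : m2 (A - B) ≤ a) : m2 (B - A) ≤ a := by
  rw [m2_sub_comm]; exact h1

theorem ag_n {ι : Type} [Fintype ι] [DecidableEq ι] {A B : Matrix ι ι ℂ} {a : ℝ}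
    (h1 : m2 (A - B) ≤ a) : m2 (-A - -B) ≤ a := by
  have : -A - -B = -(A - B) := by abel
  rw [this, m2_neg]; exact h1

/-- JOB: the structure of the group. -/
theorem apx_group {ι : Type} [Fintype ι] [DecidableEq ι] [Nonempty ι] {G : Type} [Group G]
    [Fintype G] {ε : ℝ} (hε1 : ε ≤ 1 / 100) {C : Matrix ι ι ℂ} {f : G → Matrix ι ι ℂ}
    (h : Apx ε C f) :
    m2 (f 1 - 1) ≤ ε ∧ (∃ z : G, (∀ g, z * g = g * z) ∧ z * z = 1 ∧
      ∀ g h : G, g * h = h * g ∨ g * h = z * (h * g)) ∧ ∃ s : ℕ, Fintype.card G = 2 ^ s := by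
  have hf := h.hf
  have hsep : ∀ {a b : G} {r : ℝ}, m2 (f a - f b) ≤ r → r < 1 / 2 → a = b := by
    intro a b r h1 h2
    by_contra hne
    have := h.sep a b hne
    linarith
  have h1 : m2 (f 1 - 1) ≤ ε := by
    have e := h.mul 1 1
    rw [mul_one] at e
    have e2 : f 1 * f 1 - f 1 = f 1 * (f 1 - 1) := by rw [mul_sub, mul_one]
    rw [e2, m2_mul_left (hf 1)] at e
    exact e
  have hε0 : 0 ≤ ε := (m2_nonneg _).trans h1
  obtain ⟨c, hc⟩ := h.im
  -- `f z` is close to `-1`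
  have hz : m2 (f (c * c) - -1) ≤ ε + (ε + ε) := by
    refine ag_t (ag_s (h.mul c c)) (ag_t (ag_l (hf c) hc) ?_)
    have e1 : f c * (Complex.I • (1 : Matrix ι ι ℂ)) - -1 = Complex.I • (f c - Complex.I • (1 : Matrix ι ι ℂ)) := by
      rw [Matrix.mul_smul, mul_one, smul_sub, smul_smul, Complex.I_mul_I]
      simp
    rw [e1, m2_smul]
    simpa using hc
  have hzl : ∀ g, m2 (f (c * c) * f g - -f g) ≤ ε + (ε + ε) := by
    intro g
    have := ag_r (hf g) hz
    rwa [neg_one_mul] at this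
  have hzr : ∀ g, m2 (f g * f (c * c) - -f g) ≤ ε + (ε + ε) := by
    intro g
    have := ag_l (hf g) hz
    rwa [mul_neg_one] at this
  refine ⟨h1, ⟨c * c, ?_, ?_, ?_⟩, ?_⟩
  · intro g
    refine hsep (ag_t (ag_s (h.mul (c * c) g)) (ag_t (hzl g) (ag_t (ag_s (hzr g)) (h.mul g (c * c))))) ?_
    linarith
  · refine hsep (ag_t (ag_s (h.mul (c * c) (c * c))) (ag_t (hzl (c * c)) (ag_t (ag_n hz) (?_ : m2 (- -1 - f 1) ≤ ε)))) ?_
    · rw [neg_neg]; exact ag_s h1
    · linarith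
  · intro g k
    rcases h.comm g k with e | e
    · left
      refine hsep (ag_t (ag_s (h.mul g k)) (ag_t e (h.mul k g))) ?_
      linarith
    · right
      rw [← sub_neg_eq_add] at e
      refine hsep (ag_t (ag_s (h.mul g k)) (ag_t e (ag_t (ag_n (h.mul k g)) (ag_t (ag_s (hzl (k * g)))
        (h.mul (c * c) (k * g)))))) ?_
      linarith
  · have h4 : ∀ g : G, g ^ 4 = 1 := by
      intro g
      have e1 : m2 (f (g * g * (g * g)) - f 1) ≤ ε + (ε + (ε + (ε + ε))) := by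
        refine ag_t (ag_s (h.mul (g * g) (g * g))) (ag_t (ag_r (hf (g * g)) (ag_s (h.mul g g))) ?_)
        refine ag_t (ag_l (Submonoid.mul_mem _ (hf g) (hf g)) (ag_s (h.mul g g))) (ag_t (?_ : m2 (f g * f g * (f g * f g) - 1) ≤ ε) (ag_s h1))
        have e2 : f g * f g * (f g * f g) = f g ^ 4 := by
          rw [← pow_two, ← pow_two, ← pow_mul]
        rw [e2]
        exact h.four g
      have e3 := hsep e1 (by linarith)
      rw [← e3, ← pow_two, ← pow_two, ← pow_mul]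
    have : Fact (Nat.Prime 2) := ⟨Nat.prime_two⟩
    have hP : IsPGroup 2 G := fun g => ⟨2, by simpa using h4 g⟩
    obtain ⟨s, hs⟩ := IsPGroup.iff_card.1 hP
    exact ⟨s, by rw [← hs, Nat.card_eq_fintype_card]⟩

end Pool.Agent.Helper436.AD
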