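import Mathlib
import Pool.Agent.Helper436.AD.NDef

set_option autoImplicit false
set_option linter.unusedSectionVars false

namespace Pool.Agent.Helper436.AD


section aux28944

variable {ι : Type} [Fintype ι] [DecidableEq ι]

theorem N3_sand {U V : Matrix ι ι ℂ} (hU : U ∈ unitary (Matrix ι ι ℂ))
    (hV : V ∈ unitary (Matrix ι ι ℂ)) (M : Matrix ι ι ℂ) : m2 (U * M * V) = m2 M := by
  rw [m2_mul_right hV, m2_mul_left hU]

theorem N3_sl {U : Matrix ι ι ℂ} (hU : U ∈ unitary (Matrix ι ι ℂ)) : star U * U = 1 :=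
  (Unitary.mem_iff.mp hU).1

theorem N3_sr {U : Matrix ι ι ℂ} (hU : U ∈ unitary (Matrix ι ι ℂ)) : U * star U = 1 :=
  (Unitary.mem_iff.mp hU).2

theorem N3_conj {U V : Matrix ι ι ℂ} (hU : U ∈ unitary (Matrix ι ι ℂ))
    (hV : V ∈ unitary (Matrix ι ι ℂ)) : U * V * star U ∈ unitary (Matrix ι ι ℂ) :=
  mul_mem (mul_mem hU hV) (Unitary.star_mem hU)

theorem N3_six {ε : ℝ} {x A2 A3 y B2 B3 z Z2 Z3 : Matrix ι ι ℂ}
    (hx : x ∈ unitary (Matrix ι ι ℂ)) (hA2 : A2 ∈ unitary (Matrix ι ι ℂ))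
    (hA3 : A3 ∈ unitary (Matrix ι ι ℂ)) (hy : y ∈ unitary (Matrix ι ι ℂ))
    (hB2 : B2 ∈ unitary (Matrix ι ι ℂ)) (hB3 : B3 ∈ unitary (Matrix ι ι ℂ))
    (hz : z ∈ unitary (Matrix ι ι ℂ)) (hZ2 : Z2 ∈ unitary (Matrix ι ι ℂ))
    (e1 : m2 (A3 * y - y * A3) ≤ ε) (e2 : m2 (A2 * y - y * A2) ≤ ε)
    (e3 : m2 (A3 * B2 - B2 * A3) ≤ ε) (e4 : m2 (x * y - z) ≤ ε)
    (e5 : m2 (A2 * B2 - Z2) ≤ ε) (e6 : m2 (A3 * B3 - Z3) ≤ ε) :
    m2 (x * A2 * A3 * (y * B2 * B3) - z * Z2 * Z3) ≤ 6 * ε := by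
  have key : x * A2 * A3 * (y * B2 * B3) - z * Z2 * Z3 =
      (x * A2) * (A3 * y - y * A3) * (B2 * B3) + x * (A2 * y - y * A2) * (A3 * B2 * B3) +
      (x * y * A2) * (A3 * B2 - B2 * A3) * B3 + 1 * (x * y - z) * (A2 * B2 * A3 * B3) +
      z * (A2 * B2 - Z2) * (A3 * B3) + (z * Z2) * (A3 * B3 - Z3) * 1 := by
    noncomm_ring
  rw [key]
  have f1 := N3_sand (mul_mem hx hA2) (mul_mem hB2 hB3) (A3 * y - y * A3)
  have f2 := N3_sand hx (mul_mem (mul_mem hA3 hB2) hB3) (A2 * y - y * A2)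
  have f3 := N3_sand (mul_mem (mul_mem hx hy) hA2) hB3 (A3 * B2 - B2 * A3)
  have f4 := N3_sand (one_mem (unitary (Matrix ι ι ℂ))) (mul_mem (mul_mem (mul_mem hA2 hB2) hA3) hB3)
    (x * y - z)
  have f5 := N3_sand hz (mul_mem hA3 hB3) (A2 * B2 - Z2)
  have f6 := N3_sand (mul_mem hz hZ2) (one_mem (unitary (Matrix ι ι ℂ))) (A3 * B3 - Z3)
  refine (m2_add _ _).trans ?_
  rw [f6]
  refine (add_le_add_left (m2_add _ _) _).trans ?_
  rw [f5]
  refine (add_le_add_left (add_le_add_left (m2_add _ _) _) _).trans ?_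
  rw [f4]
  refine (add_le_add_left (add_le_add_left (add_le_add_left (m2_add _ _) _) _) _).trans ?_
  rw [f3]
  refine (add_le_add_left (add_le_add_left (add_le_add_left (add_le_add_left (m2_add _ _) _) _) _) _).trans ?_
  rw [f2, f1]
  linarith

theorem N3_two {ε : ℝ} {M N : Matrix ι ι ℂ} (h1 : m2 M ≤ ε) (h2 : m2 N ≤ ε) :
    m2 (M + N) ≤ 2 * ε := by
  have := m2_add M N
  linarith

theorem N3_cj {ε : ℝ} {U V W : Matrix ι ι ℂ} (hU : U ∈ unitary (Matrix ι ι ℂ))
    (h : m2 (V - W) ≤ ε) : m2 (U * V * star U - U * W * star U) ≤ ε := by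
  have e : U * V * star U - U * W * star U = U * (V - W) * star U := by noncomm_ring
  rw [e, N3_sand hU (Unitary.star_mem hU)]
  exact h

end aux28944

/- JOB: the three theorems. -/

theorem Fp_unitary {ι : Type} [Fintype ι] [DecidableEq ι] {G : Type} [Group G]
    {ε : ℝ} {C : Matrix ι ι ℂ} {f : G → Matrix ι ι ℂ} (h : Apx ε C f) (γ : G × G × G) :
    Fp C f γ ∈ unitary (Matrix ι ι ℂ) := by
  exact mul_mem (mul_mem (h.hf _) (N3_conj h.hC (h.hf _))) (N3_conj (mul_mem h.hC h.hC) (h.hf _))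

theorem Fp_mul {ι : Type} [Fintype ι] [DecidableEq ι] {G : Type} [Group G]
    {ε : ℝ} {C : Matrix ι ι ℂ} {f : G → Matrix ι ι ℂ} (h : Apx ε C f) (γ δ : G × G × G) :
    m2 (Fp C f γ * Fp C f δ - Fp C f (γ * δ)) ≤ 6 * ε := by
  have hC := h.hC
  have hD := mul_mem h.hC h.hC
  have hs := N3_sl hC
  have hDs := N3_sl hD
  refine N3_six (h.hf _) (N3_conj hC (h.hf _)) (N3_conj hD (h.hf _)) (h.hf _)
    (N3_conj hC (h.hf _)) (N3_conj hD (h.hf _)) (h.hf _) (N3_conj hC (h.hf _)) ?_ ?_ ?_ ?_ ?_ ?_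
  · rw [m2_sub_comm]
    exact h.c2 _ _
  · rw [m2_sub_comm]
    exact h.c1 _ _
  · have e : C * C * f γ.2.2 * star (C * C) * (C * f δ.2.1 * star C) -
        C * f δ.2.1 * star C * (C * C * f γ.2.2 * star (C * C)) =
        C * ((C * f γ.2.2 * star C) * f δ.2.1 - f δ.2.1 * (C * f γ.2.2 * star C)) * star C := by
      have a1 : C * C * f γ.2.2 * star (C * C) * (C * f δ.2.1 * star C) =
          C * ((C * f γ.2.2 * star C) * f δ.2.1) * star C := by
        calc C * C * f γ.2.2 * star (C * C) * (C * f δ.2.1 * star C)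
            = C * (C * f γ.2.2 * star C) * (star C * C) * f δ.2.1 * star C := by
              rw [star_mul]; simp only [Matrix.mul_assoc]
          _ = _ := by rw [hs]; simp only [Matrix.mul_assoc, Matrix.one_mul]
      have a2 : C * f δ.2.1 * star C * (C * C * f γ.2.2 * star (C * C)) =
          C * (f δ.2.1 * (C * f γ.2.2 * star C)) * star C := by
        calc C * f δ.2.1 * star C * (C * C * f γ.2.2 * star (C * C))
            = C * f δ.2.1 * (star C * C) * (C * f γ.2.2 * star C) * star C := by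
              rw [star_mul]; simp only [Matrix.mul_assoc]
          _ = _ := by rw [hs]; simp only [Matrix.mul_assoc, Matrix.one_mul]
      rw [a1, a2]; noncomm_ring
    rw [e, N3_sand hC (Unitary.star_mem hC), m2_sub_comm]
    exact h.c1 _ _
  · exact h.mul _ _
  · have e : C * f γ.2.1 * star C * (C * f δ.2.1 * star C) = C * (f γ.2.1 * f δ.2.1) * star C := by
      calc C * f γ.2.1 * star C * (C * f δ.2.1 * star C)
          = C * f γ.2.1 * (star C * C) * f δ.2.1 * star C := by simp only [Matrix.mul_assoc]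
        _ = _ := by rw [hs]; simp only [Matrix.mul_assoc, Matrix.one_mul]
    rw [e]
    exact N3_cj hC (h.mul _ _)
  · have e : C * C * f γ.2.2 * star (C * C) * (C * C * f δ.2.2 * star (C * C)) =
        C * C * (f γ.2.2 * f δ.2.2) * star (C * C) := by
      calc C * C * f γ.2.2 * star (C * C) * (C * C * f δ.2.2 * star (C * C))
          = C * C * f γ.2.2 * (star (C * C) * (C * C)) * f δ.2.2 * star (C * C) := by
            simp only [Matrix.mul_assoc]
        _ = _ := by rw [hDs]; simp only [Matrix.mul_assoc, Matrix.one_mul]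
    rw [e]
    exact N3_cj hD (h.mul _ _)

theorem Fp_near {ι : Type} [Fintype ι] [DecidableEq ι] {G : Type} [Group G]
    {ε : ℝ} {C : Matrix ι ι ℂ} {f : G → Matrix ι ι ℂ} (h : Apx ε C f)
    (h1 : m2 (f 1 - 1) ≤ ε) (g : G) :
    m2 (Fp C f (g, 1, 1) - f g) ≤ 2 * ε ∧ m2 (Fp C f (1, g, 1) - C * f g * star C) ≤ 2 * ε ∧
      m2 (Fp C f (1, 1, g) - C * C * f g * star (C * C)) ≤ 2 * ε := by
  have hC := h.hC
  have hD := mul_mem h.hC h.hC
  have r1 := N3_sr hC
  have r2 := N3_sr hD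
  have k1 : m2 (C * f 1 * star C - 1) ≤ ε := by
    have := N3_cj hC h1
    rwa [Matrix.mul_one, r1] at this
  have k2 : m2 (C * C * f 1 * star (C * C) - 1) ≤ ε := by
    have := N3_cj hD h1
    rwa [Matrix.mul_one, r2] at this
  have u1 : (1 : Matrix ι ι ℂ) ∈ unitary (Matrix ι ι ℂ) := one_mem _
  refine ⟨?_, ?_, ?_⟩
  · have e : Fp C f (g, 1, 1) - f g =
        f g * (C * f 1 * star C - 1) * (C * C * f 1 * star (C * C)) +
        f g * (C * C * f 1 * star (C * C) - 1) * 1 := by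
      unfold Fp; noncomm_ring
    rw [e]
    refine N3_two ?_ ?_
    · rw [N3_sand (h.hf _) (N3_conj hD (h.hf _))]; exact k1
    · rw [N3_sand (h.hf _) u1]; exact k2
  · have e : Fp C f (1, g, 1) - C * f g * star C =
        1 * (f 1 - 1) * ((C * f g * star C) * (C * C * f 1 * star (C * C))) +
        (C * f g * star C) * (C * C * f 1 * star (C * C) - 1) * 1 := by
      unfold Fp; noncomm_ring
    rw [e]
    refine N3_two ?_ ?_
    · rw [N3_sand u1 (mul_mem (N3_conj hC (h.hf _)) (N3_conj hD (h.hf _)))]; exact h1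
    · rw [N3_sand (N3_conj hC (h.hf _)) u1]; exact k2
  · have e : Fp C f (1, 1, g) - C * C * f g * star (C * C) =
        1 * (f 1 - 1) * ((C * f 1 * star C) * (C * C * f g * star (C * C))) +
        1 * (C * f 1 * star C - 1) * (C * C * f g * star (C * C)) := by
      unfold Fp; noncomm_ring
    rw [e]
    refine N3_two ?_ ?_
    · rw [N3_sand u1 (mul_mem (N3_conj hC (h.hf _)) (N3_conj hD (h.hf _)))]; exact h1
    · rw [N3_sand u1 (N3_conj hD (h.hf _))]; exact k1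

end Pool.Agent.Helper436.AD
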