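import Mathlib
import Pool.Agent.Helper436.AD.NDef

set_option autoImplicit false
set_option linter.unusedSectionVars false

namespace Pool.Agent.Helper436.AD

variable {ι : Type} [Fintype ι] [DecidableEq ι] {Γ : Type} [Group Γ] [Fintype Γ] [DecidableEq Γ]

/- JOB: all theorems. -/

theorem Lg_mul_apply {β : Type} (g : Γ) (A : Matrix (Γ × ι) β ℂ) (a : Γ × ι) (k : β) :
    ((Lg g : Matrix (Γ × ι) (Γ × ι) ℂ) * A) a k = A (g⁻¹ * a.1, a.2) k := by
  rw [Matrix.mul_apply, Finset.sum_eq_single (g⁻¹ * a.1, a.2)]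
  · unfold Lg
    rw [if_pos ⟨(mul_inv_cancel_left _ _).symm, rfl⟩, one_mul]
  · intro b _ hb
    unfold Lg
    rw [if_neg, zero_mul]
    rintro ⟨h1, h2⟩
    apply hb
    rw [h1, h2, inv_mul_cancel_left]
  · intro h
    exact absurd (Finset.mem_univ _) h

theorem Lg_mul (g h : Γ) : (Lg (g * h) : Matrix (Γ × ι) (Γ × ι) ℂ) = Lg g * Lg h := by
  ext a b
  rw [Lg_mul_apply]
  unfold Lg
  have : (a.1 = g * h * b.1 ∧ a.2 = b.2) ↔ ((g⁻¹ * a.1 = h * b.1) ∧ a.2 = b.2) := by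
    rw [inv_mul_eq_iff_eq_mul, mul_assoc]
  by_cases hh : a.1 = g * h * b.1 ∧ a.2 = b.2
  · rw [if_pos hh, if_pos (this.mp hh)]
  · rw [if_neg hh, if_neg (fun h' => hh (this.mpr h'))]

theorem Lg_one : (Lg (1 : Γ) : Matrix (Γ × ι) (Γ × ι) ℂ) = 1 := by
  ext a b
  unfold Lg
  rw [Matrix.one_apply, one_mul]
  by_cases h : a = b
  · rw [if_pos h, if_pos ⟨by rw [h], by rw [h]⟩]
  · rw [if_neg h, if_neg]
    rintro ⟨h1, h2⟩
    exact h (Prod.ext h1 h2)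

theorem Lg_star (g : Γ) : (Lg g : Matrix (Γ × ι) (Γ × ι) ℂ).conjTranspose = Lg g⁻¹ := by
  ext a b
  rw [Matrix.conjTranspose_apply]
  unfold Lg
  have : (b.1 = g * a.1 ∧ b.2 = a.2) ↔ (a.1 = g⁻¹ * b.1 ∧ a.2 = b.2) := by
    rw [eq_inv_mul_iff_mul_eq]
    exact ⟨fun h => ⟨h.1.symm, h.2.symm⟩, fun h => ⟨h.1.symm, h.2.symm⟩⟩
  by_cases hh : b.1 = g * a.1 ∧ b.2 = a.2
  · rw [if_pos hh, if_pos (this.mp hh), star_one]
  · rw [if_neg hh, if_neg (fun h' => hh (this.mpr h')), star_zero]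

theorem Jm_formula (F : Γ → Matrix ι ι ℂ) (g : Γ) :
    (Jm F).conjTranspose * ((Lg g : Matrix (Γ × ι) (Γ × ι) ℂ) * Jm F) =
      ((1 / (Fintype.card Γ : ℝ) : ℝ) : ℂ) • ∑ h, F h * star (F (g⁻¹ * h)) := by
  ext i j
  rw [Matrix.mul_apply, Matrix.smul_apply, Matrix.sum_apply, smul_eq_mul, Finset.mul_sum,
    Fintype.sum_prod_type]
  apply Finset.sum_congr rfl
  intro h _
  rw [Matrix.mul_apply, Finset.mul_sum]
  apply Finset.sum_congr rfl
  intro k _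
  rw [Lg_mul_apply, Matrix.conjTranspose_apply]
  unfold Jm
  rw [Matrix.star_apply]
  have hc : ((1 / Real.sqrt (Fintype.card Γ) : ℝ) : ℂ) * ((1 / Real.sqrt (Fintype.card Γ) : ℝ) : ℂ) =
      ((1 / (Fintype.card Γ : ℝ) : ℝ) : ℂ) := by
    rw [← Complex.ofReal_mul]
    congr 1
    rw [div_mul_div_comm, one_mul, Real.mul_self_sqrt (Nat.cast_nonneg _)]
  rw [← hc, star_mul', star_star]
  have : star ((1 / Real.sqrt (Fintype.card Γ) : ℝ) : ℂ) = ((1 / Real.sqrt (Fintype.card Γ) : ℝ) : ℂ) :=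
    Complex.conj_ofReal _
  rw [this]
  ring

theorem Jm_iso {F : Γ → Matrix ι ι ℂ} (hF : ∀ g, F g ∈ unitary (Matrix ι ι ℂ)) :
    (Jm F).conjTranspose * Jm F = 1 := by
  have h := Jm_formula F 1
  rw [Lg_one, Matrix.one_mul] at h
  rw [h]
  have h2 : ∀ h : Γ, F h * star (F (1⁻¹ * h)) = 1 := by
    intro h
    rw [inv_one, one_mul]
    exact Unitary.mul_star_self_of_mem (hF h)
  simp only [h2]
  rw [Finset.sum_const, Finset.card_univ, ← Nat.cast_smul_eq_nsmul ℂ, smul_smul]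
  have h3 : ((1 / (Fintype.card Γ : ℝ) : ℝ) : ℂ) * (Fintype.card Γ : ℂ) = 1 := by
    have : (Fintype.card Γ : ℂ) ≠ 0 := by
      exact_mod_cast Fintype.card_ne_zero
    push_cast
    field_simp
  rw [h3, one_smul]

/-- the compression of the representation is close to F -/
theorem Jm_comp [Nonempty ι] {F : Γ → Matrix ι ι ℂ} (hF : ∀ g, F g ∈ unitary (Matrix ι ι ℂ))
    {s : ℝ} (hs0 : 0 ≤ s) (hmul : ∀ g h, m2 (F g * F h - F (g * h)) ≤ s) (g : Γ) :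
    m2 ((Jm F).conjTranspose * (Lg g : Matrix (Γ × ι) (Γ × ι) ℂ) * Jm F - F g) ≤ s := by
  have hcard : (0:ℝ) < (Fintype.card Γ : ℝ) := by
    exact_mod_cast Fintype.card_pos
  have e1 : (Jm F).conjTranspose * (Lg g : Matrix (Γ × ι) (Γ × ι) ℂ) * Jm F - F g =
      ((1 / (Fintype.card Γ : ℝ) : ℝ) : ℂ) • ∑ h, (F h * star (F (g⁻¹ * h)) - F g) := by
    rw [Matrix.mul_assoc, Jm_formula, Finset.sum_sub_distrib, Finset.sum_const, Finset.card_univ,
      ← Nat.cast_smul_eq_nsmul ℂ, smul_sub, smul_smul]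
    have h3 : ((1 / (Fintype.card Γ : ℝ) : ℝ) : ℂ) * (Fintype.card Γ : ℂ) = 1 := by
      have : (Fintype.card Γ : ℂ) ≠ 0 := by
        exact_mod_cast Fintype.card_ne_zero
      push_cast
      field_simp
    rw [h3, one_smul]
  have h0 : m2 (0 : Matrix ι ι ℂ) = 0 := by
    have := m2_smul (0 : ℂ) (0 : Matrix ι ι ℂ)
    rw [zero_smul, norm_zero, zero_mul] at this
    exact this
  have key : ∀ h : Γ, m2 (F h * star (F (g⁻¹ * h)) - F g) ≤ s := by
    intro h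
    have h1 := m2_mul_right (hF (g⁻¹ * h)) (F h * star (F (g⁻¹ * h)) - F g)
    rw [Matrix.sub_mul, Matrix.mul_assoc, Unitary.star_mul_self_of_mem (hF _), Matrix.mul_one,
      m2_sub_comm] at h1
    rw [← h1]
    have h2 := hmul g (g⁻¹ * h)
    rwa [mul_inv_cancel_left] at h2
  rw [e1, m2_smul]
  have h4 : m2 (∑ h, (F h * star (F (g⁻¹ * h)) - F g)) ≤ ∑ _h : Γ, s :=
    (Finset.le_sum_of_subadditive m2 h0.le m2_add _ _).trans (Finset.sum_le_sum fun h _ => key h)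
  rw [Finset.sum_const, Finset.card_univ, nsmul_eq_mul] at h4
  have h5 : ‖((1 / (Fintype.card Γ : ℝ) : ℝ) : ℂ)‖ = 1 / (Fintype.card Γ : ℝ) := by
    rw [Complex.norm_real, Real.norm_of_nonneg (by positivity)]
  rw [h5]
  calc 1 / (Fintype.card Γ : ℝ) * m2 (∑ h, (F h * star (F (g⁻¹ * h)) - F g))
      ≤ 1 / (Fintype.card Γ : ℝ) * ((Fintype.card Γ : ℝ) * s) :=
        mul_le_mul_of_nonneg_left h4 (by positivity)
    _ = s := by field_simp

end Pool.Agent.Helper436.AD
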