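import Mathlib
import Pool.Agent.Helper436.AD.N4

set_option autoImplicit false
set_option linter.unusedSectionVars false

namespace Pool.Agent.Helper436.AD

variable {ι : Type} [Fintype ι] [DecidableEq ι] {Γ : Type} [Group Γ] [Fintype Γ] [DecidableEq Γ]

section SpecProj

open scoped ComplexOrder

variable {α : Type} [Fintype α] [DecidableEq α]

/-- functional calculus in a fixed eigenbasis -/
noncomputable def exQT (U : Matrix α α ℂ) (f : α → ℝ) : Matrix α α ℂ :=
  U * Matrix.diagonal (fun i => ((f i : ℝ) : ℂ)) * U.conjTranspose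

theorem exQT_mul {U : Matrix α α ℂ} (hU : U.conjTranspose * U = 1) (f g : α → ℝ) :
    exQT U f * exQT U g = exQT U (fun i => f i * g i) := by
  unfold exQT
  calc U * Matrix.diagonal (fun i => ((f i : ℝ) : ℂ)) * U.conjTranspose
        * (U * Matrix.diagonal (fun i => ((g i : ℝ) : ℂ)) * U.conjTranspose)
      = U * (Matrix.diagonal (fun i => ((f i : ℝ) : ℂ)) * (U.conjTranspose * U)
        * Matrix.diagonal (fun i => ((g i : ℝ) : ℂ))) * U.conjTranspose := by
        simp only [Matrix.mul_assoc]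
    _ = U * Matrix.diagonal (fun i => ((f i * g i : ℝ) : ℂ)) * U.conjTranspose := by
        rw [hU, Matrix.mul_one, Matrix.diagonal_mul_diagonal]
        simp only [Complex.ofReal_mul]

theorem exQT_sub (U : Matrix α α ℂ) (f g : α → ℝ) :
    exQT U f - exQT U g = exQT U (fun i => f i - g i) := by
  unfold exQT
  have h : Matrix.diagonal (fun i => ((f i - g i : ℝ) : ℂ)) =
      Matrix.diagonal (fun i => ((f i : ℝ) : ℂ)) - Matrix.diagonal (fun i => ((g i : ℝ) : ℂ)) := by
    ext i j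
    by_cases hij : i = j
    · subst hij
      simp
    · simp [Matrix.diagonal_apply_ne _ hij]
  rw [h, Matrix.mul_sub, Matrix.sub_mul]

theorem exQT_herm (U : Matrix α α ℂ) (f : α → ℝ) : (exQT U f).conjTranspose = exQT U f := by
  unfold exQT
  have hd : (Matrix.diagonal (fun i => ((f i : ℝ) : ℂ))).conjTranspose
      = Matrix.diagonal (fun i => ((f i : ℝ) : ℂ)) := by
    rw [Matrix.diagonal_conjTranspose]
    congr 1
    funext i
    simp
  rw [Matrix.conjTranspose_mul, Matrix.conjTranspose_mul, Matrix.conjTranspose_conjTranspose, hd,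
    Matrix.mul_assoc]

theorem exQT_trace {U : Matrix α α ℂ} (hU : U.conjTranspose * U = 1) (f : α → ℝ) :
    (Matrix.trace (exQT U f)).re = ∑ i, f i := by
  unfold exQT
  rw [Matrix.trace_mul_comm, ← Matrix.mul_assoc, hU, Matrix.one_mul, Matrix.trace_diagonal]
  simp

theorem exQ_proj {P : Matrix α α ℂ} (hP : P.PosSemidef) (hP1 : (1 - P).PosSemidef) :
    ∃ Q : Matrix α α ℂ, Q * Q = Q ∧ Q.conjTranspose = Q ∧
      (∀ X, P * X = X * P → Q * X = X * Q) ∧
      hs (Q - P) ≤ 2 * (Matrix.trace (P - P * P)).re := by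
  classical
  obtain ⟨U, hU⟩ : ∃ U : Matrix α α ℂ, U = (hP.1.eigenvectorUnitary : Matrix α α ℂ) := ⟨_, rfl⟩
  obtain ⟨D, hD⟩ : ∃ D : α → ℝ, D = hP.1.eigenvalues := ⟨_, rfl⟩
  have hUU : U.conjTranspose * U = 1 := by
    rw [hU]
    exact Unitary.coe_star_mul_self hP.1.eigenvectorUnitary
  have hUU' : U * U.conjTranspose = 1 := by
    rw [hU]
    exact Unitary.coe_mul_star_self hP.1.eigenvectorUnitary
  have hPT : P = exQT U D := by
    have h := hP.1.spectral_theorem
    rw [Unitary.conjStarAlgAut_apply, ← hU, ← hD] at h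
    exact h
  have hdiag : U.conjTranspose * P * U = Matrix.diagonal (fun i => ((D i : ℝ) : ℂ)) := by
    rw [hPT]
    unfold exQT
    calc U.conjTranspose * (U * Matrix.diagonal (fun i => ((D i : ℝ) : ℂ)) * U.conjTranspose) * U
        = (U.conjTranspose * U) * Matrix.diagonal (fun i => ((D i : ℝ) : ℂ))
          * (U.conjTranspose * U) := by simp only [Matrix.mul_assoc]
      _ = _ := by rw [hUU, Matrix.one_mul, Matrix.mul_one]
  have hD0 : ∀ i, 0 ≤ D i := by
    intro i
    have h := hP.eigenvalues_nonneg i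
    rw [← hD] at h
    exact h
  have hD1 : ∀ i, D i ≤ 1 := by
    intro i
    have h := hP1.conjTranspose_mul_mul_same U
    have h2 : U.conjTranspose * (1 - P) * U = Matrix.diagonal (fun i => ((1 - D i : ℝ) : ℂ)) := by
      rw [Matrix.mul_sub, Matrix.sub_mul, hdiag, Matrix.mul_one, hUU]
      ext a b
      by_cases hab : a = b
      · subst hab
        simp
      · simp [Matrix.diagonal_apply_ne _ hab, Matrix.one_apply_ne hab]
    rw [h2] at h
    have h3 := h.diag_nonneg (i := i)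
    rw [Matrix.diagonal_apply_eq] at h3
    have h4 : (0:ℝ) ≤ 1 - D i := by exact_mod_cast h3
    linarith
  obtain ⟨c, hc⟩ : ∃ c : α → ℝ, c = fun i => if (1:ℝ)/2 ≤ D i then 1 else 0 := ⟨_, rfl⟩
  have hcc : ∀ i, c i * c i = c i := by
    intro i
    rw [hc]
    by_cases h : (1:ℝ)/2 ≤ D i
    · simp [h]
    · simp [h]
  refine ⟨exQT U c, ?_, exQT_herm U c, ?_, ?_⟩
  · rw [exQT_mul hUU]
    simp only [hcc]
  · intro X hX
    obtain ⟨Y, hY⟩ : ∃ Y, Y = U.conjTranspose * X * U := ⟨_, rfl⟩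
    have hXY : X = U * Y * U.conjTranspose := by
      rw [hY]
      calc X = (U * U.conjTranspose) * X * (U * U.conjTranspose) := by
              rw [hUU', Matrix.one_mul, Matrix.mul_one]
        _ = _ := by simp only [Matrix.mul_assoc]
    have hcomm : Matrix.diagonal (fun i => ((D i : ℝ) : ℂ)) * Y
        = Y * Matrix.diagonal (fun i => ((D i : ℝ) : ℂ)) := by
      rw [← hdiag, hY]
      calc U.conjTranspose * P * U * (U.conjTranspose * X * U)
          = U.conjTranspose * (P * (U * U.conjTranspose) * X) * U := by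
            simp only [Matrix.mul_assoc]
        _ = U.conjTranspose * (X * (U * U.conjTranspose) * P) * U := by
            rw [hUU', Matrix.mul_one, Matrix.mul_one, hX]
        _ = _ := by simp only [Matrix.mul_assoc]
    have hcomm2 : Matrix.diagonal (fun i => ((c i : ℝ) : ℂ)) * Y
        = Y * Matrix.diagonal (fun i => ((c i : ℝ) : ℂ)) := by
      ext i j
      have h1 := congrFun (congrFun hcomm i) j
      rw [Matrix.diagonal_mul, Matrix.mul_diagonal] at h1
      rw [Matrix.diagonal_mul, Matrix.mul_diagonal]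
      by_cases hij : D i = D j
      · have : c i = c j := by rw [hc]; simp only [hij]
        rw [this]
        ring
      · have h2 : Y i j = 0 := by
          have h3 : (((D i : ℝ) : ℂ) - ((D j : ℝ) : ℂ)) * Y i j = 0 := by
            rw [sub_mul, h1]; ring
          rcases mul_eq_zero.1 h3 with h4 | h4
          · exfalso
            apply hij
            have h5 := sub_eq_zero.1 h4
            exact_mod_cast h5
          · exact h4
        rw [h2]; simp
    rw [hXY]
    unfold exQT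
    calc U * Matrix.diagonal (fun i => ((c i : ℝ) : ℂ)) * U.conjTranspose * (U * Y * U.conjTranspose)
        = U * (Matrix.diagonal (fun i => ((c i : ℝ) : ℂ)) * (U.conjTranspose * U) * Y)
          * U.conjTranspose := by simp only [Matrix.mul_assoc]
      _ = U * (Y * (U.conjTranspose * U) * Matrix.diagonal (fun i => ((c i : ℝ) : ℂ)))
          * U.conjTranspose := by rw [hUU, Matrix.mul_one, Matrix.mul_one, hcomm2]
      _ = _ := by simp only [Matrix.mul_assoc]
  · rw [hs_eq, hPT, exQT_sub, exQT_herm, exQT_mul hUU, exQT_trace hUU, exQT_mul hUU, exQT_sub, exQT_trace hUU,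
      Finset.mul_sum]
    apply Finset.sum_le_sum
    intro i _
    have h0 := hD0 i
    have h1 := hD1 i
    rw [hc]
    by_cases h : (1:ℝ)/2 ≤ D i
    · simp only [h, if_true]
      nlinarith
    · simp only [h, if_false]
      push Not at h
      nlinarith

theorem exQ_avg {Γ' : Type} [Fintype Γ'] (L Li : Γ' → Matrix α α ℂ)
    (hLs : ∀ g, (L g).conjTranspose = Li g) (hLi : ∀ g, L g * Li g = 1) {p P : Matrix α α ℂ}
    (hpH : p.conjTranspose = p) (hpp : p * p = p) {N : ℝ} (hNpos : 0 < N)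
    (hcard : ((Fintype.card Γ' : ℕ) : ℂ) = (N : ℂ))
    (hPd : P = ((N : ℂ)⁻¹) • ∑ g : Γ', L g * p * Li g) :
    P.conjTranspose = P ∧ ∃ Q : Matrix α α ℂ, Q * Q = Q ∧ Q.conjTranspose = Q ∧
      (∀ X, P * X = X * P → Q * X = X * Q) ∧
      hs (Q - P) ≤ 2 * (Matrix.trace (P - P * P)).re := by
  have hNc : (N : ℂ) ≠ 0 := by exact_mod_cast hNpos.ne'
  have hNinv : (0 : ℂ) ≤ (N : ℂ)⁻¹ := by
    have : (0:ℝ) ≤ N⁻¹ := by positivity
    exact_mod_cast this
  have hppsd : p.PosSemidef := by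
    have h := Matrix.posSemidef_conjTranspose_mul_self p
    rwa [hpH, hpp] at h
  have hppsd1 : (1 - p).PosSemidef := by
    have h := Matrix.posSemidef_conjTranspose_mul_self (1 - p)
    have e : (1 - p).conjTranspose * (1 - p) = 1 - p := by
      rw [Matrix.conjTranspose_sub, Matrix.conjTranspose_one, hpH, Matrix.mul_sub, Matrix.sub_mul,
        Matrix.sub_mul, hpp, Matrix.mul_one, Matrix.mul_one, Matrix.one_mul, sub_self, sub_zero]
    rwa [e] at h
  have hPpsd : P.PosSemidef := by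
    rw [hPd]
    refine Matrix.PosSemidef.smul ?_ hNinv
    refine Matrix.posSemidef_sum _ ?_
    intro g _
    have h := hppsd.mul_mul_conjTranspose_same (L g)
    rwa [hLs] at h
  have hPpsd1 : (1 - P).PosSemidef := by
    have e : 1 - P = ((N : ℂ)⁻¹) • ∑ g : Γ', L g * (1 - p) * Li g := by
      have e1 : ∀ g : Γ', L g * (1 - p) * Li g = 1 - L g * p * Li g := by
        intro g
        rw [Matrix.mul_sub, Matrix.sub_mul, Matrix.mul_one, hLi]
      rw [Finset.sum_congr rfl (fun g _ => e1 g), Finset.sum_sub_distrib, smul_sub, ← hPd]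
      congr 1
      rw [Finset.sum_const, Finset.card_univ, ← Nat.cast_smul_eq_nsmul ℂ, smul_smul, hcard,
        inv_mul_cancel₀ hNc, one_smul]
    rw [e]
    refine Matrix.PosSemidef.smul ?_ hNinv
    refine Matrix.posSemidef_sum _ ?_
    intro g _
    have h := hppsd1.mul_mul_conjTranspose_same (L g)
    rwa [hLs] at h
  exact ⟨hPpsd.1, exQ_proj hPpsd hPpsd1⟩

end SpecProj

/-- JOB: the invariant projection close to the range of the isometry. -/
theorem exists_Q [Nonempty ι] {F : Γ → Matrix ι ι ℂ} (hF : ∀ g, F g ∈ unitary (Matrix ι ι ℂ))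
    {s : ℝ} (hs0 : 0 ≤ s) (hs1 : s ≤ 1) (hmul : ∀ g h, m2 (F g * F h - F (g * h)) ≤ s) :
    ∃ Q : Matrix (Γ × ι) (Γ × ι) ℂ, Inv Q ∧
      hs (Q - Jm F * (Jm F).conjTranspose) ≤ 12 * s * Fintype.card ι := by
  obtain ⟨J, hJ⟩ : ∃ J : Matrix (Γ × ι) ι ℂ, J = Jm F := ⟨_, rfl⟩
  have hJJ : J.conjTranspose * J = 1 := by rw [hJ]; exact Jm_iso hF
  have hcomp : ∀ g : Γ, m2 (J.conjTranspose * (Lg g : Matrix (Γ × ι) (Γ × ι) ℂ) * J - F g) ≤ s := by
    intro g; rw [hJ]; exact Jm_comp hF hs0 hmul g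
  rw [← hJ]
  obtain ⟨n, hn⟩ : ∃ n : ℝ, n = Fintype.card ι := ⟨_, rfl⟩
  obtain ⟨N, hN⟩ : ∃ N : ℝ, N = Fintype.card Γ := ⟨_, rfl⟩
  have hnpos : 0 < n := by rw [hn]; exact_mod_cast Fintype.card_pos
  have hNpos : 0 < N := by rw [hN]; exact_mod_cast Fintype.card_pos
  rw [← hn]
  obtain ⟨L, hL⟩ : ∃ L : Γ → Matrix (Γ × ι) (Γ × ι) ℂ, L = fun g => Lg g := ⟨_, rfl⟩
  have hLm : ∀ g h, L (g * h) = L g * L h := by intro g h; rw [hL]; exact Lg_mul g h
  have hL1 : L 1 = 1 := by rw [hL]; exact Lg_one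
  have hLs : ∀ g, (L g).conjTranspose = L g⁻¹ := by intro g; rw [hL]; exact Lg_star g
  have hLi : ∀ g, L g * L g⁻¹ = 1 := by intro g; rw [← hLm, mul_inv_cancel, hL1]
  have hLi' : ∀ g, L g⁻¹ * L g = 1 := by intro g; rw [← hLm, inv_mul_cancel, hL1]
  obtain ⟨p, hp⟩ : ∃ p, p = J * J.conjTranspose := ⟨_, rfl⟩
  have hpH : p.conjTranspose = p := by
    rw [hp, Matrix.conjTranspose_mul, Matrix.conjTranspose_conjTranspose]
  have hpp : p * p = p := by
    rw [hp]
    calc J * J.conjTranspose * (J * J.conjTranspose)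
        = J * (J.conjTranspose * J) * J.conjTranspose := by simp only [Matrix.mul_assoc]
      _ = _ := by rw [hJJ, Matrix.mul_one]
  have htrp : Matrix.trace p = (n : ℂ) := by
    rw [hp, Matrix.trace_mul_comm, hJJ, Matrix.trace_one, hn]
    simp
  rw [← hp]
  obtain ⟨P, hPd⟩ : ∃ P : Matrix (Γ × ι) (Γ × ι) ℂ,
      P = ((N : ℂ)⁻¹) • ∑ g : Γ, L g * p * L g⁻¹ := ⟨_, rfl⟩
  have hNc : (N : ℂ) ≠ 0 := by exact_mod_cast hNpos.ne'
  have hcard : ((Fintype.card Γ : ℕ) : ℂ) = (N : ℂ) := by rw [hN]; simp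
  have hPc : ∀ h, L h * P = P * L h := by
    intro h
    rw [hPd, Matrix.mul_smul, Matrix.smul_mul, Finset.mul_sum, Finset.sum_mul]
    congr 1
    refine Fintype.sum_equiv (Equiv.mulLeft h) _ _ ?_
    intro g
    simp only [Equiv.coe_mulLeft, mul_inv_rev, hLm]
    calc L h * (L g * p * L g⁻¹) = L h * L g * p * L g⁻¹ * 1 := by
          rw [Matrix.mul_one]; simp only [Matrix.mul_assoc]
      _ = L h * L g * p * L g⁻¹ * (L h⁻¹ * L h) := by rw [hLi']
      _ = _ := by simp only [Matrix.mul_assoc]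
  have htrP : Matrix.trace P = (n : ℂ) := by
    have h1 : ∀ g : Γ, Matrix.trace (L g * p * L g⁻¹) = (n : ℂ) := by
      intro g
      rw [Matrix.trace_mul_comm, ← Matrix.mul_assoc, hLi', Matrix.one_mul, htrp]
    rw [hPd, Matrix.trace_smul, Matrix.trace_sum, Finset.sum_congr rfl (fun g _ => h1 g),
      Finset.sum_const, Finset.card_univ, nsmul_eq_mul, hcard, smul_eq_mul, ← mul_assoc,
      inv_mul_cancel₀ hNc, one_mul]
  have htrPP : Matrix.trace (P * P) = Matrix.trace (P * p) := by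
    have h1 : ∀ g : Γ, Matrix.trace (P * (L g * p * L g⁻¹)) = Matrix.trace (P * p) := by
      intro g
      calc Matrix.trace (P * (L g * p * L g⁻¹)) = Matrix.trace ((P * L g * p) * L g⁻¹) := by
            simp only [Matrix.mul_assoc]
        _ = Matrix.trace (L g⁻¹ * (P * L g * p)) := Matrix.trace_mul_comm _ _
        _ = Matrix.trace (L g⁻¹ * (L g * P * p)) := by rw [hPc]
        _ = Matrix.trace ((L g⁻¹ * L g) * P * p) := by simp only [Matrix.mul_assoc]
        _ = _ := by rw [hLi', Matrix.one_mul]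
    conv_lhs => rw [hPd]
    rw [← hPd]
    have h2 : P * P = (N : ℂ)⁻¹ • ∑ g : Γ, P * (L g * p * L g⁻¹) := by
      conv_lhs => rw [show P * P = P * (((N : ℂ)⁻¹) • ∑ g : Γ, L g * p * L g⁻¹) by rw [← hPd]]
      rw [Matrix.mul_smul, Finset.mul_sum]
    rw [h2, Matrix.trace_smul, Matrix.trace_sum, Finset.sum_congr rfl (fun g _ => h1 g),
      Finset.sum_const, Finset.card_univ, nsmul_eq_mul, hcard, smul_eq_mul, ← mul_assoc,
      inv_mul_cancel₀ hNc, one_mul]
  -- the lower bound
  have hVg : ∀ g : Γ, n * (1 - 2 * s) ≤ (Matrix.trace (L g * p * L g⁻¹ * p)).re := by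
    intro g
    obtain ⟨V, hV⟩ : ∃ V, V = J.conjTranspose * L g * J := ⟨_, rfl⟩
    have hVH : V.conjTranspose = J.conjTranspose * L g⁻¹ * J := by
      rw [hV, Matrix.conjTranspose_mul, Matrix.conjTranspose_mul,
        Matrix.conjTranspose_conjTranspose, hLs, Matrix.mul_assoc]
    have e1 : Matrix.trace (L g * p * L g⁻¹ * p) = Matrix.trace (V.conjTranspose * V) := by
      rw [hVH, hp, hV]
      calc Matrix.trace (L g * (J * J.conjTranspose) * L g⁻¹ * (J * J.conjTranspose))
          = Matrix.trace ((L g * J) * (J.conjTranspose * L g⁻¹ * J * J.conjTranspose)) := by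
            simp only [Matrix.mul_assoc]
        _ = Matrix.trace ((J.conjTranspose * L g⁻¹ * J * J.conjTranspose) * (L g * J)) :=
            Matrix.trace_mul_comm _ _
        _ = _ := by simp only [Matrix.mul_assoc]
    rw [e1, ← hs_eq]
    have h1 : m2 (V - F g) ≤ s := by
      have := hcomp g
      rw [hV, hL]; exact this
    have h2 : m2 (F g) ≤ m2 V + m2 (F g - V) := by
      have := m2_add V (F g - V)
      rwa [add_sub_cancel] at this
    rw [m2_unitary (hF g), m2_sub_comm] at h2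
    have h3 : 1 - s ≤ m2 V := by linarith
    have h4 : ms V = hs V / n := by rw [hn]; exact ms_eq V
    have h5 : (1 - s) ^ 2 ≤ m2 V ^ 2 := pow_le_pow_left₀ (by linarith) h3 2
    rw [m2_sq, h4, le_div_iff₀ hnpos] at h5
    nlinarith [mul_nonneg (sq_nonneg s) hnpos.le]
  have hPp : n * (1 - 2 * s) ≤ (Matrix.trace (P * p)).re := by
    have h1 : P * p = (N : ℂ)⁻¹ • ∑ g : Γ, L g * p * L g⁻¹ * p := by
      rw [hPd, Matrix.smul_mul, Finset.sum_mul]
    rw [h1, Matrix.trace_smul, Matrix.trace_sum, smul_eq_mul, ← Complex.ofReal_inv,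
      Complex.re_ofReal_mul, Complex.re_sum]
    have h2 : ∑ g : Γ, n * (1 - 2 * s) ≤ ∑ g : Γ, (Matrix.trace (L g * p * L g⁻¹ * p)).re :=
      Finset.sum_le_sum (fun g _ => hVg g)
    rw [Finset.sum_const, Finset.card_univ, nsmul_eq_mul, ← hN] at h2
    calc n * (1 - 2 * s) = N⁻¹ * (N * (n * (1 - 2 * s))) := by field_simp
      _ ≤ _ := mul_le_mul_of_nonneg_left h2 (by positivity)
  obtain ⟨hPH, Q, hQQ, hQH, hQc, hQP⟩ := exQ_avg L (fun g => L g⁻¹) hLs hLi hpH hpp hNpos hcard hPd
  refine ⟨Q, ⟨hQQ, hQH, ?_⟩, ?_⟩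
  · intro g
    have := hQc (L g) (hPc g).symm
    rw [hL] at this
    exact this
  · have h1 : hs (Q - P) ≤ 4 * s * n := by
      rw [Matrix.trace_sub, Complex.sub_re, htrP, htrPP, Complex.ofReal_re] at hQP
      nlinarith
    have h2 : hs (P - p) ≤ 2 * s * n := by
      rw [hs_eq, Matrix.conjTranspose_sub, hPH, hpH, Matrix.sub_mul, Matrix.mul_sub,
        Matrix.mul_sub, Matrix.trace_sub, Matrix.trace_sub, Matrix.trace_sub, hpp, htrPP,
        Matrix.trace_mul_comm p P, htrp]
      simp only [Complex.sub_re, Complex.ofReal_re]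
      nlinarith
    have h3 : Real.sqrt (hs (Q - p)) ≤ Real.sqrt (hs (Q - P)) + Real.sqrt (hs (P - p)) := by
      have := sqrt_hs_add (Q - P) (P - p)
      rwa [sub_add_sub_cancel] at this
    have n1 : ∀ A : Matrix (Γ × ι) (Γ × ι) ℂ, 0 ≤ hs A := by
      intro A
      unfold hs
      exact Finset.sum_nonneg fun i _ => Finset.sum_nonneg fun j _ => by positivity
    have s1 := Real.sq_sqrt (n1 (Q - p))
    have s2 := Real.sq_sqrt (n1 (Q - P))
    have s3 := Real.sq_sqrt (n1 (P - p))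
    have p1 := Real.sqrt_nonneg (hs (Q - p))
    have p2 := Real.sqrt_nonneg (hs (Q - P))
    have p3 := Real.sqrt_nonneg (hs (P - p))
    have h4 : Real.sqrt (hs (Q - p)) ^ 2 ≤ (Real.sqrt (hs (Q - P)) + Real.sqrt (hs (P - p))) ^ 2 :=
      pow_le_pow_left₀ p1 h3 2
    nlinarith [sq_nonneg (Real.sqrt (hs (Q - P)) - 2 * Real.sqrt (hs (P - p)))]

end Pool.Agent.Helper436.AD
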