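import Mathlib
import Pool.Agent.Helper436.AD.N4

set_option autoImplicit false
set_option linter.unusedSectionVars false

open scoped ComplexOrder

namespace Pool.Agent.Helper436.AD

variable {ι : Type} [Fintype ι] [DecidableEq ι] {Γ : Type} [Group Γ] [Fintype Γ] [DecidableEq Γ]

/-- multiplication by `T` from the left does not increase `hs` -/
def Ctr833 {α β : Type} [Fintype α] [Fintype β] (T : Matrix α β ℂ) : Prop :=
  ∀ (δ : Type) [Fintype δ] (A : Matrix β δ ℂ), hs (T * A) ≤ hs A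

theorem Ctr833.right {α β : Type} [Fintype α] [Fintype β] {T : Matrix α β ℂ}
    (h : Ctr833 T.conjTranspose) {δ : Type} [Fintype δ] (A : Matrix δ α ℂ) :
    hs (A * T) ≤ hs A := by
  rw [← hs_conj (A * T), Matrix.conjTranspose_mul, ← hs_conj A]
  exact h δ _

theorem proj833 {α : Type} [Fintype α] [DecidableEq α] {E : Matrix α α ℂ} (h1 : E * E = E)
    (h2 : E.conjTranspose = E) : (1 - E) * (1 - E) = 1 - E ∧ (1 - E).conjTranspose = 1 - E ∧
      Ctr833 E := by
  have h3 : (1 - E) * (1 - E) = 1 - E := by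
    rw [sub_mul, mul_sub, one_mul, one_mul, mul_sub, mul_one, h1, sub_self, sub_zero]
  have h4 : (1 - E).conjTranspose = 1 - E := by
    rw [Matrix.conjTranspose_sub, Matrix.conjTranspose_one, h2]
  refine ⟨h3, h4, ?_⟩
  intro δ _ A
  apply hs_mul_le E (1 - E)
  rw [h4, h3, h2, h1, add_sub_cancel]

theorem m2_le833 [Nonempty ι] {A : Matrix ι ι ℂ} {c : ℝ} (h : hs A ≤ c * Fintype.card ι) :
    m2 A ≤ Real.sqrt c := by
  unfold m2
  rw [ms_eq]
  apply Real.sqrt_le_sqrt
  rw [div_le_iff₀ (by exact_mod_cast Fintype.card_pos)]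
  exact h

theorem m2_mono833 {A B : Matrix ι ι ℂ} (h : hs A ≤ hs B) : m2 A ≤ m2 B := by
  unfold m2
  rw [ms_eq, ms_eq]
  apply Real.sqrt_le_sqrt
  exact div_le_div_of_nonneg_right h (Nat.cast_nonneg _)

/-- JOB: the compression of an invariant projection. -/
theorem compress [Nonempty ι] {F : Γ → Matrix ι ι ℂ} (hF : ∀ g, F g ∈ unitary (Matrix ι ι ℂ))
    {s c : ℝ} (hs0 : 0 ≤ s) (hc0 : 0 ≤ c) (hc1 : c ≤ 1 / 100)
    (hmul : ∀ g h, m2 (F g * F h - F (g * h)) ≤ s) {Q E : Matrix (Γ × ι) (Γ × ι) ℂ}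
    (hQ : Inv Q) (hQc : hs (Q - Jm F * (Jm F).conjTranspose) ≤ c * Fintype.card ι)
    (hE : Inv E) (hEQ : E * Q = E) :
    let a := (Jm F).conjTranspose * E * Jm F
    a.conjTranspose = a ∧ (1 - a * a).PosSemidef ∧ m2 (a * a - a) ≤ Real.sqrt c ∧
      (∀ g, m2 (a * F g - F g * a) ≤ 2 * Real.sqrt c + 2 * s) ∧
      |(Matrix.trace E).re / Fintype.card ι - (nt a).re| ≤ 2 * Real.sqrt c ∧
      |(Matrix.trace Q).re / Fintype.card ι - 1| ≤ 3 * Real.sqrt c := by
  intro a
  obtain ⟨J, hJ⟩ : ∃ J : Matrix (Γ × ι) ι ℂ, J = Jm F := ⟨_, rfl⟩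
  obtain ⟨n, hn⟩ : ∃ n : ℝ, n = (Fintype.card ι : ℝ) := ⟨_, rfl⟩
  have hn0 : 0 < n := by rw [hn]; exact_mod_cast Fintype.card_pos
  have ha : a = J.conjTranspose * (E * J) := by
    rw [hJ, ← Matrix.mul_assoc]
  have hJJ : J.conjTranspose * J = 1 := by rw [hJ]; exact Jm_iso hF
  obtain ⟨P, hP⟩ : ∃ P : Matrix (Γ × ι) (Γ × ι) ℂ, P = J * J.conjTranspose := ⟨_, rfl⟩
  have hPP : P * P = P := by
    rw [hP, Matrix.mul_assoc, ← Matrix.mul_assoc J.conjTranspose, hJJ, Matrix.one_mul]
  have hPH : P.conjTranspose = P := by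
    rw [hP, Matrix.conjTranspose_mul, Matrix.conjTranspose_conjTranspose]
  obtain ⟨P1, P2, cP⟩ := proj833 hPP hPH
  obtain ⟨E1, E2, cE⟩ := proj833 hE.idem hE.herm
  have cJ : Ctr833 J := by
    intro δ _ A
    apply hs_mul_le J (0 : Matrix ι ι ℂ)
    rw [hJJ, Matrix.mul_zero, add_zero]
  have cJ' : Ctr833 J.conjTranspose := by
    intro δ _ A
    apply hs_mul_le J.conjTranspose (1 - P)
    rw [Matrix.conjTranspose_conjTranspose, ← hP, P2, P1, add_sub_cancel]
  have hL : ∀ g : Γ, (Lg g : Matrix (Γ × ι) (Γ × ι) ℂ).conjTranspose * Lg g = 1 := by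
    intro g
    rw [Lg_star, ← Lg_mul, inv_mul_cancel, Lg_one]
  have cL : ∀ g : Γ, Ctr833 (Lg g : Matrix (Γ × ι) (Γ × ι) ℂ) := by
    intro g δ _ A
    apply hs_mul_le (Lg g) (0 : Matrix (Γ × ι) (Γ × ι) ℂ)
    rw [hL, Matrix.mul_zero, add_zero]
  have cL' : ∀ g : Γ, Ctr833 (Lg g : Matrix (Γ × ι) (Γ × ι) ℂ).conjTranspose := by
    intro g
    rw [Lg_star]
    exact cL g⁻¹
  have cE' : Ctr833 E.conjTranspose := by rw [hE.herm]; exact cE
  have hQE : Q * E = E := by
    have h1 := congrArg Matrix.conjTranspose hEQ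
    rwa [Matrix.conjTranspose_mul, hE.herm, hQ.herm] at h1
  obtain ⟨D, hD⟩ : ∃ D : Matrix (Γ × ι) (Γ × ι) ℂ, D = P - Q := ⟨_, rfl⟩
  have hQc' : hs (Q - P) ≤ c * n := by rw [hP, hJ, hn]; exact hQc
  have hDc : hs D ≤ c * n := by
    have h1 : hs D = hs (Q - P) := by
      have h2 : D = -(Q - P) := by rw [hD, neg_sub]
      rw [h2]
      unfold hs
      simp only [Matrix.neg_apply, norm_neg]
    rw [h1]; exact hQc'
  have hstar : a.conjTranspose = a := by
    rw [ha, Matrix.conjTranspose_mul, Matrix.conjTranspose_mul,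
      Matrix.conjTranspose_conjTranspose, hE.herm, Matrix.mul_assoc]
  have haa : a * a = J.conjTranspose * (E * (P * (E * J))) := by
    rw [ha, hP]
    simp only [Matrix.mul_assoc]
  have hEQE : E * (Q * (E * J)) = E * J := by
    rw [← Matrix.mul_assoc Q, hQE, ← Matrix.mul_assoc, hE.idem]
  have cA : ∀ X : Matrix ι ι ℂ, hs (a * X) ≤ hs X := by
    intro X
    rw [ha, Matrix.mul_assoc, Matrix.mul_assoc]
    exact ((cJ' _ _).trans (cE _ _)).trans (cJ _ _)
  have cA' : ∀ X : Matrix ι ι ℂ, hs (X * a) ≤ hs X := by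
    intro X
    rw [← hs_conj (X * a), Matrix.conjTranspose_mul, hstar, ← hs_conj X]
    exact cA _
  refine ⟨hstar, ?_, ?_, ?_, ?_, ?_⟩
  · have h1 : 1 - a * a = ((1 - E) * J).conjTranspose * ((1 - E) * J)
        + ((1 - P) * (E * J)).conjTranspose * ((1 - P) * (E * J)) := by
      rw [Matrix.conjTranspose_mul, Matrix.conjTranspose_mul, Matrix.conjTranspose_mul, E2, P2,
        hE.herm]
      have e1 : J.conjTranspose * (1 - E) * ((1 - E) * J) = 1 - a := by
        rw [Matrix.mul_assoc, ← Matrix.mul_assoc (1 - E), E1, Matrix.sub_mul, Matrix.one_mul,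
          Matrix.mul_sub, hJJ, ha]
      have e2 : J.conjTranspose * E * (1 - P) * ((1 - P) * (E * J)) = a - a * a := by
        have e3 : J.conjTranspose * E * (1 - P) * ((1 - P) * (E * J))
            = J.conjTranspose * (E * (((1 - P) * (1 - P)) * (E * J))) := by
          simp only [Matrix.mul_assoc]
        rw [e3, P1, Matrix.sub_mul, Matrix.one_mul, Matrix.mul_sub, Matrix.mul_sub, haa,
          ← Matrix.mul_assoc E E, hE.idem, ha]
      rw [e1, e2, sub_add_sub_cancel]
    rw [h1]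
    exact (Matrix.posSemidef_conjTranspose_mul_self _).add
      (Matrix.posSemidef_conjTranspose_mul_self _)
  · apply m2_le833
    have h1 : a * a - a = J.conjTranspose * (E * (D * (E * J))) := by
      rw [hD, Matrix.sub_mul, Matrix.mul_sub, hEQE, Matrix.mul_sub, ← haa, ← ha]
    rw [h1, ← hn]
    refine (cJ' _ _).trans ((cE _ _).trans ?_)
    rw [← Matrix.mul_assoc]
    exact (cJ'.right _).trans ((cE'.right _).trans hDc)
  · intro g
    obtain ⟨V, hV⟩ : ∃ V : Matrix ι ι ℂ, V =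
      J.conjTranspose * (Lg g : Matrix (Γ × ι) (Γ × ι) ℂ) * J := ⟨_, rfl⟩
    have hVF : m2 (V - F g) ≤ s := by rw [hV, hJ]; exact Jm_comp hF hs0 hmul g
    obtain ⟨L, hLd⟩ : ∃ L : Matrix (Γ × ι) (Γ × ι) ℂ, L = Lg g := ⟨_, rfl⟩
    have hEL : E * L = L * E := by rw [hLd]; exact hE.comm g
    have cLL : Ctr833 L := by rw [hLd]; exact cL g
    have cLL' : Ctr833 L.conjTranspose := by rw [hLd]; exact cL' g
    rw [← hLd] at hV
    have h1 : a * V - V * a = J.conjTranspose * (E * (D * (L * J)))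
        - J.conjTranspose * (L * (D * (E * J))) := by
      have e1 : a * V = J.conjTranspose * (E * (P * (L * J))) := by
        rw [ha, hV, hP]
        simp only [Matrix.mul_assoc]
      have e2 : V * a = J.conjTranspose * (L * (P * (E * J))) := by
        rw [ha, hV, hP]
        simp only [Matrix.mul_assoc]
      have e3 : E * (Q * (L * J)) = L * (Q * (E * J)) := by
        rw [← Matrix.mul_assoc E Q, hEQ, ← Matrix.mul_assoc Q E, hQE, ← Matrix.mul_assoc,
          hEL, Matrix.mul_assoc]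
      rw [e1, e2, hD]
      simp only [Matrix.sub_mul, Matrix.mul_sub]
      rw [e3]
      abel
    have h2 : m2 (J.conjTranspose * (E * (D * (L * J)))) ≤ Real.sqrt c := by
      apply m2_le833
      rw [← hn]
      refine (cJ' _ _).trans ((cE _ _).trans ?_)
      rw [← Matrix.mul_assoc]
      exact (cJ'.right _).trans ((cLL'.right _).trans hDc)
    have h3 : m2 (J.conjTranspose * (L * (D * (E * J)))) ≤ Real.sqrt c := by
      apply m2_le833
      rw [← hn]
      refine (cJ' _ _).trans ((cLL _ _).trans ?_)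
      rw [← Matrix.mul_assoc]
      exact (cJ'.right _).trans ((cE'.right _).trans hDc)
    have h4 : m2 (a * V - V * a) ≤ 2 * Real.sqrt c := by
      rw [h1, sub_eq_add_neg]
      refine (m2_add _ _).trans ?_
      rw [m2_neg]
      linarith
    have h5 : a * F g - F g * a = (a * V - V * a) + ((-(a * (V - F g))) + (V - F g) * a) := by
      rw [Matrix.mul_sub, Matrix.sub_mul]
      abel
    rw [h5]
    have h6 := m2_add (a * V - V * a) ((-(a * (V - F g))) + (V - F g) * a)
    have h7 := m2_add (-(a * (V - F g))) ((V - F g) * a)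
    rw [m2_neg] at h7
    have h8 := m2_mono833 (cA (V - F g))
    have h9 := m2_mono833 (cA' (V - F g))
    linarith
  all_goals
    have hPn : hs P = n := by
      rw [hs_eq, hPH, hPP, hP, Matrix.trace_mul_comm, hJJ, Matrix.trace_one, hn]
      simp
    have hsQ : hs Q = (Matrix.trace Q).re := by rw [hs_eq, hQ.herm, hQ.idem]
    have hq1 : Real.sqrt (hs Q) ≤ Real.sqrt n + Real.sqrt n * Real.sqrt c := by
      have h1 := sqrt_hs_add P (Q - P)
      rw [add_sub_cancel, hPn] at h1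
      have h2 : Real.sqrt (hs (Q - P)) ≤ Real.sqrt n * Real.sqrt c := by
        rw [← Real.sqrt_mul hn0.le, mul_comm n c]
        exact Real.sqrt_le_sqrt hQc'
      linarith
    have hq2 : Real.sqrt n ≤ Real.sqrt (hs Q) + Real.sqrt n * Real.sqrt c := by
      have h1 := sqrt_hs_add Q D
      rw [hD, add_sub_cancel, hPn] at h1
      rw [← hD] at h1
      have h2 : Real.sqrt (hs D) ≤ Real.sqrt n * Real.sqrt c := by
        rw [← Real.sqrt_mul hn0.le, mul_comm n c]
        exact Real.sqrt_le_sqrt hDc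
      linarith
    have hc2 : Real.sqrt c ≤ 1 / 10 := by
      rw [Real.sqrt_le_left (by norm_num)]
      linarith
    have hsn : Real.sqrt n * Real.sqrt n = n := Real.mul_self_sqrt hn0.le
    have hsn0 : 0 < Real.sqrt n := Real.sqrt_pos.2 hn0
    have hsc0 : 0 ≤ Real.sqrt c := Real.sqrt_nonneg c
  · have hsE : hs E ≤ hs Q := by
      have h1 := cE _ Q
      rwa [hEQ] at h1
    have h1 : (Matrix.trace E).re / (Fintype.card ι : ℝ) - (nt a).re
        = (Matrix.trace (E * (Q - P))).re / n := by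
      have e1 : Matrix.trace a = Matrix.trace (E * P) := by
        rw [ha, Matrix.trace_mul_comm, Matrix.mul_assoc, ← hP]
      have e2 : nt a = Matrix.trace (E * P) / ((n : ℝ) : ℂ) := by
        unfold nt
        rw [e1, hn]
        simp
      rw [e2, Complex.div_ofReal_re, ← hn, Matrix.mul_sub, hEQ, Matrix.trace_sub, Complex.sub_re,
        sub_div]
    rw [h1, abs_div, abs_of_pos hn0, div_le_iff₀ hn0]
    have h2 := norm_trace_mul_le E (Q - P)
    have h3 := Complex.abs_re_le_norm (Matrix.trace (E * (Q - P)))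
    have h4 : Real.sqrt (hs E) ≤ Real.sqrt n * (11 / 10) := by
      refine (Real.sqrt_le_sqrt hsE).trans (hq1.trans ?_)
      nlinarith
    have h5 : Real.sqrt (hs (Q - P)) ≤ Real.sqrt n * Real.sqrt c := by
      rw [← Real.sqrt_mul hn0.le, mul_comm n c]
      exact Real.sqrt_le_sqrt hQc'
    calc |(Matrix.trace (E * (Q - P))).re| ≤ Real.sqrt (hs E) * Real.sqrt (hs (Q - P)) := h3.trans h2
      _ ≤ (Real.sqrt n * (11 / 10)) * (Real.sqrt n * Real.sqrt c) :=
          mul_le_mul h4 h5 (Real.sqrt_nonneg _) (by positivity)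
      _ = (11 / 10) * (Real.sqrt n * Real.sqrt n) * Real.sqrt c := by ring
      _ ≤ 2 * Real.sqrt c * n := by
          rw [hsn]
          nlinarith [mul_nonneg hn0.le hsc0]
  · rw [← hsQ, ← hn]
    have hr : Real.sqrt (hs Q) * Real.sqrt (hs Q) = hs Q := by
      apply Real.mul_self_sqrt
      unfold hs
      positivity
    have h1 : hs Q / n - 1 = (hs Q - n) / n := by
      rw [sub_div, div_self hn0.ne']
    rw [h1, abs_div, abs_of_pos hn0, div_le_iff₀ hn0, ← hr]
    obtain ⟨r, hrd⟩ : ∃ r, r = Real.sqrt (hs Q) := ⟨_, rfl⟩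
    obtain ⟨q, hqd⟩ : ∃ q, q = Real.sqrt n := ⟨_, rfl⟩
    obtain ⟨u, hud⟩ : ∃ u, u = Real.sqrt c := ⟨_, rfl⟩
    rw [← hrd, ← hqd, ← hud] at hq1 hq2
    rw [← hqd] at hsn hsn0
    rw [← hud] at hc2 hsc0
    rw [← hrd, ← hud, ← hsn]
    have hr0 : 0 ≤ r := by rw [hrd]; exact Real.sqrt_nonneg _
    have k1 : 0 ≤ q * u := mul_nonneg hsn0.le hsc0
    have k2 : q * u * u ≤ q * u * (1 / 10) := mul_le_mul_of_nonneg_left hc2 k1
    rw [abs_le]
    constructor
    · have h2 : (q - q * u) ≤ r := by linarith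
      have h3 : 0 ≤ q - q * u := by nlinarith
      have h4 : (q - q * u) * (q - q * u) ≤ r * r := mul_le_mul h2 h2 h3 hr0
      nlinarith
    · have h4 : r * r ≤ (q + q * u) * (q + q * u) := mul_le_mul hq1 hq1 hr0 (by positivity)
      nlinarith

end Pool.Agent.Helper436.AD
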