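import Mathlib
import Pool.Agent.Helper436.AD.N4

set_option autoImplicit false
set_option linter.unusedSectionVars false

namespace Pool.Agent.Helper436.AD

variable {ι : Type} [Fintype ι] [DecidableEq ι] {Γ : Type} [Group Γ] [Fintype Γ] [DecidableEq Γ]

section AuxIrr

variable {α : Type} [Fintype α] [DecidableEq α]

open Matrix in
theorem aux_decomp {X : Matrix α α ℂ} (hX : X.conjTranspose = X) :
    ∃ (U : Matrix α α ℂ) (l : α → ℝ), U * U.conjTranspose = 1 ∧ U.conjTranspose * U = 1 ∧
      X = U * Matrix.diagonal (fun i => (l i : ℂ)) * U.conjTranspose := by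
  have hX' : X.IsHermitian := hX
  refine ⟨(hX'.eigenvectorUnitary : Matrix α α ℂ), hX'.eigenvalues, ?_, ?_, ?_⟩
  · exact Unitary.coe_mul_star_self hX'.eigenvectorUnitary
  · exact Unitary.coe_star_mul_self hX'.eigenvectorUnitary
  · conv_lhs => rw [hX'.spectral_theorem, Unitary.conjStarAlgAut_apply]
    rfl

theorem aux_spec {X : Matrix α α ℂ} (hX : X.conjTranspose = X) :
    ∃ (S : Finset ℝ) (P : ℝ → Matrix α α ℂ), (∀ μ, P μ * P μ = P μ) ∧
      (∀ μ, (P μ).conjTranspose = P μ) ∧ (∀ μ, X * P μ = (μ : ℂ) • P μ) ∧ ∑ μ ∈ S, P μ = 1 ∧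
      ∀ B, B * X = X * B → ∀ μ, B * P μ = P μ * B := by
  classical
  obtain ⟨U, l, h1, h2, h3⟩ := aux_decomp hX
  refine ⟨Finset.univ.image l, fun μ => U * Matrix.diagonal (fun i => if l i = μ then (1:ℂ) else 0)
    * U.conjTranspose, ?_, ?_, ?_, ?_, ?_⟩
  · intro μ
    have e : U * Matrix.diagonal (fun i => if l i = μ then (1:ℂ) else 0) * U.conjTranspose *
        (U * Matrix.diagonal (fun i => if l i = μ then (1:ℂ) else 0) * U.conjTranspose) =
        U * (Matrix.diagonal (fun i => if l i = μ then (1:ℂ) else 0) * (U.conjTranspose * U) *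
          Matrix.diagonal (fun i => if l i = μ then (1:ℂ) else 0)) * U.conjTranspose := by
      simp only [mul_assoc]
    rw [e, h2, mul_one, Matrix.diagonal_mul_diagonal]
    congr 2
    congr 1
    funext i
    split_ifs <;> simp
  · intro μ
    have e : star (fun i => if l i = μ then (1:ℂ) else 0) = fun i => if l i = μ then (1:ℂ) else 0 := by
      funext i
      simp only [Pi.star_apply]
      split_ifs <;> simp
    show (U * Matrix.diagonal (fun i => if l i = μ then (1:ℂ) else 0) * U.conjTranspose).conjTranspose =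
      U * Matrix.diagonal (fun i => if l i = μ then (1:ℂ) else 0) * U.conjTranspose
    rw [Matrix.conjTranspose_mul, Matrix.conjTranspose_mul, Matrix.conjTranspose_conjTranspose,
      Matrix.diagonal_conjTranspose, e, ← mul_assoc]
  · intro μ
    have e : U * Matrix.diagonal (fun i => (l i : ℂ)) * U.conjTranspose *
        (U * Matrix.diagonal (fun i => if l i = μ then (1:ℂ) else 0) * U.conjTranspose) =
        U * (Matrix.diagonal (fun i => (l i : ℂ)) * (U.conjTranspose * U) *
          Matrix.diagonal (fun i => if l i = μ then (1:ℂ) else 0)) * U.conjTranspose := by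
      simp only [mul_assoc]
    conv_lhs => rw [h3]
    rw [e, h2, mul_one, Matrix.diagonal_mul_diagonal]
    have e2 : (Matrix.diagonal fun i => (l i : ℂ) * if l i = μ then (1:ℂ) else 0) =
        (μ : ℂ) • Matrix.diagonal (fun i => if l i = μ then (1:ℂ) else 0) := by
      rw [← Matrix.diagonal_smul]
      congr 1
      funext i
      simp only [Pi.smul_apply, smul_eq_mul]
      split_ifs with h
      · rw [h]
      · simp
    rw [e2, Matrix.mul_smul, Matrix.smul_mul]
  · rw [← Finset.sum_mul, ← Finset.mul_sum]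
    have e : ∑ μ ∈ Finset.univ.image l, Matrix.diagonal (fun i => if l i = μ then (1:ℂ) else 0) =
        (1 : Matrix α α ℂ) := by
      ext i j
      rw [Matrix.sum_apply]
      by_cases hij : i = j
      · subst hij
        simp only [Matrix.diagonal_apply_eq, Matrix.one_apply_eq]
        rw [Finset.sum_eq_single (l i)]
        · simp
        · intro b _ hb
          rw [if_neg (Ne.symm hb)]
        · intro h
          exact absurd (Finset.mem_image_of_mem l (Finset.mem_univ i)) h
      · simp only [Matrix.diagonal_apply_ne _ hij, Matrix.one_apply_ne hij, Finset.sum_const_zero]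
    rw [e, mul_one, h1]
  · intro B hB μ
    have hB' : (U.conjTranspose * B * U) * Matrix.diagonal (fun i => (l i : ℂ)) =
        Matrix.diagonal (fun i => (l i : ℂ)) * (U.conjTranspose * B * U) := by
      have e1 : (U.conjTranspose * B * U) * Matrix.diagonal (fun i => (l i : ℂ)) =
          U.conjTranspose * (B * (U * Matrix.diagonal (fun i => (l i : ℂ)) * U.conjTranspose)) * U := by
        calc _ = U.conjTranspose * B * U * Matrix.diagonal (fun i => (l i : ℂ)) * (U.conjTranspose * U) := by
              rw [h2, mul_one]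
          _ = _ := by simp only [mul_assoc]
      have e2 : Matrix.diagonal (fun i => (l i : ℂ)) * (U.conjTranspose * B * U) =
          U.conjTranspose * ((U * Matrix.diagonal (fun i => (l i : ℂ)) * U.conjTranspose) * B) * U := by
        calc _ = (U.conjTranspose * U) * Matrix.diagonal (fun i => (l i : ℂ)) * (U.conjTranspose * B * U) := by
              rw [h2, one_mul]
          _ = _ := by simp only [mul_assoc]
      rw [e1, e2, ← h3, hB]
    have hB2 : (U.conjTranspose * B * U) * Matrix.diagonal (fun i => if l i = μ then (1:ℂ) else 0) =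
        Matrix.diagonal (fun i => if l i = μ then (1:ℂ) else 0) * (U.conjTranspose * B * U) := by
      ext i j
      have h := congrFun (congrFun hB' i) j
      rw [Matrix.mul_diagonal, Matrix.diagonal_mul] at h ⊢
      by_cases hij : l i = l j
      · rw [hij]; ring
      · have h0 : (U.conjTranspose * B * U) i j = 0 := by
          have h4 : ((l j : ℂ) - (l i : ℂ)) * (U.conjTranspose * B * U) i j = 0 := by
            linear_combination h
          rcases mul_eq_zero.1 h4 with h5 | h5
          · exfalso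
            apply hij
            have : (l j : ℂ) = (l i : ℂ) := sub_eq_zero.1 h5
            exact_mod_cast this.symm
          · exact h5
        rw [h0]; ring
    calc B * (U * Matrix.diagonal (fun i => if l i = μ then (1:ℂ) else 0) * U.conjTranspose)
        = (U * U.conjTranspose) * B * (U * Matrix.diagonal (fun i => if l i = μ then (1:ℂ) else 0) *
            U.conjTranspose) := by rw [h1, one_mul]
      _ = U * ((U.conjTranspose * B * U) * Matrix.diagonal (fun i => if l i = μ then (1:ℂ) else 0)) *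
            U.conjTranspose := by simp only [mul_assoc]
      _ = U * (Matrix.diagonal (fun i => if l i = μ then (1:ℂ) else 0) * (U.conjTranspose * B * U)) *
            U.conjTranspose := by rw [hB2]
      _ = (U * Matrix.diagonal (fun i => if l i = μ then (1:ℂ) else 0) * U.conjTranspose) * B *
            (U * U.conjTranspose) := by simp only [mul_assoc]
      _ = _ := by rw [h1, mul_one]

variable {Γ' : Type}

theorem aux_schur_herm (L : Γ' → Matrix α α ℂ) {E : Matrix α α ℂ} (h1 : E * E = E)
    (h2 : E.conjTranspose = E) (h3 : ∀ g, E * L g = L g * E) (hE0 : E ≠ 0)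
    (hmin : ∀ E' : Matrix α α ℂ, E' * E' = E' → E'.conjTranspose = E' →
      (∀ g, E' * L g = L g * E') → E' * E = E' → E' = 0 ∨ E' = E)
    {X : Matrix α α ℂ} (hX : X.conjTranspose = X) (hc : ∀ g, X * L g = L g * X)
    (hl : E * X = X) (hr : X * E = X) : ∃ μ : ℂ, X = μ • E := by
  obtain ⟨S, P, p1, p2, p3, p4, p5⟩ := aux_spec hX
  have hPE : ∀ μ, E * P μ = P μ * E := p5 E (hl.trans hr.symm)
  by_cases h : ∃ μ, P μ * E ≠ 0
  · obtain ⟨μ, hμ⟩ := h
    have q1 : P μ * E * (P μ * E) = P μ * E := by
      calc P μ * E * (P μ * E) = P μ * (E * P μ) * E := by simp only [mul_assoc]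
        _ = (P μ * P μ) * (E * E) := by rw [hPE]; simp only [mul_assoc]
        _ = P μ * E := by rw [p1, h1]
    have q2 : (P μ * E).conjTranspose = P μ * E := by
      rw [Matrix.conjTranspose_mul, p2, h2, hPE]
    have q3 : ∀ g, P μ * E * L g = L g * (P μ * E) := by
      intro g
      calc P μ * E * L g = P μ * (E * L g) := mul_assoc _ _ _
        _ = (P μ * L g) * E := by rw [h3, mul_assoc]
        _ = (L g * P μ) * E := by rw [p5 (L g) (hc g).symm μ]
        _ = _ := mul_assoc _ _ _
    have q4 : P μ * E * E = P μ * E := by rw [mul_assoc, h1]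
    have h4 : P μ * E = E := by
      rcases hmin (P μ * E) q1 q2 q3 q4 with h | h
      · exact absurd h hμ
      · exact h
    refine ⟨(μ : ℂ), ?_⟩
    calc X = X * E := hr.symm
      _ = X * (P μ * E) := by rw [h4]
      _ = (X * P μ) * E := by rw [mul_assoc]
      _ = (μ : ℂ) • (P μ * E) := by rw [p3, Matrix.smul_mul]
      _ = (μ : ℂ) • E := by rw [h4]
  · exfalso
    push Not at h
    apply hE0
    calc E = 1 * E := (one_mul E).symm
      _ = (∑ μ ∈ S, P μ) * E := by rw [p4]
      _ = ∑ μ ∈ S, P μ * E := by rw [Finset.sum_mul]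
      _ = 0 := Finset.sum_eq_zero fun μ _ => h μ

variable [Group Γ']

theorem aux_schur (L : Γ' → Matrix α α ℂ) (hstar : ∀ g, (L g).conjTranspose = L g⁻¹)
    {E : Matrix α α ℂ} (h1 : E * E = E)
    (h2 : E.conjTranspose = E) (h3 : ∀ g, E * L g = L g * E) (hE0 : E ≠ 0)
    (hmin : ∀ E' : Matrix α α ℂ, E' * E' = E' → E'.conjTranspose = E' →
      (∀ g, E' * L g = L g * E') → E' * E = E' → E' = 0 ∨ E' = E)
    {X : Matrix α α ℂ} (hc : ∀ g, X * L g = L g * X)
    (hl : E * X = X) (hr : X * E = X) : ∃ μ : ℂ, X = μ • E := by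
  have hc' : ∀ g, X.conjTranspose * L g = L g * X.conjTranspose := by
    intro g
    have h := congrArg Matrix.conjTranspose (hc g⁻¹)
    rw [Matrix.conjTranspose_mul, Matrix.conjTranspose_mul, hstar, inv_inv] at h
    exact h.symm
  have hl' : E * X.conjTranspose = X.conjTranspose := by
    have h := congrArg Matrix.conjTranspose hr
    rwa [Matrix.conjTranspose_mul, h2] at h
  have hr' : X.conjTranspose * E = X.conjTranspose := by
    have h := congrArg Matrix.conjTranspose hl
    rwa [Matrix.conjTranspose_mul, h2] at h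
  obtain ⟨a, ha⟩ := aux_schur_herm L h1 h2 h3 hE0 hmin (X := X + X.conjTranspose)
    (by rw [Matrix.conjTranspose_add, Matrix.conjTranspose_conjTranspose, add_comm])
    (fun g => by rw [add_mul, mul_add, hc, hc'])
    (by rw [mul_add, hl, hl']) (by rw [add_mul, hr, hr'])
  obtain ⟨b, hb⟩ := aux_schur_herm L h1 h2 h3 hE0 hmin (X := Complex.I • (X - X.conjTranspose))
    (by
      rw [Matrix.conjTranspose_smul, Matrix.conjTranspose_sub, Matrix.conjTranspose_conjTranspose]
      have : star Complex.I = - Complex.I := by simp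
      rw [this, neg_smul, ← smul_neg, neg_sub])
    (fun g => by rw [Matrix.smul_mul, Matrix.mul_smul, sub_mul, mul_sub, hc, hc'])
    (by rw [Matrix.mul_smul, mul_sub, hl, hl']) (by rw [Matrix.smul_mul, sub_mul, hr, hr'])
  refine ⟨(1/2 : ℂ) * (a - Complex.I * b), ?_⟩
  have h5 : (2 : ℂ) • X = (X + X.conjTranspose) - Complex.I • (Complex.I • (X - X.conjTranspose)) := by
    rw [smul_smul, Complex.I_mul_I, neg_smul, one_smul, two_smul]
    abel
  rw [ha, hb, smul_smul, ← sub_smul] at h5
  calc X = (1/2 : ℂ) • ((2 : ℂ) • X) := by rw [smul_smul]; norm_num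
    _ = _ := by rw [h5, smul_smul]

theorem aux_avg [Fintype Γ'] (L : Γ' → Matrix α α ℂ) (hmul : ∀ g h, L (g * h) = L g * L h)
    (hone : L 1 = 1) (hstar : ∀ g, (L g).conjTranspose = L g⁻¹)
    {E : Matrix α α ℂ} (h1 : E * E = E)
    (h2 : E.conjTranspose = E) (h3 : ∀ g, E * L g = L g * E) (hE0 : E ≠ 0)
    (hmin : ∀ E' : Matrix α α ℂ, E' * E' = E' → E'.conjTranspose = E' →
      (∀ g, E' * L g = L g * E') → E' * E = E' → E' = 0 ∨ E' = E) (B : Matrix α α ℂ) :
    ∃ μ : ℂ, ∑ g, L g * (E * B * E) * L g⁻¹ = μ • E ∧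
      μ * E.trace = Fintype.card Γ' * (E * B).trace := by
  have hinv : ∀ g, L g⁻¹ * L g = 1 := fun g => by rw [← hmul, inv_mul_cancel, hone]
  obtain ⟨μ, hμ⟩ := aux_schur L hstar h1 h2 h3 hE0 hmin (X := ∑ g, L g * (E * B * E) * L g⁻¹)
    (by
      intro h
      rw [Finset.sum_mul, Finset.mul_sum]
      rw [← Equiv.sum_comp (Equiv.mulLeft h)]
      refine Finset.sum_congr rfl fun g _ => ?_
      simp only [Equiv.coe_mulLeft, mul_inv_rev, hmul]
      have e : L h⁻¹ * L h = 1 := hinv h
      calc L h * L g * (E * B * E) * (L g⁻¹ * L h⁻¹) * L h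
          = L h * L g * (E * B * E) * L g⁻¹ * (L h⁻¹ * L h) := by simp only [mul_assoc]
        _ = _ := by rw [e, mul_one]; simp only [mul_assoc])
    (by
      rw [Finset.mul_sum]
      refine Finset.sum_congr rfl fun g _ => ?_
      calc E * (L g * (E * B * E) * L g⁻¹) = (E * L g) * (E * B * E) * L g⁻¹ := by
            simp only [mul_assoc]
        _ = L g * ((E * E) * B * E) * L g⁻¹ := by rw [h3]; simp only [mul_assoc]
        _ = _ := by rw [h1])
    (by
      rw [Finset.sum_mul]
      refine Finset.sum_congr rfl fun g _ => ?_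
      calc L g * (E * B * E) * L g⁻¹ * E = L g * (E * B * E) * (L g⁻¹ * E) := by
            simp only [mul_assoc]
        _ = L g * (E * B * (E * E)) * L g⁻¹ := by rw [← h3]; simp only [mul_assoc]
        _ = _ := by rw [h1])
  refine ⟨μ, hμ, ?_⟩
  have h4 := congrArg Matrix.trace hμ
  rw [Matrix.trace_sum, Matrix.trace_smul, smul_eq_mul] at h4
  rw [← h4]
  have h5 : ∀ g, (L g * (E * B * E) * L g⁻¹).trace = (E * B).trace := by
    intro g
    rw [Matrix.trace_mul_comm, ← mul_assoc, hinv, one_mul, Matrix.trace_mul_comm, ← mul_assoc, h1]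
  rw [Finset.sum_congr rfl fun g _ => h5 g, Finset.sum_const, Finset.card_univ, nsmul_eq_mul]

theorem aux_single (M N : Matrix α α ℂ) (x y a b : α) :
    (M * Matrix.single x y (1:ℂ) * N) a b = M a x * N y b := by
  rw [Matrix.mul_apply, Finset.sum_eq_single y]
  · rw [Matrix.mul_apply, Finset.sum_eq_single x]
    · simp [Matrix.single]
    · intro i _ hi
      simp [Matrix.single, Ne.symm hi]
    · simp
  · intro j _ hj
    rw [Matrix.mul_apply, Finset.sum_eq_zero, zero_mul]
    intro i _
    simp [Matrix.single, Ne.symm hj]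
  · simp

theorem aux_sum [Fintype Γ'] (L : Γ' → Matrix α α ℂ) (hmul : ∀ g h, L (g * h) = L g * L h)
    (hone : L 1 = 1) (hstar : ∀ g, (L g).conjTranspose = L g⁻¹)
    {E : Matrix α α ℂ} (h1 : E * E = E)
    (h2 : E.conjTranspose = E) (h3 : ∀ g, E * L g = L g * E) (hE0 : E ≠ 0) (hd : E.trace ≠ 0)
    (hmin : ∀ E' : Matrix α α ℂ, E' * E' = E' → E'.conjTranspose = E' →
      (∀ g, E' * L g = L g * E') → E' * E = E' → E' = 0 ∨ E' = E) :
    ∑ g, (L g * E).trace * (E * L g⁻¹).trace = Fintype.card Γ' := by
  choose μ hμ1 hμ2 using fun x y => aux_avg L hmul hone hstar h1 h2 h3 hE0 hmin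
    (Matrix.single x y (1:ℂ))
  have e1 : ∀ g x y, (L g * (E * Matrix.single x y (1:ℂ) * E) * L g⁻¹) x y =
      (L g * E) x x * (E * L g⁻¹) y y := by
    intro g x y
    have : L g * (E * Matrix.single x y (1:ℂ) * E) * L g⁻¹ =
        (L g * E) * Matrix.single x y (1:ℂ) * (E * L g⁻¹) := by simp only [mul_assoc]
    rw [this, aux_single]
  have e2 : ∑ g, (L g * E).trace * (E * L g⁻¹).trace = ∑ x, ∑ y, μ x y * E x y := by
    have : ∀ g, (L g * E).trace * (E * L g⁻¹).trace =
        ∑ x : α, ∑ y : α, (L g * (E * Matrix.single x y (1:ℂ) * E) * L g⁻¹ : Matrix α α ℂ) x y := by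
      intro g
      simp only [e1, Matrix.trace, Matrix.diag_apply]
      rw [Finset.sum_mul_sum]
    simp only [this]
    rw [Finset.sum_comm]
    refine Finset.sum_congr rfl fun x _ => ?_
    rw [Finset.sum_comm]
    refine Finset.sum_congr rfl fun y _ => ?_
    rw [← Matrix.sum_apply, hμ1, Matrix.smul_apply, smul_eq_mul]
  have e3 : E.trace * ∑ g, (L g * E).trace * (E * L g⁻¹).trace = E.trace * Fintype.card Γ' := by
    rw [e2, Finset.mul_sum]
    have e4 : ∀ x, E.trace * ∑ y, μ x y * E x y = ∑ y, (Fintype.card Γ' : ℂ) * (E x y * E y x) := by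
      intro x
      rw [Finset.mul_sum]
      refine Finset.sum_congr rfl fun y _ => ?_
      have e5 : (E * Matrix.single x y (1:ℂ)).trace = E y x := by
        rw [Matrix.trace, Finset.sum_eq_single y]
        · rw [Matrix.diag_apply, Matrix.mul_apply, Finset.sum_eq_single x]
          · simp [Matrix.single]
          · intro i _ hi
            simp [Matrix.single, Ne.symm hi]
          · simp
        · intro j _ hj
          rw [Matrix.diag_apply, Matrix.mul_apply, Finset.sum_eq_zero]
          intro i _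
          simp [Matrix.single, Ne.symm hj]
        · simp
      have e6 := hμ2 x y
      rw [e5] at e6
      linear_combination E x y * e6
    rw [Finset.sum_congr rfl fun x _ => e4 x]
    have e7 : ∑ x, ∑ y, (Fintype.card Γ' : ℂ) * (E x y * E y x) = Fintype.card Γ' * (E * E).trace := by
      simp only [Matrix.trace, Matrix.diag_apply, Matrix.mul_apply, Finset.mul_sum]
    rw [e7, h1, mul_comm]
  exact mul_left_cancel₀ hd e3

theorem aux_class (L : Γ' → Matrix α α ℂ) (hmul : ∀ g h, L (g * h) = L g * L h)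
    (hone : L 1 = 1) (hstar : ∀ g, (L g).conjTranspose = L g⁻¹)
    (hcom : ∀ γ δ : Γ', ∃ z : Γ', (∀ x, z * x = x * z) ∧ z * z = 1 ∧ γ * δ = z * (δ * γ))
    {E : Matrix α α ℂ} (h1 : E * E = E)
    (h2 : E.conjTranspose = E) (h3 : ∀ g, E * L g = L g * E) (hE0 : E ≠ 0)
    (hmin : ∀ E' : Matrix α α ℂ, E' * E' = E' → E'.conjTranspose = E' →
      (∀ g, E' * L g = L g * E') → E' * E = E' → E' = 0 ∨ E' = E) (g : Γ') :
    (L g * E).trace * (E * L g⁻¹).trace = E.trace ^ 2 ∨
      (L g * E).trace * (E * L g⁻¹).trace = 0 := by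
  have hinv : ∀ g, L g⁻¹ * L g = 1 := fun g => by rw [← hmul, inv_mul_cancel, hone]
  have hinv' : ∀ g, L g * L g⁻¹ = 1 := fun g => by rw [← hmul, mul_inv_cancel, hone]
  have hs : ∀ k : Γ', (∀ h, L k * E * L h = L h * (L k * E)) → ∃ μ : ℂ, L k * E = μ • E := by
    intro k hk
    refine aux_schur L hstar h1 h2 h3 hE0 hmin hk ?_ ?_
    · rw [← mul_assoc, h3, mul_assoc, h1]
    · rw [mul_assoc, h1]
  by_cases hc : ∀ h, L g * E * L h = L h * (L g * E)
  · left
    obtain ⟨μ, hμ⟩ := hs g hc
    have h4 : (E * L g⁻¹) = star μ • E := by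
      have := congrArg Matrix.conjTranspose hμ
      rwa [Matrix.conjTranspose_mul, h2, hstar, Matrix.conjTranspose_smul, h2] at this
    have h5 : (μ * star μ - 1) • E = 0 := by
      have e : (L g * E) * (E * L g⁻¹) = E := by
        calc (L g * E) * (E * L g⁻¹) = L g * (E * E) * L g⁻¹ := by simp only [mul_assoc]
          _ = E * (L g * L g⁻¹) := by rw [h1, ← h3, mul_assoc]
          _ = E := by rw [hinv', mul_one]
      rw [hμ, h4, Matrix.smul_mul, Matrix.mul_smul, h1, smul_smul] at e
      rw [sub_smul, one_smul, e, sub_self]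
    have h6 : μ * star μ = 1 := by
      rcases smul_eq_zero.1 h5 with h | h
      · exact sub_eq_zero.1 h
      · exact absurd h hE0
    rw [hμ, h4, Matrix.trace_smul, Matrix.trace_smul, smul_eq_mul, smul_eq_mul]
    linear_combination E.trace ^ 2 * h6
  · right
    push Not at hc
    obtain ⟨h, hh⟩ := hc
    obtain ⟨z, z1, z2, z3⟩ := hcom g h
    obtain ⟨μ, hμ⟩ := hs z (by
      intro k
      rw [mul_assoc, h3, ← mul_assoc, ← hmul, z1, hmul, mul_assoc])
    have hgh : L g * L h = L z * (L h * L g) := by rw [← hmul, z3, hmul, hmul]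
    have h4 : (μ * μ - 1) • E = 0 := by
      have e : (L z * E) * (L z * E) = E := by
        calc (L z * E) * (L z * E) = L z * (E * L z) * E := by simp only [mul_assoc]
          _ = (L z * L z) * (E * E) := by rw [h3]; simp only [mul_assoc]
          _ = E := by rw [← hmul, z2, hone, one_mul, h1]
      rw [hμ, Matrix.smul_mul, Matrix.mul_smul, h1, smul_smul] at e
      rw [sub_smul, one_smul, e, sub_self]
    have h5 : μ * μ = 1 := by
      rcases smul_eq_zero.1 h4 with h | h
      · exact sub_eq_zero.1 h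
      · exact absurd h hE0
    have h6 : μ = -1 := by
      rcases mul_self_eq_one_iff.1 h5 with hm | hm
      · exfalso
        rw [hm, one_smul] at hμ
        apply hh
        calc L g * E * L h = L g * L h * E := by rw [mul_assoc, h3, mul_assoc]
          _ = (L z * E) * (L h * L g) := by
            rw [hgh]
            calc L z * (L h * L g) * E = L z * (L h * (L g * E)) := by simp only [mul_assoc]
              _ = L z * ((L h * E) * L g) := by rw [← h3 g]; simp only [mul_assoc]
              _ = L z * (E * L h * L g) := by rw [← h3 h]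
              _ = _ := by simp only [mul_assoc]
          _ = E * L h * L g := by rw [hμ, mul_assoc]
          _ = _ := by rw [h3, mul_assoc, h3]
      · exact hm
    have h7 : L g * L h * E = - (L h * L g * E) := by
      rw [hgh]
      calc L z * (L h * L g) * E = (L z * E) * (L h * L g) := by
            calc L z * (L h * L g) * E = L z * (L h * (L g * E)) := by simp only [mul_assoc]
              _ = L z * ((L h * E) * L g) := by rw [← h3 g]; simp only [mul_assoc]
              _ = L z * (E * L h * L g) := by rw [← h3 h]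
              _ = _ := by simp only [mul_assoc]
        _ = - (E * (L h * L g)) := by rw [hμ, h6, neg_smul, one_smul, neg_mul]
        _ = _ := by
          congr 1
          rw [← mul_assoc, h3, mul_assoc, h3, mul_assoc]
    have h8 : (L g * E).trace = - (L g * E).trace := by
      calc (L g * E).trace = (L g * (L h * L h⁻¹) * E).trace := by rw [hinv', mul_one]
        _ = ((L g * L h * E) * L h⁻¹).trace := by
          congr 1
          calc L g * (L h * L h⁻¹) * E = L g * L h * (L h⁻¹ * E) := by simp only [mul_assoc]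
            _ = _ := by rw [← h3]; simp only [mul_assoc]
        _ = (- (L h * L g * E) * L h⁻¹).trace := by rw [h7]
        _ = - ((L h * (L g * E) * L h⁻¹)).trace := by
          rw [neg_mul, Matrix.trace_neg, mul_assoc (L h)]
        _ = - (L g * E).trace := by
          rw [Matrix.trace_mul_comm, ← mul_assoc, hinv, one_mul]
    have h9 : (L g * E).trace = 0 := by
      have : (2:ℂ) * (L g * E).trace = 0 := by linear_combination h8
      rcases mul_eq_zero.1 this with h | h
      · exact absurd h two_ne_zero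
      · exact h
    rw [h9, zero_mul]

theorem aux_trace_nat {E : Matrix α α ℂ} (h1 : E * E = E)
    (h2 : E.conjTranspose = E) : ∃ d : ℕ, Matrix.trace E = d ∧ (d = 0 → E = 0) := by
  classical
  obtain ⟨U, l, u1, u2, u3⟩ := aux_decomp h2
  have hl : ∀ i, (l i : ℂ) * (l i : ℂ) = (l i : ℂ) := by
    have e : Matrix.diagonal (fun i => (l i : ℂ)) = U.conjTranspose * E * U := by
      rw [u3]
      calc Matrix.diagonal (fun i => (l i : ℂ)) =
          (U.conjTranspose * U) * Matrix.diagonal (fun i => (l i : ℂ)) * (U.conjTranspose * U) := by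
            rw [u2, one_mul, mul_one]
        _ = _ := by simp only [mul_assoc]
    have e2 : Matrix.diagonal (fun i => (l i : ℂ)) * Matrix.diagonal (fun i => (l i : ℂ)) =
        Matrix.diagonal (fun i => (l i : ℂ)) := by
      rw [e]
      calc U.conjTranspose * E * U * (U.conjTranspose * E * U) =
          U.conjTranspose * E * (U * U.conjTranspose) * E * U := by simp only [mul_assoc]
        _ = U.conjTranspose * (E * E) * U := by rw [u1, mul_one]; simp only [mul_assoc]
        _ = _ := by rw [h1]
    rw [Matrix.diagonal_mul_diagonal] at e2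
    intro i
    exact congrFun (Matrix.diagonal_injective e2) i
  have hl' : ∀ i, (l i : ℂ) = if l i = 0 then 0 else 1 := by
    intro i
    split_ifs with h
    · rw [h]; simp
    · have h3 : (l i : ℂ) ≠ 0 := by exact_mod_cast h
      exact mul_left_cancel₀ h3 (by rw [hl, mul_one])
  have htr : E.trace = ∑ i, (l i : ℂ) := by
    conv_lhs => rw [u3]
    rw [Matrix.trace_mul_comm, ← mul_assoc, u2, one_mul, Matrix.trace_diagonal]
  refine ⟨(Finset.univ.filter fun i => l i ≠ 0).card, ?_, ?_⟩
  · rw [htr, Finset.card_filter]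
    push_cast
    refine Finset.sum_congr rfl fun i _ => ?_
    rw [hl' i]
    split_ifs <;> simp_all
  · intro h
    rw [Finset.card_eq_zero, Finset.filter_eq_empty_iff] at h
    have : (fun i => (l i : ℂ)) = 0 := by
      funext i
      have := h (Finset.mem_univ i)
      push Not at this
      simp [this]
    rw [u3, this]
    simp

end AuxIrr

/-- JOB: irreducible representations of Γ have dimension a power of two. -/
theorem irr_dim (hΓ : ∃ s : ℕ, Fintype.card Γ = 2 ^ s)
    (hcom : ∀ γ δ : Γ, ∃ z : Γ, (∀ x, z * x = x * z) ∧ z * z = 1 ∧ γ * δ = z * (δ * γ))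
    {E : Matrix (Γ × ι) (Γ × ι) ℂ} (hE : Inv E) (hE0 : E ≠ 0)
    (hmin : ∀ E' : Matrix (Γ × ι) (Γ × ι) ℂ, Inv E' → E' * E = E' → E' = 0 ∨ E' = E) :
    ∃ l : ℕ, Matrix.trace E = 2 ^ l := by
  classical
  obtain ⟨s, hs⟩ := hΓ
  obtain ⟨d, hd, hd0⟩ := aux_trace_nat hE.idem hE.herm
  have hd1 : d ≠ 0 := fun h => hE0 (hd0 h)
  have hdt : E.trace ≠ 0 := by rw [hd]; exact_mod_cast hd1
  have hmin' : ∀ E' : Matrix (Γ × ι) (Γ × ι) ℂ, E' * E' = E' → E'.conjTranspose = E' →
      (∀ g, E' * Lg g = Lg g * E') → E' * E = E' → E' = 0 ∨ E' = E :=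
    fun E' a b c h => hmin E' ⟨a, b, c⟩ h
  have h1 := aux_sum (fun g : Γ => (Lg g : Matrix (Γ × ι) (Γ × ι) ℂ)) Lg_mul Lg_one Lg_star
    hE.idem hE.herm hE.comm hE0 hdt hmin'
  have h2 := aux_class (fun g : Γ => (Lg g : Matrix (Γ × ι) (Γ × ι) ℂ)) Lg_mul Lg_one Lg_star hcom
    hE.idem hE.herm hE.comm hE0 hmin'
  have h3 : ∀ g : Γ, ((Lg g : Matrix (Γ × ι) (Γ × ι) ℂ) * E).trace * (E * Lg g⁻¹).trace =
      if ((Lg g : Matrix (Γ × ι) (Γ × ι) ℂ) * E).trace * (E * Lg g⁻¹).trace = 0 then 0
      else (d : ℂ) ^ 2 := by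
    intro g
    split_ifs with h
    · exact h
    · rcases h2 g with h4 | h4
      · rw [← hd]; exact h4
      · exact absurd h4 h
  rw [Finset.sum_congr rfl fun g _ => h3 g] at h1
  have h4 : (((Finset.univ.filter fun g : Γ => ¬ ((Lg g : Matrix (Γ × ι) (Γ × ι) ℂ) * E).trace *
      (E * Lg g⁻¹).trace = 0).card * d ^ 2 : ℕ) : ℂ) = ((2 ^ s : ℕ) : ℂ) := by
    rw [← hs, ← h1, Finset.card_filter]
    push_cast
    rw [Finset.sum_mul]
    refine Finset.sum_congr rfl fun g _ => ?_
    by_cases hg : ((Lg g : Matrix (Γ × ι) (Γ × ι) ℂ) * E).trace * (E * Lg g⁻¹).trace = 0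
    · rw [if_pos hg, if_neg (not_not.2 hg), zero_mul]
    · rw [if_neg hg, if_pos hg, one_mul]
  have h5 : d ∣ 2 ^ s := by
    have h6 : (Finset.univ.filter fun g : Γ => ¬ ((Lg g : Matrix (Γ × ι) (Γ × ι) ℂ) * E).trace *
      (E * Lg g⁻¹).trace = 0).card * d ^ 2 = 2 ^ s := by exact_mod_cast h4
    rw [← h6]
    exact dvd_mul_of_dvd_right (dvd_pow_self d two_ne_zero) _
  obtain ⟨l, _, hl⟩ := (Nat.dvd_prime_pow Nat.prime_two).1 h5
  exact ⟨l, by rw [hd, hl]; push_cast; rfl⟩

/-- the trace of a projection is a natural number -/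
theorem trace_nat {α : Type} [Fintype α] [DecidableEq α] {E : Matrix α α ℂ} (h1 : E * E = E)
    (h2 : E.conjTranspose = E) : ∃ d : ℕ, Matrix.trace E = d ∧ (d = 0 → E = 0) :=
  aux_trace_nat h1 h2

end Pool.Agent.Helper436.AD
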