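import Mathlib
import Pool.Agent.Helper436.AD.NDef

set_option autoImplicit false
set_option linter.unusedSectionVars false

open scoped ComplexOrder

namespace Pool.Agent.Helper436.AD

/-- JOB: a self-adjoint contraction is the real part of a unitary. -/
theorem exists_unitary_re {ι : Type} [Fintype ι] [DecidableEq ι] {a : Matrix ι ι ℂ}
    (ha : a.conjTranspose = a) (hp : (1 - a * a).PosSemidef) :
    ∃ u ∈ unitary (Matrix ι ι ℂ), u + star u = (2 : ℂ) • a := by
  have hA : a.IsHermitian := ha
  set U : Matrix ι ι ℂ := (hA.eigenvectorUnitary : Matrix ι ι ℂ) with hU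
  have hU1 : star U * U = 1 := Unitary.star_mul_self_of_mem (hA.eigenvectorUnitary).2
  have hU2 : U * star U = 1 := Unitary.mul_star_self_of_mem (hA.eigenvectorUnitary).2
  set l : ι → ℝ := hA.eigenvalues with hl
  have hsp : a = U * Matrix.diagonal (fun i => (l i : ℂ)) * star U := by
    have h1 := hA.spectral_theorem
    rw [Unitary.conjStarAlgAut_apply] at h1
    exact h1
  have hmul : ∀ D D' : ι → ℂ, (U * Matrix.diagonal D * star U) * (U * Matrix.diagonal D' * star U)
      = U * Matrix.diagonal (fun i => D i * D' i) * star U := by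
    intro D D'
    calc (U * Matrix.diagonal D * star U) * (U * Matrix.diagonal D' * star U)
        = U * Matrix.diagonal D * (star U * U) * Matrix.diagonal D' * star U := by
          simp only [mul_assoc]
      _ = U * (Matrix.diagonal D * Matrix.diagonal D') * star U := by
          rw [hU1]; simp only [mul_assoc, mul_one]
      _ = _ := by rw [Matrix.diagonal_mul_diagonal]
  have hstar : ∀ D : ι → ℂ, star (U * Matrix.diagonal D * star U)
      = U * Matrix.diagonal (fun i => star (D i)) * star U := by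
    intro D
    rw [star_mul, star_mul, star_star, mul_assoc]
    congr 1
    rw [Matrix.star_eq_conjTranspose, Matrix.diagonal_conjTranspose]
    rfl
  have hone : U * Matrix.diagonal (fun _ : ι => (1 : ℂ)) * star U = 1 := by
    have : Matrix.diagonal (fun _ : ι => (1 : ℂ)) = (1 : Matrix ι ι ℂ) := rfl
    rw [this, mul_one, hU2]
  have hle : ∀ i, l i ^ 2 ≤ 1 := by
    have h1 := hp.conjTranspose_mul_mul_same U
    have h2 : U.conjTranspose * (1 - a * a) * U
        = Matrix.diagonal (fun i => ((1 - l i ^ 2 : ℝ) : ℂ)) := by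
      have h3 : a * a = U * Matrix.diagonal (fun i => (l i : ℂ) * (l i : ℂ)) * star U := by
        conv_lhs => rw [hsp]
        exact hmul _ _
      have h4 : star U * (U * Matrix.diagonal (fun i => (l i : ℂ) * (l i : ℂ)) * star U) * U
          = Matrix.diagonal (fun i => (l i : ℂ) * (l i : ℂ)) := by
        calc star U * (U * Matrix.diagonal (fun i => (l i : ℂ) * (l i : ℂ)) * star U) * U
            = (star U * U) * Matrix.diagonal (fun i => (l i : ℂ) * (l i : ℂ)) * (star U * U) := by
              simp only [mul_assoc]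
          _ = _ := by rw [hU1, one_mul, mul_one]
      rw [← Matrix.star_eq_conjTranspose, mul_sub, sub_mul, mul_one, hU1, h3, h4]
      ext i j
      by_cases hij : i = j
      · subst hij
        simp
        ring
      · simp [hij]
    rw [h2, Matrix.posSemidef_diagonal_iff] at h1
    intro i
    have h3 := h1 i
    have h4 : (0 : ℝ) ≤ 1 - l i ^ 2 := by exact_mod_cast h3
    linarith
  set μ : ι → ℂ := fun i => (l i : ℂ) + Complex.I * ((Real.sqrt (1 - l i ^ 2) : ℝ) : ℂ) with hμ
  have hμ1 : ∀ i, star (μ i) * μ i = 1 := by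
    intro i
    have h1 : Real.sqrt (1 - l i ^ 2) ^ 2 = 1 - l i ^ 2 := Real.sq_sqrt (by linarith [hle i])
    apply Complex.ext
    · simp [hμ]
      nlinarith
    · simp [hμ]
      ring
  have hμ2 : ∀ i, μ i + star (μ i) = (2 : ℂ) * (l i : ℂ) := by
    intro i
    apply Complex.ext
    · simp [hμ]; ring
    · simp [hμ]
  refine ⟨U * Matrix.diagonal μ * star U, ?_, ?_⟩
  · rw [Unitary.mem_iff, hstar, hmul, hmul]
    constructor
    · rw [show (fun i => star (μ i) * μ i) = fun _ => (1 : ℂ) from funext hμ1, hone]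
    · rw [show (fun i => μ i * star (μ i)) = fun _ => (1 : ℂ) from
        funext fun i => by rw [mul_comm]; exact hμ1 i, hone]
  · rw [hstar]
    conv_rhs => rw [hsp]
    rw [← add_mul, ← mul_add, Matrix.diagonal_add, ← smul_mul_assoc, ← mul_smul_comm]
    congr 2
    ext i j
    by_cases hij : i = j
    · subst hij
      simp only [Matrix.diagonal_apply_eq, Matrix.smul_apply, smul_eq_mul]
      exact hμ2 i
    · simp [hij]

/-- JOB: almost invariant almost projections have trace almost zero or one. -/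
theorem dichotomy {ι : Type} [Fintype ι] [DecidableEq ι] [Nonempty ι] {G : Type} [Group G]
    {ε t : ℝ} (hε : ε ≤ 1 / 1000) (ht : t ≤ 1 / 1000) {C : Matrix ι ι ℂ} {f : G → Matrix ι ι ℂ}
    (h : Apx ε C f) {a : Matrix ι ι ℂ}
    (ha : a.conjTranspose = a) (hp : (1 - a * a).PosSemidef) (haa : m2 (a * a - a) ≤ t)
    (h1 : ∀ g, m2 (a * f g - f g * a) ≤ t)
    (h2 : ∀ g, m2 (a * (C * f g * star C) - (C * f g * star C) * a) ≤ t)
    (h3 : ∀ g, m2 (a * (C * C * f g * star (C * C)) - (C * C * f g * star (C * C)) * a) ≤ t) :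
    (nt a).re ≤ 1 / 100 ∨ 99 / 100 ≤ (nt a).re := by
  have ht0 : 0 ≤ t := le_trans (m2_nonneg _) haa
  obtain ⟨u, hu, hua⟩ := exists_unitary_re ha hp
  have hu' : star u ∈ unitary (Matrix ι ι ℂ) := Unitary.star_mem hu
  obtain ⟨g, hg⟩ := h.big ![u, star u, u, star u] (by
    intro i
    fin_cases i
    · exact hu
    · exact hu'
    · exact hu
    · exact hu')
  have hsum : ∑ i, (![u, star u, u, star u] : Fin 4 → Matrix ι ι ℂ) i = (4 : ℂ) • a := by
    rw [Fin.sum_univ_four]
    change u + star u + u + star u = (4 : ℂ) • a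
    have e : u + star u + u + star u = (u + star u) + (u + star u) := by abel
    rw [e, hua, ← add_smul]
    norm_num
  rw [hsum] at hg
  have hms : ∀ X : Matrix ι ι ℂ, ms ((4 : ℂ) • X) = 16 * ms X := by
    intro X
    rw [← m2_sq, m2_smul, mul_pow, m2_sq]
    norm_num
  have hcm : ∀ X : Matrix ι ι ℂ, m2 (a * X - X * a) ≤ t →
      ms (X * ((4 : ℂ) • a) - ((4 : ℂ) • a) * X) ≤ 16 * t ^ 2 := by
    intro X hX
    have e : X * ((4 : ℂ) • a) - ((4 : ℂ) • a) * X = (4 : ℂ) • (X * a - a * X) := by
      rw [mul_smul_comm, smul_mul_assoc, smul_sub]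
    rw [e, hms, ← m2_sq, m2_sub_comm]
    have h4 := m2_nonneg (a * X - X * a)
    nlinarith
  have k1 := hcm _ (h1 g)
  have k2 := hcm _ (h2 g)
  have k3 := hcm _ (h3 g)
  have hnt : nt ((4 : ℂ) • a) = 4 * nt a := by
    unfold nt
    rw [Matrix.trace_smul, smul_eq_mul, mul_div_assoc]
  have him : (nt a).im = 0 := by
    have e1 : star (Matrix.trace a) = Matrix.trace a := by
      rw [← Matrix.trace_conjTranspose, ha]
    have e2 : (Matrix.trace a).im = 0 := Complex.conj_eq_iff_im.mp e1
    unfold nt
    rw [Complex.div_natCast_im, e2, zero_div]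
  have hnorm : ‖nt a‖ ^ 2 = (nt a).re ^ 2 := by
    rw [← Complex.normSq_eq_norm_sq, Complex.normSq_apply, him]
    ring
  have hmsa : ms a = (nt (a * a)).re := by
    rw [ms_eq, hs_eq, ha]
    unfold nt
    rw [Complex.div_natCast_re]
  have hdiff : ‖nt (a * a) - nt a‖ ≤ t := by
    have e : nt (a * a) - nt a = nt (a * a - a) := by
      unfold nt
      rw [Matrix.trace_sub, sub_div]
    rw [e]
    exact (norm_nt_le _).trans haa
  have hre : (nt a).re - t ≤ ms a := by
    rw [hmsa]
    have e := (abs_le.mp (Complex.abs_re_le_norm (nt (a * a) - nt a))).1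
    rw [Complex.sub_re] at e
    linarith
  rw [hms, hnt, norm_mul, mul_pow, hnorm] at hg
  have h16 : ‖(4 : ℂ)‖ ^ 2 = 16 := by norm_num
  rw [h16] at hg
  by_contra hcon
  push Not at hcon
  obtain ⟨c1, c2⟩ := hcon
  have h5 : (nt a).re - (nt a).re ^ 2 > 99 / 10000 := by nlinarith
  have h6 : t ^ 2 ≤ 1 / 1000000 := by nlinarith
  nlinarith

end Pool.Agent.Helper436.AD
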