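import Mathlib
import Pool.Agent.Helper436.AD.N1
import Pool.Agent.Helper436.AD.N2
import Pool.Agent.Helper436.AD.N3
import Pool.Agent.Helper436.AD.N5
import Pool.Agent.Helper436.AD.N6
import Pool.Agent.Helper436.AD.N7
import Pool.Agent.Helper436.AD.N8

set_option autoImplicit false
set_option linter.unusedSectionVars false

open scoped ComplexOrder

namespace Pool.Agent.Helper436.AD

section

variable {ι : Type} [Fintype ι] [DecidableEq ι]

theorem neg_mat_contr {a : Matrix ι ι ℂ} (ha : a.conjTranspose = a)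
    (hp : (1 - a * a).PosSemidef) (X : Matrix ι ι ℂ) : m2 (a * X) ≤ m2 X := by
  open scoped MatrixOrder in
  obtain ⟨R, hR⟩ := CStarAlgebra.nonneg_iff_eq_star_mul_self.mp hp.nonneg
  have hR' : R.conjTranspose * R = 1 - a * a := hR.symm
  have h := hs_mul_le a R (by rw [ha, hR']; abel) X
  unfold m2
  apply Real.sqrt_le_sqrt
  rw [ms_eq, ms_eq]
  exact div_le_div_of_nonneg_right h (Nat.cast_nonneg _)

theorem neg_mat_contr_r {a : Matrix ι ι ℂ} (ha : a.conjTranspose = a)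
    (hp : (1 - a * a).PosSemidef) (X : Matrix ι ι ℂ) : m2 (X * a) ≤ m2 X := by
  have ha' : star a = a := ha
  rw [← m2_star, star_mul, ha', ← m2_star X]
  exact neg_mat_contr ha hp _

theorem neg_mat_near {a : Matrix ι ι ℂ} (ha : a.conjTranspose = a)
    (hp : (1 - a * a).PosSemidef) {X Y : Matrix ι ι ℂ} {r ε : ℝ} (h1 : m2 (X - Y) ≤ 2 * ε)
    (h2 : m2 (a * X - X * a) ≤ r) : m2 (a * Y - Y * a) ≤ r + 4 * ε := by
  have h3 : a * Y - Y * a = (a * X - X * a) + (a * (Y - X) + (X - Y) * a) := by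
    rw [mul_sub, sub_mul]; abel
  rw [h3]
  have h4 := m2_add (a * X - X * a) (a * (Y - X) + (X - Y) * a)
  have h5 := m2_add (a * (Y - X)) ((X - Y) * a)
  have h6 := neg_mat_contr ha hp (Y - X)
  have h7 := neg_mat_contr_r ha hp (X - Y)
  rw [m2_sub_comm Y X] at h6
  linarith

theorem neg_mat_key [Nonempty ι] {G : Type} [Group G] [Fintype G] [DecidableEq G]
    {ε : ℝ} (hε0 : 0 ≤ ε) (hε1 : ε ≤ 6 / 10 ^ 11)
    {C : Matrix ι ι ℂ} {f : G → Matrix ι ι ℂ} (h : Apx ε C f) :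
    ∃ Q : Matrix ((G × G × G) × ι) ((G × G × G) × ι) ℂ, Inv Q ∧
      99 / 100 ≤ (Matrix.trace Q).re / Fintype.card ι ∧
      (Matrix.trace Q).re / Fintype.card ι ≤ 101 / 100 ∧
      ∀ E : Matrix ((G × G × G) × ι) ((G × G × G) × ι) ℂ, Inv E → E * Q = E →
        (Matrix.trace E).re / Fintype.card ι ≤ 2 / 100 ∨
        98 / 100 ≤ (Matrix.trace E).re / Fintype.card ι := by
  obtain ⟨hf1, _, _⟩ := apx_group (by linarith) h
  have hF : ∀ γ, Fp C f γ ∈ unitary (Matrix ι ι ℂ) := Fp_unitary h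
  have hmul := Fp_mul h
  have hs0 : 0 ≤ 6 * ε := by linarith
  obtain ⟨Q, hQ, hQc⟩ := exists_Q hF hs0 (by linarith) hmul
  have hc0 : 0 ≤ 72 * ε := by linarith
  have hc1 : 72 * ε ≤ 1 / 100 := by linarith
  have hQc' : hs (Q - Jm (Fp C f) * (Jm (Fp C f)).conjTranspose) ≤
      72 * ε * Fintype.card ι := by
    refine hQc.trans (le_of_eq ?_)
    ring
  have hsq : Real.sqrt (72 * ε) ≤ 1 / 10 ^ 4 := by
    rw [show (1 : ℝ) / 10 ^ 4 = Real.sqrt ((1 / 10 ^ 4) ^ 2) by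
      rw [Real.sqrt_sq (by positivity)]]
    apply Real.sqrt_le_sqrt
    norm_num
    linarith
  have hsq0 := Real.sqrt_nonneg (72 * ε)
  refine ⟨Q, hQ, ?_, ?_, ?_⟩
  · obtain ⟨_, _, _, _, _, q6⟩ := compress hF hs0 hc0 hc1 hmul hQ hQc' hQ hQ.idem
    have := (abs_le.mp q6).1
    linarith
  · obtain ⟨_, _, _, _, _, q6⟩ := compress hF hs0 hc0 hc1 hmul hQ hQc' hQ hQ.idem
    have := (abs_le.mp q6).2
    linarith
  · intro E hE hEQ
    obtain ⟨q1, q2, q3, q4, q5, _⟩ := compress hF hs0 hc0 hc1 hmul hQ hQc' hE hEQ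
    have hdi := dichotomy (t := 2 * Real.sqrt (72 * ε) + 2 * (6 * ε) + 4 * ε)
      (by linarith) (by linarith) h q1 q2 (by linarith)
      (fun g => neg_mat_near q1 q2 (Fp_near h hf1 g).1 (q4 (g, 1, 1)))
      (fun g => neg_mat_near q1 q2 (Fp_near h hf1 g).2.1 (q4 (1, g, 1)))
      (fun g => neg_mat_near q1 q2 (Fp_near h hf1 g).2.2 (q4 (1, 1, g)))
    have q5' := abs_le.mp q5
    rcases hdi with hd | hd
    · left
      linarith [q5'.2]
    · right
      linarith [q5'.1]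

theorem neg_mat_min {Γ : Type} [Group Γ] [Fintype Γ] [DecidableEq Γ]
    {Q : Matrix (Γ × ι) (Γ × ι) ℂ} (hQ : Inv Q) (n : ℝ) (hn : 0 < n)
    (hQ1 : 1 / 2 * n ≤ (Matrix.trace Q).re)
    (hd : ∀ E : Matrix (Γ × ι) (Γ × ι) ℂ, Inv E → E * Q = E →
      ((Matrix.trace E).re ≤ 2 / 100 * n ∨ 98 / 100 * n ≤ (Matrix.trace E).re)) :
    ∃ E : Matrix (Γ × ι) (Γ × ι) ℂ, Inv E ∧ E * Q = E ∧ E ≠ 0 ∧
      98 / 100 * n ≤ (Matrix.trace E).re ∧
      ∀ E' : Matrix (Γ × ι) (Γ × ι) ℂ, Inv E' → E' * E = E' → E' = 0 ∨ E' = E := by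
  classical
  have hex : ∃ d : ℕ, ∃ E : Matrix (Γ × ι) (Γ × ι) ℂ, Inv E ∧ E * Q = E ∧
      Matrix.trace E = d ∧ 1 / 2 * n ≤ (d : ℝ) := by
    obtain ⟨d, hd1, _⟩ := trace_nat hQ.idem hQ.herm
    refine ⟨d, Q, hQ, hQ.idem, hd1, ?_⟩
    rw [hd1, Complex.natCast_re] at hQ1
    exact hQ1
  obtain ⟨E, hE, hEQ, htr, hhalf⟩ := Nat.find_spec hex
  have hmin := fun (m : ℕ) (hm : m < Nat.find hex) => Nat.find_min hex hm
  generalize Nat.find hex = d at htr hhalf hmin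
  have hlow : ∀ (E' : Matrix (Γ × ι) (Γ × ι) ℂ) (d' : ℕ), Inv E' → E' * Q = E' →
      Matrix.trace E' = d' → d' < d → (d' : ℝ) ≤ 2 / 100 * n := by
    intro E' d' h1 h2 h3 h4
    have h5 : (d' : ℝ) < 1 / 2 * n := by
      by_contra h6
      exact hmin d' h4 ⟨E', h1, h2, h3, not_lt.mp h6⟩
    have h7 := hd E' h1 h2
    rw [h3, Complex.natCast_re] at h7
    rcases h7 with h7 | h7
    · exact h7
    · linarith
  refine ⟨E, hE, hEQ, ?_, ?_, ?_⟩
  · rintro rfl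
    rw [Matrix.trace_zero] at htr
    have : (d : ℂ) = 0 := htr.symm
    rw [Nat.cast_eq_zero] at this
    rw [this, Nat.cast_zero] at hhalf
    linarith
  · have h7 := hd E hE hEQ
    rw [htr, Complex.natCast_re] at h7 ⊢
    rcases h7 with h7 | h7
    · linarith
    · exact h7
  · intro E' hE' hE'E
    by_contra hcon
    push Not at hcon
    obtain ⟨hne0, hneE⟩ := hcon
    have hEE' : E * E' = E' := by
      have h1 := congrArg Matrix.conjTranspose hE'E
      rw [Matrix.conjTranspose_mul, hE.herm, hE'.herm] at h1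
      exact h1
    have hE'Q : E' * Q = E' := by
      rw [← hE'E, mul_assoc, hEQ]
    have hD : Inv (E - E') := by
      refine ⟨?_, ?_, fun g => ?_⟩
      · rw [sub_mul, mul_sub, mul_sub, hE.idem, hEE', hE'E, hE'.idem]
        abel
      · rw [Matrix.conjTranspose_sub, hE.herm, hE'.herm]
      · rw [sub_mul, mul_sub, hE.comm, hE'.comm]
    have hDQ : (E - E') * Q = E - E' := by rw [sub_mul, hEQ, hE'Q]
    obtain ⟨d1, h11, h12⟩ := trace_nat hE'.idem hE'.herm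
    obtain ⟨d2, h21, h22⟩ := trace_nat hD.idem hD.herm
    have hd1 : d1 ≠ 0 := fun h0 => hne0 (h12 h0)
    have hd2 : d2 ≠ 0 := fun h0 => hneE (sub_eq_zero.mp (h22 h0)).symm
    have hsum : d1 + d2 = d := by
      have h3 : (d : ℂ) = d1 + d2 := by
        rw [← htr, ← h11, ← h21, Matrix.trace_sub]
        ring
      exact_mod_cast h3.symm
    have hl1 := hlow E' d1 hE' hE'Q h11 (by omega)
    have hl2 := hlow (E - E') d2 hD hDQ h21 (by omega)
    have hsum' : (d1 : ℝ) + d2 = d := by exact_mod_cast hsum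
    linarith

end

/-- JOB: assembly of the negative side (same statement as neg_matrix in NegStmt.lean, whose sorry
must not be used). -/
theorem neg_mat : ∃ η : ℝ, 0 < η ∧ ∀ (ι : Type) [Fintype ι] [DecidableEq ι] (j : ℕ),
    Fintype.card ι = 3 * 2 ^ j → ∀ (C : Matrix ι ι ℂ) (S : Set (Matrix ι ι ℂ)), ¬ Bad η C S := by
  refine ⟨1 / 10 ^ 24, by positivity, ?_⟩
  intro ι _ _ j hcard C S hbad
  have hne : Nonempty ι := by
    rw [← Fintype.card_pos_iff, hcard]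
    positivity
  obtain ⟨G, _, _, _, f, hapx⟩ := exists_apx (by positivity) (by norm_num) hbad
  have hsq : Real.sqrt ((1 : ℝ) / 10 ^ 24) = 1 / 10 ^ 12 := by
    rw [show (1 : ℝ) / 10 ^ 24 = (1 / 10 ^ 12) ^ 2 by norm_num]
    exact Real.sqrt_sq (by positivity)
  have hε0 : 0 ≤ 60 * Real.sqrt ((1 : ℝ) / 10 ^ 24) := by positivity
  have hε1 : 60 * Real.sqrt ((1 : ℝ) / 10 ^ 24) ≤ 6 / 10 ^ 11 := by
    rw [hsq]; norm_num
  obtain ⟨_, ⟨z, hz1, hz2, hz3⟩, s, hs⟩ := apx_group (by linarith) hapx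
  obtain ⟨Q, hQ, hQ1, hQ2, hQd⟩ := neg_mat_key hε0 hε1 hapx
  have hn : (0 : ℝ) < Fintype.card ι := by exact_mod_cast Fintype.card_pos
  rw [le_div_iff₀ hn] at hQ1
  rw [div_le_iff₀ hn] at hQ2
  obtain ⟨E, hE, hEQ, hE0, hEtr, hEmin⟩ := neg_mat_min hQ (Fintype.card ι : ℝ) hn
    (by linarith) (fun E h1 h2 => by
      have h3 := hQd E h1 h2
      rw [le_div_iff₀ hn, div_le_iff₀ hn] at h3
      exact h3)
  have hΓ : ∃ s' : ℕ, Fintype.card (G × G × G) = 2 ^ s' := by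
    refine ⟨s + (s + s), ?_⟩
    rw [Fintype.card_prod, Fintype.card_prod, hs, pow_add, pow_add]
  have hcom : ∀ γ δ : G × G × G, ∃ z' : G × G × G, (∀ x, z' * x = x * z') ∧ z' * z' = 1 ∧
      γ * δ = z' * (δ * γ) := by
    have h1 : ∀ g h : G, ∃ w : G, (∀ x, w * x = x * w) ∧ w * w = 1 ∧ g * h = w * (h * g) := by
      intro g h
      rcases hz3 g h with h4 | h4
      · exact ⟨1, fun x => by rw [one_mul, mul_one], by rw [one_mul], by rw [one_mul, h4]⟩
      · exact ⟨z, hz1, hz2, h4⟩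
    rintro ⟨g1, g2, g3⟩ ⟨h1', h2', h3'⟩
    obtain ⟨w1, a1, b1, c1⟩ := h1 g1 h1'
    obtain ⟨w2, a2, b2, c2⟩ := h1 g2 h2'
    obtain ⟨w3, a3, b3, c3⟩ := h1 g3 h3'
    refine ⟨(w1, w2, w3), ?_, ?_, ?_⟩
    · rintro ⟨x1, x2, x3⟩
      simp only [Prod.mk_mul_mk, a1, a2, a3]
    · simp only [Prod.mk_mul_mk, b1, b2, b3]
      rfl
    · simp only [Prod.mk_mul_mk, ← c1, ← c2, ← c3]
  obtain ⟨l, hl⟩ := irr_dim hΓ hcom hE hE0 hEmin
  -- upper bound of the trace
  have hEupper : (Matrix.trace E).re ≤ (Matrix.trace Q).re := by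
    have hQE : Q * E = E := by
      have h1 := congrArg Matrix.conjTranspose hEQ
      rw [Matrix.conjTranspose_mul, hE.herm, hQ.herm] at h1
      exact h1
    have h2 : (Q - E) * (Q - E) = Q - E := by
      rw [sub_mul, mul_sub, mul_sub, hQ.idem, hQE, hEQ, hE.idem]
      abel
    have h3 : (Q - E).conjTranspose = Q - E := by
      rw [Matrix.conjTranspose_sub, hE.herm, hQ.herm]
    obtain ⟨d, hd, _⟩ := trace_nat h2 h3
    rw [Matrix.trace_sub] at hd
    have h4 := congrArg Complex.re hd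
    rw [Complex.sub_re, Complex.natCast_re] at h4
    have h5 : (0 : ℝ) ≤ d := Nat.cast_nonneg d
    linarith
  have hl' : (Matrix.trace E).re = (2 : ℝ) ^ l := by
    rw [hl]
    norm_cast
  rw [hl'] at hEtr hEupper
  have hcard' : (Fintype.card ι : ℝ) = 3 * 2 ^ j := by
    rw [hcard]; push_cast; ring
  rw [hcard'] at hEtr hQ2
  have hj : (0 : ℝ) < 2 ^ j := by positivity
  rcases Nat.lt_or_ge l (j + 2) with hlt | hge
  · have h6 : (2 : ℝ) ^ l ≤ 2 ^ (j + 1) := pow_le_pow_right₀ (by norm_num) (by omega)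
    rw [pow_succ] at h6
    linarith
  · have h6 : (2 : ℝ) ^ (j + 2) ≤ 2 ^ l := pow_le_pow_right₀ (by norm_num) hge
    rw [pow_add] at h6
    linarith

end Pool.Agent.Helper436.AD
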