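import Mathlib
import Pool.Agent.Helper436.AD.N9
import Pool.Agent.Helper436.AD.Base

set_option autoImplicit false
set_option linter.unusedSectionVars false

namespace Pool.Agent.Helper436.AD

open Pool.Agent.Helper278

theorem t3_n2s {ι : Type} [Fintype ι] [DecidableEq ι] (x : Matrix ι ι ℂ) : n2s nt x = ms x := by
  unfold n2s nt
  rw [ms_eq, hs_eq, Matrix.star_eq_conjTranspose]
  have h : ((Fintype.card ι : ℝ) : ℂ) = (Fintype.card ι : ℂ) := by norm_cast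
  rw [← h, Complex.div_ofReal_re]

theorem t3_pos (t : ℝ) : 0 ≤ pos t := le_max_left _ _

theorem t3_le_pos (t : ℝ) : t ≤ pos t := le_max_right _ _

theorem t3_n2s_nonneg {ι : Type} [Fintype ι] [DecidableEq ι] (x : Matrix ι ι ℂ) : 0 ≤ n2s nt x := by
  rw [t3_n2s]; exact ms_nonneg x

theorem t3_dd_nonneg {ι : Type} [Fintype ι] [DecidableEq ι] (p : Fin 13 → Matrix ι ι ℂ)
    (x : Matrix ι ι ℂ) : 0 ≤ dd nt p x := by
  unfold dd
  have h := fun y : Matrix ι ι ℂ => t3_n2s_nonneg y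
  have a0 := h (x ^ 4 - 1)
  have a1 := h (cmt (p 0) x)
  have a2 := h (cmt (p 1) x)
  have a3 := h (cmt (p 2) x)
  have a4 := h (cmt (p 3) x)
  have a5 := h (cmt (p 4) x)
  have b1 := h (cmt (p 5) (yy (p 11) x))
  have b2 := h (cmt (p 6) (yy (p 11) x))
  have b3 := h (cmt (p 7) (yy (p 11) x))
  have b4 := h (cmt (p 8) (yy (p 11) x))
  have b5 := h (cmt (p 9) (yy (p 11) x))
  have b6 := h (cmt (p 10) (yy (p 11) x))
  linarith

theorem t3_dd_four {ι : Type} [Fintype ι] [DecidableEq ι] (p : Fin 13 → Matrix ι ι ℂ)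
    (x : Matrix ι ι ℂ) : n2s nt (x ^ 4 - 1) ≤ dd nt p x := by
  unfold dd
  have h := fun y : Matrix ι ι ℂ => t3_n2s_nonneg y
  have a1 := h (cmt (p 0) x)
  have a2 := h (cmt (p 1) x)
  have a3 := h (cmt (p 2) x)
  have a4 := h (cmt (p 3) x)
  have a5 := h (cmt (p 4) x)
  have b1 := h (cmt (p 5) (yy (p 11) x))
  have b2 := h (cmt (p 6) (yy (p 11) x))
  have b3 := h (cmt (p 7) (yy (p 11) x))
  have b4 := h (cmt (p 8) (yy (p 11) x))
  have b5 := h (cmt (p 9) (yy (p 11) x))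
  have b6 := h (cmt (p 10) (yy (p 11) x))
  linarith

theorem t3_dd_I {ι : Type} [Fintype ι] [DecidableEq ι] (p : Fin 13 → Matrix ι ι ℂ)
    (hp : p 11 ∈ unitary (Matrix ι ι ℂ)) : dd nt p (Complex.I • (1 : Matrix ι ι ℂ)) = 0 := by
  have h0 : n2s nt (0 : Matrix ι ι ℂ) = 0 := by
    rw [t3_n2s]; simp [ms]
  have hc : ∀ y : Matrix ι ι ℂ, cmt y (Complex.I • (1 : Matrix ι ι ℂ)) = 0 := by
    intro y; unfold cmt; simp
  have hc1 : ∀ y : Matrix ι ι ℂ, cmt y (1 : Matrix ι ι ℂ) = 0 := by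
    intro y; unfold cmt; simp
  have hy : yy (p 11) (Complex.I • (1 : Matrix ι ι ℂ)) = 1 := by
    unfold yy
    have h1 : p 11 * star (p 11) = 1 := (Unitary.mem_iff.mp hp).2
    rw [star_smul, star_one]
    simp only [smul_mul_assoc, mul_smul_comm, one_mul, mul_one, smul_smul, h1]
    have : Complex.I * star Complex.I = 1 := by simp
    have h2 : star Complex.I * Complex.I = 1 := by simp
    simp [h2]
  have h4 : (Complex.I • (1 : Matrix ι ι ℂ)) ^ 4 = 1 := by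
    rw [smul_pow, Complex.I_pow_four, one_pow, one_smul]
  unfold dd
  rw [hy, h4]
  simp only [hc, hc1, sub_self, h0]
  norm_num

theorem t3_I_unitary {ι : Type} [Fintype ι] [DecidableEq ι] :
    (Complex.I • (1 : Matrix ι ι ℂ)) ∈ unitary (Matrix ι ι ℂ) := by
  rw [Unitary.mem_iff]
  constructor
  · rw [star_smul, star_one]
    simp [smul_smul]
  · rw [star_smul, star_one]
    simp [smul_smul]

theorem t3_bad_mono {ι : Type} [Fintype ι] [DecidableEq ι] {η η' : ℝ} (h : η' ≤ η)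
    {C : Matrix ι ι ℂ} {S : Set (Matrix ι ι ℂ)} (hB : Bad η' C S) : Bad η C S where
  hC := hB.hC
  hS := hB.hS
  s1 := fun x hx y hy => (hB.s1 x hx y hy).imp (fun k => k.trans h) id
  s2 := fun x hx y hy => by
    obtain ⟨z, hz, hz2⟩ := hB.s2 x hx y hy
    exact ⟨z, hz, hz2.trans h⟩
  s3 := fun x hx y hy => (hB.s3 x hx y hy).imp (fun k => k.trans h) (fun k => k.trans h)
  s4 := fun x hx y hy => (hB.s4 x hx y hy).trans h
  s4' := fun x hx y hy => (hB.s4' x hx y hy).trans h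
  s5 := hB.s5
  s6 := fun x hx => (hB.s6 x hx).trans h
  s7 := fun u hu => by
    obtain ⟨x, hx, hx2⟩ := hB.s7 u hu
    exact ⟨x, hx, hx2.trans (by linarith)⟩

/-- JOB: the sentence fails in matrix algebras of size `3 * 2 ^ j`. -/
theorem neg_FF : ∃ c : ℝ, 0 < c ∧ ∀ (ι : Type) [Fintype ι] [DecidableEq ι] (j : ℕ),
    Fintype.card ι = 3 * 2 ^ j → ∀ p : Fin 13 → Matrix ι ι ℂ, UU Set.univ p →
      ∃ w : Fin 6 → Matrix ι ι ℂ, UU Set.univ w ∧ ∀ z : Fin 2 → Matrix ι ι ℂ, UU Set.univ z →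
        c ≤ FF (10 ^ 8) nt p w z := by
  obtain ⟨η0, hη0, hneg⟩ := neg_mat
  set η := min η0 (1 / 4) with hη
  have hηpos : 0 < η := lt_min hη0 (by norm_num)
  have hη4 : η ≤ 1 / 4 := min_le_right _ _
  set δ := η / (4 * 10 ^ 8) with hδ
  have hδpos : 0 < δ := by positivity
  have hKδ : (10 : ℝ) ^ 8 * (δ + δ) = η / 2 := by rw [hδ]; ring
  have hδη : δ ≤ η / 2 := by rw [hδ]; linarith [hηpos]
  refine ⟨δ, hδpos, ?_⟩
  intro ι _ _ j hcard p hp
  by_contra hcon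
  push Not at hcon
  refine hneg ι j hcard (p 12) {x | x ∈ unitary (Matrix ι ι ℂ) ∧ dd nt p x ≤ δ} ?_
  refine t3_bad_mono (min_le_left η0 (1 / 4)) ?_
  -- consequences of `FF < δ`
  have key : ∀ (w : Fin 6 → Matrix ι ι ℂ) (z : Fin 2 → Matrix ι ι ℂ), FF (10 ^ 8) nt p w z < δ →
      min (n2s nt (w 0 - w 1)) (pos (1 - n2s nt (w 0 - w 1))) ≤
        10 ^ 8 * (dd nt p (w 0) + dd nt p (w 1)) + δ ∧
      dd nt p (z 0) ≤ δ ∧
      n2s nt (w 0 * w 1 - z 0) ≤ 10 ^ 8 * (dd nt p (w 0) + dd nt p (w 1)) + δ ∧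
      min (n2s nt (w 0 * w 1 - w 1 * w 0)) (n2s nt (w 0 * w 1 + w 1 * w 0)) ≤
        10 ^ 8 * (dd nt p (w 0) + dd nt p (w 1)) + δ ∧
      n2s nt (cmt (w 0) (cj1 p (w 1))) ≤ 10 ^ 8 * (dd nt p (w 0) + dd nt p (w 1)) + δ ∧
      n2s nt (cmt (w 0) (cj2 p (w 1))) ≤ 10 ^ 8 * (dd nt p (w 0) + dd nt p (w 1)) + δ ∧
      dd nt p (z 1) ≤ δ ∧
      vr nt (s4 w) ≤ 5 * (n2s nt (cmt (z 1) (s4 w)) + n2s nt (cmt (cj1 p (z 1)) (s4 w)) +
        n2s nt (cmt (cj2 p (z 1)) (s4 w))) + δ := by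
    intro w z hF
    unfold FF at hF
    set P := (10 : ℝ) ^ 8 * (dd nt p (w 0) + dd nt p (w 1)) with hP
    have a1 := t3_pos (min (n2s nt (w 0 - w 1)) (pos (1 - n2s nt (w 0 - w 1))) - P)
    have a1' := t3_le_pos (min (n2s nt (w 0 - w 1)) (pos (1 - n2s nt (w 0 - w 1))) - P)
    have a2 := t3_dd_nonneg p (z 0)
    have a3 := t3_pos (n2s nt (w 0 * w 1 - z 0) - P)
    have a3' := t3_le_pos (n2s nt (w 0 * w 1 - z 0) - P)
    have a4 := t3_pos (min (n2s nt (w 0 * w 1 - w 1 * w 0)) (n2s nt (w 0 * w 1 + w 1 * w 0)) - P)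
    have a4' := t3_le_pos (min (n2s nt (w 0 * w 1 - w 1 * w 0)) (n2s nt (w 0 * w 1 + w 1 * w 0)) - P)
    have a5 := t3_pos (n2s nt (cmt (w 0) (cj1 p (w 1))) - P)
    have a5' := t3_le_pos (n2s nt (cmt (w 0) (cj1 p (w 1))) - P)
    have a6 := t3_pos (n2s nt (cmt (w 0) (cj2 p (w 1))) - P)
    have a6' := t3_le_pos (n2s nt (cmt (w 0) (cj2 p (w 1))) - P)
    have a7 := t3_dd_nonneg p (z 1)
    have a8 := t3_pos (vr nt (s4 w) - 5 * (n2s nt (cmt (z 1) (s4 w)) +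
      n2s nt (cmt (cj1 p (z 1)) (s4 w)) + n2s nt (cmt (cj2 p (z 1)) (s4 w))))
    have a8' := t3_le_pos (vr nt (s4 w) - 5 * (n2s nt (cmt (z 1) (s4 w)) +
      n2s nt (cmt (cj1 p (z 1)) (s4 w)) + n2s nt (cmt (cj2 p (z 1)) (s4 w))))
    refine ⟨?_, ?_, ?_, ?_, ?_, ?_, ?_, ?_⟩ <;> linarith
  have hone : (1 : Matrix ι ι ℂ) ∈ unitary (Matrix ι ι ℂ) := one_mem _
  -- pairs of elements of S
  have pairs : ∀ x y : Matrix ι ι ℂ, x ∈ unitary (Matrix ι ι ℂ) → dd nt p x ≤ δ →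
      y ∈ unitary (Matrix ι ι ℂ) → dd nt p y ≤ δ →
      min (n2s nt (x - y)) (pos (1 - n2s nt (x - y))) ≤ η ∧
      (∃ z ∈ {x | x ∈ unitary (Matrix ι ι ℂ) ∧ dd nt p x ≤ δ}, n2s nt (x * y - z) ≤ η) ∧
      min (n2s nt (x * y - y * x)) (n2s nt (x * y + y * x)) ≤ η ∧
      n2s nt (cmt x (cj1 p y)) ≤ η ∧ n2s nt (cmt x (cj2 p y)) ≤ η := by
    intro x y hx hdx hy hdy
    have hU : UU Set.univ (![x, y, 1, 1, 1, 1] : Fin 6 → Matrix ι ι ℂ) := by
      intro i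
      refine ⟨?_, Set.mem_univ _⟩
      fin_cases i
      · exact hx
      · exact hy
      · exact hone
      · exact hone
      · exact hone
      · exact hone
    obtain ⟨z, hz, hF⟩ := hcon _ hU
    obtain ⟨k1, k2, k3, k4, k5, k6, -, -⟩ := key _ _ hF
    have e0 : (![x, y, 1, 1, 1, 1] : Fin 6 → Matrix ι ι ℂ) 0 = x := rfl
    have e1 : (![x, y, 1, 1, 1, 1] : Fin 6 → Matrix ι ι ℂ) 1 = y := rfl
    rw [e0, e1] at k1 k3 k4 k5 k6
    have hb : (10 : ℝ) ^ 8 * (dd nt p x + dd nt p y) + δ ≤ η := by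
      have : (10 : ℝ) ^ 8 * (dd nt p x + dd nt p y) ≤ 10 ^ 8 * (δ + δ) :=
        mul_le_mul_of_nonneg_left (add_le_add hdx hdy) (by positivity)
      linarith
    exact ⟨k1.trans hb, ⟨z 0, ⟨(hz 0).1, k2⟩, k3.trans hb⟩, k4.trans hb, k5.trans hb, k6.trans hb⟩
  refine ⟨(hp 12).1, fun x hx => hx.1, ?_, ?_, ?_, ?_, ?_, ?_, ?_, ?_⟩
  · intro x hx y hy
    have h1 := (pairs x y hx.1 hx.2 hy.1 hy.2).1
    rw [t3_n2s] at h1
    rcases min_le_iff.mp h1 with h | h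
    · exact Or.inl h
    · right
      have := t3_le_pos (1 - ms (x - y))
      linarith
  · intro x hx y hy
    obtain ⟨z, hz, hz2⟩ := (pairs x y hx.1 hx.2 hy.1 hy.2).2.1
    rw [t3_n2s] at hz2
    exact ⟨z, hz, hz2⟩
  · intro x hx y hy
    have h1 := (pairs x y hx.1 hx.2 hy.1 hy.2).2.2.1
    rw [t3_n2s, t3_n2s] at h1
    exact min_le_iff.mp h1
  · intro x hx y hy
    have h1 := (pairs x y hx.1 hx.2 hy.1 hy.2).2.2.2.1
    rw [t3_n2s] at h1
    exact h1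
  · intro x hx y hy
    have h1 := (pairs x y hx.1 hx.2 hy.1 hy.2).2.2.2.2
    rw [t3_n2s] at h1
    exact h1
  · refine ⟨t3_I_unitary, ?_⟩
    rw [t3_dd_I p (hp 11).1]
    exact hδpos.le
  · intro x hx
    have h1 := t3_dd_four p x
    rw [t3_n2s] at h1
    have := hx.2
    linarith
  · intro u hu
    have hU : UU Set.univ (![Complex.I • (1 : Matrix ι ι ℂ), Complex.I • (1 : Matrix ι ι ℂ),
        u 0, u 1, u 2, u 3] : Fin 6 → Matrix ι ι ℂ) := by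
      intro i
      refine ⟨?_, Set.mem_univ _⟩
      fin_cases i
      · exact t3_I_unitary
      · exact t3_I_unitary
      · exact hu 0
      · exact hu 1
      · exact hu 2
      · exact hu 3
    obtain ⟨z, hz, hF⟩ := hcon _ hU
    obtain ⟨-, -, -, -, -, -, k7, k8⟩ := key _ _ hF
    refine ⟨z 1, ⟨(hz 1).1, k7⟩, ?_⟩
    have es : s4 (![Complex.I • (1 : Matrix ι ι ℂ), Complex.I • (1 : Matrix ι ι ℂ),
        u 0, u 1, u 2, u 3] : Fin 6 → Matrix ι ι ℂ) = ∑ i, u i := by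
      rw [Fin.sum_univ_four]; rfl
    rw [es] at k8
    unfold vr at k8
    simp only [t3_n2s] at k8
    unfold nt cmt cj1 cj2 at k8
    linarith

end Pool.Agent.Helper436.AD
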