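import Mathlib
import Pool.Agent.Helper436.AD.G0
import Pool.Agent.Helper436.AD.G1
import Pool.Agent.Helper436.AD.N0

set_option autoImplicit false
set_option linter.unusedSectionVars false

namespace Pool.Agent.Helper436.AD

open Pool.Agent.Helper278 Pool.Agent.Helper278.CE Pool.Agent.Helper436.SM Pool.Agent.Helper436.SN

variable {A : Type} [Ring A] [StarRing A] [Algebra ℂ A] [StarModule ℂ A] {τ : A →ₗ[ℂ] ℂ}
  {W : VV → A}

/-- dot product mod 2 -/
def dtm {n : ℕ} (y t : Fin n → ZMod 2) : ZMod 2 := ∑ i, y i * t i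

theorem dtm_add_left {n : ℕ} (y z t : Fin n → ZMod 2) : dtm (y + z) t = dtm y t + dtm z t := by
  unfold dtm
  rw [← Finset.sum_add_distrib]
  exact Finset.sum_congr rfl (fun i _ => by rw [Pi.add_apply, add_mul])

theorem dtm_add_right {n : ℕ} (y t u : Fin n → ZMod 2) : dtm y (t + u) = dtm y t + dtm y u := by
  unfold dtm
  rw [← Finset.sum_add_distrib]
  exact Finset.sum_congr rfl (fun i _ => by rw [Pi.add_apply, mul_add])

theorem dtm_zero_left {n : ℕ} (t : Fin n → ZMod 2) : dtm 0 t = 0 := by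
  unfold dtm
  simp

theorem dtm_zero_right {n : ℕ} (t : Fin n → ZMod 2) : dtm t 0 = 0 := by
  unfold dtm
  simp

theorem dtm_comm {n : ℕ} (y t : Fin n → ZMod 2) : dtm y t = dtm t y := by
  unfold dtm
  exact Finset.sum_congr rfl (fun i _ => mul_comm _ _)

theorem zz_add_self (a : ZMod 2) : a + a = 0 := CharTwo.add_self_eq_zero a

theorem fz_add_self {n : ℕ} (y : Fin n → ZMod 2) : y + y = 0 := by
  funext i
  exact zz_add_self _

theorem fz_add_eq_zero {n : ℕ} (y t : Fin n → ZMod 2) : y + t = 0 ↔ y = t := by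
  constructor
  · intro h
    have h1 : y + t + t = t := by rw [h, zero_add]
    rwa [add_assoc, fz_add_self, add_zero] at h1
  · rintro rfl
    exact fz_add_self _

theorem sg_zero' : SM.sg 0 = 1 := by
  unfold SM.sg
  rw [if_pos rfl]

theorem t4_sum_sg {n : ℕ} (u : Fin n → ZMod 2) :
    ∑ y : Fin n → ZMod 2, SM.sg (dtm y u) = if u = 0 then (2 : ℂ) ^ n else 0 := by
  by_cases hu : u = 0
  · subst hu
    rw [if_pos rfl]
    simp only [dtm_zero_right, sg_zero']
    simp [ZMod.card]
  · rw [if_neg hu]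
    obtain ⟨i, hi⟩ : ∃ i, u i ≠ 0 := by
      by_contra h
      push Not at h
      exact hu (funext h)
    have hi1 : u i = 1 := by
      revert hi
      generalize u i = a
      revert a
      decide
    have h1 : dtm (Pi.single i (1 : ZMod 2)) u = 1 := by
      unfold dtm
      rw [Finset.sum_eq_single i]
      · rw [Pi.single_eq_same, one_mul, hi1]
      · intro j _ hj
        rw [Pi.single_eq_of_ne hj, zero_mul]
      · intro h
        exact absurd (Finset.mem_univ _) h
    have h2 : ∑ y : Fin n → ZMod 2, SM.sg (dtm y u) =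
        ∑ y : Fin n → ZMod 2, SM.sg (dtm (y + Pi.single i 1) u) := by
      have h9 := Equiv.sum_comp (Equiv.addRight (Pi.single i (1 : ZMod 2) : Fin n → ZMod 2))
        (fun y => SM.sg (dtm y u))
      rw [← h9]
      refine Finset.sum_congr rfl (fun y _ => ?_)
      rw [Equiv.coe_addRight]
    have h3 : ∑ y : Fin n → ZMod 2, SM.sg (dtm (y + Pi.single i 1) u) =
        - ∑ y : Fin n → ZMod 2, SM.sg (dtm y u) := by
      rw [← Finset.sum_neg_distrib]
      refine Finset.sum_congr rfl (fun y _ => ?_)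
      rw [dtm_add_left, sg_add, h1]
      have : SM.sg 1 = -1 := by
        unfold SM.sg
        rw [if_neg one_ne_zero]
      rw [this]
      ring
    rw [h3] at h2
    have h4 : (2 : ℂ) * ∑ y : Fin n → ZMod 2, SM.sg (dtm y u) = 0 := by
      linear_combination h2
    exact (mul_eq_zero.1 h4).resolve_left two_ne_zero

/-- labels from pairs of functions -/
noncomputable def lbm {n : ℕ} (x y : Fin n → ZMod 2) : VV :=
  Finsupp.onFinset (Finset.range n)
    (fun i => if h : i < n then (x ⟨i, h⟩, y ⟨i, h⟩) else 0) (fun i hi => by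
      rw [Finset.mem_range]
      by_contra h
      exact hi (dif_neg h))

theorem lbm_of_lt {n : ℕ} (x y : Fin n → ZMod 2) (i : Fin n) : lbm x y (i : ℕ) = (x i, y i) := by
  show (if h : (i : ℕ) < n then (x ⟨i, h⟩, y ⟨i, h⟩) else 0) = _
  rw [dif_pos i.2]

theorem lbm_of_ge {n : ℕ} (x y : Fin n → ZMod 2) (i : ℕ) (hi : n ≤ i) : lbm x y i = 0 := by
  show (if h : (i : ℕ) < n then (x ⟨i, h⟩, y ⟨i, h⟩) else 0) = _
  rw [dif_neg (not_lt.2 hi)]

theorem lbm_add {n : ℕ} (x y x' y' : Fin n → ZMod 2) :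
    lbm x y + lbm x' y' = lbm (x + x') (y + y') := by
  apply Finsupp.ext
  intro i
  rw [Finsupp.add_apply]
  by_cases h : i < n
  · have e1 := lbm_of_lt x y ⟨i, h⟩
    have e2 := lbm_of_lt x' y' ⟨i, h⟩
    have e3 := lbm_of_lt (x + x') (y + y') ⟨i, h⟩
    simp only at e1 e2 e3
    rw [e1, e2, e3]
    rfl
  · rw [lbm_of_ge _ _ _ (not_lt.1 h), lbm_of_ge _ _ _ (not_lt.1 h),
      lbm_of_ge _ _ _ (not_lt.1 h), add_zero]

theorem lbm_zero {n : ℕ} : lbm (0 : Fin n → ZMod 2) 0 = 0 := by
  apply Finsupp.ext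
  intro i
  by_cases h : i < n
  · have e1 := lbm_of_lt (0 : Fin n → ZMod 2) 0 ⟨i, h⟩
    simp only at e1
    rw [e1]
    rfl
  · rw [lbm_of_ge _ _ _ (not_lt.1 h)]
    rfl

theorem lbm_eq_zero {n : ℕ} (x y : Fin n → ZMod 2) : lbm x y = 0 ↔ x = 0 ∧ y = 0 := by
  constructor
  · intro h
    constructor
    · funext i
      have h1 := lbm_of_lt x y i
      rw [h] at h1
      exact (congrArg Prod.fst h1).symm
    · funext i
      have h1 := lbm_of_lt x y i
      rw [h] at h1
      exact (congrArg Prod.snd h1).symm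
  · rintro ⟨rfl, rfl⟩
    exact lbm_zero

theorem bf_lbm {n : ℕ} (x y x' y' : Fin n → ZMod 2) : bf (lbm x y) (lbm x' y') = dtm y x' := by
  unfold bf
  rw [Finsupp.sum_of_support_subset (s := Finset.range n)]
  · rw [Finset.sum_range]
    unfold dtm
    refine Finset.sum_congr rfl (fun i _ => ?_)
    rw [lbm_of_lt, lbm_of_lt]
  · exact Finsupp.support_onFinset_subset
  · intro i _
    simp

theorem lbm_mem {n : ℕ} (x y : Fin n → ZMod 2) : lbm x y ∈ lab 0 n := by
  intro i hi
  rcases hi with hi | hi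
  · exact absurd hi (Nat.not_lt_zero _)
  · exact lbm_of_ge _ _ _ hi

theorem eq_lbm {n : ℕ} {v : VV} (hv : v ∈ lab 0 n) :
    v = lbm (fun i : Fin n => (v i).1) (fun i : Fin n => (v i).2) := by
  apply Finsupp.ext
  intro i
  by_cases h : i < n
  · have e1 := lbm_of_lt (fun i : Fin n => (v i).1) (fun i : Fin n => (v i).2) ⟨i, h⟩
    simp only at e1
    rw [e1]
  · rw [lbm_of_ge _ _ _ (not_lt.1 h)]
    exact hv i (Or.inr (not_lt.1 h))

theorem W_lbm_mul (h : PW τ W) {n : ℕ} (x y x' y' : Fin n → ZMod 2) :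
    W (lbm x y) * W (lbm x' y') = SM.sg (dtm y x') • W (lbm (x + x') (y + y')) := by
  rw [h.sys.mul, bf_lbm, lbm_add]

/-- the matrix units -/
noncomputable def mun (W : VV → A) {n : ℕ} (s t : Fin n → ZMod 2) : A :=
  ((2 : ℂ) ^ n)⁻¹ • ∑ y : Fin n → ZMod 2, SM.sg (dtm y t) • W (lbm (s + t) y)

theorem mun_mul (h : PW τ W) {n : ℕ} (s t s' t' : Fin n → ZMod 2) :
    mun W s t * mun W s' t' = if t = s' then mun W s t' else 0 := by
  have h2 : ((2 : ℂ) ^ n) ≠ 0 := pow_ne_zero _ two_ne_zero
  have key : (∑ y : Fin n → ZMod 2, SM.sg (dtm y t) • W (lbm (s + t) y)) *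
      (∑ y : Fin n → ZMod 2, SM.sg (dtm y t') • W (lbm (s' + t') y)) =
      ∑ z : Fin n → ZMod 2, (if t + s' = 0 then (2 : ℂ) ^ n else 0) •
        (SM.sg (dtm z t') • W (lbm (s + t + (s' + t')) z)) := by
    rw [Finset.sum_mul]
    have e1 : ∀ y : Fin n → ZMod 2, (SM.sg (dtm y t) • W (lbm (s + t) y)) *
        (∑ y : Fin n → ZMod 2, SM.sg (dtm y t') • W (lbm (s' + t') y)) =
        ∑ z : Fin n → ZMod 2, SM.sg (dtm y (t + s')) •
          (SM.sg (dtm z t') • W (lbm (s + t + (s' + t')) z)) := by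
      intro y
      rw [Finset.mul_sum]
      refine Fintype.sum_equiv (Equiv.addLeft y) _ _ (fun y' => ?_)
      show (SM.sg (dtm y t) • W (lbm (s + t) y)) * (SM.sg (dtm y' t') • W (lbm (s' + t') y')) =
        SM.sg (dtm y (t + s')) • (SM.sg (dtm (y + y') t') • W (lbm (s + t + (s' + t')) (y + y')))
      rw [smul_mul_assoc, mul_smul_comm, W_lbm_mul h, smul_smul, smul_smul, smul_smul]
      congr 1
      rw [dtm_add_left, dtm_add_right, dtm_add_right, sg_add, sg_add, sg_add]
      have := sg_mul_self (dtm y t')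
      linear_combination (0 : ℂ) * this
    rw [Finset.sum_congr rfl (fun y _ => e1 y), Finset.sum_comm]
    refine Finset.sum_congr rfl (fun z _ => ?_)
    rw [← Finset.sum_smul, t4_sum_sg]
  unfold mun
  rw [smul_mul_assoc, mul_smul_comm, key]
  by_cases hts : t = s'
  · subst hts
    rw [if_pos rfl, if_pos ((fz_add_eq_zero _ _).2 rfl), ← Finset.smul_sum, smul_smul, smul_smul,
      mul_assoc, inv_mul_cancel₀ h2, mul_one]
    have : s + t + (t + t') = s + t' := by
      rw [← add_assoc, add_assoc s t t, fz_add_self, add_zero]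
    rw [this]
  · rw [if_neg hts, if_neg (fun e => hts ((fz_add_eq_zero _ _).1 e))]
    simp

theorem mun_star (h : PW τ W) {n : ℕ} (s t : Fin n → ZMod 2) :
    star (mun W s t) = mun W t s := by
  unfold mun
  rw [star_smul, star_sum]
  have e0 : star (((2 : ℂ) ^ n)⁻¹) = ((2 : ℂ) ^ n)⁻¹ := by
    rw [star_inv₀, star_pow, star_ofNat]
  rw [e0]
  congr 1
  refine Finset.sum_congr rfl (fun y _ => ?_)
  rw [star_smul, SM.star_sg, h.sys.star, bf_lbm, smul_smul, add_comm t s]
  congr 1
  rw [dtm_add_right, sg_add]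
  have := sg_mul_self (dtm y t)
  linear_combination (SM.sg (dtm y s)) * this

theorem mun_sum (h : PW τ W) (n : ℕ) : ∑ s : Fin n → ZMod 2, mun W s s = 1 := by
  have h2 : ((2 : ℂ) ^ n) ≠ 0 := pow_ne_zero _ two_ne_zero
  unfold mun
  rw [← Finset.smul_sum, Finset.sum_comm]
  have e1 : ∀ y : Fin n → ZMod 2, ∑ s : Fin n → ZMod 2, SM.sg (dtm y s) • W (lbm (s + s) y) =
      (if y = 0 then (2 : ℂ) ^ n else 0) • W (lbm 0 y) := by
    intro y
    rw [← t4_sum_sg, Finset.sum_smul]
    refine Finset.sum_congr rfl (fun s _ => ?_)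
    rw [fz_add_self, dtm_comm]
  rw [Finset.sum_congr rfl (fun y _ => e1 y), Finset.sum_eq_single 0]
  · rw [if_pos rfl, smul_smul, inv_mul_cancel₀ h2, one_smul, lbm_zero, h.sys.zero]
  · intro y _ hy
    rw [if_neg hy, zero_smul]
  · intro h
    exact absurd (Finset.mem_univ _) h

theorem mun_tau (h : PW τ W) {n : ℕ} (s t : Fin n → ZMod 2) :
    τ (mun W s t) = if s = t then ((2 : ℂ) ^ n)⁻¹ else 0 := by
  unfold mun
  rw [map_smul, map_sum]
  by_cases hst : s = t
  · subst hst
    rw [if_pos rfl, Finset.sum_eq_single 0]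
    · rw [map_smul, h.sys.trace, if_pos ((lbm_eq_zero _ _).2 ⟨fz_add_self _, rfl⟩),
        dtm_zero_left, sg_zero']
      simp
    · intro y _ hy
      rw [map_smul, h.sys.trace, if_neg (fun e => hy ((lbm_eq_zero _ _).1 e).2), smul_zero]
    · intro h
      exact absurd (Finset.mem_univ _) h
  · rw [if_neg hst, Finset.sum_eq_zero, smul_zero]
    intro y _
    rw [map_smul, h.sys.trace,
      if_neg (fun e => hst ((fz_add_eq_zero _ _).1 ((lbm_eq_zero _ _).1 e).1)), smul_zero]

theorem W_eq_mun {n : ℕ} (W : VV → A) (x y : Fin n → ZMod 2) :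
    W (lbm x y) = ∑ t : Fin n → ZMod 2, SM.sg (dtm y t) • mun W (t + x) t := by
  have h2 : ((2 : ℂ) ^ n) ≠ 0 := pow_ne_zero _ two_ne_zero
  unfold mun
  have e1 : ∀ t : Fin n → ZMod 2, SM.sg (dtm y t) • (((2 : ℂ) ^ n)⁻¹ •
      ∑ y' : Fin n → ZMod 2, SM.sg (dtm y' t) • W (lbm (t + x + t) y')) =
      ((2 : ℂ) ^ n)⁻¹ • ∑ y' : Fin n → ZMod 2, SM.sg (dtm t (y + y')) • W (lbm x y') := by
    intro t
    rw [smul_comm]
    congr 1
    rw [Finset.smul_sum]
    refine Finset.sum_congr rfl (fun y' _ => ?_)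
    rw [smul_smul, ← sg_add, add_comm t x, add_assoc, fz_add_self, add_zero, dtm_add_right,
      dtm_comm t y, dtm_comm t y']
  rw [Finset.sum_congr rfl (fun t _ => e1 t), ← Finset.smul_sum, Finset.sum_comm]
  have e2 : ∀ y' : Fin n → ZMod 2, ∑ t : Fin n → ZMod 2, SM.sg (dtm t (y + y')) • W (lbm x y') =
      (if y + y' = 0 then (2 : ℂ) ^ n else 0) • W (lbm x y') := by
    intro y'
    rw [← t4_sum_sg, Finset.sum_smul]
  rw [Finset.sum_congr rfl (fun y' _ => e2 y'), Finset.sum_eq_single y]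
  · rw [if_pos (fz_add_self _), smul_smul, inv_mul_cancel₀ h2, one_smul]
  · intro y' _ hy
    rw [if_neg (fun e => hy ((fz_add_eq_zero _ _).1 e).symm), zero_smul]
  · intro h
    exact absurd (Finset.mem_univ _) h

/-- the homomorphism given by the matrix units -/
noncomputable def Phm (h : PW τ W) (n : ℕ) :
    Matrix (Fin n → ZMod 2) (Fin n → ZMod 2) ℂ →⋆ₐ[ℂ] A where
  toFun X := ∑ s, ∑ t, X s t • mun W s t
  map_one' := by
    rw [← mun_sum h n]
    refine Finset.sum_congr rfl (fun s _ => ?_)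
    rw [Finset.sum_eq_single s]
    · rw [Matrix.one_apply_eq, one_smul]
    · intro t _ ht
      rw [Matrix.one_apply_ne (Ne.symm ht), zero_smul]
    · intro h
      exact absurd (Finset.mem_univ _) h
  map_mul' X Y := by
    have e1 : (∑ s, ∑ t, X s t • mun W s t) * (∑ s, ∑ t, Y s t • mun W s t) =
        ∑ s, ∑ t, ∑ s', ∑ t', (X s t * Y s' t') • (if t = s' then mun W s t' else 0) := by
      rw [Finset.sum_mul]
      refine Finset.sum_congr rfl (fun s _ => ?_)
      rw [Finset.sum_mul]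
      refine Finset.sum_congr rfl (fun t _ => ?_)
      rw [Finset.mul_sum]
      refine Finset.sum_congr rfl (fun s' _ => ?_)
      rw [Finset.mul_sum]
      refine Finset.sum_congr rfl (fun t' _ => ?_)
      rw [smul_mul_assoc, mul_smul_comm, smul_smul, mun_mul h]
    rw [e1]
    refine Finset.sum_congr rfl (fun s _ => ?_)
    have e2 : ∀ t : Fin n → ZMod 2, (∑ s', ∑ t', (X s t * Y s' t') •
        (if t = s' then mun W s t' else 0)) = ∑ t', (X s t * Y t t') • mun W s t' := by
      intro t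
      rw [Finset.sum_eq_single t]
      · refine Finset.sum_congr rfl (fun t' _ => ?_)
        rw [if_pos rfl]
      · intro s' _ hs
        refine Finset.sum_eq_zero (fun t' _ => ?_)
        rw [if_neg (Ne.symm hs), smul_zero]
      · intro h
        exact absurd (Finset.mem_univ _) h
    rw [Finset.sum_congr rfl (fun t _ => e2 t), Finset.sum_comm]
    refine Finset.sum_congr rfl (fun t' _ => ?_)
    rw [Matrix.mul_apply, Finset.sum_smul]
  map_zero' := by
    simp
  map_add' X Y := by
    rw [← Finset.sum_add_distrib]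
    refine Finset.sum_congr rfl (fun s _ => ?_)
    rw [← Finset.sum_add_distrib]
    refine Finset.sum_congr rfl (fun t _ => ?_)
    rw [Matrix.add_apply, add_smul]
  commutes' c := by
    rw [Algebra.algebraMap_eq_smul_one (A := A) c, ← mun_sum h n, Finset.smul_sum]
    refine Finset.sum_congr rfl (fun s _ => ?_)
    rw [Finset.sum_eq_single s]
    · rw [Matrix.algebraMap_matrix_apply, if_pos rfl]
      rfl
    · intro t _ ht
      rw [Matrix.algebraMap_matrix_apply, if_neg (Ne.symm ht), zero_smul]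
    · intro h
      exact absurd (Finset.mem_univ _) h
  map_star' X := by
    rw [star_sum, Finset.sum_comm]
    refine Finset.sum_congr rfl (fun s _ => ?_)
    rw [star_sum]
    refine Finset.sum_congr rfl (fun t _ => ?_)
    rw [star_smul, mun_star h, Matrix.star_apply]

theorem Phm_apply (h : PW τ W) (n : ℕ) (X : Matrix (Fin n → ZMod 2) (Fin n → ZMod 2) ℂ) :
    Phm h n X = ∑ s, ∑ t, X s t • mun W s t := rfl

/-- JOB: the span of the Paulis with labels in `[0, n)` is a matrix algebra. -/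
theorem exists_model (h : PW τ W) (n : ℕ) :
    ∃ Φ : Matrix (Fin n → ZMod 2) (Fin n → ZMod 2) ℂ →⋆ₐ[ℂ] A,
      (∀ x, τ (Φ x) = nt x) ∧ Set.range Φ = (SP W (lab 0 n) : Set A) := by
  refine ⟨Phm h n, fun X => ?_, ?_⟩
  · rw [Phm_apply, map_sum]
    unfold nt
    rw [Matrix.trace, Finset.sum_div]
    refine Finset.sum_congr rfl (fun s _ => ?_)
    rw [map_sum, Finset.sum_eq_single s]
    · rw [map_smul, mun_tau h, if_pos rfl, Matrix.diag_apply, smul_eq_mul]
      simp [ZMod.card, div_eq_mul_inv]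
    · intro t _ ht
      rw [map_smul, mun_tau h, if_neg (Ne.symm ht), smul_zero]
    · intro h
      exact absurd (Finset.mem_univ _) h
  · apply Set.Subset.antisymm
    · rintro _ ⟨X, rfl⟩
      show Phm h n X ∈ SP W (lab 0 n)
      rw [Phm_apply]
      refine Submodule.sum_mem _ (fun s _ => Submodule.sum_mem _ (fun t _ =>
        Submodule.smul_mem _ _ ?_))
      unfold mun
      refine Submodule.smul_mem _ _ (Submodule.sum_mem _ (fun y _ =>
        Submodule.smul_mem _ _ ?_))
      exact Submodule.subset_span ⟨_, lbm_mem _ _, rfl⟩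
    · intro a ha
      have ha' : a ∈ Submodule.span ℂ (W '' (lab 0 n : Set VV)) := ha
      have hle : Submodule.span ℂ (W '' (lab 0 n : Set VV)) ≤
          LinearMap.range (Phm h n).toAlgHom.toLinearMap := by
        rw [Submodule.span_le]
        rintro _ ⟨v, hv, rfl⟩
        refine ⟨Matrix.of (fun s t => if s = t + (fun i : Fin n => (v i).1) then
          SM.sg (dtm (fun i : Fin n => (v i).2) t) else 0), ?_⟩
        show Phm h n _ = W v
        rw [Phm_apply]
        have hv' := eq_lbm hv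
        conv_rhs => rw [hv']
        rw [W_eq_mun W, Finset.sum_comm]
        refine Finset.sum_congr rfl (fun t _ => ?_)
        rw [Finset.sum_eq_single (t + (fun i : Fin n => (v i).1))]
        · rw [Matrix.of_apply, if_pos rfl]
        · intro s _ hs
          rw [Matrix.of_apply, if_neg hs, zero_smul]
        · intro h
          exact absurd (Finset.mem_univ _) h
      obtain ⟨X, hX⟩ := hle ha'
      exact ⟨X, hX⟩

end Pool.Agent.Helper436.AD
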