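import Mathlib
import Pool.Agent.Helper436.AD.T3
import Pool.Agent.Helper436.AD.T4
import Pool.Agent.Helper436.AD.LFF
import Pool.Agent.Helper436.AD.Los

set_option autoImplicit false
set_option linter.unusedSectionVars false

namespace Pool.Agent.Helper436.AD

open Pool.Agent.Helper278 Pool.Agent.Helper278.CE Pool.Agent.Helper436.SM Pool.Agent.Helper436.SN

/-- matrices with entries in `B` -/
def M3 {A : Type} (B : Set A) : Set (Matrix (Fin 3) (Fin 3) A) := {y | ∀ i j, y i j ∈ B}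

/- JOB: the theorems. -/

open Matrix ComplexOrder in
theorem mp_star_diag {ι : Type} [Fintype ι] [DecidableEq ι] (x : Matrix ι ι ℂ) :
    ∃ U ∈ unitary (Matrix ι ι ℂ), ∃ lam : ι → ℝ, (∀ i, 0 ≤ lam i) ∧
      star (x * U) * (x * U) = Matrix.diagonal (fun i => (lam i : ℂ)) := by
  have hA : (xᴴ * x).IsHermitian := Matrix.isHermitian_conjTranspose_mul_self x
  refine ⟨(hA.eigenvectorUnitary : Matrix ι ι ℂ), hA.eigenvectorUnitary.2, hA.eigenvalues, ?_, ?_⟩
  · exact (Matrix.posSemidef_conjTranspose_mul_self x).eigenvalues_nonneg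
  · have h := hA.conjStarAlgAut_star_eigenvectorUnitary
    rw [Unitary.conjStarAlgAut_star_apply] at h
    rw [star_mul, Matrix.mul_assoc, ← Matrix.mul_assoc (star x), ← Matrix.mul_assoc]
    exact h

theorem mp_polar_aux {ι : Type} [Fintype ι] [DecidableEq ι] (X : Matrix ι ι ℂ) (lam : ι → ℝ)
    (hl : ∀ i, 0 ≤ lam i) (hX : star X * X = Matrix.diagonal (fun i => (lam i : ℂ))) :
    ∃ V ∈ unitary (Matrix ι ι ℂ), X = V * Matrix.diagonal (fun i => ((Real.sqrt (lam i) : ℝ) : ℂ)) := by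
  classical
  -- columns
  let col : ι → EuclideanSpace ℂ ι := fun i => WithLp.toLp 2 (fun k => X k i)
  have hinner : ∀ i j, inner ℂ (col i) (col j) = if i = j then (lam i : ℂ) else 0 := by
    intro i j
    have h := congrFun (congrFun hX i) j
    rw [Matrix.mul_apply, Matrix.diagonal_apply] at h
    rw [← h, EuclideanSpace.inner_eq_star_dotProduct, dotProduct]
    apply Finset.sum_congr rfl
    intro k _
    simp only [col, Pi.star_apply, Matrix.star_apply]
    ring
  let f : ι → EuclideanSpace ℂ ι := fun i => (((Real.sqrt (lam i))⁻¹ : ℝ) : ℂ) • col i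
  let s : Set ι := {i | lam i ≠ 0}
  have hort : Orthonormal ℂ (s.domRestrict f) := by
    rw [orthonormal_iff_ite]
    rintro ⟨i, hi⟩ ⟨j, hj⟩
    have hi' : 0 < lam i := lt_of_le_of_ne (hl i) (Ne.symm hi)
    show inner ℂ (f i) (f j) = _
    simp only [f, inner_smul_left, inner_smul_right, hinner, Subtype.mk.injEq]
    by_cases hij : i = j
    · subst hij
      simp only [if_true]
      rw [Complex.conj_ofReal, ← Complex.ofReal_mul, ← Complex.ofReal_mul, ← Complex.ofReal_one]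
      congr 1
      have h1 : Real.sqrt (lam i) * Real.sqrt (lam i) = lam i := Real.mul_self_sqrt hi'.le
      have h2 : Real.sqrt (lam i) ≠ 0 := (Real.sqrt_pos.2 hi').ne'
      field_simp
      nlinarith
    · simp [hij]
  obtain ⟨b, hb⟩ := hort.exists_orthonormalBasis_extension_of_card_eq (by simp)
  refine ⟨Matrix.of (fun k i => b i k), ?_, ?_⟩
  · rw [← Matrix.unitaryGroup, Matrix.mem_unitaryGroup_iff']
    ext i j
    rw [Matrix.mul_apply, Matrix.one_apply]
    have h := (orthonormal_iff_ite.1 b.orthonormal) i j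
    rw [← h, EuclideanSpace.inner_eq_star_dotProduct, dotProduct]
    apply Finset.sum_congr rfl
    intro k _
    simp only [Pi.star_apply, Matrix.star_apply, Matrix.of_apply]
    ring
  · ext k i
    rw [Matrix.mul_diagonal, Matrix.of_apply]
    by_cases hi : lam i = 0
    · rw [hi, Real.sqrt_zero, Complex.ofReal_zero, mul_zero]
      have h0 : inner ℂ (col i) (col i) = (0 : ℂ) := by
        rw [hinner, if_pos rfl, hi, Complex.ofReal_zero]
      have h1 : col i = 0 := inner_self_eq_zero.1 h0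
      exact congrFun (congrArg WithLp.ofLp h1) k
    · rw [hb i hi]
      have hi' : 0 < lam i := lt_of_le_of_ne (hl i) (Ne.symm hi)
      have h2 : (Real.sqrt (lam i) : ℂ) ≠ 0 := by
        exact_mod_cast (Real.sqrt_pos.2 hi').ne'
      show X k i = ((((Real.sqrt (lam i))⁻¹ : ℝ) : ℂ) * X k i) * (Real.sqrt (lam i) : ℂ)
      rw [Complex.ofReal_inv]
      field_simp

/-- block of a matrix -/
def blk {J : Type} (x : Matrix (Fin 3 × J) (Fin 3 × J) ℂ) (i j : Fin 3) : Matrix J J ℂ :=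
  Matrix.of fun s t => x (i, s) (j, t)

theorem blk_apply {J : Type} (x : Matrix (Fin 3 × J) (Fin 3 × J) ℂ) (i j : Fin 3) (s t : J) :
    blk x i j s t = x (i, s) (j, t) := rfl

theorem blk_mul {J : Type} [Fintype J] (x y : Matrix (Fin 3 × J) (Fin 3 × J) ℂ) (i j : Fin 3) :
    blk (x * y) i j = ∑ k, blk x i k * blk y k j := by
  ext s t
  rw [blk_apply, Matrix.mul_apply, Matrix.sum_apply, Fintype.sum_prod_type]
  apply Finset.sum_congr rfl
  intro k _
  rw [Matrix.mul_apply]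
  rfl

theorem blk_alg {J : Type} [Fintype J] [DecidableEq J] (r : ℂ) (i j : Fin 3) :
    blk (algebraMap ℂ (Matrix (Fin 3 × J) (Fin 3 × J) ℂ) r) i j =
      if i = j then algebraMap ℂ (Matrix J J ℂ) r else 0 := by
  ext s t
  rw [blk_apply, Matrix.algebraMap_matrix_apply]
  by_cases hij : i = j
  · subst hij
    rw [if_pos rfl, Matrix.algebraMap_matrix_apply]
    simp
  · rw [if_neg hij]
    simp [hij]

/-- matrices of matrices -/
noncomputable def psi3 {A : Type} [Ring A] [StarRing A] [Algebra ℂ A] [StarModule ℂ A]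
    {J : Type} [Fintype J] [DecidableEq J] (Φ : Matrix J J ℂ →⋆ₐ[ℂ] A) :
    Matrix (Fin 3 × J) (Fin 3 × J) ℂ →⋆ₐ[ℂ] Matrix (Fin 3) (Fin 3) A where
  toFun x := Matrix.of fun i j => Φ (blk x i j)
  map_one' := by
    ext i j
    have h := blk_alg (J := J) 1 i j
    rw [map_one, map_one] at h
    rw [Matrix.of_apply, h, Matrix.one_apply]
    split_ifs
    · exact map_one Φ
    · exact map_zero Φ
  map_mul' x y := by
    ext i j
    rw [Matrix.of_apply, Matrix.mul_apply, blk_mul, map_sum]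
    apply Finset.sum_congr rfl
    intro k _
    rw [map_mul]
    rfl
  map_zero' := by
    ext i j
    rw [Matrix.of_apply, Matrix.zero_apply, ← map_zero Φ]
    rfl
  map_add' x y := by
    ext i j
    rw [Matrix.of_apply, Matrix.add_apply, Matrix.of_apply, Matrix.of_apply, ← map_add]
    rfl
  commutes' r := by
    ext i j
    rw [Matrix.of_apply, blk_alg, Matrix.algebraMap_matrix_apply]
    split_ifs
    · exact AlgHomClass.commutes Φ r
    · exact map_zero Φ
  map_star' x := by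
    ext i j
    rw [Matrix.of_apply, Matrix.star_apply, Matrix.of_apply, ← map_star]
    rfl

theorem psi3_apply {A : Type} [Ring A] [StarRing A] [Algebra ℂ A] [StarModule ℂ A]
    {J : Type} [Fintype J] [DecidableEq J] (Φ : Matrix J J ℂ →⋆ₐ[ℂ] A)
    (x : Matrix (Fin 3 × J) (Fin 3 × J) ℂ) (i j : Fin 3) :
    psi3 Φ x i j = Φ (blk x i j) := rfl

theorem unit_polar {ι : Type} [Fintype ι] [DecidableEq ι] {B : Type} [Ring B] [StarRing B]
    [Algebra ℂ B] (Φ : Matrix ι ι ℂ →⋆ₐ[ℂ] B) {x : B} (hx : x ∈ Set.range Φ)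
    (hpol : ∀ x : Matrix ι ι ℂ, ∃ v ∈ unitary (Matrix ι ι ℂ), ∃ b : Matrix ι ι ℂ,
      x = v * (star b * b)) :
    ∃ v ∈ unitary B, v ∈ Set.range Φ ∧ ∃ b ∈ Set.range Φ, x = v * (star b * b) := by
  obtain ⟨y, rfl⟩ := hx
  obtain ⟨v, hv, b, hb⟩ := hpol y
  refine ⟨Φ v, ?_, ⟨v, rfl⟩, Φ b, ⟨b, rfl⟩, ?_⟩
  · rw [Unitary.mem_iff] at hv ⊢
    constructor
    · rw [← map_star, ← map_mul, hv.1, map_one]
    · rw [← map_star, ← map_mul, hv.2, map_one]
  · rw [← map_star, ← map_mul, ← map_mul, ← hb]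

open ComplexOrder in
theorem nt_faithful {ι : Type} [Fintype ι] [DecidableEq ι] [Nonempty ι] {x : Matrix ι ι ℂ}
    (h : nt (star x * x) = 0) : x = 0 := by
  unfold nt at h
  have hc : (Fintype.card ι : ℂ) ≠ 0 := by exact_mod_cast Fintype.card_ne_zero
  rw [div_eq_zero_iff, or_iff_left hc] at h
  exact Matrix.trace_conjTranspose_mul_self_eq_zero_iff.1 h


theorem exists_model3 {A : Type} [Ring A] [StarRing A] [Algebra ℂ A] [StarModule ℂ A]
    {τ : A →ₗ[ℂ] ℂ} {W : VV → A} (h : PW τ W) (n : ℕ) :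
    ∃ Ψ : Matrix (Fin 3 × (Fin n → ZMod 2)) (Fin 3 × (Fin n → ZMod 2)) ℂ →⋆ₐ[ℂ]
        Matrix (Fin 3) (Fin 3) A,
      (∀ x, mtr 3 τ (Ψ x) = nt x) ∧ Set.range Ψ = M3 (SP W (lab 0 n) : Set A) := by
  obtain ⟨Φ, hΦ, hr⟩ := exists_model h n
  refine ⟨psi3 Φ, ?_, ?_⟩
  · intro x
    unfold mtr
    have h1 : ∀ i, τ (psi3 Φ x i i) = (∑ s, x (i, s) (i, s)) / Fintype.card (Fin n → ZMod 2) := by
      intro i
      rw [psi3_apply, hΦ]
      rfl
    simp only [h1]
    rw [← Finset.sum_div]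
    unfold nt
    rw [Matrix.trace, Fintype.sum_prod_type, div_div, Fintype.card_prod, Fintype.card_fin]
    simp only [Matrix.diag_apply]
    push_cast
    rw [mul_comm (3 : ℂ)]
  · ext y
    constructor
    · rintro ⟨x, rfl⟩ i j
      rw [psi3_apply, ← hr]
      exact ⟨_, rfl⟩
    · intro hy
      have h1 : ∀ i j, ∃ z, Φ z = y i j := by
        intro i j
        have h2 : y i j ∈ Set.range Φ := by
          rw [hr]
          exact hy i j
        exact h2
      choose z hz using h1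
      refine ⟨Matrix.of fun a b => z a.1 b.1 a.2 b.2, ?_⟩
      ext i j
      rw [psi3_apply, ← hz i j]
      rfl

theorem neg_side : ∃ c : ℝ, 0 < c ∧ ∀ (A : Type) [Ring A] [StarRing A] [Algebra ℂ A]
    [StarModule ℂ A] (τ : A →ₗ[ℂ] ℂ) (W : VV → A), PW τ W → ∀ (n : ℕ)
    (p : Fin 13 → Matrix (Fin 3) (Fin 3) A), UU (M3 (SP W (lab 0 n) : Set A)) p →
      ∃ w : Fin 6 → Matrix (Fin 3) (Fin 3) A, UU (M3 (SP W (lab 0 n) : Set A)) w ∧
        ∀ z : Fin 2 → Matrix (Fin 3) (Fin 3) A, UU (M3 (SP W (lab 0 n) : Set A)) z →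
          c ≤ FF (10 ^ 8) (mtr 3 τ) p w z := by
  obtain ⟨c, hc, hneg⟩ := neg_FF
  refine ⟨c, hc, ?_⟩
  intro A _ _ _ _ τ W h n p hp
  obtain ⟨Ψ, hΨ, hr⟩ := exists_model3 h n
  have hinj : Function.Injective Ψ := by
    rw [injective_iff_map_eq_zero]
    intro x hx
    apply nt_faithful
    rw [← hΨ, map_mul, hx, mul_zero]
    unfold mtr
    simp
  -- unitaries in the range
  have hpre : ∀ {m : ℕ} (q : Fin m → Matrix (Fin 3) (Fin 3) A),
      UU (M3 (SP W (lab 0 n) : Set A)) q →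
      ∃ q' : Fin m → Matrix (Fin 3 × (Fin n → ZMod 2)) (Fin 3 × (Fin n → ZMod 2)) ℂ,
        UU Set.univ q' ∧ ∀ i, Ψ (q' i) = q i := by
    intro m q hq
    have h1 : ∀ i, ∃ x, Ψ x = q i := by
      intro i
      have h2 : q i ∈ Set.range Ψ := by
        rw [hr]
        exact (hq i).2
      exact h2
    choose q' hq' using h1
    refine ⟨q', fun i => ⟨?_, trivial⟩, hq'⟩
    have hu := (hq i).1
    rw [Unitary.mem_iff] at hu ⊢
    constructor
    · apply hinj
      rw [map_mul, map_star, map_one, hq']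
      exact hu.1
    · apply hinj
      rw [map_mul, map_star, map_one, hq']
      exact hu.2
  obtain ⟨p', hp', hpp⟩ := hpre p hp
  obtain ⟨w', hw', hw2⟩ := hneg (Fin 3 × (Fin n → ZMod 2)) n (by
    rw [Fintype.card_prod, Fintype.card_fin, Fintype.card_fun, ZMod.card, Fintype.card_fin]) p' hp'
  refine ⟨fun i => Ψ (w' i), ?_, ?_⟩
  · intro i
    constructor
    · have hu := (hw' i).1
      rw [Unitary.mem_iff] at hu ⊢
      constructor
      · rw [← map_star, ← map_mul, hu.1, map_one]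
      · rw [← map_star, ← map_mul, hu.2, map_one]
    · rw [← hr]
      exact ⟨_, rfl⟩
  · intro z hz
    obtain ⟨z', hz', hzz⟩ := hpre z hz
    have h3 := hw2 z' hz'
    have h4 := Fm.ev_map Ψ (φ := nt) (ψ := mtr 3 τ) hΨ (asg p' w' z') (fFF (10 ^ 8))
    rw [fFF_ev] at h4
    have h5 : (fun j => Ψ (asg p' w' z' j)) = asg p (fun i => Ψ (w' i)) z := by
      funext j
      rcases j with j | j | j
      · exact hpp j
      · rfl
      · exact hzz j
    rw [h5, fFF_ev] at h4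
    rw [h4]
    exact h3

/-- polar decomposition of matrices -/
theorem matrix_polar {ι : Type} [Fintype ι] [DecidableEq ι] (x : Matrix ι ι ℂ) :
    ∃ v ∈ unitary (Matrix ι ι ℂ), ∃ b : Matrix ι ι ℂ, x = v * (star b * b) := by
  obtain ⟨U, hU, lam, hl, hX⟩ := mp_star_diag x
  obtain ⟨V, hV, hXV⟩ := mp_polar_aux (x * U) lam hl hX
  refine ⟨V * star U, mul_mem hV (Unitary.star_mem hU),
    Matrix.diagonal (fun i => ((Real.sqrt (Real.sqrt (lam i)) : ℝ) : ℂ)) * star U, ?_⟩
  have h1 : star (Matrix.diagonal (fun i => ((Real.sqrt (Real.sqrt (lam i)) : ℝ) : ℂ))) *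
      Matrix.diagonal (fun i => ((Real.sqrt (Real.sqrt (lam i)) : ℝ) : ℂ)) =
      Matrix.diagonal (fun i => ((Real.sqrt (lam i) : ℝ) : ℂ)) := by
    rw [Matrix.star_eq_conjTranspose, Matrix.diagonal_conjTranspose, Matrix.diagonal_mul_diagonal]
    congr 1
    funext i
    rw [Pi.star_apply, Complex.star_def, Complex.conj_ofReal, ← Complex.ofReal_mul,
      Real.mul_self_sqrt (Real.sqrt_nonneg _)]
  have hUU : star U * U = 1 := (Unitary.mem_iff.1 hU).1
  have hUU' : U * star U = 1 := (Unitary.mem_iff.1 hU).2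
  rw [star_mul, star_star]
  calc x = x * U * star U := by rw [mul_assoc, hUU', mul_one]
    _ = V * Matrix.diagonal (fun i => ((Real.sqrt (lam i) : ℝ) : ℂ)) * star U := by rw [hXV]
    _ = V * (star U * U) * Matrix.diagonal (fun i => ((Real.sqrt (lam i) : ℝ) : ℂ)) * star U := by
        rw [hUU, mul_one]
    _ = V * star U * (U * star (Matrix.diagonal (fun i => ((Real.sqrt (Real.sqrt (lam i)) : ℝ) : ℂ))) *
        (Matrix.diagonal (fun i => ((Real.sqrt (Real.sqrt (lam i)) : ℝ) : ℂ)) * star U)) := by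
        rw [← h1]
        simp only [mul_assoc]

theorem SP_polar {A : Type} [Ring A] [StarRing A] [Algebra ℂ A] [StarModule ℂ A]
    {τ : A →ₗ[ℂ] ℂ} {W : VV → A} (h : PW τ W) (n : ℕ) {x : A} (hx : x ∈ SP W (lab 0 n)) :
    ∃ v ∈ unitary A, v ∈ SP W (lab 0 n) ∧ ∃ b ∈ SP W (lab 0 n), x = v * (star b * b) := by
  obtain ⟨Φ, hΦ, hr⟩ := exists_model h n
  have hx' : x ∈ Set.range Φ := by
    rw [hr]
    exact hx
  obtain ⟨v, hv, hv2, b, hb, hxb⟩ := unit_polar Φ hx' matrix_polar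
  rw [hr] at hv2 hb
  exact ⟨v, hv, hv2, b, hb, hxb⟩

theorem M3_polar {A : Type} [Ring A] [StarRing A] [Algebra ℂ A] [StarModule ℂ A]
    {τ : A →ₗ[ℂ] ℂ} {W : VV → A} (h : PW τ W) (n : ℕ) {x : Matrix (Fin 3) (Fin 3) A}
    (hx : x ∈ M3 (SP W (lab 0 n) : Set A)) :
    ∃ v ∈ unitary (Matrix (Fin 3) (Fin 3) A), v ∈ M3 (SP W (lab 0 n) : Set A) ∧
      ∃ b ∈ M3 (SP W (lab 0 n) : Set A), x = v * (star b * b) := by
  obtain ⟨Ψ, hΨ, hr⟩ := exists_model3 h n
  have hx' : x ∈ Set.range Ψ := by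
    rw [hr]
    exact hx
  obtain ⟨v, hv, hv2, b, hb, hxb⟩ := unit_polar Ψ hx' matrix_polar
  rw [hr] at hv2 hb
  exact ⟨v, hv, hv2, b, hb, hxb⟩

end Pool.Agent.Helper436.AD
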