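import Mathlib
import Pool.Agent.Helper436.SM.Main
import Pool.Agent.Helper436.AD.G0
import Pool.Agent.Helper436.AD.G1
import Pool.Agent.Helper436.AD.Hull
import Pool.Agent.Helper436.AD.Los

set_option autoImplicit false
set_option linter.unusedSectionVars false

open scoped Topology BoundedContinuousFunction
open Filter

namespace Pool.Agent.Helper436.AD

open Pool.Agent.Helper278 Pool.Agent.Helper278.CE Pool.Agent.Helper436.SM Pool.Agent.Helper436.SN

variable {H : Type} [NormedAddCommGroup H] [InnerProductSpace ℂ H] [CompleteSpace H]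
variable {N : VonNeumannAlgebra H} {T : TracialState N} {W : VV → Elt N}
variable {Q : Type} [Ring Q] [StarRing Q] [Algebra ℂ Q] [StarModule ℂ Q]
variable {U : Ultrafilter ℕ} {π : (ℕ →ᵇ Elt N) →⋆ₐ[ℂ] Q} {σ : Q → ℂ}

/-- bounded sequences with `x k ∈ M_{8^(k+1)}` -/
noncomputable def lev (h : PW T.τ W) : StarSubalgebra ℂ (ℕ →ᵇ Elt N) where
  carrier := {x | ∀ k, x k ∈ SP W (lab 0 (3 * (k + 1)))}
  mul_mem' := fun {x y} hx hy k => SP_mul h _ (hx k) (hy k)
  one_mem' := fun k => SP_one h _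
  add_mem' := fun {x y} hx hy k => Submodule.add_mem _ (hx k) (hy k)
  zero_mem' := fun k => Submodule.zero_mem _
  algebraMap_mem' := fun c k => by
    have : (algebraMap ℂ (ℕ →ᵇ Elt N) c) k = c • (1 : Elt N) := by
      rw [Algebra.algebraMap_eq_smul_one]
      rfl
    rw [this]
    exact Submodule.smul_mem _ _ (SP_one h _)
  star_mem' := fun {x} hx k => SP_star h _ (hx k)

theorem mem_lev {h : PW T.τ W} {x : ℕ →ᵇ Elt N} :
    x ∈ lev h ↔ ∀ k, x k ∈ SP W (lab 0 (3 * (k + 1))) := Iff.rfl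

/-- the ultraproduct of the algebras `M_{8^(k+1)}` -/
noncomputable def Mo (h : PW T.τ W) (π : (ℕ →ᵇ Elt N) →⋆ₐ[ℂ] Q) : StarSubalgebra ℂ Q := (lev h).map π

theorem mem_Mo {h : PW T.τ W} {q : Q} : q ∈ Mo h π ↔ ∃ x ∈ lev h, π x = q := by
  rw [Mo, StarSubalgebra.mem_map]

/-- its trace -/
noncomputable def phiM (h : PW T.τ W) (hπ : Helper278.IsTracialUltrapower T.τ U π σ) :
    Mo h π →ₗ[ℂ] ℂ := (sigmaL hπ).comp (Mo h π).subtype.toLinearMap

theorem phiM_apply (h : PW T.τ W) (hπ : Helper278.IsTracialUltrapower T.τ U π σ) (x : Mo h π) :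
    phiM h hπ x = σ (x : Q) := rfl

end Pool.Agent.Helper436.AD
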