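import Mathlib
import Pool.Agent.Helper436.AD.UD
import Pool.Agent.Helper436.AD.T5
import Pool.Agent.Helper436.AD.P6

set_option autoImplicit false
set_option linter.unusedSectionVars false

open scoped Topology BoundedContinuousFunction
open Filter

namespace Pool.Agent.Helper436.AD

open Pool.Agent.Helper278 Pool.Agent.Helper278.CE Pool.Agent.Helper436.SM Pool.Agent.Helper436.SN

variable {H : Type} [NormedAddCommGroup H] [InnerProductSpace ℂ H] [CompleteSpace H]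
variable {N : VonNeumannAlgebra H} {T : TracialState N} {W : VV → Elt N}
variable {Q : Type} [Ring Q] [StarRing Q] [Algebra ℂ Q] [StarModule ℂ Q]
variable {U : Ultrafilter ℕ} {π : (ℕ →ᵇ Elt N) →⋆ₐ[ℂ] Q} {σ : Q → ℂ}

/- JOB: the theorems. -/

theorem mo_n2 (h : PW T.τ W) (hπ : Helper278.IsTracialUltrapower T.τ U π σ) (x : Mo h π) :
    n2 (phiM h hπ) x = n2 (sigmaL hπ) (x : Q) := rfl

theorem mo_un (x : ℕ → unitary (Elt N)) : mkB x ∈ unitary (ℕ →ᵇ Elt N) := by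
  refine Unitary.mem_iff.2 ⟨?_, ?_⟩
  · ext1 k
    show star ((x k : Elt N)) * (x k : Elt N) = 1
    exact Unitary.coe_star_mul_self (x k)
  · ext1 k
    show (x k : Elt N) * star ((x k : Elt N)) = 1
    exact Unitary.coe_mul_star_self (x k)

theorem mo_lift (h : PW T.τ W) (π : (ℕ →ᵇ Elt N) →⋆ₐ[ℂ] Q) (x : ℕ → unitary (Elt N))
    (hx : ∀ k, (x k : Elt N) ∈ SP W (lab 0 (3 * (k + 1)))) :
    ∃ g : Mo h π, (g : Q) = π (mkB x) ∧ g ∈ unitary (Mo h π) := by
  refine ⟨⟨π (mkB x), mem_Mo.2 ⟨mkB x, mem_lev.2 hx, rfl⟩⟩, rfl, ?_⟩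
  have hu := Unitary.mem_iff.1 (mo_un x)
  refine Unitary.mem_iff.2 ⟨?_, ?_⟩
  · apply Subtype.ext
    show star (π (mkB x)) * π (mkB x) = 1
    rw [← map_star, ← map_mul, hu.1, map_one]
  · apply Subtype.ext
    show π (mkB x) * star (π (mkB x)) = 1
    rw [← map_star, ← map_mul, hu.2, map_one]

theorem Mo_tr (h : PW T.τ W) (hπ : Helper278.IsTracialUltrapower T.τ U π σ) :
    TrAlg (phiM h hπ) := by
  have hS := sigma_trAlg hπ
  exact ⟨hS.one, fun x y => hS.comm (x : Q) (y : Q), fun x => hS.nonneg (x : Q),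
    fun x => hS.conj (x : Q), fun x hx => Subtype.ext (hS.faithful (x : Q) hx)⟩

theorem Mo_bdd (h : PW T.τ W) (hπ : Helper278.IsTracialUltrapower T.τ U π σ) (a : Mo h π) :
    ∃ C : ℝ, ∀ b, n2 (phiM h hπ) (a * b) ≤ C * n2 (phiM h hπ) b := by
  obtain ⟨x, hx, hxa⟩ := mem_Mo.1 a.2
  refine ⟨‖x‖, fun b => ?_⟩
  obtain ⟨y, hy, hyb⟩ := mem_Mo.1 b.2
  have e1 : n2 (phiM h hπ) (a * b) = n2 (sigmaL hπ) (π (x * y)) := by
    rw [mo_n2, map_mul, hxa, hyb]
    rfl
  have e2 : n2 (phiM h hπ) b = n2 (sigmaL hπ) (π y) := by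
    rw [mo_n2, hyb]
  rw [e1, e2]
  refine le_of_tendsto_of_tendsto' (tendsto_n2_pi hπ (x * y))
    ((tendsto_n2_pi hπ y).const_mul ‖x‖) fun n => ?_
  refine (n2_mul_le T (x n) (y n)).trans ?_
  exact mul_le_mul_of_nonneg_right (x.norm_coe_le_norm n) (n2_nonneg _ _)

theorem mo_level (h : PW T.τ W) (k : ℕ) (q : Fin 5 → Elt N) (hq : Gates W 0 (3 * (k + 1)) q)
    (y : Elt N) (hy : y ∈ SP W (lab 0 (3 * (k + 1)))) :
    n2 T.τ (y - T.τ y • (1 : Elt N)) ≤ 20 * ∑ l, n2 T.τ (q l * y - y * q l) := by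
  have h1 := gap_block h 0 (3 * (k + 1)) (by omega) q hq y (∑ l, n2 T.τ (q l * y - y * q l))
    (fun l => Finset.single_le_sum (f := fun l => n2 T.τ (q l * y - y * q l))
      (fun i _ => n2_nonneg _ _) (Finset.mem_univ l))
  have h2 : h.hat (y - T.τ y • (1 : Elt N)) =
      cut {v : VV | ∃ i, 0 ≤ i ∧ i < 3 * (k + 1) ∧ v i ≠ 0} (h.hat y) := by
    rw [hat_sub, hat_smul]
    ext v
    have e1 : (h.hat y - T.τ y • h.hat 1) v = h.hat y v - T.τ y * h.hat 1 v := rfl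
    rw [e1]
    have e2 : h.hat (1 : Elt N) v = if v = 0 then 1 else 0 := by
      rw [PW.hat_apply, mul_one, h.sys.star, map_smul, h.sys.trace]
      by_cases hv : v = 0
      · rw [if_pos hv, hv, bf_zero_left]
        unfold SM.sg
        simp
      · rw [if_neg hv, smul_zero]
    by_cases hv : v = 0
    · subst hv
      rw [e2, if_pos rfl, mul_one, PW.hat_apply, h.sys.zero, star_one, one_mul, sub_self,
        cut_apply_not_mem]
      rintro ⟨i, _, _, h3⟩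
      exact h3 rfl
    · rw [e2, if_neg hv, mul_zero, sub_zero]
      by_cases hl : v ∈ lab 0 (3 * (k + 1))
      · rw [cut_apply_mem]
        obtain ⟨i, hi⟩ : ∃ i, v i ≠ 0 := by
          by_contra hcon
          push Not at hcon
          exact hv (Finsupp.ext hcon)
        refine ⟨i, Nat.zero_le _, ?_, hi⟩
        by_contra hcon
        exact hi (hl i (Or.inr (by omega)))
      · have h3 := SP_hat h hy hl
        rw [h3]
        by_cases hc : v ∈ {v : VV | ∃ i, 0 ≤ i ∧ i < 3 * (k + 1) ∧ v i ≠ 0}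
        · rw [cut_apply_mem _ hc, h3]
        · rw [cut_apply_not_mem _ hc]
  rw [← norm_hat h, h2]
  exact h1

theorem Mo_gap (h : PW T.τ W) (hπ : Helper278.IsTracialUltrapower T.τ U π σ) :
    ∃ g : Fin 5 → Mo h π, (∀ l, g l ∈ unitary (Mo h π)) ∧
      ∀ x, n2 (phiM h hπ) (x - phiM h hπ x • (1 : Mo h π)) ≤
        20 * ∑ l, n2 (phiM h hπ) (g l * x - x * g l) := by
  have hA := trAlg T
  have h0 : ∀ k : ℕ, ∃ q : Fin 5 → Elt N, Gates W 0 (3 * (k + 1)) q := fun k =>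
    exists_gates h 0 (3 * (k + 1)) (by omega)
  choose q hq using h0
  obtain ⟨z, hz⟩ : ∃ z : Fin 5 → ℕ → unitary (Elt N), ∀ l k, (z l k : Elt N) = q k l :=
    ⟨fun l k => ⟨q k l, (hq k).unit l⟩, fun l k => rfl⟩
  have h1 : ∀ l : Fin 5, ∃ g : Mo h π, (g : Q) = π (mkB (z l)) ∧
      g ∈ unitary (Mo h π) := fun l => mo_lift h π _ (fun k => by rw [hz]; exact (hq k).mem l)
  choose g hg hgu using h1
  refine ⟨g, hgu, ?_⟩
  intro x
  obtain ⟨y, hy, hyx⟩ := mem_Mo.1 x.2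
  obtain ⟨s, hs⟩ : ∃ s : ℂ, s = phiM h hπ x := ⟨_, rfl⟩
  rw [← hs]
  have hs' : Tendsto (fun n => T.τ (y n)) U (𝓝 s) := by
    have := hπ.trace y
    rw [hs, phiM_apply, ← hyx]
    exact this
  have e1 : n2 (phiM h hπ) (x - s • (1 : Mo h π)) = n2 (sigmaL hπ) (π (y - s • (1 : ℕ →ᵇ Elt N))) := by
    rw [mo_n2, map_sub, map_smul, map_one, hyx]
    rfl
  have e2 : ∀ l, n2 (phiM h hπ) (g l * x - x * g l) = n2 (sigmaL hπ)
      (π (mkB (z l) * y - y * mkB (z l))) := by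
    intro l
    rw [mo_n2, map_sub, map_mul, map_mul, hyx, ← hg]
    rfl
  rw [e1]
  have t1 := tendsto_n2_pi hπ (y - s • (1 : ℕ →ᵇ Elt N))
  have t2 : Tendsto (fun n => 20 * ∑ l : Fin 5, n2 T.τ ((q n l) * (y n) - (y n) * (q n l)))
      U (𝓝 (20 * ∑ l, n2 (phiM h hπ) (g l * x - x * g l))) := by
    refine Tendsto.const_mul 20 (tendsto_finsetSum _ fun l _ => ?_)
    rw [e2]
    have t := tendsto_n2_pi hπ (mkB (z l) * y - y * mkB (z l))
    refine t.congr fun n => ?_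
    have e4 : (mkB (z l) * y - y * mkB (z l)) n = (z l n : Elt N) * y n - y n * (z l n : Elt N) := rfl
    rw [e4, hz]
  have t3 : Tendsto (fun n => ‖T.τ (y n) - s‖) U (𝓝 0) := by
    have := (hs'.sub_const s).norm
    rwa [sub_self, norm_zero] at this
  have t4 := t2.add t3
  rw [add_zero] at t4
  refine le_of_tendsto_of_tendsto' t1 t4 fun n => ?_
  have h2 := mo_level h n (q n) (hq n) (y n) (mem_lev.1 hy n)
  have e3 : (y - s • (1 : ℕ →ᵇ Elt N)) n = y n - s • (1 : Elt N) := rfl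
  rw [e3]
  have h3 : y n - s • (1 : Elt N) = (y n - T.τ (y n) • (1 : Elt N)) + (T.τ (y n) - s) • (1 : Elt N) := by
    rw [sub_smul]; abel
  rw [h3]
  refine (hA.n2_add_le _ _).trans ?_
  have h4 : n2 T.τ ((T.τ (y n) - s) • (1 : Elt N)) ≤ ‖T.τ (y n) - s‖ := by
    have h5 : n2 T.τ ((T.τ (y n) - s) • (1 : Elt N)) = ‖T.τ (y n) - s‖ * n2 T.τ (1 : Elt N) :=
      PX.n2_smul hA _ _
    have h6 : n2 T.τ (1 : Elt N) = 1 := by
      unfold n2
      rw [star_one, one_mul, hA.one]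
      simp
    rw [h5, h6, mul_one]
  exact add_le_add h2 h4

theorem Mo_inf (h : PW T.τ W) (hU : ∀ n, {n} ∉ U)
    (hπ : Helper278.IsTracialUltrapower T.τ U π σ) :
    ∃ V : ℕ → Mo h π, (∀ i, V i ∈ unitary (Mo h π)) ∧
      ∀ i j, i ≠ j → phiM h hπ (star (V i) * V j) = 0 := by
  classical
  obtain ⟨v, hv⟩ : ∃ v : ℕ → VV, v = fun i => Finsupp.single i ((1 : ZMod 2), (0 : ZMod 2)) :=
    ⟨_, rfl⟩
  have hvinj : ∀ i j, i ≠ j → v i ≠ v j := by
    intro i j hij he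
    rw [hv] at he
    simp only at he
    have := (Finsupp.single_left_inj (by simp : ((1 : ZMod 2), (0 : ZMod 2)) ≠ 0)).1 he
    exact hij this
  obtain ⟨x, hx⟩ : ∃ x : ℕ → ℕ → unitary (Elt N), x = fun i k =>
      if i < 3 * (k + 1) then ⟨W (v i), AD.W_unitary h (v i)⟩ else 1 := ⟨_, rfl⟩
  have hx1 : ∀ i k, i < 3 * (k + 1) → (x i k : Elt N) = W (v i) := by
    intro i k hik
    rw [hx]
    simp only [hik, if_true]
  have hmem : ∀ i k, (x i k : Elt N) ∈ SP W (lab 0 (3 * (k + 1))) := by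
    intro i k
    by_cases hik : i < 3 * (k + 1)
    · rw [hx1 i k hik]
      refine SP_W W ?_
      intro j hj
      rw [hv]
      simp only
      rw [Finsupp.single_eq_of_ne]
      omega
    · rw [hx]
      simp only [hik, if_false]
      exact SP_one h _
  have h1 : ∀ i : ℕ, ∃ g : Mo h π, (g : Q) = π (mkB (x i)) ∧
      g ∈ unitary (Mo h π) := fun i => mo_lift h π _ (hmem i)
  choose V hV hVu using h1
  refine ⟨V, hVu, ?_⟩
  intro i j hij
  have e1 : phiM h hπ (star (V i) * V j) = σ (π (star (mkB (x i)) * mkB (x j))) := by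
    rw [phiM_apply, map_mul, map_star, ← hV, ← hV]
    rfl
  rw [e1]
  have t1 := hπ.trace (star (mkB (x i)) * mkB (x j))
  have t2 : Tendsto (fun n => T.τ ((star (mkB (x i)) * mkB (x j) : ℕ →ᵇ Elt N) n)) U (𝓝 0) := by
    refine Tendsto.congr' ?_ tendsto_const_nhds
    filter_upwards [eventually_ge hU (i + j)] with n hn
    have e2 : (star (mkB (x i)) * mkB (x j) : ℕ →ᵇ Elt N) n = star (x i n : Elt N) * (x j n : Elt N) := rfl
    rw [e2, hx1 i n (by omega), hx1 j n (by omega), W_ne h (hvinj i j hij)]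
  exact tendsto_nhds_unique t1 t2

end Pool.Agent.Helper436.AD
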