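import Mathlib
import Pool.Agent.Helper436.AD.UD
import Pool.Agent.Helper436.AD.T5
import Pool.Agent.Helper436.AD.P6
import Pool.Agent.Helper436.AD.U1

set_option autoImplicit false
set_option linter.unusedSectionVars false

open scoped Topology BoundedContinuousFunction
open Filter

namespace Pool.Agent.Helper436.AD

open Pool.Agent.Helper278 Pool.Agent.Helper278.CE Pool.Agent.Helper436.SM Pool.Agent.Helper436.SN

variable {H : Type} [NormedAddCommGroup H] [InnerProductSpace ℂ H] [CompleteSpace H]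
variable {N : VonNeumannAlgebra H} {T : TracialState N} {W : VV → Elt N}
variable {Q : Type} [Ring Q] [StarRing Q] [Algebra ℂ Q] [StarModule ℂ Q]
variable {U : Ultrafilter ℕ} {π : (ℕ →ᵇ Elt N) →⋆ₐ[ℂ] Q} {σ : Q → ℂ}

/- JOB: the theorems. -/


theorem au_unit_norm {v : Elt N} (hv : v ∈ unitary (Elt N)) : ‖v‖ ≤ 1 := by
  have h1 : ‖star v * v‖ = ‖v‖ * ‖v‖ := CStarRing.norm_star_mul_self
  have h2 : ‖star (1 : Elt N) * 1‖ = ‖(1 : Elt N)‖ * ‖(1 : Elt N)‖ := CStarRing.norm_star_mul_self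
  rw [star_one, one_mul] at h2
  rw [(Unitary.mem_iff.1 hv).1] at h1
  have h3 := norm_nonneg (1 : Elt N)
  have h4 := norm_nonneg v
  by_contra hcon
  push Not at hcon
  have h5 : 1 < ‖(1 : Elt N)‖ := by
    rw [h1]
    nlinarith
  nlinarith

theorem au_key (h : PW T.τ W) {x v b : Elt N} (hv : v ∈ unitary (Elt N))
    (hx : x = v * (star b * b)) :
    (T.τ (star (x - v) * (x - v))).re ≤
      (T.τ (star (star x * x - 1) * (star x * x - 1))).re := by
  obtain ⟨a, ha⟩ : ∃ a, a = star b * b := ⟨_, rfl⟩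
  have hsa : star a = a := by rw [ha, star_mul, star_star]
  rw [← ha] at hx
  have hvv : star v * v = 1 := (Unitary.mem_iff.1 hv).1
  have e1 : x - v = v * (a - 1) := by rw [hx, mul_sub, mul_one]
  have hs1 : star (a - 1) = a - 1 := by rw [star_sub, star_one, hsa]
  have e2 : star (x - v) * (x - v) = (a - 1) * (a - 1) := by
    rw [e1, star_mul, hs1]
    calc (a - 1) * star v * (v * (a - 1)) = (a - 1) * (star v * v) * (a - 1) := by
          simp only [mul_assoc]
      _ = _ := by rw [hvv, mul_one]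
  have e3 : star x * x = a * a := by
    rw [hx, star_mul, hsa]
    calc a * star v * (v * a) = a * (star v * v) * a := by simp only [mul_assoc]
      _ = _ := by rw [hvv, mul_one]
  have hs2 : star (a * a - 1) = a * a - 1 := by rw [star_sub, star_one, star_mul, hsa]
  have e4 : star (b * (a - 1)) * (b * (a - 1)) = (a - 1) * a * (a - 1) := by
    rw [star_mul, hs1]
    calc (a - 1) * star b * (b * (a - 1)) = (a - 1) * (star b * b) * (a - 1) := by
          simp only [mul_assoc]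
      _ = _ := by rw [← ha]
  have e5 : star (a * (a - 1)) * (a * (a - 1)) = (a - 1) * (a * a) * (a - 1) := by
    rw [star_mul, hs1, hsa]
    simp only [mul_assoc]
  have e6 : star (star x * x - 1) * (star x * x - 1) = (a - 1) * (a - 1) +
      (star (b * (a - 1)) * (b * (a - 1)) + star (b * (a - 1)) * (b * (a - 1))) +
      star (a * (a - 1)) * (a * (a - 1)) := by
    rw [e4, e5, e3, hs2]
    noncomm_ring
  rw [e2, e6, map_add, map_add, map_add, Complex.add_re, Complex.add_re, Complex.add_re]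
  have h1 := h.tr.re_nonneg (b * (a - 1))
  have h2 := h.tr.re_nonneg (a * (a - 1))
  linarith

theorem au_unit (h : PW T.τ W) {V : ℕ →ᵇ Elt N} (hV : V ∈ lev h)
    (hu : ∀ k, V k ∈ unitary (Elt N)) :
    (⟨π V, mem_Mo.2 ⟨V, hV, rfl⟩⟩ : Mo h π) ∈ unitary (Mo h π) := by
  have h1 : star V * V = 1 := BoundedContinuousFunction.ext fun k => (Unitary.mem_iff.1 (hu k)).1
  have h2 : V * star V = 1 := BoundedContinuousFunction.ext fun k => (Unitary.mem_iff.1 (hu k)).2
  rw [Unitary.mem_iff]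
  constructor
  · apply Subtype.ext
    show star (π V) * π V = 1
    rw [← map_star, ← map_mul, h1, map_one]
  · apply Subtype.ext
    show π V * star (π V) = 1
    rw [← map_star, ← map_mul, h2, map_one]

theorem au_unit_bdd {v : ℕ → Elt N} (hv : ∀ k, v k ∈ unitary (Elt N)) : BddFam v :=
  ⟨1, fun k => au_unit_norm (hv k)⟩

theorem Mo_lift (h : PW T.τ W) (hπ : Helper278.IsTracialUltrapower T.τ U π σ) (q : Mo h π)
    (hq : q ∈ unitary (Mo h π)) :
    ∃ x ∈ lev h, (∀ k, x k ∈ unitary (Elt N)) ∧ π x = (q : Q) := by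
  obtain ⟨x, hx, hxq⟩ := mem_Mo.1 q.2
  choose v hv hvS b hbS hxb using fun k => SP_polar h (3 * (k + 1)) (hx k)
  refine ⟨toB v (au_unit_bdd hv), fun k => hvS k, fun k => hv k, ?_⟩
  have hz : π (x - toB v (au_unit_bdd hv)) = 0 := by
    rw [hπ.ker]
    have hy : π (star x * x - 1) = 0 := by
      rw [map_sub, map_mul, map_star, map_one, hxq]
      have := congrArg Subtype.val (Unitary.mem_iff.1 hq).1
      have h2 : star (q : Q) * (q : Q) = 1 := this
      rw [h2, sub_self]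
    rw [hπ.ker] at hy
    have hre : Tendsto (fun n => (T.τ (star ((star x * x - 1 : ℕ →ᵇ Elt N) n) *
        (star x * x - 1 : ℕ →ᵇ Elt N) n)).re) U (𝓝 0) := by
      have := (Complex.continuous_re.tendsto _).comp hy
      rw [Complex.zero_re] at this
      exact this
    have hre2 : Tendsto (fun n => (T.τ (star ((x - toB v (au_unit_bdd hv)) n) *
        (x - toB v (au_unit_bdd hv)) n)).re) U (𝓝 0) := by
      refine squeeze_zero (fun n => h.tr.re_nonneg _) (fun n => ?_) hre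
      exact au_key h (hv n) (hxb n)
    have h3 := (Complex.continuous_ofReal.tendsto _).comp hre2
    rw [Complex.ofReal_zero] at h3
    refine h3.congr fun n => ?_
    apply Complex.ext
    · exact Complex.ofReal_re _
    · show ((_ : ℝ) : ℂ).im = _
      rw [Complex.ofReal_im]
      exact (h.tr.im_zero _).symm
  rw [map_sub, hxq, sub_eq_zero] at hz
  exact hz.symm

theorem Mo_polar (h : PW T.τ W) (hπ : Helper278.IsTracialUltrapower T.τ U π σ) (q : Mo h π) :
    ∃ v ∈ unitary (Mo h π), ∃ b : Mo h π, q = v * (star b * b) := by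
  obtain ⟨x, hx, hxq⟩ := mem_Mo.1 q.2
  choose v hv hvS b hbS hxb using fun k => SP_polar h (3 * (k + 1)) (hx k)
  have hbb : BddFam b := by
    refine ⟨‖x‖ + 1, fun k => ?_⟩
    have h1 : ‖star (b k) * b k‖ = ‖b k‖ * ‖b k‖ := CStarRing.norm_star_mul_self
    have h2 : star (b k) * b k = star (v k) * x k := by
      rw [hxb k, ← mul_assoc, (Unitary.mem_iff.1 (hv k)).1, one_mul]
    have h3 : ‖star (v k) * x k‖ ≤ ‖star (v k)‖ * ‖x k‖ := norm_mul_le _ _
    have h4 : ‖star (v k)‖ ≤ 1 := au_unit_norm (Unitary.star_mem (hv k))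
    have h5 : ‖x k‖ ≤ ‖x‖ := x.norm_coe_le_norm k
    have h6 : ‖b k‖ * ‖b k‖ ≤ ‖x‖ := by
      rw [← h1, h2]
      calc _ ≤ ‖star (v k)‖ * ‖x k‖ := h3
        _ ≤ 1 * ‖x‖ := mul_le_mul h4 h5 (norm_nonneg _) zero_le_one
        _ = ‖x‖ := one_mul _
    have h7 := norm_nonneg (b k)
    have h8 := norm_nonneg x
    nlinarith
  have hVl : toB v (au_unit_bdd hv) ∈ lev h := fun k => hvS k
  have hBl : toB b hbb ∈ lev h := fun k => hbS k
  refine ⟨⟨π (toB v (au_unit_bdd hv)), mem_Mo.2 ⟨_, hVl, rfl⟩⟩, au_unit h hVl (fun k => hv k),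
    ⟨π (toB b hbb), mem_Mo.2 ⟨_, hBl, rfl⟩⟩, ?_⟩
  apply Subtype.ext
  show (q : Q) = π (toB v (au_unit_bdd hv)) * (star (π (toB b hbb)) * π (toB b hbb))
  rw [← map_star, ← map_mul, ← map_mul, ← hxq]
  congr 1
  exact BoundedContinuousFunction.ext fun k => hxb k

theorem Mo_sat (h : PW T.τ W) (hπ : Helper278.IsTracialUltrapower T.τ U π σ) :
    ∃ p : Fin 13 → Mo h π, UU Set.univ p ∧ ∀ w : Fin 6 → Mo h π, UU Set.univ w →
      ∃ z : Fin 2 → Mo h π, UU Set.univ z ∧ FF (10 ^ 8) (phiM h hπ) p w z ≤ 0 := by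
  choose P hP hPw using fun k : ℕ => pos_side h (k := k + 1) (Nat.succ_le_succ (Nat.zero_le k))
  have hPb : ∀ i, BddFam (fun k => P k i) := fun i => au_unit_bdd fun k => (hP k i).1
  have hPl : ∀ i, toB _ (hPb i) ∈ lev h := fun i k => (hP k i).2
  refine ⟨fun i => ⟨π (toB _ (hPb i)), mem_Mo.2 ⟨_, hPl i, rfl⟩⟩,
    fun i => ⟨au_unit h (hPl i) (fun k => (hP k i).1), trivial⟩, ?_⟩
  intro w hw
  choose X hXl hXu hXw using fun i => Mo_lift h hπ (w i) (hw i).1
  choose Z hZ hZF using fun k => hPw k (fun i => X i k) (fun i => ⟨hXu i k, hXl i k⟩)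
  have hZb : ∀ i, BddFam (fun k => Z k i) := fun i => au_unit_bdd fun k => (hZ k i).1
  have hZl : ∀ i, toB _ (hZb i) ∈ lev h := fun i k => (hZ k i).2
  refine ⟨fun i => ⟨π (toB _ (hZb i)), mem_Mo.2 ⟨_, hZl i, rfl⟩⟩,
    fun i => ⟨au_unit h (hZl i) (fun k => (hZ k i).1), trivial⟩, ?_⟩
  rw [← fFF_ev]
  have e2 := Fm.ev_map (Mo h π).subtype (φ := fun x => phiM h hπ x) (ψ := σ) (fun x => rfl)
    (asg (fun i => (⟨π (toB _ (hPb i)), mem_Mo.2 ⟨_, hPl i, rfl⟩⟩ : Mo h π)) w
      (fun i => (⟨π (toB _ (hZb i)), mem_Mo.2 ⟨_, hZl i, rfl⟩⟩ : Mo h π))) (fFF (10 ^ 8))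
  refine le_trans (le_of_eq e2.symm) ?_
  obtain ⟨S, hS⟩ : ∃ S : Ix3 → ℕ → Elt N, S = asg (fun i k => P k i) (fun i k => X i k)
    (fun i k => Z k i) := ⟨_, rfl⟩
  have hSb : ∀ j, BddFam (S j) := by
    intro j
    rw [hS]
    rcases j with j | j | j
    · exact hPb j
    · exact au_unit_bdd (hXu j)
    · exact hZb j
  have hlim := Fm.tendsto (plain_tracial hπ) S hSb (fFF (10 ^ 8))
  have e3 : (fun j => plain π (S j)) = fun j => (Mo h π).subtype
      (asg (fun i => (⟨π (toB _ (hPb i)), mem_Mo.2 ⟨_, hPl i, rfl⟩⟩ : Mo h π)) w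
        (fun i => (⟨π (toB _ (hZb i)), mem_Mo.2 ⟨_, hZl i, rfl⟩⟩ : Mo h π)) j) := by
    funext j
    rw [hS]
    rcases j with j | j | j
    · exact plain_of π _ (toB _ (hPb j)) (fun n => rfl)
    · exact (plain_of π _ (X j) (fun n => rfl)).trans (hXw j)
    · exact plain_of π _ (toB _ (hZb j)) (fun n => rfl)
  rw [e3] at hlim
  refine le_of_tendsto' hlim fun k => ?_
  have e4 : (fun j => S j k) = asg (P k) (fun i => X i k) (Z k) := by
    funext j
    rw [hS]
    rcases j with j | j | j <;> rfl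
  rw [e4, fFF_ev]
  exact hZF k

end Pool.Agent.Helper436.AD
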