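import Mathlib
import Pool.Agent.Helper436.AD.UD
import Pool.Agent.Helper436.AD.T5
import Pool.Agent.Helper436.AD.P6
import Pool.Agent.Helper436.AD.U2

set_option autoImplicit false
set_option linter.unusedSectionVars false

open scoped Topology BoundedContinuousFunction
open Filter

namespace Pool.Agent.Helper436.AD

open Pool.Agent.Helper278 Pool.Agent.Helper278.CE Pool.Agent.Helper436.SM Pool.Agent.Helper436.SN

variable {H : Type} [NormedAddCommGroup H] [InnerProductSpace ℂ H] [CompleteSpace H]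
variable {N : VonNeumannAlgebra H} {T : TracialState N} {W : VV → Elt N}
variable {Q : Type} [Ring Q] [StarRing Q] [Algebra ℂ Q] [StarModule ℂ Q]
variable {U : Ultrafilter ℕ} {π : (ℕ →ᵇ Elt N) →⋆ₐ[ℂ] Q} {σ : Q → ℂ}

/- JOB: the theorems. -/

theorem Mo_lift3_ineq {B : Type} [Ring B] [StarRing B] [Algebra ℂ B] [StarModule ℂ B]
    {s : B →ₗ[ℂ] ℂ} (hs : TrAlg s) {v b x : B} (hv : v ∈ unitary B)
    (hx : x = v * (star b * b)) : n2 s (x - v) ≤ n2 s (star x * x - 1) := by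
  have hvv : star v * v = 1 := (Unitary.mem_iff.1 hv).1
  obtain ⟨a, ha⟩ : ∃ a, a = star b * b := ⟨_, rfl⟩
  have hsa : star a = a := by rw [ha, star_mul, star_star]
  rw [← ha] at hx
  have e0 : star x * x = a * a := by
    rw [hx, star_mul, hsa]
    calc a * star v * (v * a) = a * (star v * v) * a := by noncomm_ring
      _ = a * a := by rw [hvv, mul_one]
  have e1 : star (x - v) * (x - v) = (a - 1) * (a - 1) := by
    have : x - v = v * (a - 1) := by rw [hx]; noncomm_ring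
    rw [this, star_mul, star_sub, hsa, star_one]
    calc (a - 1) * star v * (v * (a - 1)) = (a - 1) * (star v * v) * (a - 1) := by noncomm_ring
      _ = (a - 1) * (a - 1) := by rw [hvv, mul_one]
  have e2 : star (star x * x - 1) * (star x * x - 1)
      = (a - 1) * (a - 1) + star (a * (a - 1)) * (a * (a - 1)) +
        (star (b * (a - 1)) * (b * (a - 1)) + star (b * (a - 1)) * (b * (a - 1))) := by
    have h1 : star (b * (a - 1)) * (b * (a - 1)) = (a - 1) * a * (a - 1) := by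
      rw [star_mul, star_sub, hsa, star_one]
      calc (a - 1) * star b * (b * (a - 1)) = (a - 1) * (star b * b) * (a - 1) := by noncomm_ring
        _ = (a - 1) * a * (a - 1) := by rw [← ha]
    rw [h1, e0, star_mul, star_sub, star_sub, star_mul, hsa, star_one]
    noncomm_ring
  unfold n2
  apply Real.sqrt_le_sqrt
  rw [e1, e2]
  simp only [map_add, Complex.add_re]
  have h1 := hs.re_nonneg (a * (a - 1))
  have h2 := hs.re_nonneg (b * (a - 1))
  linarith

/-- normalised trace on matrices -/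
noncomputable def Mo3L {A : Type} [Ring A] [StarRing A] [Algebra ℂ A] (τ : A →ₗ[ℂ] ℂ) :
    Matrix (Fin 3) (Fin 3) A →ₗ[ℂ] ℂ where
  toFun x := (τ (x 0 0) + τ (x 1 1) + τ (x 2 2)) / 3
  map_add' x y := by
    simp only [Matrix.add_apply, map_add]; ring
  map_smul' c x := by
    simp only [Matrix.smul_apply, map_smul, smul_eq_mul, RingHom.id_apply]; ring

theorem Mo3L_star_mul {A : Type} [Ring A] [StarRing A] [Algebra ℂ A] (τ : A →ₗ[ℂ] ℂ)
    (x : Matrix (Fin 3) (Fin 3) A) :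
    Mo3L τ (star x * x) = (∑ i, ∑ j, τ (star (x j i) * x j i)) / 3 := by
  show (τ ((star x * x) 0 0) + τ ((star x * x) 1 1) + τ ((star x * x) 2 2)) / 3 = _
  simp only [Matrix.mul_apply, Matrix.star_apply, Fin.sum_univ_three, map_add]

open scoped ComplexOrder in
theorem Mo3L_trAlg {A : Type} [Ring A] [StarRing A] [Algebra ℂ A] [StarModule ℂ A]
    {τ : A →ₗ[ℂ] ℂ} (h : TrAlg τ) : TrAlg (Mo3L τ) where
  one := by
    show (τ ((1 : Matrix (Fin 3) (Fin 3) A) 0 0) + τ ((1 : Matrix (Fin 3) (Fin 3) A) 1 1) +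
      τ ((1 : Matrix (Fin 3) (Fin 3) A) 2 2)) / 3 = 1
    rw [Matrix.one_apply_eq, Matrix.one_apply_eq, Matrix.one_apply_eq, h.one]
    norm_num
  comm x y := by
    show (τ ((x * y) 0 0) + τ ((x * y) 1 1) + τ ((x * y) 2 2)) / 3 =
      (τ ((y * x) 0 0) + τ ((y * x) 1 1) + τ ((y * x) 2 2)) / 3
    simp only [Matrix.mul_apply, Fin.sum_univ_three, map_add]
    rw [h.comm (x 0 0) (y 0 0), h.comm (x 0 1) (y 1 0), h.comm (x 0 2) (y 2 0),
      h.comm (x 1 0) (y 0 1), h.comm (x 1 1) (y 1 1), h.comm (x 1 2) (y 2 1),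
      h.comm (x 2 0) (y 0 2), h.comm (x 2 1) (y 1 2), h.comm (x 2 2) (y 2 2)]
    ring
  nonneg x := by
    rw [Mo3L_star_mul]
    have h0 : (0 : ℂ) ≤ ∑ i, ∑ j, τ (star (x j i) * x j i) :=
      Finset.sum_nonneg fun i _ => Finset.sum_nonneg fun j _ => h.nonneg _
    have h3 : (0 : ℂ) ≤ (3 : ℂ)⁻¹ := by
      rw [Complex.nonneg_iff]; norm_num
    rw [div_eq_mul_inv]
    exact mul_nonneg h0 h3
  conj x := by
    show (τ ((star x) 0 0) + τ ((star x) 1 1) + τ ((star x) 2 2)) / 3 =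
      star ((τ (x 0 0) + τ (x 1 1) + τ (x 2 2)) / 3)
    simp only [Matrix.star_apply, h.conj]
    rw [star_div₀, star_add, star_add]
    congr 1
    simp
  faithful x hx := by
    rw [Mo3L_star_mul, div_eq_zero_iff] at hx
    have h0 : ∑ i, ∑ j, τ (star (x j i) * x j i) = 0 := hx.resolve_right (by norm_num)
    have h1 := (Finset.sum_eq_zero_iff_of_nonneg
      (fun i _ => Finset.sum_nonneg fun j _ => h.nonneg (x j i))).1 h0
    ext j i
    have h2 := (Finset.sum_eq_zero_iff_of_nonneg (fun j _ => h.nonneg (x j i))).1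
      (h1 i (Finset.mem_univ i)) j (Finset.mem_univ j)
    exact h.faithful _ h2

theorem Mo3L_n2_sq {A : Type} [Ring A] [StarRing A] [Algebra ℂ A] [StarModule ℂ A]
    {τ : A →ₗ[ℂ] ℂ} (h : TrAlg τ) (x : Matrix (Fin 3) (Fin 3) A) :
    n2 (Mo3L τ) x ^ 2 = (∑ i, ∑ j, n2 τ (x j i) ^ 2) / 3 := by
  rw [(Mo3L_trAlg h).n2_sq, Mo3L_star_mul]
  have e : ((∑ i, ∑ j, τ (star (x j i) * x j i)) / 3 : ℂ).re
      = (∑ i, ∑ j, (τ (star (x j i) * x j i))).re / 3 := by
    have : ((3 : ℂ)) = ((3 : ℝ) : ℂ) := by norm_num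
    rw [this, Complex.div_ofReal_re]
  rw [e, Complex.re_sum]
  congr 1
  apply Finset.sum_congr rfl
  intro i _
  rw [Complex.re_sum]
  apply Finset.sum_congr rfl
  intro j _
  rw [h.n2_sq]

theorem Mo_lift3_bd (B : Matrix (Fin 3) (Fin 3) (Elt N)) (C : ℝ) (hC : 0 ≤ C) (i j : Fin 3)
    (hB : ‖(star B * B) j j‖ ≤ C ^ 2) : ‖B i j‖ ≤ C := by
  show ‖((B i j : Elt N) : H →L[ℂ] H)‖ ≤ C
  refine ContinuousLinearMap.opNorm_le_bound _ hC fun ξ => ?_
  have h1 : ∀ T : H →L[ℂ] H, inner ℂ ξ ((star T * T) ξ) = ((‖T ξ‖ ^ 2 : ℝ) : ℂ) := by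
    intro T
    rw [ContinuousLinearMap.mul_apply, ContinuousLinearMap.star_eq_adjoint,
      ContinuousLinearMap.adjoint_inner_right, inner_self_eq_norm_sq_to_K]
    norm_cast
  have h2 : ((((star B * B) j j : Elt N)) : H →L[ℂ] H)
      = star ((B 0 j : Elt N) : H →L[ℂ] H) * ((B 0 j : Elt N) : H →L[ℂ] H)
        + star ((B 1 j : Elt N) : H →L[ℂ] H) * ((B 1 j : Elt N) : H →L[ℂ] H)
        + star ((B 2 j : Elt N) : H →L[ℂ] H) * ((B 2 j : Elt N) : H →L[ℂ] H) := by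
    rw [Matrix.mul_apply, Fin.sum_univ_three]
    rfl
  have h3 : inner ℂ ξ ((((star B * B) j j : Elt N) : H →L[ℂ] H) ξ)
      = ((‖((B 0 j : Elt N) : H →L[ℂ] H) ξ‖ ^ 2 + ‖((B 1 j : Elt N) : H →L[ℂ] H) ξ‖ ^ 2
        + ‖((B 2 j : Elt N) : H →L[ℂ] H) ξ‖ ^ 2 : ℝ) : ℂ) := by
    rw [h2, ContinuousLinearMap.add_apply, ContinuousLinearMap.add_apply, inner_add_right,
      inner_add_right, h1, h1, h1]
    push_cast; ring
  have h4 : ‖inner ℂ ξ ((((star B * B) j j : Elt N) : H →L[ℂ] H) ξ)‖ ≤ C ^ 2 * ‖ξ‖ ^ 2 := by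
    refine (norm_inner_le_norm _ _).trans ?_
    have h5 : ‖(((star B * B) j j : Elt N) : H →L[ℂ] H) ξ‖ ≤ C ^ 2 * ‖ξ‖ :=
      (ContinuousLinearMap.le_opNorm _ _).trans
        (mul_le_mul_of_nonneg_right hB (norm_nonneg _))
    calc ‖ξ‖ * ‖(((star B * B) j j : Elt N) : H →L[ℂ] H) ξ‖ ≤ ‖ξ‖ * (C ^ 2 * ‖ξ‖) :=
          mul_le_mul_of_nonneg_left h5 (norm_nonneg _)
      _ = C ^ 2 * ‖ξ‖ ^ 2 := by ring
  rw [h3, Complex.norm_real, Real.norm_eq_abs, abs_of_nonneg (by positivity)] at h4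
  have h6 : ‖((B i j : Elt N) : H →L[ℂ] H) ξ‖ ^ 2 ≤ (C * ‖ξ‖) ^ 2 := by
    rw [mul_pow]
    refine le_trans ?_ h4
    fin_cases i
    · show ‖((B 0 j : Elt N) : H →L[ℂ] H) ξ‖ ^ 2 ≤ _
      nlinarith [sq_nonneg ‖((B 1 j : Elt N) : H →L[ℂ] H) ξ‖,
        sq_nonneg ‖((B 2 j : Elt N) : H →L[ℂ] H) ξ‖]
    · show ‖((B 1 j : Elt N) : H →L[ℂ] H) ξ‖ ^ 2 ≤ _
      nlinarith [sq_nonneg ‖((B 0 j : Elt N) : H →L[ℂ] H) ξ‖,
        sq_nonneg ‖((B 2 j : Elt N) : H →L[ℂ] H) ξ‖]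
    · show ‖((B 2 j : Elt N) : H →L[ℂ] H) ξ‖ ^ 2 ≤ _
      nlinarith [sq_nonneg ‖((B 0 j : Elt N) : H →L[ℂ] H) ξ‖,
        sq_nonneg ‖((B 1 j : Elt N) : H →L[ℂ] H) ξ‖]
  exact (pow_le_pow_iff_left₀ (norm_nonneg _) (mul_nonneg hC (norm_nonneg _)) two_ne_zero).1 h6

theorem Mo_lift3_one : ‖(1 : Elt N)‖ ≤ 1 := by
  show ‖(1 : H →L[ℂ] H)‖ ≤ 1
  exact ContinuousLinearMap.norm_id_le

theorem Mo_lift3_ubd (V : Matrix (Fin 3) (Fin 3) (Elt N))
    (hV : V ∈ unitary (Matrix (Fin 3) (Fin 3) (Elt N))) (i j : Fin 3) : ‖V i j‖ ≤ 1 := by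
  apply Mo_lift3_bd V 1 zero_le_one
  rw [(Unitary.mem_iff.1 hV).1, Matrix.one_apply_eq, one_pow]
  exact Mo_lift3_one

theorem Mo_lift3 (h : PW T.τ W) (hπ : Helper278.IsTracialUltrapower T.τ U π σ)
    (q : Matrix (Fin 3) (Fin 3) (Mo h π)) (hq : q ∈ unitary (Matrix (Fin 3) (Fin 3) (Mo h π))) :
    ∃ x : Fin 3 → Fin 3 → (ℕ →ᵇ Elt N), (∀ i j, x i j ∈ lev h) ∧
      (∀ k, (Matrix.of fun i j => x i j k) ∈ unitary (Matrix (Fin 3) (Fin 3) (Elt N))) ∧
      ∀ i j, π (x i j) = (q i j : Q) := by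
  have hX0 : ∀ i j, ∃ x ∈ lev h, π x = (q i j : Q) := fun i j => mem_Mo.1 (q i j).2
  choose X hX hXq using hX0
  have hpol : ∀ k : ℕ, ∃ v ∈ unitary (Matrix (Fin 3) (Fin 3) (Elt N)),
      v ∈ M3 (SP W (lab 0 (3 * (k + 1))) : Set (Elt N)) ∧
      ∃ b ∈ M3 (SP W (lab 0 (3 * (k + 1))) : Set (Elt N)),
        (Matrix.of fun i j => X i j k) = v * (star b * b) :=
    fun k => M3_polar h (3 * (k + 1)) (fun i j => hX i j k)
  choose V hV hVm B hB hXV using hpol
  have hVn : ∀ k i j, ‖V k i j‖ ≤ 1 := fun k i j => Mo_lift3_ubd (V k) (hV k) i j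
  let x : Fin 3 → Fin 3 → (ℕ →ᵇ Elt N) := fun i j => mkB' (fun k => V k i j) (fun k => hVn k i j)
  have hxk : ∀ i j k, x i j k = V k i j := fun i j k => rfl
  have hqq : star q * q = 1 := (Unitary.mem_iff.1 hq).1
  let Y : Fin 3 → Fin 3 → (ℕ →ᵇ Elt N) := fun i j =>
    star (X 0 i) * X 0 j + star (X 1 i) * X 1 j + star (X 2 i) * X 2 j - (if i = j then 1 else 0)
  have hYπ : ∀ i j, π (Y i j) = 0 := by
    intro i j
    have h1 := congrFun (congrFun hqq i) j
    rw [Matrix.mul_apply, Fin.sum_univ_three, Matrix.one_apply] at h1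
    have h2 : star (q 0 i : Q) * (q 0 j : Q) + star (q 1 i : Q) * (q 1 j : Q)
        + star (q 2 i : Q) * (q 2 j : Q) = if i = j then 1 else 0 := by
      have h3 := congrArg (fun z : Mo h π => (z : Q)) h1
      refine Eq.trans ?_ (h3.trans ?_)
      · rfl
      · split_ifs <;> rfl
    show π (star (X 0 i) * X 0 j + star (X 1 i) * X 1 j + star (X 2 i) * X 2 j
      - (if i = j then 1 else 0)) = 0
    rw [map_sub, map_add, map_add, map_mul, map_mul, map_mul, map_star, map_star, map_star,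
      hXq, hXq, hXq, hXq, hXq, hXq, h2]
    split_ifs
    · rw [map_one, sub_self]
    · rw [map_zero, sub_self]
  have hYk : ∀ i j k, Y i j k = (star (Matrix.of fun i j => X i j k)
      * (Matrix.of fun i j => X i j k) - 1 : Matrix (Fin 3) (Fin 3) (Elt N)) i j := by
    intro i j k
    rw [Matrix.sub_apply, Matrix.mul_apply, Fin.sum_univ_three, Matrix.one_apply]
    show star (X 0 i k) * X 0 j k + star (X 1 i k) * X 1 j k + star (X 2 i k) * X 2 j k
      - ((if i = j then (1 : ℕ →ᵇ Elt N) else 0) k) = _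
    congr 1
    split_ifs <;> rfl
  have hT := trAlg T
  have hS := sigma_trAlg hπ
  refine ⟨x, fun i j k => hVm k i j, fun k => hV k, fun i j => ?_⟩
  have hlim : Tendsto (fun k => ∑ i, ∑ j, n2 T.τ (Y j i k) ^ 2) U (𝓝 0) := by
    have h1 : ∀ i j, Tendsto (fun k => n2 T.τ (Y j i k) ^ 2) U (𝓝 0) := by
      intro i j
      have h2 := (tendsto_n2_pi hπ (Y j i)).pow 2
      rw [hYπ, hS.n2_zero] at h2
      simpa using h2
    have h2 := tendsto_finsetSum Finset.univ (fun i _ =>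
      tendsto_finsetSum Finset.univ (fun j _ => h1 i j))
    simpa using h2
  have hle : ∀ k, n2 T.τ ((X i j - x i j) k) ^ 2 ≤ ∑ i, ∑ j, n2 T.τ (Y j i k) ^ 2 := by
    intro k
    have h1 := Mo_lift3_ineq (Mo3L_trAlg hT) (hV k) (hXV k)
    have h2 := pow_le_pow_left₀ (n2_nonneg _ _) h1 2
    rw [Mo3L_n2_sq hT, Mo3L_n2_sq hT] at h2
    have h3 : ∑ i, ∑ j, n2 T.τ (((Matrix.of fun i j => X i j k) - V k) j i) ^ 2
        ≤ ∑ i, ∑ j, n2 T.τ (Y j i k) ^ 2 := by
      have h4 : ∀ i j, Y j i k = (star (Matrix.of fun i j => X i j k)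
        * (Matrix.of fun i j => X i j k) - 1 : Matrix (Fin 3) (Fin 3) (Elt N)) j i :=
        fun i j => hYk j i k
      simp only [h4]
      linarith
    refine le_trans ?_ h3
    have h5 : n2 T.τ ((X i j - x i j) k) ^ 2 =
        n2 T.τ (((Matrix.of fun i j => X i j k) - V k) i j) ^ 2 := rfl
    rw [h5]
    refine le_trans ?_ (Finset.single_le_sum (f := fun i' => ∑ j', n2 T.τ
      (((Matrix.of fun i j => X i j k) - V k) j' i') ^ 2)
      (fun i' _ => Finset.sum_nonneg fun j' _ => sq_nonneg _) (Finset.mem_univ j))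
    exact Finset.single_le_sum (f := fun j' => n2 T.τ
      (((Matrix.of fun i j => X i j k) - V k) j' j) ^ 2)
      (fun j' _ => sq_nonneg _) (Finset.mem_univ i)
  have hn : n2 (sigmaL hπ) (π (X i j - x i j)) ^ 2 ≤ 0 :=
    le_of_tendsto_of_tendsto' ((tendsto_n2_pi hπ (X i j - x i j)).pow 2) hlim hle
  have hn2 : n2 (sigmaL hπ) (π (X i j - x i j)) ^ 2 = 0 := le_antisymm hn (sq_nonneg _)
  rw [hS.n2_sq] at hn2
  have hz : sigmaL hπ (star (π (X i j - x i j)) * π (X i j - x i j)) = 0 :=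
    Complex.ext hn2 (hS.im_zero _)
  have hz2 := hS.faithful _ hz
  rw [map_sub, sub_eq_zero] at hz2
  rw [← hz2, hXq]

theorem Mo_polar3 (h : PW T.τ W) (hπ : Helper278.IsTracialUltrapower T.τ U π σ)
    (x : Matrix (Fin 3) (Fin 3) (Mo h π)) :
    ∃ v ∈ unitary (Matrix (Fin 3) (Fin 3) (Mo h π)),
      ∃ b : Matrix (Fin 3) (Fin 3) (Mo h π), x = v * (star b * b) := by
  have hX0 : ∀ i j, ∃ y ∈ lev h, π y = (x i j : Q) := fun i j => mem_Mo.1 (x i j).2
  choose X hX hXq using hX0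
  have hpol : ∀ k : ℕ, ∃ v ∈ unitary (Matrix (Fin 3) (Fin 3) (Elt N)),
      v ∈ M3 (SP W (lab 0 (3 * (k + 1))) : Set (Elt N)) ∧
      ∃ b ∈ M3 (SP W (lab 0 (3 * (k + 1))) : Set (Elt N)),
        (Matrix.of fun i j => X i j k) = v * (star b * b) :=
    fun k => M3_polar h (3 * (k + 1)) (fun i j => hX i j k)
  choose V hV hVm B hB hXV using hpol
  have hVn : ∀ k i j, ‖V k i j‖ ≤ 1 := fun k i j => Mo_lift3_ubd (V k) (hV k) i j
  obtain ⟨C, hC1, hC⟩ : ∃ C : ℝ, 1 ≤ C ∧ ∀ j, ‖X 0 j‖ + ‖X 1 j‖ + ‖X 2 j‖ ≤ C := by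
    refine ⟨1 + ∑ j, (‖X 0 j‖ + ‖X 1 j‖ + ‖X 2 j‖), ?_, fun j => ?_⟩
    · have : 0 ≤ ∑ j, (‖X 0 j‖ + ‖X 1 j‖ + ‖X 2 j‖) :=
        Finset.sum_nonneg fun j _ => by positivity
      linarith
    · have := Finset.single_le_sum (f := fun j => ‖X 0 j‖ + ‖X 1 j‖ + ‖X 2 j‖)
        (fun j _ => by positivity) (Finset.mem_univ j)
      linarith
  have hBn : ∀ k i j, ‖B k i j‖ ≤ C := by
    intro k i j
    apply Mo_lift3_bd (B k) C (by linarith)
    have h1 : star (B k) * B k = star (V k) * (Matrix.of fun i j => X i j k) := by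
      rw [hXV k, ← mul_assoc, (Unitary.mem_iff.1 (hV k)).1, one_mul]
    rw [h1, Matrix.mul_apply, Fin.sum_univ_three]
    have h2 : ∀ l : Fin 3, ‖(star (V k)) j l * (Matrix.of fun i j => X i j k) l j‖ ≤ ‖X l j‖ := by
      intro l
      refine (norm_mul_le _ _).trans ?_
      have h3 : ‖(star (V k)) j l‖ ≤ 1 := by
        rw [Matrix.star_apply, norm_star]; exact hVn k l j
      have h4 : ‖(Matrix.of fun i j => X i j k) l j‖ ≤ ‖X l j‖ :=
        BoundedContinuousFunction.norm_coe_le_norm (X l j) k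
      calc _ ≤ 1 * ‖X l j‖ := mul_le_mul h3 h4 (norm_nonneg _) zero_le_one
        _ = ‖X l j‖ := one_mul _
    calc _ ≤ ‖(star (V k)) j 0 * (Matrix.of fun i j => X i j k) 0 j
          + (star (V k)) j 1 * (Matrix.of fun i j => X i j k) 1 j‖
          + ‖(star (V k)) j 2 * (Matrix.of fun i j => X i j k) 2 j‖ := norm_add_le _ _
      _ ≤ ‖(star (V k)) j 0 * (Matrix.of fun i j => X i j k) 0 j‖
          + ‖(star (V k)) j 1 * (Matrix.of fun i j => X i j k) 1 j‖
          + ‖(star (V k)) j 2 * (Matrix.of fun i j => X i j k) 2 j‖ := by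
          gcongr; exact norm_add_le _ _
      _ ≤ ‖X 0 j‖ + ‖X 1 j‖ + ‖X 2 j‖ := by
          have := h2 0; have := h2 1; have := h2 2; linarith
      _ ≤ C := hC j
      _ ≤ C ^ 2 := by nlinarith
  let v' : Fin 3 → Fin 3 → (ℕ →ᵇ Elt N) := fun i j => mkB' (fun k => V k i j) (fun k => hVn k i j)
  let b' : Fin 3 → Fin 3 → (ℕ →ᵇ Elt N) := fun i j =>
    BoundedContinuousFunction.ofNormedAddCommGroupDiscrete (fun k => B k i j) C
      (fun k => hBn k i j)
  have hv'k : ∀ i j k, v' i j k = V k i j := fun i j k => rfl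
  have hb'k : ∀ i j k, b' i j k = B k i j := fun i j k => rfl
  have hU1 : ∀ i j, star (v' 0 i) * v' 0 j + star (v' 1 i) * v' 1 j + star (v' 2 i) * v' 2 j
      = if i = j then 1 else 0 := by
    intro i j
    apply BoundedContinuousFunction.ext
    intro k
    have h1 := congrFun (congrFun (Unitary.mem_iff.1 (hV k)).1 i) j
    rw [Matrix.mul_apply, Fin.sum_univ_three, Matrix.one_apply] at h1
    refine Eq.trans h1 ?_
    split_ifs <;> rfl
  have hU2 : ∀ i j, v' i 0 * star (v' j 0) + v' i 1 * star (v' j 1) + v' i 2 * star (v' j 2)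
      = if i = j then 1 else 0 := by
    intro i j
    apply BoundedContinuousFunction.ext
    intro k
    have h1 := congrFun (congrFun (Unitary.mem_iff.1 (hV k)).2 i) j
    rw [Matrix.mul_apply, Fin.sum_univ_three, Matrix.one_apply] at h1
    refine Eq.trans h1 ?_
    split_ifs <;> rfl
  have hXVb : ∀ i j, X i j =
      v' i 0 * (star (b' 0 0) * b' 0 j + star (b' 1 0) * b' 1 j + star (b' 2 0) * b' 2 j)
      + v' i 1 * (star (b' 0 1) * b' 0 j + star (b' 1 1) * b' 1 j + star (b' 2 1) * b' 2 j)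
      + v' i 2 * (star (b' 0 2) * b' 0 j + star (b' 1 2) * b' 1 j + star (b' 2 2) * b' 2 j) := by
    intro i j
    apply BoundedContinuousFunction.ext
    intro k
    have h1 := congrFun (congrFun (hXV k) i) j
    rw [Matrix.mul_apply, Fin.sum_univ_three, Matrix.mul_apply, Matrix.mul_apply,
      Matrix.mul_apply, Fin.sum_univ_three, Fin.sum_univ_three, Fin.sum_univ_three] at h1
    exact h1
  let v : Matrix (Fin 3) (Fin 3) (Mo h π) := Matrix.of fun i j =>
    ⟨π (v' i j), mem_Mo.2 ⟨v' i j, fun k => hVm k i j, rfl⟩⟩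
  let b : Matrix (Fin 3) (Fin 3) (Mo h π) := Matrix.of fun i j =>
    ⟨π (b' i j), mem_Mo.2 ⟨b' i j, fun k => hB k i j, rfl⟩⟩
  refine ⟨v, ?_, b, ?_⟩
  · rw [Unitary.mem_iff]
    constructor
    · ext i j
      rw [Matrix.mul_apply, Fin.sum_univ_three, Matrix.one_apply]
      have h1 := congrArg π (hU1 i j)
      rw [map_add, map_add, map_mul, map_mul, map_mul, map_star, map_star, map_star] at h1
      refine Eq.trans h1 ?_
      split_ifs
      · exact map_one π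
      · exact map_zero π
    · ext i j
      rw [Matrix.mul_apply, Fin.sum_univ_three, Matrix.one_apply]
      have h1 := congrArg π (hU2 i j)
      rw [map_add, map_add, map_mul, map_mul, map_mul, map_star, map_star, map_star] at h1
      refine Eq.trans h1 ?_
      split_ifs
      · exact map_one π
      · exact map_zero π
  · ext i j
    rw [Matrix.mul_apply, Fin.sum_univ_three, Matrix.mul_apply, Matrix.mul_apply,
      Matrix.mul_apply, Fin.sum_univ_three, Fin.sum_univ_three, Fin.sum_univ_three]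
    have h1 := congrArg π (hXVb i j)
    rw [hXq] at h1
    simp only [map_add, map_mul, map_star] at h1
    exact h1

end Pool.Agent.Helper436.AD
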