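import Mathlib
import Pool.Agent.Helper436.AD.UD
import Pool.Agent.Helper436.AD.T5
import Pool.Agent.Helper436.AD.P6
import Pool.Agent.Helper436.AD.U3

set_option autoImplicit false
set_option linter.unusedSectionVars false

open scoped Topology BoundedContinuousFunction
open Filter

namespace Pool.Agent.Helper436.AD

open Pool.Agent.Helper278 Pool.Agent.Helper278.CE Pool.Agent.Helper436.SM Pool.Agent.Helper436.SN

variable {H : Type} [NormedAddCommGroup H] [InnerProductSpace ℂ H] [CompleteSpace H]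
variable {N : VonNeumannAlgebra H} {T : TracialState N} {W : VV → Elt N}
variable {Q : Type} [Ring Q] [StarRing Q] [Algebra ℂ Q] [StarModule ℂ Q]
variable {U : Ultrafilter ℕ} {π : (ℕ →ᵇ Elt N) →⋆ₐ[ℂ] Q} {σ : Q → ℂ}


/-- entrywise star homomorphism -/
def mmap {A B : Type} [Ring A] [StarRing A] [Algebra ℂ A] [Ring B] [StarRing B] [Algebra ℂ B]
    (f : A →⋆ₐ[ℂ] B) : Matrix (Fin 3) (Fin 3) A →⋆ₐ[ℂ] Matrix (Fin 3) (Fin 3) B where
  toFun x := x.map f
  map_one' := by
    ext i j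
    rw [Matrix.map_apply, Matrix.one_apply, Matrix.one_apply]
    split_ifs
    · exact map_one f
    · exact map_zero f
  map_mul' x y := by
    ext i j
    rw [Matrix.map_apply, Matrix.mul_apply, Matrix.mul_apply, map_sum]
    refine Finset.sum_congr rfl fun k _ => ?_
    rw [map_mul]
    rfl
  map_zero' := by
    ext i j
    exact map_zero f
  map_add' x y := by
    ext i j
    exact map_add f _ _
  commutes' r := by
    ext i j
    rw [Matrix.map_apply, Matrix.algebraMap_matrix_apply, Matrix.algebraMap_matrix_apply]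
    split_ifs
    · exact AlgHomClass.commutes f r
    · exact map_zero f
  map_star' x := by
    ext i j
    exact map_star f _

theorem mmap_apply {A B : Type} [Ring A] [StarRing A] [Algebra ℂ A] [Ring B] [StarRing B]
    [Algebra ℂ B] (f : A →⋆ₐ[ℂ] B) (x : Matrix (Fin 3) (Fin 3) A) (i j : Fin 3) :
    mmap f x i j = f (x i j) := rfl

/-- evaluation at `k` -/
noncomputable def evk (N : VonNeumannAlgebra H) (k : ℕ) : (ℕ →ᵇ Elt N) →⋆ₐ[ℂ] Elt N where
  toFun x := x k
  map_one' := rfl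
  map_mul' _ _ := rfl
  map_zero' := rfl
  map_add' _ _ := rfl
  commutes' _ := rfl
  map_star' _ := rfl

theorem evk_apply (k : ℕ) (x : ℕ →ᵇ Elt N) : evk N k x = x k := rfl

theorem mtr_tendsto (hπ : Helper278.IsTracialUltrapower T.τ U π σ)
    (X : Matrix (Fin 3) (Fin 3) (ℕ →ᵇ Elt N)) :
    Tendsto (fun k => mtr 3 T.τ (mmap (evk N k) X)) U (𝓝 (mtr 3 σ (mmap π X))) := by
  unfold mtr
  refine Tendsto.div_const ?_ _
  refine tendsto_finsetSum _ fun i _ => ?_
  exact hπ.trace (X i i)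

theorem Fm_tendsto3 (hπ : Helper278.IsTracialUltrapower T.τ U π σ) {ι : Type}
    (X : ι → Matrix (Fin 3) (Fin 3) (ℕ →ᵇ Elt N)) (f : Fm ι) :
    Tendsto (fun k => f.ev (mtr 3 T.τ) (fun j => mmap (evk N k) (X j))) U
      (𝓝 (f.ev (mtr 3 σ) (fun j => mmap π (X j)))) := by
  induction f with
  | n2s t =>
    simp only [Fm.ev, AD.n2s]
    have h1 := (Complex.continuous_re.tendsto _).comp (mtr_tendsto hπ (star (t.ev X) * t.ev X))
    rw [map_mul, map_star, ← Tm.ev_map_aux] at h1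
    refine h1.congr fun k => ?_
    show (mtr 3 T.τ (mmap (evk N k) (star (t.ev X) * t.ev X))).re = _
    rw [map_mul, map_star, ← Tm.ev_map_aux]
  | trs t =>
    simp only [Fm.ev]
    have h1 := (mtr_tendsto hπ (t.ev X)).norm.pow 2
    rw [← Tm.ev_map_aux] at h1
    refine h1.congr fun k => ?_
    rw [← Tm.ev_map_aux]
  | op H hH f g ihf ihg =>
    simp only [Fm.ev]
    exact (hH.tendsto (f.ev (mtr 3 σ) (fun j => mmap π (X j)),
      g.ev (mtr 3 σ) (fun j => mmap π (X j)))).comp (ihf.prodMk_nhds ihg)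

theorem entry_norm_le (x : Matrix (Fin 3) (Fin 3) (Elt N))
    (hx : x ∈ unitary (Matrix (Fin 3) (Fin 3) (Elt N))) (i j : Fin 3) : ‖x i j‖ ≤ 1 := by
  have h1 : star x * x = 1 := (Unitary.mem_iff.1 hx).1
  have h2 := congrFun (congrFun h1 j) j
  rw [Matrix.mul_apply, Matrix.one_apply_eq] at h2
  have h3 : ∑ k, (ContinuousLinearMap.adjoint ((x k j : Elt N) : H →L[ℂ] H)).comp
      ((x k j : Elt N) : H →L[ℂ] H) = ContinuousLinearMap.id ℂ H := by
    have h4 := congrArg (fun y : Elt N => (y : H →L[ℂ] H)) h2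
    simp only [Matrix.star_apply] at h4
    rw [AddSubmonoidClass.coe_finsetSum] at h4
    exact h4
  have h5 : ∀ ξ : H, ‖((x i j : Elt N) : H →L[ℂ] H) ξ‖ ^ 2 ≤ ‖ξ‖ ^ 2 := by
    intro ξ
    have h6 := congrArg (fun y : H →L[ℂ] H => inner ℂ (y ξ) ξ) h3
    simp only [_root_.sum_apply, sum_inner, ContinuousLinearMap.comp_apply,
      ContinuousLinearMap.adjoint_inner_left, ContinuousLinearMap.id_apply] at h6
    have h7 := congrArg Complex.re h6
    rw [Complex.re_sum] at h7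
    have h8 : ∀ η : H, (inner ℂ η η).re = ‖η‖ ^ 2 := fun η => by
      rw [inner_self_eq_norm_sq_to_K]
      norm_cast
    simp only [h8] at h7
    rw [← h7]
    exact Finset.single_le_sum (f := fun k => ‖((x k j : Elt N) : H →L[ℂ] H) ξ‖ ^ 2)
      (fun k _ => sq_nonneg _) (Finset.mem_univ i)
  have h9 : ‖((x i j : Elt N) : H →L[ℂ] H)‖ ≤ 1 := by
    refine ContinuousLinearMap.opNorm_le_bound _ zero_le_one fun ξ => ?_
    rw [one_mul]
    exact le_of_sq_le_sq (h5 ξ) (norm_nonneg _)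
  exact h9

theorem Mo_unsat (h : PW T.τ W) (hπ : Helper278.IsTracialUltrapower T.τ U π σ) :
    ∃ c : ℝ, 0 < c ∧ ∀ p : Fin 13 → Matrix (Fin 3) (Fin 3) (Mo h π), UU Set.univ p →
      ∃ w : Fin 6 → Matrix (Fin 3) (Fin 3) (Mo h π), UU Set.univ w ∧
        ∀ z : Fin 2 → Matrix (Fin 3) (Fin 3) (Mo h π), UU Set.univ z →
          c ≤ FF (10 ^ 8) (mtr 3 (phiM h hπ)) p w z := by
  classical
  obtain ⟨c, hc, hneg⟩ := neg_side
  refine ⟨c, hc, fun p hp => ?_⟩
  choose P hP1 hP2 hP3 using fun i => Mo_lift3 h hπ (p i) (hp i).1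
  have hn := fun k : ℕ => hneg (Elt N) T.τ W h (3 * (k + 1))
    (fun i => Matrix.of fun a b => P i a b k) (fun i => ⟨hP2 i k, fun a b => hP1 i a b k⟩)
  choose w hw hwz using hn
  have hbd : ∀ i a b k, ‖w k i a b‖ ≤ 1 := fun i a b k => entry_norm_le _ (hw k i).1 a b
  let W' : Fin 6 → Matrix (Fin 3) (Fin 3) (ℕ →ᵇ Elt N) := fun i => Matrix.of fun a b =>
    BoundedContinuousFunction.ofNormedAddCommGroupDiscrete (fun k => w k i a b) 1 (hbd i a b)
  have hW' : ∀ i k, mmap (evk N k) (W' i) = w k i := fun i k => by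
    ext a b
    rfl
  have hWl : ∀ i a b, W' i a b ∈ lev h := fun i a b k => (hw k i).2 a b
  let w' : Fin 6 → Matrix (Fin 3) (Fin 3) (Mo h π) := fun i => Matrix.of fun a b =>
    ⟨π (W' i a b), mem_Mo.2 ⟨W' i a b, hWl i a b, rfl⟩⟩
  let ι : Mo h π →⋆ₐ[ℂ] Q := (Mo h π).subtype
  have hι : Function.Injective (mmap ι) := by
    intro x y hxy
    ext a b
    exact congrFun (congrFun hxy a) b
  have hw' : ∀ i, mmap ι (w' i) = mmap π (W' i) := fun i => by
    ext a b
    rfl
  have hWu : ∀ i, W' i ∈ unitary (Matrix (Fin 3) (Fin 3) (ℕ →ᵇ Elt N)) := by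
    intro i
    have key : ∀ x y : Matrix (Fin 3) (Fin 3) (ℕ →ᵇ Elt N),
        (∀ k, mmap (evk N k) x = mmap (evk N k) y) → x = y := by
      intro x y hxy
      ext a b : 1
      refine BoundedContinuousFunction.ext fun k => ?_
      exact congrFun (congrFun (hxy k) a) b
    refine Unitary.mem_iff.2 ⟨key _ _ fun k => ?_, key _ _ fun k => ?_⟩
    · rw [map_mul, map_star, map_one, hW', (Unitary.mem_iff.1 (hw k i).1).1]
    · rw [map_mul, map_star, map_one, hW', (Unitary.mem_iff.1 (hw k i).1).2]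
  refine ⟨w', fun i => ⟨?_, trivial⟩, fun z hz => ?_⟩
  · refine Unitary.mem_iff.2 ⟨hι ?_, hι ?_⟩
    · rw [map_mul, map_star, map_one, hw', ← map_star, ← map_mul,
        (Unitary.mem_iff.1 (hWu i)).1, map_one]
    · rw [map_mul, map_star, map_one, hw', ← map_star, ← map_mul,
        (Unitary.mem_iff.1 (hWu i)).2, map_one]
  choose Z hZ1 hZ2 hZ3 using fun i => Mo_lift3 h hπ (z i) (hz i).1
  have hle : ∀ k, c ≤ FF (10 ^ 8) (mtr 3 T.τ) (fun i => Matrix.of fun a b => P i a b k) (w k)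
      (fun i => Matrix.of fun a b => Z i a b k) := fun k =>
    hwz k _ (fun i => ⟨hZ2 i k, fun a b => hZ1 i a b k⟩)
  let X : Ix3 → Matrix (Fin 3) (Fin 3) (ℕ →ᵇ Elt N) :=
    asg (fun i => Matrix.of fun a b => P i a b) W' (fun i => Matrix.of fun a b => Z i a b)
  have h1 : ∀ k, c ≤ (fFF (10 ^ 8)).ev (mtr 3 T.τ) (fun j => mmap (evk N k) (X j)) := by
    intro k
    have h2 := hle k
    rw [← fFF_ev] at h2
    have h3 : (fun j => mmap (evk N k) (X j)) = asg (fun i => Matrix.of fun a b => P i a b k) (w k)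
        (fun i => Matrix.of fun a b => Z i a b k) := by
      funext j
      rcases j with j | j | j
      · ext a b
        rfl
      · exact hW' j k
      · ext a b
        rfl
    rw [h3]
    exact h2
  have h4 : c ≤ (fFF (10 ^ 8)).ev (mtr 3 σ) (fun j => mmap π (X j)) :=
    ge_of_tendsto (Fm_tendsto3 hπ X (fFF (10 ^ 8))) (Filter.Eventually.of_forall h1)
  have h5 : (fun j => mmap π (X j)) = fun j => mmap ι (asg p w' z j) := by
    funext j
    rcases j with j | j | j
    · ext a b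
      exact hP3 j a b
    · exact (hw' j).symm
    · ext a b
      exact hZ3 j a b
  rw [h5, Fm.ev_map (mmap ι) (φ := mtr 3 (phiM h hπ)) (fun x => rfl)] at h4
  rw [← fFF_ev]
  exact h4

theorem exists_Big : ∃ (A : Type) (_ : Ring A) (_ : StarRing A) (_ : Algebra ℂ A)
    (_ : StarModule ℂ A) (φ : A →ₗ[ℂ] ℂ), Big φ := by
  obtain ⟨H, _, _, _, N, T, W, hW, hP⟩ := ExR.exists_R
  have h : PW T.τ W := ⟨trAlg T, hW, hP⟩
  have hU : ∀ n : ℕ, {n} ∉ (Filter.hyperfilter ℕ : Ultrafilter ℕ) := fun n =>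
    Filter.notMem_hyperfilter_of_finite (Set.finite_singleton n)
  obtain ⟨Q, _, _, _, _, π, σ, hπ⟩ := exists_ultrapower T (Filter.hyperfilter ℕ)
  refine ⟨Mo h π, inferInstance, inferInstance, inferInstance, inferInstance, phiM h hπ, ?_⟩
  exact
    { tr := Mo_tr h hπ
      bdd := Mo_bdd h hπ
      polar := Mo_polar h hπ
      polar3 := Mo_polar3 h hπ
      sat := Mo_sat h hπ
      unsat := Mo_unsat h hπ
      gap := Mo_gap h hπ
      inf := Mo_inf h hU hπ }

end Pool.Agent.Helper436.AD
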