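import Mathlib
import Pool.Agent.Helper278.CEMod
import Pool.Agent.Helper278.CEBall
import Pool.Agent.Helper278.CEStd
import Pool.Agent.Helper278.CEIter
import Pool.Agent.Helper278.Model
import Pool.Agent.Helper436.SM.Pack

set_option autoImplicit false
set_option linter.unusedSectionVars false

namespace Pool.Agent.Helper436.AD

open Pool.Agent.Helper278

/-- JOB: the tracial ultrapower as a von Neumann algebra. -/
theorem exists_ultra_vn {H : Type} [NormedAddCommGroup H] [InnerProductSpace ℂ H]
    [CompleteSpace H] {N : VonNeumannAlgebra H} {τ : Elt N → ℂ} (hN : IsIIOneFactor N τ)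
    (U : Ultrafilter ℕ) (hU : ∀ n, {n} ∉ U) :
    ∃ (K : Type) (_ : NormedAddCommGroup K) (_ : InnerProductSpace ℂ K) (_ : CompleteSpace K)
      (P : VonNeumannAlgebra K) (π : (ℕ → Elt N) → Elt P) (φ : Elt P → ℂ),
      CE.IsTracialUltrapower τ U π φ := by
  let T : TracialState N := mkState N τ hN.normal hN.trace
  have hT : (fun x => T.τ x) = τ := by
    funext x
    exact mkState_apply N τ hN.normal hN.trace x
  obtain ⟨Q, i1, i2, i3, i4, π, σ, hπ⟩ := exists_ultrapower T U
  have hA := sigma_trAlg hπ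
  obtain ⟨K, j1, j2, j3, j, hd, hj⟩ := CE.exists_gns hA
  have hB := CE.ball_ultra hU hπ
  let e := CE.LmEquiv hA hd hj hB
  let θ : BoundedContinuousFunction ℕ (Elt N) →⋆ₐ[ℂ] Elt (CE.MM j) :=
    (e : Q →⋆ₐ[ℂ] Elt (CE.MM j)).comp π
  have hθ : ∀ x, θ x = e (π x) := fun x => rfl
  have hθT : IsTracialUltrapower T.τ U θ (CE.tauM j) := by
    refine ⟨?_, ?_, ?_⟩
    · intro q
      obtain ⟨x, hx⟩ := hπ.surj (e.symm q)
      exact ⟨x, by rw [hθ, hx, e.apply_symm_apply]⟩
    · intro x
      rw [hθ, ← hπ.ker x]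
      constructor
      · intro h
        have h1 : e (π x) = e 0 := by rw [h, map_zero]
        exact e.injective h1
      · intro h
        rw [h, map_zero]
    · intro x
      rw [hθ]
      have h1 := CE.tauM_LmEquiv hA hd hj hB (π x)
      have h2 : CE.tauM j (e (π x)) = σ (π x) := h1
      rw [h2]
      exact hπ.trace x
  refine ⟨K, j1, j2, j3, CE.MM j, CE.plain θ, CE.tauM j, ?_⟩
  have h := CE.plain_tracial hθT
  rw [hT] at h
  exact h

end Pool.Agent.Helper436.AD
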