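import Mathlib
import Pool.Agent.Helper436.AD.Amp
import Pool.Agent.Helper436.AD.A1
import Pool.Agent.Helper436.AD.A2
import Pool.Agent.Helper436.AD.A3
import Pool.Agent.Helper436.AD.A4
import Pool.Agent.Helper436.AD.T1
import Pool.Agent.Helper436.AD.U4
import Pool.Agent.Helper436.AD.V1
import Pool.Agent.Helper436.AD.Hull

set_option autoImplicit false
set_option linter.unusedSectionVars false

namespace Pool.Agent.Helper436.AD

open Pool.Agent.Helper278 Pool.Agent.Helper436.SM Pool.Agent.Helper436.SN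

universe w

/-- transport of `Sat` along a star isomorphism -/
theorem Sat.iso {A B : Type} [Ring A] [StarRing A] [Algebra ℂ A] [Ring B] [StarRing B]
    [Algebra ℂ B] (e : A ≃⋆ₐ[ℂ] B) {φ : A → ℂ} {ψ : B → ℂ} (he : ∀ x, ψ (e x) = φ x)
    {f : Fm Ix3} {r : ℝ} (h : Sat f φ r) : Sat f ψ r := by
  obtain ⟨p, hp, h⟩ := h
  have hun : ∀ {x : A}, x ∈ unitary A → e x ∈ unitary B := by
    intro x hx
    rw [Unitary.mem_iff] at hx ⊢
    refine ⟨?_, ?_⟩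
    · rw [← map_star, ← map_mul, hx.1, map_one]
    · rw [← map_star, ← map_mul, hx.2, map_one]
  have hun' : ∀ {x : B}, x ∈ unitary B → e.symm x ∈ unitary A := by
    intro x hx
    rw [Unitary.mem_iff] at hx ⊢
    refine ⟨?_, ?_⟩
    · rw [← map_star, ← map_mul, hx.1, map_one]
    · rw [← map_star, ← map_mul, hx.2, map_one]
  refine ⟨fun j => e (p j), fun j => ⟨hun (hp j).1, trivial⟩, fun w hw => ?_⟩
  obtain ⟨z, hz, hzr⟩ := h (fun j => e.symm (w j)) (fun j => ⟨hun' (hw j).1, trivial⟩)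
  refine ⟨fun j => e (z j), fun j => ⟨hun (hz j).1, trivial⟩, ?_⟩
  have h1 := Fm.ev_map (e : A →⋆ₐ[ℂ] B) (φ := φ) (ψ := ψ) he
    (asg p (fun j => e.symm (w j)) z) f
  have h2 : (fun j => (e : A →⋆ₐ[ℂ] B) (asg p (fun j => e.symm (w j)) z j)) =
      asg (fun j => e (p j)) w (fun j => e (z j)) := by
    funext j
    rcases j with j | j | j
    · rfl
    · show e (e.symm (w j)) = w j
      exact e.apply_symm_apply _
    · rfl
  rw [h2] at h1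
  rw [h1]
  exact hzr

theorem final :
    ∃ N₁ N₂ M₁ M₂ : SepFactor,
      (∀ U : Ultrafilter ℕ, (∀ n, {n} ∉ U) → TensorIso U N₁ N₂ M₁ M₂) ∧
        ¬ (Equivalent.{w} N₁ M₁ ∧ Equivalent.{w} N₂ M₂) ∧
          ¬ (Equivalent.{w} N₁ M₂ ∧ Equivalent.{w} N₂ M₁) := by
  obtain ⟨A, _, _, _, _, φ, hB⟩ := exists_Big
  obtain ⟨K, _, _, _, P, τ, hfac, hsep, hsat, c, hc, hun⟩ := hull hB
  obtain ⟨P3, e3, he3⟩ := exists_amp 3 P
  obtain ⟨P9, e9, he9⟩ := exists_amp 3 P3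
  have hfac3 := amp_factor (by norm_num) hfac he3
  have hsep3 := amp_separable (by norm_num) hfac hsep he3
  have hfac9 := amp_factor (by norm_num) hfac3 he9
  have hsep9 := amp_separable (by norm_num) hfac3 hsep3 he9
  have key : ¬ ElemEquiv.{w} τ (ampTr e3 τ) := by
    intro hE
    have h1 : Sat (fFF (10 ^ 8)) (ampTr e3 τ) c :=
      Sat.elem hfac hfac3 hE (fFF (10 ^ 8)) (half_lt_self hc) (hsat (c / 2) (half_pos hc))
    apply hun
    exact Sat.iso (φ := ampTr e3 τ) (ψ := mtr 3 τ) e3.symm (fun x => rfl) h1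
  refine ⟨⟨K, P, τ, hfac, hsep⟩, ⟨_, P9, ampTr e9 (ampTr e3 τ), hfac9, hsep9⟩,
    ⟨_, P3, ampTr e3 τ, hfac3, hsep3⟩, ⟨_, P3, ampTr e3 τ, hfac3, hsep3⟩, ?_, fun h => key h.1,
    fun h => key h.1⟩
  intro U hU
  obtain ⟨L, _, _, _, Q, π, ψ, hπ⟩ := exists_ultra_vn hfac U hU
  obtain ⟨Q3, f3, hf3⟩ := exists_amp 3 Q
  obtain ⟨Q9, f9, hf9⟩ := exists_amp 3 Q3
  have hπ3 := amp_ultra (by norm_num) hfac he3 hπ hf3
  have hπ9 := amp_ultra (by norm_num) hfac3 he9 hπ3 hf9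
  obtain ⟨E⟩ := tensor_shift 3 Q Q3 hf3 hf9
  exact ⟨⟨L, Q, π, ψ, hπ⟩, ⟨_, Q9, _, _, hπ9⟩, ⟨_, Q3, _, _, hπ3⟩, ⟨_, Q3, _, _, hπ3⟩, ⟨E.symm⟩⟩

end Pool.Agent.Helper436.AD
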