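import Mathlib
import Pool.Agent.Helper278.DefsG
import Pool.Agent.Helper278.CEStmt
import Pool.Agent.Helper436.SM.Stmt
import Pool.Agent.Helper436.SN.StmtG

set_option autoImplicit false

open scoped InnerProductSpace

namespace Pool.Agent.Helper436.AD.TU

open Pool.Agent.Helper278 Pool.Agent.Helper436.SM Pool.Agent.Helper436.SN

universe w

section tensor

variable {H K L : Type} [NormedAddCommGroup H] [InnerProductSpace ℂ H] [NormedAddCommGroup K]
  [InnerProductSpace ℂ K] [NormedAddCommGroup L] [InnerProductSpace ℂ L]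

/-- The Hilbert space `L` with the bilinear map `t : (h, k) ↦ h ⊗ k` is the Hilbert space tensor
product `H ⊗ K`: `⟨h ⊗ k, h' ⊗ k'⟩ = ⟨h, h'⟩ ⟨k, k'⟩`, and the vectors `h ⊗ k` span a dense
subspace. -/
structure IsHilbertTensor (t : H → K → L) : Prop where
  add_left : ∀ h h' k, t (h + h') k = t h k + t h' k
  add_right : ∀ h k k', t h (k + k') = t h k + t h k'
  smul_left : ∀ (c : ℂ) h k, t (c • h) k = c • t h k
  smul_right : ∀ (c : ℂ) h k, t h (c • k) = c • t h k
  inner : ∀ h h' k k', ⟪t h k, t h' k'⟫_ℂ = ⟪h, h'⟫_ℂ * ⟪k, k'⟫_ℂ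
  dense : Dense (Submodule.span ℂ {v : L | ∃ h k, v = t h k} : Set L)

/-- `T` is the operator `x ⊗ y : h ⊗ k ↦ x h ⊗ y k`. -/
def IsTensorOp (t : H → K → L) (x : H →L[ℂ] H) (y : K →L[ℂ] K) (T : L →L[ℂ] L) : Prop :=
  ∀ (h : H) (k : K), T (t h k) = t (x h) (y k)

/-- `C` is the von Neumann tensor product of the von Neumann algebras `N` on `H` and `M` on `K`: the
von Neumann algebra on `H ⊗ K` generated by the operators `x ⊗ y` with `x ∈ N` and `y ∈ M`. -/
def IsTensorProduct [CompleteSpace H] [CompleteSpace K] [CompleteSpace L] (t : H → K → L)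
    (N : VonNeumannAlgebra H) (M : VonNeumannAlgebra K) (C : VonNeumannAlgebra L) : Prop :=
  IsHilbertTensor t ∧ C = vnGen {T | ∃ x ∈ N, ∃ y ∈ M, IsTensorOp t x y T}

/-- `N` and `M` are isomorphic star algebras. -/
def StarIso [CompleteSpace H] [CompleteSpace K] (N : VonNeumannAlgebra H)
    (M : VonNeumannAlgebra K) : Prop := Nonempty (Elt N ≃⋆ₐ[ℂ] Elt M)

/-- `P` with the trace `φ` and the quotient map `π` is the tracial ultrapower `N^U`. -/
def IsUltrapower [CompleteSpace H] [CompleteSpace K] (U : Ultrafilter ℕ)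
    (N : VonNeumannAlgebra H) (τ : Elt N → ℂ) (P : VonNeumannAlgebra K)
    (π : (ℕ → Elt N) → Elt P) (φ : Elt P → ℂ) : Prop := CE.IsTracialUltrapower τ U π φ

end tensor

/-- A separable II₁ factor: a von Neumann algebra on a Hilbert space, with its trace. -/
structure SepFactor : Type 1 where
  /-- the Hilbert space -/
  H : Type
  [nacg : NormedAddCommGroup H]
  [ips : InnerProductSpace ℂ H]
  [cs : CompleteSpace H]
  /-- the von Neumann algebra -/
  alg : VonNeumannAlgebra H
  /-- its trace -/
  tr : Elt alg → ℂ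
  factor : IsIIOneFactor alg tr
  separable : IsSeparable tr

attribute [instance] SepFactor.nacg SepFactor.ips SepFactor.cs

/-- The tracial ultrapower `N^U` of a separable II₁ factor `N`, as a von Neumann algebra on a
Hilbert space. -/
structure UltraPow (U : Ultrafilter ℕ) (N : SepFactor) : Type 1 where
  /-- the Hilbert space -/
  K : Type
  [nacg : NormedAddCommGroup K]
  [ips : InnerProductSpace ℂ K]
  [cs : CompleteSpace K]
  /-- the von Neumann algebra -/
  alg : VonNeumannAlgebra K
  /-- the quotient map -/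
  quo : (ℕ → Elt N.alg) → Elt alg
  /-- the trace -/
  tr : Elt alg → ℂ
  isUltrapower : IsUltrapower U N.alg N.tr alg quo tr

attribute [instance] UltraPow.nacg UltraPow.ips UltraPow.cs

/-- The von Neumann tensor product of `N` and `M`, on some model of the Hilbert space `H ⊗ K`. -/
structure TensorProd {H K : Type} [NormedAddCommGroup H] [InnerProductSpace ℂ H] [CompleteSpace H]
    [NormedAddCommGroup K] [InnerProductSpace ℂ K] [CompleteSpace K] (N : VonNeumannAlgebra H)
    (M : VonNeumannAlgebra K) : Type 1 where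
  /-- the Hilbert space -/
  L : Type
  [nacg : NormedAddCommGroup L]
  [ips : InnerProductSpace ℂ L]
  [cs : CompleteSpace L]
  /-- the vectors `h ⊗ k` -/
  t : H → K → L
  /-- the von Neumann algebra -/
  alg : VonNeumannAlgebra L
  isTensorProduct : IsTensorProduct t N M alg

attribute [instance] TensorProd.nacg TensorProd.ips TensorProd.cs

/-- `N₁^U ⊗ N₂^U` and `M₁^U ⊗ M₂^U` are isomorphic star algebras. -/
def TensorIso (U : Ultrafilter ℕ) (N₁ N₂ M₁ M₂ : SepFactor) : Prop :=
  ∃ (P₁ : UltraPow U N₁) (P₂ : UltraPow U N₂) (Q₁ : UltraPow U M₁) (Q₂ : UltraPow U M₂)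
    (C : TensorProd P₁.alg P₂.alg) (D : TensorProd Q₁.alg Q₂.alg), StarIso C.alg D.alg

/-- `N` and `M` are elementarily equivalent: for some ultrafilters `U`, `V` (on some index sets) the
tracial ultrapowers `N^U` and `M^V` are isomorphic star algebras. -/
def Equivalent (N M : SepFactor) : Prop := ElemEquiv.{w} N.tr M.tr

end Pool.Agent.Helper436.AD.TU
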