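import Mathlib
import Pool.Agent.Helper436.AD.Fin
import Pool.Agent.Helper436.AD.StmtU

set_option autoImplicit false
set_option linter.unusedSectionVars false

open scoped TensorProduct InnerProductSpace

namespace Pool.Agent.Helper436.AD.TU

open Pool.Agent.Helper278 Pool.Agent.Helper436.SM Pool.Agent.Helper436.SN Pool.Agent.Helper436.AD

universe w

section

variable (H K : Type) [NormedAddCommGroup H] [InnerProductSpace ℂ H] [NormedAddCommGroup K]
  [InnerProductSpace ℂ K]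

/-- the completion of the algebraic tensor product is a Hilbert space tensor product -/
theorem isHilbertTensor_std : IsHilbertTensor (fun (h : H) (k : K) =>
    ((h ⊗ₜ[ℂ] k : H ⊗[ℂ] K) : UniformSpace.Completion (H ⊗[ℂ] K))) := by
  refine ⟨?_, ?_, ?_, ?_, ?_, ?_⟩
  · intro h h' k
    rw [TensorProduct.add_tmul, UniformSpace.Completion.coe_add]
  · intro h k k'
    rw [TensorProduct.tmul_add, UniformSpace.Completion.coe_add]
  · intro c h k
    rw [← UniformSpace.Completion.coe_smul, TensorProduct.smul_tmul']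
  · intro c h k
    rw [← UniformSpace.Completion.coe_smul, TensorProduct.tmul_smul]
  · intro h h' k k'
    rw [UniformSpace.Completion.inner_coe, TensorProduct.inner_tmul]
  · have h1 : Set.range (fun v : H ⊗[ℂ] K => (v : UniformSpace.Completion (H ⊗[ℂ] K))) ⊆
        (Submodule.span ℂ {v : UniformSpace.Completion (H ⊗[ℂ] K) |
          ∃ (h : H) (k : K), v = ((h ⊗ₜ[ℂ] k : H ⊗[ℂ] K) : UniformSpace.Completion (H ⊗[ℂ] K))} :
          Set (UniformSpace.Completion (H ⊗[ℂ] K))) := by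
      rintro _ ⟨v, rfl⟩
      induction v using TensorProduct.induction_on with
      | zero =>
        show ((0 : H ⊗[ℂ] K) : UniformSpace.Completion (H ⊗[ℂ] K)) ∈ Submodule.span ℂ _
        rw [UniformSpace.Completion.coe_zero]
        exact Submodule.zero_mem _
      | tmul h k => exact Submodule.subset_span ⟨h, k, rfl⟩
      | add x y hx hy =>
        show ((x + y : H ⊗[ℂ] K) : UniformSpace.Completion (H ⊗[ℂ] K)) ∈ Submodule.span ℂ _
        rw [UniformSpace.Completion.coe_add]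
        exact Submodule.add_mem _ hx hy
    exact UniformSpace.Completion.denseRange_coe.mono h1

end

/-- the standard model of the tensor product -/
noncomputable def stdTensor {H K : Type} [NormedAddCommGroup H] [InnerProductSpace ℂ H]
    [CompleteSpace H] [NormedAddCommGroup K] [InnerProductSpace ℂ K] [CompleteSpace K]
    (N : VonNeumannAlgebra H) (M : VonNeumannAlgebra K) : TensorProd N M :=
  { L := UniformSpace.Completion (H ⊗[ℂ] K)
    t := fun h k => ((h ⊗ₜ[ℂ] k : H ⊗[ℂ] K) : UniformSpace.Completion (H ⊗[ℂ] K))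
    alg := tensorVN N M
    isTensorProduct := ⟨isHilbertTensor_std H K, rfl⟩ }

theorem final :
    ∃ N₁ N₂ M₁ M₂ : SepFactor,
      (∀ U : Ultrafilter ℕ, (∀ n, {n} ∉ U) → TensorIso U N₁ N₂ M₁ M₂) ∧
        ¬ (Equivalent.{w} N₁ M₁ ∧ Equivalent.{w} N₂ M₂) ∧
          ¬ (Equivalent.{w} N₁ M₂ ∧ Equivalent.{w} N₂ M₁) := by
  obtain ⟨A, _, _, _, _, φ, hB⟩ := exists_Big
  obtain ⟨K, _, _, _, P, τ, hfac, hsep, hsat, c, hc, hun⟩ := hull hB
  obtain ⟨P3, e3, he3⟩ := exists_amp 3 P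
  obtain ⟨P9, e9, he9⟩ := exists_amp 3 P3
  have hfac3 := amp_factor (by norm_num) hfac he3
  have hsep3 := amp_separable (by norm_num) hfac hsep he3
  have hfac9 := amp_factor (by norm_num) hfac3 he9
  have hsep9 := amp_separable (by norm_num) hfac3 hsep3 he9
  have key : ¬ ElemEquiv.{w} τ (ampTr e3 τ) := by
    intro hE
    have h1 : Sat (fFF (10 ^ 8)) (ampTr e3 τ) c :=
      Sat.elem hfac hfac3 hE (fFF (10 ^ 8)) (half_lt_self hc) (hsat (c / 2) (half_pos hc))
    apply hun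
    exact Sat.iso (φ := ampTr e3 τ) (ψ := mtr 3 τ) e3.symm (fun x => rfl) h1
  refine ⟨⟨K, P, τ, hfac, hsep⟩, ⟨_, P9, ampTr e9 (ampTr e3 τ), hfac9, hsep9⟩,
    ⟨_, P3, ampTr e3 τ, hfac3, hsep3⟩, ⟨_, P3, ampTr e3 τ, hfac3, hsep3⟩, ?_, fun h => key h.1,
    fun h => key h.1⟩
  intro U hU
  obtain ⟨L, _, _, _, Q, π, ψ, hπ⟩ := exists_ultra_vn hfac U hU
  obtain ⟨Q3, f3, hf3⟩ := exists_amp 3 Q
  obtain ⟨Q9, f9, hf9⟩ := exists_amp 3 Q3
  have hπ3 := amp_ultra (by norm_num) hfac he3 hπ hf3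
  have hπ9 := amp_ultra (by norm_num) hfac3 he9 hπ3 hf9
  obtain ⟨E⟩ := tensor_shift 3 Q Q3 hf3 hf9
  exact ⟨⟨L, Q, π, ψ, hπ⟩, ⟨_, Q9, _, _, hπ9⟩, ⟨_, Q3, _, _, hπ3⟩, ⟨_, Q3, _, _, hπ3⟩,
    stdTensor Q Q9, stdTensor Q3 Q3, ⟨E.symm⟩⟩

end Pool.Agent.Helper436.AD.TU
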